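import Pool.Agent.H83.OWN.Nrc
import Pool.Agent.H91.FR.Hts

/-!
# The record of the ball does not see a family behind its natural digits

`ipr_ae`: for a relative two-parameter family, in the boxes of almost every point and on all large
parts of an event, the digits of the family between the balls `j` and `l` have `θ j l` bits both
given the record at the base `w` and given the record at the ball `j`.
-/

set_option autoImplicit false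

namespace Pool.PRC54

open Finset Real
open Pool.Agent.H49.Ent Pool.Agent.H32.Dense Pool.STK Pool.KA Pool.KSAT Pool.K2S Pool.PB Pool.S6C
  Pool.GEN Pool.RCD Pool.LA91 Pool.OWN83

variable {m : ℕ} {U₀ U U' : Type} {α β γ' : ∀ J : ℕ, Fam m J → Type}
  {f : ∀ (J : ℕ) (F : Fam m J), F.Ω → α J F} {g : ∀ (J : ℕ) (F : Fam m J), F.Ω → β J F}
  {y : ∀ (J : ℕ) (F : Fam m J), F.Ω → γ' J F} {S : PCl m}

/-- The number of an equivalent quantity. -/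
theorem nn_map
    (hpos : ∀ (τ : ℝ) (J : ℕ) (F : Fam m J) (A : F.Ω → Prop), S.St τ J F A → 0 < Pe F.p A)
    {Q : Qt m U} {Q' : Qt m U'} {θ : ℝ} (φ : U' → U) (hφ : Function.Injective φ)
    (hQ : ∀ (K : ℕ) (e : ℝ) (J : ℕ) (F : Fam m J) (A : F.Ω → Prop) (u : F.Ω → U'),
      Q'.P K e J F A u → Q.P K e J F A (fun ω => φ (u ω)))
    (h : NN S f g y Q θ) : NN S f g y Q' θ := by
  intro x hx
  obtain ⟨k, hk, e₀, he₀, H⟩ := h x hx
  refine ⟨k, hk, e₀, he₀, fun K => Bas.mono 0 ((H K).and (pos_bas hpos)) ?_⟩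
  rintro J - F A ⟨H, hA⟩ V z hz u hu
  have h1 := H V z hz _ (hQ _ _ _ _ _ _ hu)
  have h2 : CH (Pool.Agent.H49.Ent.cond F.p A True) (fun ω => φ (u ω))
      (fun ω => (z ω, y J F ω)) =
      CH (Pool.Agent.H49.Ent.cond F.p A True) u (fun ω => (z ω, y J F ω)) := by
    refine CH_congr (isLaw_cond F.isLaw hA).nonneg ?_ ?_ (fun _ _ _ _ hh => hh)
      (fun _ _ _ _ hh => hh)
    · intro ω ω' _ _ hh
      exact hφ (Prod.ext_iff.mp hh).1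
    · intro ω ω' _ _ hh
      exact congrArg φ (Prod.ext_iff.mp hh).1
  rw [← h2]
  exact h1

/-- No family. -/
theorem rel_tQt
    (hpos : ∀ (τ : ℝ) (J : ℕ) (F : Fam m J) (A : F.Ω → Prop), S.St τ J F A → 0 < Pe F.p A)
    {s : ℝ} {Q₀ : Qt m U₀} {Q : ℚ → ℚ → Qt m U} {A B lam : ℝ}
    (h : TwoRelS S f y s (fun _ => Q₀) Q A B lam) :
    TwoRelS S f y s (fun _ => Q₀) (fun _ _ => tQt m) A B lam where
  exs₀ := h.exs₀
  exs _ _ _ _ _ _ := exs_tQt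
  tr := h.tr
  row _ _ _ _ _ _ _ _ := Few0.few hpos (few0_tQt hpos)
  chg _ _ _ _ _ _ _ _ := Few0.few hpos (few0_tQt hpos)
  own _ _ _ _ _ _ := Few0.few hpos (few0_tQt hpos)

/-- **The record of the ball does not see the family** behind its natural digits: the conclusion at
the windows of a box. -/
def IprI (S : PCl m) (f : ∀ (J : ℕ) (F : Fam m J), F.Ω → α J F)
    (y : ∀ (J : ℕ) (F : Fam m J), F.Ω → γ' J F) (s : ℝ) (Q₀ : Qt m U₀) (Q : ℚ → ℚ → Qt m U)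
    (θ : ℚ → ℚ → ℝ) (g : ℝ) : Prop :=
  ∀ e : ℝ, 0 < e → ∃ r₀ : ℝ, 0 < r₀ ∧ ∀ r : ℝ, 0 < r → r < r₀ →
    ∀ w j l : ℚ, g - r ≤ w → w ≤ j → j < l → (l : ℝ) ≤ g + r →
    ∀ c₀ : ℝ, 0 < c₀ → ∃ k : ℝ, 0 < k ∧ ∃ e₀ : ℝ, 0 < e₀ ∧ ∀ K : ℕ, Bas S (fun J F A' =>
    ∀ (V₁ V₂ : Type) (z : F.Ω → V₁) (zj : F.Ω → V₂), Mx f (vg ((w : ℝ) + s)) k F A' z →
    Mx f (vg ((j : ℝ) + s)) k F A' zj → ∀ u₀ a b, Q₀.P K e₀ J F A' u₀ →
    (Q w j).P K e₀ J F A' a → (Q w l).P K e₀ J F A' b →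
    ∀ B' : F.Ω → Prop, Sub B' A' → c₀ * Pe F.p A' ≤ Pe F.p B' →
    CH (Pool.Agent.H49.Ent.cond F.p B' True) b
        (fun ω => (a ω, (z ω, (u₀ ω, y J F ω)))) ≤ (θ j l + e * r) * J ∧
    (θ j l - e * r) * J ≤ CH (Pool.Agent.H49.Ent.cond F.p B' True) b
        (fun ω => (a ω, (zj ω, (z ω, (u₀ ω, y J F ω))))))

/-- Passage to a subclass. -/
theorem IprI.sub {S' : PCl m} (hs : ∀ (τ : ℝ) (J : ℕ) (F : Fam m J) (A : F.Ω → Prop),
    S'.St τ J F A → S.St τ J F A) {s : ℝ} {Q₀ : Qt m U₀} {Q : ℚ → ℚ → Qt m U} {θ : ℚ → ℚ → ℝ}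
    {g : ℝ} (h : IprI S f y s Q₀ Q θ g) : IprI S' f y s Q₀ Q θ g := by
  intro e he
  obtain ⟨r₀, hr₀, H⟩ := h e he
  refine ⟨r₀, hr₀, fun r hr hrr w j l h1 h2 h3 h4 c₀ hc₀ => ?_⟩
  obtain ⟨k, hk, e₀, he₀, H⟩ := H r hr hrr w j l h1 h2 h3 h4 c₀ hc₀
  exact ⟨k, hk, e₀, he₀, fun K => (H K).sub hs⟩

open Set MeasureTheory in
/-- **The record of the ball does not see a family behind its natural digits**, in the boxes of
almost every point and on all large parts of an event. -/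
theorem ipr_ae (hS : S.Ne)
    (hpos : ∀ (τ : ℝ) (J : ℕ) (F : Fam m J) (A : F.Ω → Prop), S.St τ J F A → 0 < Pe F.p A)
    {s A B lam : ℝ} (hB1 : B + s ≤ 1) (hlam : 0 < lam)
    (hη : ∀ w : ℚ, A < w → (w : ℝ) < B → ∃ η, RNum S f (vg ((w : ℝ) + s)) η)
    {Q₀ : Qt m U₀} {Q : ℚ → ℚ → Qt m U}
    (hQ : TwoRelS S f y s (fun _ => Q₀) Q A B lam)
    {θ₀ : ℚ → ℝ} {θ : ℚ → ℚ → ℝ} (hθ : TRelS S f y s (fun _ => Q₀) Q A B lam θ₀ θ) :
    ∀ᵐ g : ℝ, g ∈ Ioo A B → IprI S f y s Q₀ Q θ g := by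
  have hD := rel_tQt hpos hQ
  have nD : TRelS S f y s (fun _ => Q₀) (fun _ _ => tQt m) A B lam θ₀ (fun _ _ => 0) := by
    refine ⟨hθ.n₀, fun w o a b c d => ?_⟩
    have b' : (w : ℝ) ≤ o := by exact_mod_cast b
    rw [add_zero]
    refine nn_map hpos (Prod.fst : U₀ × Unit → U₀) ?_ (fun K e J F A u hu => hu.1)
      (hθ.n₀ w a (by linarith))
    rintro ⟨x, _⟩ ⟨x', _⟩ h
    exact Prod.ext h rfl
  have nJ : TRelS S f y s (fun _ => Q₀) (fun w o => (Q w o).prod (tQt m)) A B lam θ₀ θ := by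
    refine ⟨hθ.n₀, fun w o a b c d => ?_⟩
    refine nn_map hpos (fun x : U₀ × (U × Unit) => (x.1, x.2.1)) ?_
      (fun K e J F A u hu => Qt.prod_mk (Q₁ := Q₀) (Q₂ := Q w o) hu.1 hu.2.1) (hθ.n w o a b c d)
    rintro ⟨x, x₂, _⟩ ⟨x', x₂', _⟩ h
    simp only [Prod.mk.injEq] at h
    exact Prod.ext h.1 (Prod.ext h.2 rfl)
  filter_upwards [near_rel hS hpos hB1 hlam hη hQ hD nJ nD] with g hg hgAB e he
  obtain ⟨r₀, hr₀, H⟩ := hg hgAB e he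
  refine ⟨r₀, hr₀, fun r hr hrr w j l h1 h2 h3 h4 c₀ hc₀ => ?_⟩
  obtain ⟨k, hk, e₀, he₀, H⟩ := H r hr hrr w j l l h1 h2 h3 le_rfl h4 c₀ hc₀
  refine ⟨k, hk, e₀, he₀, fun K => Bas.mono 0 ((H K).and (pos_bas hpos)) ?_⟩
  rintro J - F A' ⟨H, hA'⟩ V₁ V₂ z zj hz hzj u₀ a b hu₀ ha hb B' hB' hBA
  obtain ⟨q1, q2⟩ := H V₁ V₂ z zj hz hzj u₀ a b (fun _ => ()) hu₀ ha hb (fun _ _ => rfl) B' hB' hBA
  have hBp : 0 < Pe F.p B' := lt_of_lt_of_le (mul_pos hc₀ hA') hBA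
  have hcl := isLaw_cond F.isLaw hBp
  rw [sub_zero] at q1 q2
  constructor
  · refine le_trans (CH_mono_cond hcl.nonneg fun ω ω' _ _ hh => ?_) q1
    simp only [Prod.mk.injEq] at hh ⊢
    tauto
  · refine le_trans q2 (CH_mono_cond hcl.nonneg fun ω ω' _ _ hh => ?_)
    simp only [Prod.mk.injEq] at hh ⊢
    tauto

end Pool.PRC54
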