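import Pool.Agent.H54.PRC.Urb
import Pool.Agent.H54.PRC.Ipr
import Pool.Agent.H60.ALT.Lin
import Pool.Agent.H96.AVG.Gch

/-!
# The rate of the own velocity at almost every point

`UrG`: a place over a base at the windows of a closed set `G`. `uri_near`: `UrI` in a small interval.
`UrAt`: the numbers of the own velocity in a box. `ur_cls`: `UrAt` at almost every point, in one
subclass, for countably many parameters.
-/

set_option autoImplicit false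

namespace Pool.PRC54

open Finset Real MvPolynomial
open Pool.Agent.H49.Ent Pool.Agent.H32.Dense Pool.STK Pool.KA Pool.KSAT Pool.K2S Pool.PB Pool.GEN
open Pool.S6C Pool.RCD Pool.LA91
open Pool.OWN83 Pool.AVG96

variable {m : ℕ}

/-- **A place over a base** at the windows of `G`: `Lb` is the level of the base, `Lu` the level of
the place. -/
structure UrG (S : PCl m) (I : Finset (Fin m)) (κ : Fin m) (G : Set ℝ) (Lu Lb : ℝ → ℝ) : Prop where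
  w0 : ∀ w ∈ G, 0 ≤ w
  ful : ∀ w ∈ G, ∀ x : ℝ, Lb w ≤ x → Ful S I w x
  att : ∀ w ∈ G, ∃ rk : ℝ, 0 ≤ rk ∧ Att S I κ w (Lu w) rk
  lb : ∀ w ∈ G, w ≤ Lb w ∧ Lb w < 1
  slp : ∀ v ∈ G, ∀ o ∈ G, v ≤ o → Lu v - v ≤ Lu o - o

theorem UrG.sub {S S' : PCl m} (hs : ∀ (τ : ℝ) (J : ℕ) (F : Fam m J) (A : F.Ω → Prop),
    S'.St τ J F A → S.St τ J F A) {I : Finset (Fin m)} {κ : Fin m} {G : Set ℝ} {Lu Lb : ℝ → ℝ}
    (h : UrG S I κ G Lu Lb) : UrG S' I κ G Lu Lb where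
  w0 := h.w0
  ful := fun w hw x hx => (h.ful w hw x hx).sub hs
  att := fun w hw => by
    obtain ⟨rk, h1, h2⟩ := h.att w hw
    exact ⟨rk, h1, h2.sub hs⟩
  lb := h.lb
  slp := h.slp

/-- The condition. -/
noncomputable def yQ (I : Finset (Fin m)) (p₀ lam : ℝ) (J : ℕ) (F : Fam m J) (ω : F.Ω) :
    ℕ × (Fin m → ℤ) × (Fin m → ℤ) := yI I ⌊p₀ * J⌋₊ ⌊lam * J⌋₊ F ω

theorem kn_yQ (I : Finset (Fin m)) (p₀ lam : ℝ) : Kn I p₀ lam (yQ (m := m) I p₀ lam) :=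
  fun _ _ => ⟨fun x => x, fun _ => rfl⟩

/-- **The small gaps** at a point. -/
def GapAt (G : Set ℝ) (g : ℝ) : Prop :=
  ∀ η : ℝ, 0 < η → ∃ ρ : ℝ, 0 < ρ ∧ ∀ t : ℝ, 0 < t → t < ρ → ∀ x : ℝ, g - t ≤ x → x ≤ g + t →
    ∃ u ∈ G, x - η * t ≤ u ∧ u ≤ x

/-- **`UrI` in a small interval.** -/
theorem uri_near {S : PCl m} (hS : S.Ne)
    (hpos : ∀ (τ : ℝ) (J : ℕ) (F : Fam m J) (A : F.Ω → Prop), S.St τ J F A → 0 < Pe F.p A)
    {C₀ : ℝ} (htm : TmC S C₀) {η : ℚ → ℝ}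
    (hη : ∀ w : ℚ, RNum S (fun J F => ptr F J) (vg (w : ℝ)) (η w))
    {I : Finset (Fin m)} {κ : Fin m} {G : Set ℝ} {Lu Lb : ℝ → ℝ} (h : UrG S I κ G Lu Lb)
    (hG : IsClosed G) {g : ℝ} (hg1 : g < 1) (hgap : GapAt G g)
    (hcu : ContinuousAt Lu g) (hcb : ContinuousAt Lb g) {p₀ lam : ℝ}
    (hp : 2 * Lb g - g < p₀) (hl : Lb g - g < lam) :
    ∃ A B : ℚ, (A : ℝ) < g ∧ g < B ∧ UrI S (fun J F => ptr F J) (yQ I p₀ lam) I κ 0 A B p₀ lam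
      (fun q => fl G 0 q) (fun q => Lu (fl G 0 q)) (fun q => Lb (fl G 0 q)) := by
  obtain ⟨σ, hσ⟩ : ∃ σ : ℝ, σ = min (lam - (Lb g - g)) (p₀ - (2 * Lb g - g)) := ⟨_, rfl⟩
  have hσ0 : 0 < σ := by rw [hσ]; exact lt_min (by linarith) (by linarith)
  have hσ1 : σ ≤ lam - (Lb g - g) := by rw [hσ]; exact min_le_left _ _
  have hσ2 : σ ≤ p₀ - (2 * Lb g - g) := by rw [hσ]; exact min_le_right _ _
  obtain ⟨ρ₁, hρ₁, h1⟩ := Metric.continuousAt_iff.1 hcu (σ / 16) (by positivity)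
  obtain ⟨ρ₂, hρ₂, h2⟩ := Metric.continuousAt_iff.1 hcb (σ / 16) (by positivity)
  obtain ⟨ρ₃, hρ₃, h3⟩ := hgap 1 one_pos
  obtain ⟨t, ht⟩ : ∃ t : ℝ, t = min (min ρ₁ ρ₂) (min (min ρ₃ (σ / 16)) (1 - g)) / 4 := ⟨_, rfl⟩
  have hm : 0 < min (min ρ₁ ρ₂) (min (min ρ₃ (σ / 16)) (1 - g)) :=
    lt_min (lt_min hρ₁ hρ₂) (lt_min (lt_min hρ₃ (by positivity)) (by linarith))
  have ht0 : 0 < t := by rw [ht]; positivity
  have t1 : 4 * t ≤ ρ₁ := by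
    have := (min_le_left (min ρ₁ ρ₂) (min (min ρ₃ (σ / 16)) (1 - g))).trans (min_le_left _ _)
    rw [ht]; linarith
  have t2 : 4 * t ≤ ρ₂ := by
    have := (min_le_left (min ρ₁ ρ₂) (min (min ρ₃ (σ / 16)) (1 - g))).trans (min_le_right _ _)
    rw [ht]; linarith
  have t3 : 4 * t ≤ ρ₃ := by
    have := (min_le_right (min ρ₁ ρ₂) (min (min ρ₃ (σ / 16)) (1 - g))).trans
      ((min_le_left _ _).trans (min_le_left _ _))
    rw [ht]; linarith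
  have t4 : 4 * t ≤ σ / 16 := by
    have := (min_le_right (min ρ₁ ρ₂) (min (min ρ₃ (σ / 16)) (1 - g))).trans
      ((min_le_left _ _).trans (min_le_right _ _))
    rw [ht]; linarith
  have t5 : 4 * t ≤ 1 - g := by
    have := (min_le_right (min ρ₁ ρ₂) (min (min ρ₃ (σ / 16)) (1 - g))).trans (min_le_right _ _)
    rw [ht]; linarith
  obtain ⟨A, hA1, hA2⟩ := exists_rat_btwn (show g - t < g by linarith)
  obtain ⟨B, hB1, hB2⟩ := exists_rat_btwn (show g < g + t by linarith)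
  -- the window below
  have hne : ∀ q : ℚ, (A : ℝ) < q → (q : ℝ) < B → (G ∩ Set.Icc 0 (q : ℝ)).Nonempty ∧
      g - 2 * t ≤ fl G 0 q := by
    intro q a b
    obtain ⟨u, hu, u1, u2⟩ := h3 t ht0 (by linarith) q (by linarith) (by linarith)
    rw [one_mul] at u1
    have h4 := h.w0 u hu
    refine ⟨⟨u, hu, h4, u2⟩, ?_⟩
    have h5 := le_fl (A := 0) hu h4 u2
    linarith
  have hfl : ∀ q : ℚ, (A : ℝ) < q → (q : ℝ) < B → fl G 0 q ∈ G ∧ fl G 0 q ≤ q ∧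
      |Lu (fl G 0 q) - Lu g| < σ / 16 ∧ |Lb (fl G 0 q) - Lb g| < σ / 16 ∧
      |fl G 0 q - g| < σ / 16 := by
    intro q a b
    obtain ⟨k1, k2⟩ := hne q a b
    obtain ⟨k3, k4, k5⟩ := fl_mem hG k1
    have k6 : |fl G 0 (q : ℝ) - g| ≤ 2 * t := by
      rw [abs_le]
      constructor <;> linarith
    refine ⟨k3, k5, ?_, ?_, by linarith⟩
    · have := h1 (x := fl G 0 q) (by rw [Real.dist_eq]; linarith)
      rwa [Real.dist_eq] at this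
    · have := h2 (x := fl G 0 q) (by rw [Real.dist_eq]; linarith)
      rwa [Real.dist_eq] at this
  refine ⟨A, B, hA2, hB1, ⟨hS, hpos, ⟨C₀, htm⟩, fun w _ _ => ⟨η w, by rw [add_zero]; exact hη w⟩,
    fun w a b x hx _ => h.ful _ (hfl w a b).1 x hx.le, fun w a b => h.att _ (hfl w a b).1,
    fun J F => ⟨fun x => x, fun _ => rfl⟩, kn_yQ I p₀ lam, fun v o a b c => ?_, fun v a b => ?_,
    fun v a b => ?_, fun v o a b c => ?_, by linarith, σ / 2, by positivity,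
    fun w v o a b c d => ?_⟩⟩
  · have b' : (v : ℝ) ≤ o := by exact_mod_cast b
    exact fl_mono (hne v a (by linarith)).1 b'
  · rw [add_zero]
    exact ⟨h.w0 _ (hfl v a b).1, (hfl v a b).2.1⟩
  · obtain ⟨k1, k2, k3, k4, k5⟩ := hfl v a b
    obtain ⟨l1, l2⟩ := h.lb _ k1
    refine ⟨l1, l2, ?_⟩
    have e4 := abs_lt.1 k4
    obtain ⟨l3, -⟩ := h.lb _ k1
    have e5 := abs_lt.1 k5
    linarith [e4.1, e4.2, e5.1, e5.2]
  · have b' : (v : ℝ) ≤ o := by exact_mod_cast b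
    exact h.slp _ (hfl v a (by linarith)).1 _ (hfl o (by linarith) c).1
      (fl_mono (hne v a (by linarith)).1 b')
  · have b' : (w : ℝ) ≤ v := by exact_mod_cast b
    have c' : (v : ℝ) ≤ o := by exact_mod_cast c
    obtain ⟨-, -, w3, -, -⟩ := hfl w a (by linarith)
    obtain ⟨-, -, -, v4, -⟩ := hfl v (by linarith) (by linarith)
    obtain ⟨-, -, o3, -, o5⟩ := hfl o (by linarith) d
    have e3 := abs_lt.1 w3
    have e4 := abs_lt.1 v4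
    have e5 := abs_lt.1 o3
    have e6 := abs_lt.1 o5
    rcases min_choice lam (p₀ - Lb (fl G 0 (v : ℝ))) with e | e
    · rw [e]
      linarith [e3.1, e4.1, e4.2, e5.1, e5.2, e6.1]
    · rw [e]
      linarith [e3.1, e4.1, e4.2, e5.1, e5.2, e6.1]

/-- **The numbers of the own velocity** in the box of radius `r` about `x`, for the rate `φ`. -/
def UrAt (S : PCl m) (I : Finset (Fin m)) (κ : Fin m) (p₀ lam : ℝ) (wh sc : ℚ → ℝ)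
    (φ e x r : ℝ) : Prop :=
  ∀ w j l : ℚ, x - r ≤ w → w ≤ j → j < l → (l : ℝ) ≤ x + r → ∀ c₀ : ℝ, 0 < c₀ →
    ∃ k : ℝ, 0 < k ∧ ∃ e₀ : ℝ, 0 < e₀ ∧ ∀ K : ℕ, Bas S (fun J F A' =>
    ∀ (V₁ V₂ : Type) (z : F.Ω → V₁) (zj : F.Ω → V₂), Mx (fun J F => ptr F J) (vg (w : ℝ)) k F A' z →
    Mx (fun J F => ptr F J) (vg (j : ℝ)) k F A' zj → ∀ a b,
    (famU m I κ wh sc w j).P K e₀ J F A' a → (famU m I κ wh sc w l).P K e₀ J F A' b →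
    ∀ B' : F.Ω → Prop, Sub B' A' → c₀ * Pe F.p A' ≤ Pe F.p B' →
    CH (Pool.Agent.H49.Ent.cond F.p B' True) b
        (fun ω => (a ω, (z ω, yQ I p₀ lam J F ω))) ≤ (φ * (l - j) + e * r) * J ∧
    (φ * (l - j) - e * r) * J ≤ CH (Pool.Agent.H49.Ent.cond F.p B' True) b
        (fun ω => (a ω, (zj ω, (z ω, yQ I p₀ lam J F ω)))))

theorem UrAt.sub {S S' : PCl m} (hs : ∀ (τ : ℝ) (J : ℕ) (F : Fam m J) (A : F.Ω → Prop),
    S'.St τ J F A → S.St τ J F A) {I : Finset (Fin m)} {κ : Fin m} {p₀ lam : ℝ} {wh sc : ℚ → ℝ}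
    {φ e x r : ℝ} (h : UrAt S I κ p₀ lam wh sc φ e x r) : UrAt S' I κ p₀ lam wh sc φ e x r := by
  intro w j l h1 h2 h3 h4 c₀ hc₀
  obtain ⟨k, hk, e₀, he₀, H⟩ := h w j l h1 h2 h3 h4 c₀ hc₀
  exact ⟨k, hk, e₀, he₀, fun K => (H K).sub hs⟩

/-- `UrAt` from the property of one family. -/
theorem urat_of {S : PCl m}
    (hpos : ∀ (τ : ℝ) (J : ℕ) (F : Fam m J) (A : F.Ω → Prop), S.St τ J F A → 0 < Pe F.p A)
    {I : Finset (Fin m)} {κ : Fin m} {p₀ lam : ℝ} {wh sc : ℚ → ℝ} {θ : ℚ → ℚ → ℝ} {φ x : ℝ}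
    (h1 : IprI S (fun J F => ptr F J) (yQ I p₀ lam) 0 (tQt m) (famU m I κ wh sc) θ x)
    (h2 : ∀ e : ℝ, 0 < e → ∃ r₀ : ℝ, 0 < r₀ ∧ ∀ r : ℝ, 0 < r → r < r₀ → ∀ w o : ℚ, x - r ≤ w →
      w ≤ o → (o : ℝ) ≤ x + r → |θ w o - φ * (o - w)| ≤ e * r) {e : ℝ} (he : 0 < e) :
    ∃ r₀ : ℝ, 0 < r₀ ∧ ∀ r : ℝ, 0 < r → r < r₀ → UrAt S I κ p₀ lam wh sc φ e x r := by
  obtain ⟨r₁, hr₁, H₁⟩ := h1 (e / 2) (by positivity)
  obtain ⟨r₂, hr₂, H₂⟩ := h2 (e / 2) (by positivity)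
  refine ⟨min r₁ r₂, lt_min hr₁ hr₂, fun r hr hrr w j l a1 a2 a3 a4 c₀ hc₀ => ?_⟩
  obtain ⟨k, hk, e₀, he₀, H⟩ := H₁ r hr (hrr.trans_le (min_le_left _ _)) w j l a1 a2 a3 a4 c₀ hc₀
  have a2' : (w : ℝ) ≤ j := by exact_mod_cast a2
  have h3 := abs_le.1 (H₂ r hr (hrr.trans_le (min_le_right _ _)) j l (by linarith) a3.le a4)
  refine ⟨k, hk, e₀, he₀, fun K => Bas.mono 0 ((H K).and (pos_bas hpos)) ?_⟩
  rintro J - F A' ⟨H, hA'⟩ V₁ V₂ z zj hz hzj a b ha hb B' hB' hBA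
  have hJ0 : (0 : ℝ) ≤ J := Nat.cast_nonneg J
  have hBp : 0 < Pe F.p B' := lt_of_lt_of_le (mul_pos hc₀ hA') hBA
  have hcl := isLaw_cond F.isLaw hBp
  obtain ⟨q1, q2⟩ := H V₁ V₂ z zj (by rw [add_zero]; exact hz) (by rw [add_zero]; exact hzj)
    (fun _ => ()) a b (fun _ _ => rfl) ha hb B' hB' hBA
  constructor
  · refine le_trans (CH_mono_cond hcl.nonneg fun ω ω' _ _ hh => ?_) (q1.trans
      (mul_le_mul_of_nonneg_right ?_ hJ0))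
    · simp only [Prod.mk.injEq] at hh ⊢
      tauto
    · linarith [h3.1, h3.2]
  · refine le_trans ?_ (q2.trans (CH_mono_cond hcl.nonneg fun ω ω' _ _ hh => ?_))
    · refine mul_le_mul_of_nonneg_right ?_ hJ0
      linarith [h3.1, h3.2]
    · simp only [Prod.mk.injEq] at hh ⊢
      tauto

/-- **One family**: the rate at almost every point. -/
theorem ur_one {S : PCl m} {I : Finset (Fin m)} {κ : Fin m} {p₀ lam A B : ℝ} {wh sc u : ℚ → ℝ}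
    (hU : UrI S (fun J F => ptr F J) (yQ I p₀ lam) I κ 0 A B p₀ lam wh sc u) (hAB : A < B)
    {θ₀ : ℚ → ℝ} {θ : ℚ → ℚ → ℝ}
    (hθ : TRelS S (fun J F => ptr F J) (yQ I p₀ lam) 0 (fun _ => tQt m) (famU m I κ wh sc) A B
      (B - A) θ₀ θ) :
    ∀ᵐ g : ℝ, g ∈ Set.Ioo A B → ∃ φ : ℝ, 0 ≤ φ ∧ ∀ e : ℝ, 0 < e → ∃ r₀ : ℝ, 0 < r₀ ∧
      ∀ r : ℝ, 0 < r → r < r₀ → UrAt S I κ p₀ lam wh sc φ e g r := by
  have hQ := rel_ur hU (Q₀ := tQt m) exs_tQt fun v a b => Few0.few hU.pos (few0_tQt hU.pos)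
  have hl : 0 < B - A := by linarith
  obtain ⟨h0, h2⟩ := hθ.super hU.ne hU.pos hU.B1 hU.rn hQ
  filter_upwards [ipr_ae hU.ne hU.pos hU.B1 hl hU.rn hQ hθ,
    Pool.ALT.lin_ae (θ := θ) (A := A) (B := B) (fun w o a b c => h0 w o a b c (by linarith))
      (fun w v o a b c d => h2 w v o a b c d (by linarith))] with g h3 h4 hg
  obtain ⟨φ, hφ, h5⟩ := h4 hg
  exact ⟨φ, hφ, fun e he => urat_of hU.pos (h3 hg) h5 he⟩

/-- **One subclass** for countably many parameters. -/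
theorem ur_cls {ι : Type} [Countable ι] {S : PCl m} (hS : S.Ne)
    (hpos : ∀ (τ : ℝ) (J : ℕ) (F : Fam m J) (A : F.Ω → Prop), S.St τ J F A → 0 < Pe F.p A)
    (I : ι → Finset (Fin m)) (κ : ι → Fin m) (p₀ lam : ι → ℝ) (wh sc u : ι → ℚ → ℝ) :
    ∃ S' : PCl m, S'.Ne ∧
      (∀ (τ : ℝ) (J : ℕ) (F : Fam m J) (A : F.Ω → Prop), S'.St τ J F A → S.St τ J F A) ∧
      ∀ᵐ g : ℝ, ∀ (i : ι) (A B : ℚ), (A : ℝ) < g → g < B →
        UrI S (fun J F => ptr F J) (yQ (I i) (p₀ i) (lam i)) (I i) (κ i) 0 A B (p₀ i) (lam i)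
          (wh i) (sc i) (u i) →
        ∃ φ : ℝ, 0 ≤ φ ∧ ∀ e : ℝ, 0 < e → ∃ r₀ : ℝ, 0 < r₀ ∧
          ∀ r : ℝ, 0 < r → r < r₀ → UrAt S' (I i) (κ i) (p₀ i) (lam i) (wh i) (sc i) φ e g r := by
  classical
  obtain ⟨P, hP⟩ : ∃ P : ι × ℚ × ℚ → Prop, P = fun x => x.2.1 < x.2.2 ∧
      UrI S (fun J F => ptr F J) (yQ (I x.1) (p₀ x.1) (lam x.1)) (I x.1) (κ x.1) 0 x.2.1 x.2.2
        (p₀ x.1) (lam x.1) (wh x.1) (sc x.1) (u x.1) := ⟨_, rfl⟩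
  have hPi : ∀ x : ι × ℚ × ℚ, P x ↔ (x.2.1 < x.2.2 ∧
      UrI S (fun J F => ptr F J) (yQ (I x.1) (p₀ x.1) (lam x.1)) (I x.1) (κ x.1) 0 x.2.1 x.2.2
        (p₀ x.1) (lam x.1) (wh x.1) (sc x.1) (u x.1)) := fun x => by rw [hP]
  have hPx : ∀ x : {x // P x}, (x.1.2.1 : ℚ) < x.1.2.2 ∧
      UrI S (fun J F => ptr F J) (yQ (I x.1.1) (p₀ x.1.1) (lam x.1.1)) (I x.1.1) (κ x.1.1) 0
        x.1.2.1 x.1.2.2 (p₀ x.1.1) (lam x.1.1) (wh x.1.1) (sc x.1.1) (u x.1.1) :=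
    fun x => (hPi x.1).1 x.2
  obtain ⟨S', h1, h2, h3⟩ := rel_clsS (ι := {x // P x}) (m := m) (S := S) hS hpos
    (fun _ => Unit) (fun _ => ℤ) (fun _ _ F => PtT F) (fun _ _ _ => ℕ × (Fin m → ℤ) × (Fin m → ℤ))
    (fun _ J F => ptr F J) (fun x => yQ (I x.1.1) (p₀ x.1.1) (lam x.1.1)) (fun _ => 0)
    (fun _ _ => tQt m) (fun x => famU m (I x.1.1) (κ x.1.1) (wh x.1.1) (sc x.1.1))
    (fun x => x.1.2.1) (fun x => x.1.2.2) (fun x => x.1.2.2 - x.1.2.1)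
    (fun x => rel_ur (hPx x).2 exs_tQt fun v a b => Few0.few hpos (few0_tQt hpos))
    (fun x => by
      have : (x.1.2.1 : ℝ) < x.1.2.2 := by exact_mod_cast (hPx x).1
      linarith)
  refine ⟨S', h1, h2, ?_⟩
  have key : ∀ x : {x // P x}, ∀ᵐ g : ℝ, g ∈ Set.Ioo (x.1.2.1 : ℝ) x.1.2.2 →
      ∃ φ : ℝ, 0 ≤ φ ∧ ∀ e : ℝ, 0 < e → ∃ r₀ : ℝ, 0 < r₀ ∧ ∀ r : ℝ, 0 < r → r < r₀ →
        UrAt S' (I x.1.1) (κ x.1.1) (p₀ x.1.1) (lam x.1.1) (wh x.1.1) (sc x.1.1) φ e g r := by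
    intro x
    obtain ⟨θ₀, θ, hθ⟩ := h3 x
    have hlt : (x.1.2.1 : ℝ) < x.1.2.2 := by exact_mod_cast (hPx x).1
    exact ur_one ((hPx x).2.sub h1 h2) hlt hθ
  filter_upwards [MeasureTheory.ae_all_iff.2 key] with g hg i A B hA hB hU
  have hAB : A < B := by exact_mod_cast hA.trans hB
  exact hg ⟨(i, A, B), (hPi _).2 ⟨hAB, hU⟩⟩ ⟨hA, hB⟩

end Pool.PRC54
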