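import Pool.Agent.H32.Dense.EntX

/-!
# The record of the ball does not see the velocities: law level

`ipr_law`: if the code `b` has at most `x₁` bits given `(a, c)` and at least `x₂` bits given
`(a, (d, c))`, then the deep code `D` of the line has, given the record `G`, as many bits as given
its natural digits `N` and the context `C` of the line, up to the errors.
-/

set_option autoImplicit false

namespace Pool.PRC54

open Finset Real
open Pool.Agent.H49.Ent Pool.Agent.H32.Dense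

variable {Ω 𝒢 𝒟 𝒩 𝒞 𝒲 ℬ 𝒜 𝒵 𝒴 : Type} [Fintype Ω] {p : Ω → ℝ}

/-- **The velocities given the record of the ball**, law level. -/
theorem ipr_law (hp : ∀ ω, 0 ≤ p ω) (D : Ω → 𝒟) (N : Ω → 𝒩) (C : Ω → 𝒞) (W : Ω → 𝒲)
    (b : Ω → ℬ) (a : Ω → 𝒜) (zj : Ω → 𝒵) (c : Ω → 𝒴) (G : Ω → 𝒢)
    {x₁ x₂ e₁ e₂ e₃ e₄ e₅ : ℝ}
    (h1 : CH p b (fun ω => (a ω, c ω)) ≤ x₁)
    (h2 : x₂ ≤ CH p b (fun ω => (a ω, (zj ω, c ω))))
    (k1 : CH p D (fun ω => (b ω, (N ω, (C ω, W ω)))) ≤ e₁)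
    (k2 : CH p (fun ω => (a ω, c ω)) (fun ω => (N ω, (C ω, W ω))) ≤ e₂)
    (k3 : CH p b (fun ω => (D ω, G ω)) ≤ e₃)
    (k4 : CH p G (fun ω => (a ω, (zj ω, c ω))) ≤ e₄)
    (k5 : CH p D (fun ω => (N ω, C ω)) ≤ CH p D (fun ω => (N ω, (C ω, W ω))) + e₅) :
    CH p D (fun ω => (N ω, C ω)) ≤
      CH p D G + (x₁ - x₂) + e₁ + e₂ + e₃ + e₄ + e₅ := by
  have s1 := CH_le_add hp D b (fun ω => (N ω, (C ω, W ω)))
  have s2 := CH_le_add hp b (fun ω => (a ω, c ω)) (fun ω => (N ω, (C ω, W ω)))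
  have s3 : CH p b (fun ω => ((a ω, c ω), (N ω, (C ω, W ω)))) ≤ CH p b (fun ω => (a ω, c ω)) :=
    CH_mono_cond hp fun ω ω' _ _ h => (Prod.ext_iff.mp h).1
  have s4 := CH_le_add hp b D G
  have s5 := CH_le_add hp b G (fun ω => (a ω, (zj ω, c ω)))
  have s6 : CH p b (fun ω => (G ω, (a ω, (zj ω, c ω)))) ≤ CH p b G :=
    CH_mono_cond hp fun ω ω' _ _ h => (Prod.ext_iff.mp h).1
  linarith

/-- The time, given the context and the line. -/
theorem ch_drop (hp : ∀ ω, 0 ≤ p ω) {Λ : Type} (L : Ω → Λ) (D : Ω → 𝒟) (N : Ω → 𝒩) (C : Ω → 𝒞)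
    (W : Ω → 𝒲) (hD : Det p L D) (hN : Det p L N) (hC : Det p L C) {u v : ℝ}
    (h1 : CH p W C ≤ u) (h2 : v ≤ CH p W L) :
    CH p D (fun ω => (N ω, C ω)) ≤ CH p D (fun ω => (N ω, (C ω, W ω))) + (u - v) := by
  have s1 := CH_chain hp W D (fun ω => (N ω, C ω))
  have s2 := CH_chain hp D W (fun ω => (N ω, C ω))
  have s3 : CH p (fun ω => (W ω, D ω)) (fun ω => (N ω, C ω)) =
      CH p (fun ω => (D ω, W ω)) (fun ω => (N ω, C ω)) := by
    refine CH_congr hp ?_ ?_ (fun _ _ _ _ e => e) (fun _ _ _ _ e => e)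
    · intro ω ω' _ _ e
      have e1 := (Prod.ext_iff.mp e).1
      exact Prod.ext (Prod.ext_iff.mp e1).2 (Prod.ext_iff.mp e1).1
    · intro ω ω' _ _ e
      have e1 := (Prod.ext_iff.mp e).1
      exact Prod.ext (Prod.ext_iff.mp e1).2 (Prod.ext_iff.mp e1).1
  have s4 : CH p W L ≤ CH p W (fun ω => (D ω, (N ω, C ω))) :=
    CH_mono_cond hp fun ω ω' a b e => Prod.ext (hD ω ω' a b e)
      (Prod.ext (hN ω ω' a b e) (hC ω ω' a b e))
  have s5 : CH p W (fun ω => (N ω, C ω)) ≤ CH p W C :=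
    CH_mono_cond hp fun ω ω' _ _ e => (Prod.ext_iff.mp e).2
  have s6 : CH p D (fun ω => (W ω, (N ω, C ω))) ≤ CH p D (fun ω => (N ω, (C ω, W ω))) :=
    CH_mono_cond hp fun ω ω' _ _ e => by
      simp only [Prod.mk.injEq] at e ⊢
      tauto
  linarith

end Pool.PRC54
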