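import Pool.Agent.H54.PRC.Rcs
import Pool.Agent.H46.MIC.Ev

/-!
# The direction is alive over the record

`alive_of`: on all large events the digits of the direction behind the natural digits of the ball
are alive given the record `Gg`.
-/

set_option autoImplicit false

namespace Pool.PRC54

open Finset Real MvPolynomial
open Pool.Agent.H49.Ent Pool.Agent.H32.Dense Pool.STK Pool.KA Pool.KSAT Pool.K2S Pool.PB Pool.GEN
open Pool.RCD Pool.LA91 Pool.OWN68 Pool.PR46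
open Pool.AVG96 (crs slam_crs)
open Pool.BFL (Pb)
open Pool.MIC (mi_event CH_ev_le isLaw_ev ev_pos)

variable {m J : ℕ}

theorem dg_div (F : Fam m J) {a b : ℕ} (h : a ≤ b) (κ : Fin m) (s : LnT F) :
    ⌊((dg F b κ s : ℤ) : ℝ) / 2 ^ (b - a)⌋ = dg F a κ s := by
  have e1 : (((dg F b κ s : ℤ) : ℝ) / 2 ^ (b - a)) =
      ((dg F b κ s : ℤ) : ℝ) / ((2 ^ (b - a) : ℕ) : ℝ) := by push_cast; rfl
  rw [e1, Int.floor_div_natCast, Int.floor_intCast]
  unfold dg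
  have h1 : (2 : ℝ) ^ a * s.1.2 κ = (2 ^ b * s.1.2 κ) / ((2 ^ (b - a) : ℕ) : ℝ) := by
    have : (2 : ℝ) ^ b = 2 ^ a * 2 ^ (b - a) := by
      rw [← pow_add]; congr 1; omega
    rw [this]
    push_cast
    field_simp
  rw [h1, Int.floor_div_natCast]

section

variable {F : Fam m J} {A : F.Ω → Prop} {I : Finset (Fin m)} {κ : Fin m} {Wh W a l : ℕ}
  {V Vz Vj Γ 𝒳 𝒳' : Type} {z' : LnT F → V} {G : V → MvPolynomial (Option (Fin m)) ℝ}
  {zL : LnT F → Vz} {zz : F.Ω → Vz} {y : F.Ω → Γ} {Nl Nj N' : ℝ} {zj : F.Ω → Vj}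
  {X : F.Ω → 𝒳} {XL : LnT F → 𝒳'}

/-- **The direction is alive over the record**, on one event. -/
theorem alive_of (H : WinD F A I κ Wh W a l z' G zL zz y Nl) {q : F.Ω → ℝ} (hq : IsLaw q)
    (hqA : ∀ ω, 0 < q ω → A ω) (hj0 : 0 ≤ Nj) (hj : Nj ≤ Nl) (hN' : N' ≤ Nl)
    {κz κX θ c₀ x : ℝ} (hc₀ : 0 < c₀)
    (kz : CH q (fun ω => z' (slam F Wh ω)) zz ≤ κz)
    (kX : CH q (fun ω => XL (slam F W ω)) (fun ω => (X ω, (zz ω, y ω))) ≤ κX)
    (hθ : CH q (oc F κ Wh z' G N') (fun ω => (oc F κ Wh z' G Nj ω, (zj ω, (zz ω, y ω)))) ≤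
      CH q (oc F κ Wh z' G N')
        (fun ω => (oc F κ Wh z' G Nj ω, (zj ω, (X ω, (zz ω, y ω))))) + θ)
    {E : F.Ω → Prop} (hE : c₀ ≤ Pb q E)
    (hx : x ≤ CH (cond q E True) (oc F κ Wh z' G N')
      (fun ω => (oc F κ Wh z' G Nj ω, (zj ω, (zz ω, y ω))))) :
    x - ((κz + κX + θ + Real.log 2) / c₀ + (m + 2) * Real.log 9) ≤
      CH (cond q E True) (fun ω => dg F ⌊N' * J⌋₊ κ (slam F W ω))
        (Gg F I κ Wh W a l ⌊Nj * J⌋₊ z' zL zj XL) := by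
  have hP : 0 < Pb q E := lt_of_lt_of_le hc₀ hE
  have hqE := isLaw_ev hq E hP
  have hqEA : ∀ ω, 0 < cond q E True ω → A ω := fun ω hω => hqA ω (ev_pos hq.nonneg E hω).1
  have h0 := hqE.nonneg
  have l9 : 0 ≤ Real.log 9 := Real.log_nonneg (by norm_num)
  have l79 : Real.log 7 ≤ Real.log 9 := Real.log_le_log (by norm_num) (by norm_num)
  have hm0 : (0 : ℝ) ≤ m := Nat.cast_nonneg m
  have up : ∀ {S T : Type} (Xv : F.Ω → S) (Yv : F.Ω → T) {k : ℝ}, CH q Xv Yv ≤ k →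
      CH (cond q E True) Xv Yv ≤ k / c₀ := by
    intro S T Xv Yv k hk
    rw [le_div_iff₀ hc₀]
    have h1 := CH_ev_le hq.nonneg Xv Yv E
    have h2 : CH (cond q E True) Xv Yv * c₀ ≤ Pb q E * CH (cond q E True) Xv Yv := by
      rw [mul_comm]
      exact mul_le_mul_of_nonneg_right hE (CH_nonneg h0 _ _)
    linarith
  -- the free quantity on the event
  have m1 := mi_event hq (oc F κ Wh z' G N')
    (fun ω => (oc F κ Wh z' G Nj ω, (zj ω, (zz ω, y ω))))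
    (fun ω => (oc F κ Wh z' G Nj ω, (zj ω, (X ω, (zz ω, y ω))))) (fun ω ω' _ _ e => by
      simp only [Prod.mk.injEq] at e ⊢
      exact ⟨e.1, e.2.1, e.2.2.2⟩) hθ E
  have hθ0 : 0 ≤ θ + Real.log 2 := by
    have h1 : CH q (oc F κ Wh z' G N')
        (fun ω => (oc F κ Wh z' G Nj ω, (zj ω, (X ω, (zz ω, y ω))))) ≤
        CH q (oc F κ Wh z' G N') (fun ω => (oc F κ Wh z' G Nj ω, (zj ω, (zz ω, y ω)))) :=
      CH_mono_cond hq.nonneg fun ω ω' _ _ e => by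
        simp only [Prod.mk.injEq] at e ⊢
        exact ⟨e.1, e.2.1, e.2.2.2⟩
    have h2 : (0 : ℝ) ≤ Real.log 2 := Real.log_nonneg (by norm_num)
    linarith
  have m2 : CH (cond q E True) (oc F κ Wh z' G N')
      (fun ω => (oc F κ Wh z' G Nj ω, (zj ω, (zz ω, y ω)))) ≤
      CH (cond q E True) (oc F κ Wh z' G N')
        (fun ω => (oc F κ Wh z' G Nj ω, (zj ω, (X ω, (zz ω, y ω))))) +
        (θ + Real.log 2) / c₀ := by
    have h3 : CH (cond q E True) (oc F κ Wh z' G N')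
        (fun ω => (oc F κ Wh z' G Nj ω, (zj ω, (zz ω, y ω)))) ≤
        CH (cond q E True) (oc F κ Wh z' G N')
          (fun ω => (oc F κ Wh z' G Nj ω, (zj ω, (X ω, (zz ω, y ω))))) +
          (θ + Real.log 2) / Pb q E := by
      rw [← sub_le_iff_le_add', le_div_iff₀ hP]
      linarith
    have h4 : (θ + Real.log 2) / Pb q E ≤ (θ + Real.log 2) / c₀ :=
      div_le_div_of_nonneg_left hθ0 hc₀ hE
    linarith
  have m3 := H.gfew (zj := zj) hqE hqEA hj0 hj (up _ _ kz) (up _ _ kX)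
  have m4 := CH_le_add h0 (oc F κ Wh z' G N') (Gg F I κ Wh W a l ⌊Nj * J⌋₊ z' zL zj XL)
    (fun ω => (oc F κ Wh z' G Nj ω, (zj ω, (X ω, (zz ω, y ω)))))
  have m5 : CH (cond q E True) (oc F κ Wh z' G N')
      (fun ω => (Gg F I κ Wh W a l ⌊Nj * J⌋₊ z' zL zj XL ω,
        (oc F κ Wh z' G Nj ω, (zj ω, (X ω, (zz ω, y ω)))))) ≤
      CH (cond q E True) (oc F κ Wh z' G N') (Gg F I κ Wh W a l ⌊Nj * J⌋₊ z' zL zj XL) :=
    CH_mono_cond h0 fun ω ω' _ _ e => (Prod.ext_iff.mp e).1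
  have m6 := CH_le_add h0 (oc F κ Wh z' G N')
    (fun ω => dg F ⌊N' * J⌋₊ κ (slam F W ω)) (Gg F I κ Wh W a l ⌊Nj * J⌋₊ z' zL zj XL)
  have m7 : CH (cond q E True) (oc F κ Wh z' G N')
      (fun ω => (dg F ⌊N' * J⌋₊ κ (slam F W ω),
        Gg F I κ Wh W a l ⌊Nj * J⌋₊ z' zL zj XL ω)) ≤ Real.log 9 := by
    refine H.ofew (XL := XL) hqE hqEA hN' _ fun ω ω' _ _ e => ?_
    obtain ⟨f1, f2⟩ := Prod.ext_iff.mp e
    simp only at f1 f2
    unfold Gg at f2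
    simp only [Prod.mk.injEq] at f2
    exact ⟨f2.1, f2.2.2.2, f1⟩
  have e1 : (κz + κX + θ + Real.log 2) / c₀ = κz / c₀ + κX / c₀ + (θ + Real.log 2) / c₀ := by
    ring
  rw [e1]
  nlinarith [mul_le_mul_of_nonneg_left l79 hm0]

end

end Pool.PRC54
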