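import Pool.Agent.H54.PRC.Bxw

/-!
# The entropies of the slope path

`xx_le`: the free quantity has few bits. `kx_le`: the quantity of the line, given the free quantity,
the record and the base.
-/

set_option autoImplicit false

namespace Pool.PRC54

open Finset Real MvPolynomial
open Pool.Agent.H49.Ent Pool.Agent.H32.Dense Pool.STK Pool.KA Pool.KSAT Pool.K2S Pool.PB Pool.S6C
open Pool.GEN Pool.CHT Pool.CHX Pool.ISO Pool.D2R Pool.PRQ76 Pool.LA91 Pool.PR46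
open Pool.OWN68 (CH_pair CH_pis)
open Pool.AVG5 (fl_mul of_fl CH_near)
open Pool.BFL (Pb)
open Pool.D2G30 Pool.V1E
open Pool.FLF (Fam.sub)
open Pool.CR99 (deg_res eval_res der_res KOk kok_of)
open Pool.MIC (mi_event CH_ev_le isLaw_ev ev_pos)
open Pool.PB.Trl (rt rt_mem t_rt)

variable {m J : ℕ}

theorem res_zero {F : Fam m J} (cP : LnT F → Polynomial ℝ) (s : LnT F) (θ : ℝ) :
    (Pool.CR99.res 0 cP s).eval θ = (cP s).eval θ := by
  rw [res_eval]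
  have e1 : co 0 s = s := by
    refine Prod.ext rfl (Prod.ext rfl ?_)
    show s.2.2 / 2 ^ 0 = s.2.2
    rw [pow_zero, Nat.div_one]
  rw [e1]
  congr 1
  simp

/-- The coefficients of the slope path. -/
theorem xc_bd (D : ℕ) : ∃ C : ℝ, 1 ≤ C ∧ ∀ {P : Polynomial ℝ} {b S : ℝ}, P.natDegree ≤ D →
    (∀ θ : ℝ, 0 ≤ θ → θ ≤ 1 → |P.eval θ - b| ≤ S) → ∀ k : ℕ, |P.coeff (k + 1)| ≤ C * S := by
  obtain ⟨C, hC, huc⟩ := Pool.Agent.H40.FR.unit_coef D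
  refine ⟨C, hC, fun {P b S} hP hb k => ?_⟩
  have h1 := huc (P - Polynomial.C b) S ((Polynomial.natDegree_sub_le _ _).trans (max_le hP (by
    rw [Polynomial.natDegree_C]
    exact Nat.zero_le _))) (fun t ht => by
    rw [Polynomial.eval_sub, Polynomial.eval_C]
    exact hb t ht.1 ht.2) (k + 1)
  rwa [Polynomial.coeff_sub, Polynomial.coeff_C_succ, sub_zero] at h1

/-- **The free quantity has few bits.** -/
theorem xx_le (D : ℕ) : ∃ C : ℕ, 1 ≤ C ∧ ∀ {m J : ℕ} {F : Fam m J} {A : F.Ω → Prop}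
    {c : ℕ → Fin m} {r W₀ x ρ : ℕ} {g₀ : ℕ → ℕ} {Ht : LnT F → MvPolynomial (Option (Fin m)) ℝ}
    {c₀ : LnT F → ℝ} {q : F.Ω → ℝ}, (∀ s, (Ht s).totalDegree ≤ D) →
    (∀ ω, A ω → ∀ θ : ℝ, 0 ≤ θ → θ ≤ 1 →
      |(Pool.CR99.res 0 (pth F c r W₀ Ht) (slam F W₀ ω)).eval θ - c₀ (slam F W₀ ω)| ≤
        2 ^ x * (2 ^ g₀ r / 2 ^ g₀ (r + 1))) → IsLaw q → (∀ ω, 0 < q ω → A ω) →
    ∀ {β : Type} (Y : F.Ω → β),
    CH q (fun ω => xc F c r W₀ D ρ g₀ Ht (slam F W₀ ω)) Y ≤ D * ((C + x + ρ) * Real.log 2) := by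
  obtain ⟨C, hC, hcf⟩ := xc_bd D
  obtain ⟨C₁, hC₁⟩ := pow_unbounded_of_one_lt C (one_lt_two (α := ℝ))
  refine ⟨C₁ + 3, by omega, ?_⟩
  intro m J F A c r W₀ x ρ g₀ Ht c₀ q dH hbd hq hqA β Y
  refine (CH_pis hq.nonneg _ _).trans ?_
  have key : ∀ k ∈ (univ : Finset (Fin D)),
      CH q (fun ω => xc F c r W₀ D ρ g₀ Ht (slam F W₀ ω) k) Y ≤
        ((C₁ + 3 : ℕ) + x + ρ) * Real.log 2 := by
    intro k _
    have hU : (0 : ℝ) < 2 ^ g₀ r / 2 ^ g₀ (r + 1) := by positivity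
    have hσ : (0 : ℝ) < 2 ^ ρ * 2 ^ g₀ (r + 1) / 2 ^ g₀ r := by positivity
    have a1 : ∀ ω, 0 < q ω → |(pth F c r W₀ Ht (slam F W₀ ω)).coeff (k + 1)| ≤
        C * (2 ^ x * (2 ^ g₀ r / 2 ^ g₀ (r + 1))) := by
      intro ω hω
      refine hcf (b := c₀ (slam F W₀ ω)) (pth_deg W₀ dH _) (fun θ h0 h1 => ?_) k
      have h2 := hbd ω (hqA ω hω) θ h0 h1
      rwa [res_zero] at h2
    obtain ⟨K, hK⟩ : ∃ K : ℕ, K = 2 ^ (C₁ + x + ρ + 1) + 1 := ⟨_, rfl⟩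
    have h1 : CH q (fun ω => xc F c r W₀ D ρ g₀ Ht (slam F W₀ ω) k) Y ≤
        Real.log (2 * (K : ℝ) + 1) := by
      refine CH_pair hq _ _ fun ω ω' hω hω' _ => ?_
      have b1 : |(pth F c r W₀ Ht (slam F W₀ ω)).coeff (k + 1) -
          (pth F c r W₀ Ht (slam F W₀ ω')).coeff (k + 1)| ≤
          2 * (C * (2 ^ x * (2 ^ g₀ r / 2 ^ g₀ (r + 1)))) := by
        refine (abs_sub _ _).trans ?_
        linarith [a1 ω hω, a1 ω' hω']
      have b2 := fl_mul hσ.le b1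
      have b3 : (2 : ℝ) ^ ρ * 2 ^ g₀ (r + 1) / 2 ^ g₀ r *
          (2 * (C * (2 ^ x * (2 ^ g₀ r / 2 ^ g₀ (r + 1))))) = 2 * C * (2 ^ x * 2 ^ ρ) := by
        field_simp
      rw [b3] at b2
      have b4 : 2 * C * (2 ^ x * 2 ^ ρ) + 1 ≤ (K : ℝ) := by
        rw [hK]
        push_cast
        have e1 : (2 : ℝ) ^ (C₁ + x + ρ + 1) = 2 * 2 ^ C₁ * (2 ^ x * 2 ^ ρ) := by
          rw [pow_succ, pow_add, pow_add]
          ring
        rw [e1]
        have : 2 * C * ((2 : ℝ) ^ x * 2 ^ ρ) ≤ 2 * 2 ^ C₁ * (2 ^ x * 2 ^ ρ) :=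
          mul_le_mul_of_nonneg_right (by linarith) (by positivity)
        linarith
      have b5 : ((|xc F c r W₀ D ρ g₀ Ht (slam F W₀ ω) k -
          xc F c r W₀ D ρ g₀ Ht (slam F W₀ ω') k| : ℤ) : ℝ) ≤ ((K : ℤ) : ℝ) := by
        push_cast
        unfold xc
        exact b2.trans b4
      exact_mod_cast b5
    refine h1.trans ?_
    have h2 : 2 * (K : ℝ) + 1 ≤ 2 ^ (C₁ + 3 + x + ρ) := by
      rw [hK]
      push_cast
      have e1 : (2 : ℝ) ^ (C₁ + 3 + x + ρ) = 4 * 2 ^ (C₁ + x + ρ + 1) := by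
        have : C₁ + 3 + x + ρ = C₁ + x + ρ + 1 + 2 := by omega
        rw [this, pow_add]
        norm_num
        ring
      rw [e1]
      have e2 : (2 : ℝ) ≤ 2 ^ (C₁ + x + ρ + 1) := by
        calc (2 : ℝ) = 2 ^ 1 := by norm_num
          _ ≤ _ := pow_le_pow_right₀ (by norm_num) (by omega)
      linarith
    refine (Real.log_le_log (by positivity) h2).trans (le_of_eq ?_)
    rw [Real.log_pow]
    push_cast
    ring
  refine (Finset.sum_le_sum key).trans (le_of_eq ?_)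
  rw [Finset.sum_const, Finset.card_univ, Fintype.card_fin, nsmul_eq_mul]

/-- **The quantity of the line**, given the free quantity, the record and the base. -/
theorem kx_le (r D : ℕ) : ∃ C : ℕ, 1 ≤ C ∧ ∀ {m J : ℕ} {F : Fam m J} {A : F.Ω → Prop}
    {c : ℕ → Fin m} {W₀ W j Wh a l n e x₀ xk x ρ hi v : ℕ} {g₀ gw gj : ℕ → ℕ}
    {Gw Gj : PtT F → ℕ → MvPolynomial (Option (Fin m)) ℝ}
    {Hw Hj : LnT F → ℕ → MvPolynomial (Option (Fin m)) ℝ} {V Vz Vj Γ : Type}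
    {z' : LnT F → V} {Gu : V → MvPolynomial (Option (Fin m)) ℝ} {zL : LnT F → Vz}
    {zz : F.Ω → Vz} {y : F.Ω → Γ} {Nl : ℝ} {zj : F.Ω → Vj}
    {Ht : LnT F → MvPolynomial (Option (Fin m)) ℝ} {q : F.Ω → ℝ},
    GeoI F A c r D W₀ W j Wh a l n e x₀ gw gj Gw Gj Hw Hj z' Gu zL zz y Nl zj Ht →
    (∀ ω, A ω → OscP F c r W n xk gw Gw ω) → xk ≤ x → x ≤ gw (r + 1) →
    (∀ i < r + 2, e + gw i + v + C * (n + 1) ≤ hi) → hi + 1 ≤ a → hi + 1 ≤ l →
    e + (Finset.Icc r (r + 1)).sup gw ≤ gw r + v → IsLaw q → (∀ ω, 0 < q ω → A ω) →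
    CH q (fun ω => xl F c r W₀ W D ρ g₀ gw Ht Hw (slam F W ω))
      (fun ω => (xc F c r W₀ D ρ g₀ Ht (slam F W₀ ω), (zz ω, y ω))) ≤
      (C * (n + 1) + x + 6) * Real.log 2 := by
  obtain ⟨C, hC, hpair⟩ := pair_low r D
  refine ⟨C, hC, ?_⟩
  intro m J F A c W₀ W j Wh a l n e x₀ xk x ρ hi v g₀ gw gj Gw Gj Hw Hj V Vz Vj Γ z' Gu zL zz y Nl
    zj Ht q H hosc hxk hxg hhi ha hl hsup hq hqA
  have h0 := hq.nonneg
  have hWJ : W ≤ J := H.wj.trans H.jJ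
  have hU : (0 : ℝ) < 2 ^ gw r / 2 ^ gw (r + 1) := by positivity
  have hσ : (0 : ℝ) < 2 ^ gw (r + 1) / 2 ^ gw r := by positivity
  have h0m : (0 : ℝ) ∈ Set.Icc (0 : ℝ) 1 := ⟨le_rfl, zero_le_one⟩
  have hch := chs_of H.hc hWJ H.cw H.clw H.ow hosc hxk hxg
  have hIc : ∀ i < r, c i ∈ (Finset.range r).image c := fun i hi' =>
    Finset.mem_image_of_mem c (Finset.mem_range.2 hi')
  obtain ⟨R, hR⟩ : ∃ R : F.Ω → (Fin D → ℤ) × Vz × Γ, R = fun ω =>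
    (xc F c r W₀ D ρ g₀ Ht (slam F W₀ ω), (zz ω, y ω)) := ⟨_, rfl⟩
  rw [← hR]
  have hRe : ∀ ω ω', R ω = R ω' → xc F c r W₀ D ρ g₀ Ht (slam F W₀ ω) =
      xc F c r W₀ D ρ g₀ Ht (slam F W₀ ω') ∧ zz ω = zz ω' ∧ y ω = y ω' := by
    intro ω ω' e1
    rw [hR] at e1
    simp only [Prod.mk.injEq] at e1
    exact e1
  have c1 : CH q (fun ω => xl F c r W₀ W D ρ g₀ gw Ht Hw (slam F W ω)) R ≤
      CH q (fun ω => vc F c r W gw Hw (slam F W ω)) R := by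
    refine CH_mono_left h0 fun ω ω' _ _ e1 => ?_
    obtain ⟨e2, e3⟩ := Prod.ext_iff.mp e1
    obtain ⟨f1, f2, f3⟩ := hRe ω ω' e3
    have hT : F.T ω = F.T ω' := (Prod.ext_iff.mp (H.wd.yn ω ω' f3)).1
    unfold xl
    rw [co_slam F H.w0 hWJ, co_slam F H.w0 hWJ]
    simp only [Prod.mk.injEq]
    refine ⟨f1, e2, ?_⟩
    show F.T1 W ω = F.T1 W ω'
    unfold Fam.T1
    rw [hT]
  refine c1.trans ?_
  obtain ⟨K, hK⟩ : ∃ K : ℕ, K = 2 ^ (C * (n + 1) + x + 3) := ⟨_, rfl⟩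
  have h1 : CH q (fun ω => vc F c r W gw Hw (slam F W ω)) R ≤ Real.log (2 * (K : ℝ) + 1) := by
    refine CH_pair hq _ _ fun ω ω' hω hω' e1 => ?_
    have hA := hqA ω hω
    have hA' := hqA ω' hω'
    obtain ⟨-, f2, f3⟩ := hRe ω ω' e1
    have hyI := H.wd.yn ω ω' f3
    unfold yI at hyI
    simp only [Prod.mk.injEq] at hyI
    obtain ⟨hT, y2, y3⟩ := hyI
    have hnr : ∀ i < r, |F.x ω' (c i) - F.x ω (c i)| ≤ 1 / 2 ^ (hi + 1) ∧
        |F.d ω' (c i) - F.d ω (c i)| ≤ 1 / 2 ^ (hi + 1) := by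
      intro i hi'
      have g1 := congrFun y2 (c i)
      have g2 := congrFun y3 (c i)
      simp only [if_pos (hIc i hi')] at g1 g2
      have b1 : |F.x ω (c i) - F.x ω' (c i)| ≤ 1 / 2 ^ a := of_fl (by positivity) g1
      have b2 : |F.d ω (c i) - F.d ω' (c i)| ≤ 1 / 2 ^ l := of_fl (by positivity) g2
      have k1 : (1 : ℝ) / 2 ^ a ≤ 1 / 2 ^ (hi + 1) :=
        one_div_le_one_div_of_le (by positivity) (pow_le_pow_right₀ (by norm_num) ha)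
      have k2 : (1 : ℝ) / 2 ^ l ≤ 1 / 2 ^ (hi + 1) :=
        one_div_le_one_div_of_le (by positivity) (pow_le_pow_right₀ (by norm_num) hl)
      rw [abs_sub_comm] at b1 b2
      exact ⟨b1.trans k1, b2.trans k2⟩
    have p3 := (hpair H.hc hWJ H.cw H.clw H.ow (fun i hi' => by
        have := hhi i hi'
        omega) hxg ω ω' hA hA' hT (H.gz ω ω' hA hA' f2) hnr (sl F c r Gw ω)
        (hch.osc ω hA)).2.2 v (fun i hi' => hhi i (by omega)) hsup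
    have v1 : ∀ o, A o → |vl F c r W Hw (slam F W o) - sl F c r Gw o| ≤
        2 ^ x * (2 ^ gw r / 2 ^ gw (r + 1)) := by
      intro o ho
      have b1 := (hosc o ho).at h0m (rt_mem F W o)
      rw [ptw_rt F hWJ] at b1
      unfold vl sl
      rw [pth_eval, ← H.clw o ho (r + 1) (by omega)]
      exact b1.trans (mul_le_mul_of_nonneg_right (pow_le_pow_right₀ (by norm_num) hxk) hU.le)
    have p4 : |sl F c r Gw ω' - sl F c r Gw ω| ≤
        2 ^ (C * (n + 1) + x) * (2 ^ gw r / 2 ^ gw (r + 1)) := by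
      rw [mul_div_assoc] at p3
      exact p3
    have hx2 : (2 : ℝ) ^ x ≤ 2 ^ (C * (n + 1) + x) := pow_le_pow_right₀ (by norm_num) (by omega)
    have hx3 := mul_le_mul_of_nonneg_right hx2 hU.le
    have p5 : |vl F c r W Hw (slam F W ω) - vl F c r W Hw (slam F W ω')| ≤
        3 * 2 ^ (C * (n + 1) + x) * (2 ^ gw r / 2 ^ gw (r + 1)) := by
      have e2 : vl F c r W Hw (slam F W ω) - vl F c r W Hw (slam F W ω') =
          (vl F c r W Hw (slam F W ω) - sl F c r Gw ω) - (sl F c r Gw ω' - sl F c r Gw ω) -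
            (vl F c r W Hw (slam F W ω') - sl F c r Gw ω') := by ring
      rw [e2]
      refine (abs_sub _ _).trans ((add_le_add (abs_sub _ _) le_rfl).trans ?_)
      have := v1 ω hA
      have := v1 ω' hA'
      linarith
    have p6 := fl_mul hσ.le p5
    have e3 : (2 : ℝ) ^ gw (r + 1) / 2 ^ gw r * (3 * 2 ^ (C * (n + 1) + x) *
        (2 ^ gw r / 2 ^ gw (r + 1))) = 3 * 2 ^ (C * (n + 1) + x) := by
      field_simp
    rw [e3] at p6
    have b5 : ((|vc F c r W gw Hw (slam F W ω) - vc F c r W gw Hw (slam F W ω')| : ℤ) : ℝ) ≤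
        ((K : ℤ) : ℝ) := by
      push_cast
      unfold vc
      refine p6.trans ?_
      rw [hK]
      push_cast
      rw [pow_add 2 (C * (n + 1) + x) 3]
      have : (1 : ℝ) ≤ 2 ^ (C * (n + 1) + x) := one_le_pow₀ (by norm_num)
      linarith
    exact_mod_cast b5
  refine h1.trans ?_
  have h2 : 2 * (K : ℝ) + 1 ≤ 2 ^ (C * (n + 1) + x + 6) := by
    rw [hK]
    push_cast
    rw [pow_add 2 (C * (n + 1) + x) 3, pow_add 2 (C * (n + 1) + x) 6]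
    have : (1 : ℝ) ≤ 2 ^ (C * (n + 1) + x) := one_le_pow₀ (by norm_num)
    linarith
  refine (Real.log_le_log (by positivity) h2).trans (le_of_eq ?_)
  rw [Real.log_pow]
  push_cast
  ring

end Pool.PRC54
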