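import Pool.Agent.H54.PRC.Bxl
import Pool.Agent.H99.D2.Cev

/-!
# The slope on the slice and on the window

`it_ev`: finitely many properties on large parts. `k1_win`: the slope is constant on the slice.
`rem_win`: the slope path is near the slope of the chart on the whole window.
-/

set_option autoImplicit false

namespace Pool.PRC54

open Finset Real MvPolynomial
open Pool.Agent.H49.Ent Pool.Agent.H32.Dense Pool.STK Pool.KA Pool.KSAT Pool.K2S Pool.PB Pool.S6C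
open Pool.GEN Pool.CHT Pool.CHX Pool.ISO Pool.D2R Pool.PRQ76 Pool.LA91 Pool.PR46
open Pool.OWN68 (CH_pair CH_pis)
open Pool.AVG5 (fl_mul of_fl CH_near)
open Pool.BFL (Pb)
open Pool.D2G30 Pool.V1E
open Pool.FLF (Fam.sub)
open Pool.CR99 (res deg_res eval_res der_res KOk kok_of)
open Pool.MIC (mi_event CH_ev_le isLaw_ev ev_pos)
open Pool.PB.Trl (rt rt_mem t_rt)

variable {m J : ℕ}

/-- Finitely many properties on large parts. -/
theorem it_ev {Ω : Type} [Fintype Ω] {p : Ω → ℝ} (B : Ω → Prop) (P : ℕ → Ω → Prop) {κ : ℝ}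
    (hκ : 0 ≤ κ) : ∀ N : ℕ, (∀ k < N, ∀ A : Ω → Prop, Sub A B →
      κ ^ k * Pe p B ≤ Pe p A → ∃ A' : Ω → Prop, Sub A' A ∧ κ * Pe p A ≤ Pe p A' ∧
        ∀ ω, A' ω → P k ω) →
    ∃ A : Ω → Prop, Sub A B ∧ κ ^ N * Pe p B ≤ Pe p A ∧ ∀ k < N, ∀ ω, A ω → P k ω := by
  intro N
  induction N with
  | zero => exact fun _ => ⟨B, fun ω h => h, by simp, fun k hk => absurd hk (Nat.not_lt_zero k)⟩
  | succ N ih =>
    intro h
    obtain ⟨A, a1, a2, a3⟩ := ih fun k hk => h k (by omega)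
    obtain ⟨A', b1, b2, b3⟩ := h N (by omega) A a1 a2
    refine ⟨A', fun ω hω => a1 ω (b1 ω hω), ?_, fun k hk ω hω => ?_⟩
    · refine le_trans ?_ b2
      rw [pow_succ]
      have := mul_le_mul_of_nonneg_left a2 hκ
      linarith
    · rcases Nat.lt_succ_iff_lt_or_eq.mp hk with h1 | h1
      · exact a3 k h1 ω (b1 ω hω)
      · rw [h1]
        exact b3 ω hω

section

variable {F : Fam m J} {A : F.Ω → Prop} {I : Finset (Fin m)} {κ : Fin m} {Wh W a l : ℕ}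
  {V Vz Vj Γ : Type} {z' : LnT F → V} {G : V → MvPolynomial (Option (Fin m)) ℝ}
  {zL : LnT F → Vz} {zz : F.Ω → Vz} {y : F.Ω → Γ} {Nl : ℝ}

/-- The code of the own velocity from real digits of the direction. -/
theorem WinD.obeta (H : WinD F A I κ Wh W a l z' G zL zz y Nl) {q : F.Ω → ℝ} (hq : IsLaw q)
    (hqA : ∀ ω, 0 < q ω → A ω) {N σ : ℝ} (hN : N ≤ Nl) (hσ : (2 : ℝ) ^ (N * J) ≤ σ) {β : Type}
    (Y : F.Ω → β) (hY : ∀ ω ω', 0 < q ω → 0 < q ω' → Y ω = Y ω' →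
      z' (slam F Wh ω) = z' (slam F Wh ω') ∧ y ω = y ω') :
    CH q (oc F κ Wh z' G N) Y ≤ CH q (fun ω => ⌊σ * F.d ω κ⌋) Y + (m + 1) * Real.log 9 := by
  have h0 := hq.nonneg
  have l79 : Real.log 7 ≤ Real.log 9 := Real.log_le_log (by norm_num) (by norm_num)
  have hm0 : (0 : ℝ) ≤ m := Nat.cast_nonneg m
  have hp : (0 : ℝ) < 2 ^ (N * J) := Real.rpow_pos_of_pos (by norm_num) _
  have hσ0 : 0 < σ := lt_of_lt_of_le hp hσ
  have c1 := CH_le_add h0 (oc F κ Wh z' G N) (fun ω => ⌊σ * F.d ω κ⌋) Y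
  have c2 := CH_le_add h0 (oc F κ Wh z' G N) (fun ω => vI I W a l F (slam F W ω))
    (fun ω => (⌊σ * F.d ω κ⌋, Y ω))
  have c3 : CH q (fun ω => vI I W a l F (slam F W ω)) (fun ω => (⌊σ * F.d ω κ⌋, Y ω)) ≤
      m * Real.log 7 := vI_few hq I H.hW H.ha _ fun ω ω' hω hω' e =>
    H.yn ω ω' (hY ω ω' hω hω' (Prod.ext_iff.mp e).2).2
  have c4 : CH q (oc F κ Wh z' G N) (fun ω => (vI I W a l F (slam F W ω),
      (⌊σ * F.d ω κ⌋, Y ω))) ≤ Real.log 7 := by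
    have e5 : (7 : ℝ) = 2 * ((3 : ℕ) : ℝ) + 1 := by norm_num
    rw [e5]
    refine CH_pair hq _ _ fun ω ω' hω hω' e => ?_
    simp only [Prod.mk.injEq] at e
    obtain ⟨e1, e2, e3⟩ := e
    obtain ⟨f1, f2⟩ := hY ω ω' hω hω' e3
    have hT : F.T ω = F.T ω' := (Prod.ext_iff.mp (H.yn ω ω' f2)).1
    have b1 := of_fl hσ0 e2
    have b2 := (H.vel.mono hN).near ω ω' (hqA ω hω) (hqA ω' hω') (by
      simp only [Prod.mk.injEq]
      exact ⟨hT, f1, e1⟩)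
    have b0 : 1 / σ ≤ 1 / 2 ^ (N * J) := one_div_le_one_div_of_le hp hσ
    have b3 : |ojet F κ 1 (G (z' (slam F Wh ω))) ω - ojet F κ 1 (G (z' (slam F Wh ω'))) ω'| ≤
        2 / 2 ^ (N * J) := by
      rw [ojet1, ojet1]
      have e6 : F.d ω κ - jet 1 (G (z' (slam F Wh ω))) (bt F ω) (bd F ω) -
          (F.d ω' κ - jet 1 (G (z' (slam F Wh ω'))) (bt F ω') (bd F ω')) =
          (F.d ω κ - F.d ω' κ) - (jet 1 (G (z' (slam F Wh ω))) (bt F ω) (bd F ω) -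
            jet 1 (G (z' (slam F Wh ω'))) (bt F ω') (bd F ω')) := by ring
      rw [e6]
      refine (abs_sub _ _).trans ?_
      have e7 : (2 : ℝ) / 2 ^ (N * J) = 1 / 2 ^ (N * J) + 1 / 2 ^ (N * J) := by ring
      rw [e7]
      linarith
    have b5 := fl_mul (σ := (2 : ℝ) ^ (N * J)) hp.le b3
    have b6 : (2 : ℝ) ^ (N * J) * (2 / 2 ^ (N * J)) + 1 = 3 := by
      field_simp
      norm_num
    rw [b6] at b5
    have b8 : ((|oc F κ Wh z' G N ω - oc F κ Wh z' G N ω'| : ℤ) : ℝ) ≤ (((3 : ℕ) : ℤ) : ℝ) := by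
      push_cast
      unfold oc
      exact b5
    exact_mod_cast b8
  nlinarith

end

/-- **The slope on the slice.** -/
theorem k1_win (D r : ℕ) : ∃ C : ℕ, 1 ≤ C ∧ ∀ {m J : ℕ} {F : Fam m J} {c : ℕ → Fin m}
    {B : F.Ω → Prop} {Wh W a l w e n hi x b₁ : ℕ} {g : ℕ → ℕ} {V Vz Γ ζ : Type}
    {z' : LnT F → V} {Gu : V → MvPolynomial (Option (Fin m)) ℝ} {zL : LnT F → Vz}
    {zz : F.Ω → Vz} {y : F.Ω → Γ} {Nl N c₀ : ℝ}
    {G : PtT F → ℕ → MvPolynomial (Option (Fin m)) ℝ}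
    {H : LnT F → ℕ → MvPolynomial (Option (Fin m)) ℝ} {Z : F.Ω → ζ},
    WinD F B ((Finset.range r).image c) (c r) Wh W a l z' Gu zL zz y Nl →
    Set.InjOn c (Set.Iio (r + 2)) → w ≤ J → ChOK F c (r + 2) (fun _ => D) w w e g B G H →
    Clsd F (r + 2) w B G H →
    (∀ ω, B ω → ∀ l < r + 2, ∀ τ ∈ Set.Icc (0 : ℝ) 1,
      |(dv w (fun s _ => H s l) (c l) (slam F w ω)).eval τ| ≤ 2 ^ n / 2 ^ g l) →
    (∀ ω ω', B ω → B ω' → Z ω = Z ω' → z' (slam F Wh ω) = z' (slam F Wh ω') ∧ y ω = y ω' ∧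
      ∀ l < r + 2, G (ptr F J ω) l = G (ptr F J ω') l) →
    (∀ i < r + 2, e + g i + C * (n + 1) ≤ hi) → hi + 1 ≤ a → hi + 1 ≤ l →
    2 * D * D * b₁ + C * (n + 1) ≤ x → N ≤ Nl →
    (2 : ℝ) ^ (N * J) * 2 ^ w ≤ 2 ^ b₁ * 2 ^ g r → 0 < c₀ → 0 < Pe F.p B →
    (∀ E : F.Ω → Prop, Sub E B → c₀ * Pe F.p B ≤ Pe F.p E →
      Real.log (2 * D + 1) + (m + 1) * Real.log 9 <
        CH (Pool.Agent.H49.Ent.cond F.p E True) (oc F (c r) Wh z' Gu N) Z) →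
    ∃ B' : F.Ω → Prop, Sub B' B ∧ (1 - c₀) * Pe F.p B ≤ Pe F.p B' ∧ ∀ ω, B' ω →
      ∀ τ ∈ Set.Icc (0 : ℝ) 1, ∀ τ' ∈ Set.Icc (0 : ℝ) 1, ∀ y : ℝ, |y| ≤ 2 ^ (n + 2) / 2 ^ g r →
        |eval (Function.update (ptw F w ω τ) (some (c r)) (ptw F w ω τ (some (c r)) + y))
          (pderiv (some (c r)) (G (ptr F J ω) (r + 1))) -
          eval (ptw F w ω τ') (pderiv (some (c r)) (G (ptr F J ω) (r + 1)))| ≤
          2 ^ x * (2 ^ g r / 2 ^ g (r + 1)) := by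
  obtain ⟨C, hC, hk⟩ := Pool.CR99.k1_ev D r
  refine ⟨C, hC, ?_⟩
  intro m J F c B Wh W a l w e n hi x b₁ g V Vz Γ ζ z' Gu zL zz y Nl N c₀ G H Z HW hc hw hch hcl
    hown hZ hhi ha hl hx hN hσ hc₀ hB hal
  have hIc : ∀ i < r, c i ∈ (Finset.range r).image c := fun i hi' =>
    Finset.mem_image_of_mem c (Finset.mem_range.2 hi')
  have hyI : ∀ ω ω', y ω = y ω' → F.T ω = F.T ω' ∧ ∀ i < r,
      |F.x ω' (c i) - F.x ω (c i)| ≤ 1 / 2 ^ (hi + 1) ∧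
      |F.d ω' (c i) - F.d ω (c i)| ≤ 1 / 2 ^ (hi + 1) := by
    intro ω ω' e1
    have e2 := HW.yn ω ω' e1
    unfold yI at e2
    simp only [Prod.mk.injEq] at e2
    obtain ⟨f1, f2, f3⟩ := e2
    refine ⟨f1, fun i hi' => ?_⟩
    have g1 := congrFun f2 (c i)
    have g2 := congrFun f3 (c i)
    simp only [if_pos (hIc i hi')] at g1 g2
    have b1 : |F.x ω (c i) - F.x ω' (c i)| ≤ 1 / 2 ^ a := of_fl (by positivity) g1
    have b2 : |F.d ω (c i) - F.d ω' (c i)| ≤ 1 / 2 ^ l := of_fl (by positivity) g2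
    have h1 : (1 : ℝ) / 2 ^ a ≤ 1 / 2 ^ (hi + 1) :=
      one_div_le_one_div_of_le (by positivity) (pow_le_pow_right₀ (by norm_num) ha)
    have h2 : (1 : ℝ) / 2 ^ l ≤ 1 / 2 ^ (hi + 1) :=
      one_div_le_one_div_of_le (by positivity) (pow_le_pow_right₀ (by norm_num) hl)
    rw [abs_sub_comm] at b1 b2
    exact ⟨b1.trans h1, b2.trans h2⟩
  have hKO : KOk F c r w hi B H Z := by
    refine kok_of hw (fun ω ν hω hν e => ?_) (fun ω ν hω hν e i hi' => ?_)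
      fun ω ν hω hν e i hi' => ?_
    · exact ((hyI ω ν (hZ ω ν hω hν e).2.1).1).symm
    · rw [← hcl ω hω i hi', ← hcl ν hν i hi']
      exact ((hZ ω ν hω hν e).2.2 i hi').symm
    · exact (hyI ω ν (hZ ω ν hω hν e).2.1).2 i hi'
  obtain ⟨B', b1, b2, b3⟩ := hk (β := 1 / 2 ^ b₁) hc hw hch hcl hown hKO hhi (by positivity) (by
    rw [div_le_one (by positivity)]
    exact one_le_pow₀ (by norm_num)) hc₀ hB (fun E hE hPE => by
    have hP : 0 < Pe F.p E := lt_of_lt_of_le (mul_pos hc₀ hB) hPE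
    have hqE := isLaw_cond F.isLaw hP
    have hqEA : ∀ ω, 0 < cond F.p E True ω → B ω := fun ω hω => hE ω (ev_pos F.isLaw.nonneg E hω).2
    have a1 := HW.obeta hqE hqEA (σ := 2 ^ b₁ * 2 ^ g r / 2 ^ w) hN (by
      rw [le_div_iff₀ (by positivity)]
      exact hσ) Z fun ω ω' hω hω' e => by
        obtain ⟨f1, f2, -⟩ := hZ ω ω' (hqEA ω hω) (hqEA ω' hω') e
        exact ⟨f1, f2⟩
    have a2 := hal E hE hPE
    have e1 : (fun ω => ⌊(2 : ℝ) ^ g r / 2 ^ w * F.d ω (c r) / (1 / 2 ^ b₁)⌋) =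
        fun ω => ⌊2 ^ b₁ * 2 ^ g r / 2 ^ w * F.d ω (c r)⌋ := by
      funext ω
      congr 1
      field_simp
    rw [e1]
    linarith)
  refine ⟨B', b1, b2, fun ω hω τ hτ τ' hτ' y hy => (b3 ω hω τ hτ τ' hτ' y hy).trans ?_⟩
  have e2 : (1 / (1 / (2 : ℝ) ^ b₁)) ^ (2 * D * D) = 2 ^ (2 * D * D * b₁) := by
    rw [one_div_one_div, ← pow_mul]
    congr 1
    ring
  rw [e2, ← mul_assoc, ← pow_add]
  exact mul_le_mul_of_nonneg_right (pow_le_pow_right₀ (by norm_num) hx) (by positivity)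

/-- The path of the slope of the label. -/
noncomputable def pth (F : Fam m J) (c : ℕ → Fin m) (r o : ℕ)
    (Q : LnT F → MvPolynomial (Option (Fin m)) ℝ) (s : LnT F) : Polynomial ℝ :=
  MvPolynomial.aeval (lc o s) (pderiv (some (c r)) (Q s))

theorem pth_deg {F : Fam m J} {c : ℕ → Fin m} {r D : ℕ} (o : ℕ)
    {Q : LnT F → MvPolynomial (Option (Fin m)) ℝ} (h : ∀ s, (Q s).totalDegree ≤ D) (s : LnT F) :
    (pth F c r o Q s).natDegree ≤ D := by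
  unfold pth
  have h3 := natDegree_aeval_mul (pderiv (some (c r)) (Q s)) (lc o s) (E := 1)
    (fun k => natDegree_lc o s k) (D := D) ((pd_deg _ _).trans (h s))
  rwa [mul_one] at h3

theorem pth_eval {F : Fam m J} {c : ℕ → Fin m} {r o : ℕ}
    {Q : LnT F → MvPolynomial (Option (Fin m)) ℝ} (ω : F.Ω) (τ : ℝ) :
    (pth F c r o Q (slam F o ω)).eval τ =
      eval (ptw F o ω τ) (pderiv (some (c r)) (Q (slam F o ω))) := by
  unfold pth
  rw [aeval_lc]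

/-- **The slope path on the window.** -/
theorem rem_win (m D : ℕ) : ∃ C : ℝ, 1 ≤ C ∧ ∀ {J : ℕ} {F : Fam m J} {c : ℕ → Fin m} {r : ℕ}
    {A : F.Ω → Prop} {W₀ W : ℕ} {g : ℕ → ℕ} {x₀ : ℕ}
    {H : LnT F → ℕ → MvPolynomial (Option (Fin m)) ℝ}
    {Ht : LnT F → MvPolynomial (Option (Fin m)) ℝ} {θ : ℝ} (hA : 0 < Pe F.p A), W₀ ≤ W →
    W ≤ J → (∀ s, (Ht s).totalDegree ≤ D) → (∀ s i, (H s i).totalDegree ≤ D) → 0 ≤ θ →
    (Fam.sub F A hA).Tm θ → C * (θ + 1) ≤ ((J : ℝ) - W) * Real.log 2 →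
    (∀ ω, A ω → |eval (bt F ω) (pderiv (some (c r)) (Ht (slam F W₀ ω))) -
      eval (bt F ω) (pderiv (some (c r)) (H (slam F W ω) (r + 1)))| ≤
        2 ^ x₀ * (2 ^ g r / 2 ^ g (r + 1))) →
    ∃ B : F.Ω → Prop, Sub B A ∧ 1 / 2 * Pe F.p A ≤ Pe F.p B ∧ ∀ ω, B ω →
      ∀ τ ∈ Set.Icc (0 : ℝ) 1, |(res (W - W₀) (pth F c r W₀ Ht) (slam F W ω)).eval τ -
        eval (ptw F W ω τ) (pderiv (some (c r)) (H (slam F W ω) (r + 1)))| ≤
          Real.exp (C * (θ + 1)) * (2 ^ x₀ * (2 ^ g r / 2 ^ g (r + 1))) := by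
  obtain ⟨C, hC, hrem⟩ := Pool.D2R.rem_fam m D 1
  refine ⟨C, hC, ?_⟩
  intro J F c r A W₀ W g x₀ H Ht θ hA h0W hWJ dHt dH hθ hTm hJ hcl
  obtain ⟨B, b1, b2, b3⟩ := hrem J F A hA W
    (fun _ s => res (W - W₀) (pth F c r W₀ Ht) s - pth F c r W (fun s => H s (r + 1)) s)
    (fun _ => 2 ^ x₀ * (2 ^ g r / 2 ^ g (r + 1))) θ hWJ (fun _ _ s =>
      (Polynomial.natDegree_sub_le _ _).trans (max_le (deg_res (pth_deg W₀ dHt) s)
        (pth_deg W (fun s => dH s _) s))) (fun _ _ => by positivity) hθ hTm hJ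
    (fun ω hω _ _ => by
      rw [Polynomial.eval_sub, eval_res h0W hWJ, pth_eval, pth_eval,
        ptw_rt F (h0W.trans hWJ), ptw_rt F hWJ]
      exact hcl ω hω)
  refine ⟨B, b1, by linarith, fun ω hω τ hτ => ?_⟩
  have h1 := b3 ω hω 0 (by norm_num) τ hτ
  rw [Polynomial.eval_sub, pth_eval (Q := fun s => H s (r + 1))] at h1
  exact h1

end Pool.PRC54
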