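import Pool.Agent.H32.Dense.EntX

/-!
# One quantity is free at some window of a box

`free_pick`: records `a 0 ≤ b 0 ≤ a 1 ≤ b 1 ≤ …` (each few bits given the next one), `D i` few bits
given `b i`. If `X` has at most `x` bits given `a 0`, then for some `i < n` the quantity `D i` loses
at most `x / n` of its entropy given `a i` when `X` is added to the condition.
-/

set_option autoImplicit false

namespace Pool.PRC54

open Finset Real
open Pool.Agent.H49.Ent Pool.Agent.H32.Dense

/-- The information of `D` about `X` given `a`, against the next record. -/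
theorem mi_next {Ω α β δ χ : Type} [Fintype Ω] {p : Ω → ℝ} (hp : ∀ ω, 0 ≤ p ω) (a : Ω → α)
    (b : Ω → β) (D : Ω → δ) (X : Ω → χ) {κ κ' : ℝ} (h1 : CH p a b ≤ κ) (h2 : CH p D b ≤ κ') :
    CH p D a - CH p D (fun ω => (X ω, a ω)) ≤ CH p X a - CH p X b + (κ + κ') := by
  have c1 := CH_chain hp D X a
  have c2 := CH_chain hp X D a
  have c3 : CH p (fun ω => (D ω, X ω)) a = CH p (fun ω => (X ω, D ω)) a := by
    refine CH_congr hp ?_ ?_ (fun _ _ _ _ e => e) (fun _ _ _ _ e => e)
    · intro ω ω' _ _ e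
      have e1 := (Prod.ext_iff.mp e).1
      exact Prod.ext (Prod.ext_iff.mp e1).2 (Prod.ext_iff.mp e1).1
    · intro ω ω' _ _ e
      have e1 := (Prod.ext_iff.mp e).1
      exact Prod.ext (Prod.ext_iff.mp e1).2 (Prod.ext_iff.mp e1).1
  have s1 := CH_le_add hp X (fun ω => (D ω, a ω)) b
  have s2 : CH p X (fun ω => ((D ω, a ω), b ω)) ≤ CH p X (fun ω => (D ω, a ω)) :=
    CH_mono_cond hp fun ω ω' _ _ e => (Prod.ext_iff.mp e).1
  have s3 : CH p (fun ω => (D ω, a ω)) b ≤ CH p D b + CH p a b := by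
    have := CH_chain hp D a b
    have h5 : CH p D (fun ω => (a ω, b ω)) ≤ CH p D b :=
      CH_mono_cond hp fun ω ω' _ _ e => (Prod.ext_iff.mp e).2
    linarith
  linarith

/-- **One quantity is free at some window.** -/
theorem free_pick {Ω χ : Type} [Fintype Ω] {α β δ : ℕ → Type} {p : Ω → ℝ} (hp : ∀ ω, 0 ≤ p ω)
    (a : ∀ i, Ω → α i) (b : ∀ i, Ω → β i) (D : ∀ i, Ω → δ i) (X : Ω → χ) {κ κ' x : ℝ} {n : ℕ}
    (hn : 0 < n) (h1 : ∀ i < n, CH p (a i) (b i) ≤ κ) (h2 : ∀ i < n, CH p (D i) (b i) ≤ κ')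
    (h3 : ∀ i, i + 1 < n → CH p (b i) (a (i + 1)) ≤ κ) (hX : CH p X (a 0) ≤ x) :
    ∃ i < n, CH p (D i) (a i) ≤ CH p (D i) (fun ω => (X ω, a i ω)) + (x / n + (2 * κ + κ')) := by
  by_contra hcon
  push Not at hcon
  have key : ∀ k, k ≤ n → 0 < k → ∑ i ∈ Finset.range k, (CH p (D i) (a i) -
      CH p (D i) (fun ω => (X ω, a i ω))) ≤ CH p X (a 0) - CH p X (b (k - 1)) +
        k * (2 * κ + κ') - κ := by
    intro k
    induction k with
    | zero => intro _ h; exact absurd h (lt_irrefl _)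
    | succ k ih =>
      intro hk _
      have m1 := mi_next hp (a k) (b k) (D k) X (h1 k (by omega)) (h2 k (by omega))
      rw [Finset.sum_range_succ]
      rcases Nat.eq_zero_or_pos k with h0 | h0
      · subst h0
        simp only [Finset.range_zero, Finset.sum_empty]
        have e : (0 + 1 - 1 : ℕ) = 0 := rfl
        rw [e]
        push_cast
        linarith
      · have m2 := ih (by omega) h0
        obtain ⟨k', rfl⟩ : ∃ k', k = k' + 1 := ⟨k - 1, by omega⟩
        have m3 := CH_le_add hp X (b k') (a (k' + 1))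
        have m4 : CH p X (fun ω => (b k' ω, a (k' + 1) ω)) ≤ CH p X (b k') :=
          CH_mono_cond hp fun ω ω' _ _ e => (Prod.ext_iff.mp e).1
        have m5 := h3 k' (by omega)
        have e1 : (k' + 1 - 1 : ℕ) = k' := rfl
        have e2 : (k' + 1 + 1 - 1 : ℕ) = k' + 1 := rfl
        rw [e1] at m2
        rw [e2]
        push_cast at m2 ⊢
        linarith
  have h5 := key n le_rfl hn
  have h6 : ∑ i ∈ Finset.range n, (x / n + (2 * κ + κ')) < ∑ i ∈ Finset.range n,
      (CH p (D i) (a i) - CH p (D i) (fun ω => (X ω, a i ω))) := by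
    refine Finset.sum_lt_sum_of_nonempty ⟨0, Finset.mem_range.2 hn⟩ fun i hi => ?_
    have := hcon i (Finset.mem_range.1 hi)
    linarith
  rw [Finset.sum_const, Finset.card_range, nsmul_eq_mul] at h6
  have h7 : (n : ℝ) * (x / n + (2 * κ + κ')) = x + n * (2 * κ + κ') := by
    have : (n : ℝ) ≠ 0 := by exact_mod_cast hn.ne'
    field_simp
  rw [h7] at h6
  have h8 := CH_nonneg hp X (b (n - 1))
  have h9 : 0 ≤ κ := (CH_nonneg hp (a 0) (b 0)).trans (h1 0 hn)
  linarith

end Pool.PRC54
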