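import Pool.Agent.H54.PRC.Win
import Pool.Agent.H54.PRC.Fre

/-!
# Many windows, one law

`bx_law`: one quantity `X` is free at one of `n` windows, there `win_law` applies.
-/

set_option autoImplicit false

namespace Pool.PRC54

open Finset Real MvPolynomial
open Pool.Agent.H49.Ent Pool.Agent.H32.Dense Pool.STK Pool.KA Pool.KSAT Pool.K2S Pool.PB Pool.S6C
open Pool.GEN Pool.CHT Pool.CHX Pool.ISO Pool.D2R Pool.PRQ76 Pool.LA91 Pool.PR46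
open Pool.OWN68 (CH_pair)
open Pool.AVG5 (fl_mul of_fl CH_near)
open Pool.BFL (Pb)
open Pool.MIC (mi_event CH_ev_le isLaw_ev ev_pos)
open Pool.PB.Trl (rt rt_mem t_rt)

variable {m J : ℕ}

/-- Coarse digits from fine digits. -/
theorem oc_coarse {F : Fam m J} {κ : Fin m} {Wh : ℕ} {V : Type} (z' : LnT F → V)
    (G : V → MvPolynomial (Option (Fin m)) ℝ) {N N' : ℝ} (h : N' ≤ N) {q : F.Ω → ℝ}
    (hq : IsLaw q) {β : Type} (Y : F.Ω → β) (hY : ∀ ω ω', 0 < q ω → 0 < q ω' → Y ω = Y ω' →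
      oc F κ Wh z' G N ω = oc F κ Wh z' G N ω') :
    CH q (oc F κ Wh z' G N') Y ≤ Real.log 5 := by
  have e5 : (5 : ℝ) = 2 * ((2 : ℕ) : ℝ) + 1 := by norm_num
  rw [e5]
  refine CH_pair hq _ _ fun ω ω' hω hω' e => ?_
  have hp : (0 : ℝ) < 2 ^ (N * J) := Real.rpow_pos_of_pos (by norm_num) _
  have hp' : (0 : ℝ) < 2 ^ (N' * J) := Real.rpow_pos_of_pos (by norm_num) _
  have b1 := of_fl hp (hY ω ω' hω hω' e)
  have b3 := fl_mul hp'.le b1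
  have hle : (2 : ℝ) ^ (N' * J) ≤ 2 ^ (N * J) :=
    Real.rpow_le_rpow_of_exponent_le (by norm_num)
      (mul_le_mul_of_nonneg_right h (Nat.cast_nonneg J))
  have b6 : (2 : ℝ) ^ (N' * J) * (1 / 2 ^ (N * J)) + 1 ≤ 2 := by
    have : (2 : ℝ) ^ (N' * J) * (1 / 2 ^ (N * J)) ≤ 1 := by
      rw [mul_one_div, div_le_one hp]
      exact hle
    linarith
  have b8 : ((|oc F κ Wh z' G N' ω - oc F κ Wh z' G N' ω'| : ℤ) : ℝ) ≤ (((2 : ℕ) : ℤ) : ℝ) := by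
    push_cast
    have b9 := b3.trans b6
    unfold oc
    exact b9
  exact_mod_cast b8

/-- The information of a coarser quantity. -/
theorem mi_coarse {Ω α δ δ' χ : Type} [Fintype Ω] {p : Ω → ℝ} (hp : ∀ ω, 0 ≤ p ω) (a : Ω → α)
    (D : Ω → δ) (D' : Ω → δ') (X : Ω → χ) {s κ : ℝ}
    (h : CH p D a ≤ CH p D (fun ω => (X ω, a ω)) + s) (hκ : CH p D' (fun ω => (D ω, a ω)) ≤ κ) :
    CH p D' a ≤ CH p D' (fun ω => (X ω, a ω)) + (s + κ) := by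
  have sw : ∀ {β : Type} (Y : Ω → β), CH p (fun ω => (D ω, D' ω)) Y =
      CH p (fun ω => (D' ω, D ω)) Y := by
    intro β Y
    refine CH_congr hp ?_ ?_ (fun _ _ _ _ e => e) (fun _ _ _ _ e => e)
    · intro ω ω' _ _ e
      have e1 := (Prod.ext_iff.mp e).1
      exact Prod.ext (Prod.ext_iff.mp e1).2 (Prod.ext_iff.mp e1).1
    · intro ω ω' _ _ e
      have e1 := (Prod.ext_iff.mp e).1
      exact Prod.ext (Prod.ext_iff.mp e1).2 (Prod.ext_iff.mp e1).1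
  have c1 := CH_chain hp D D' a
  have c2 := CH_chain hp D' D a
  have c3 := sw a
  have d1 := CH_chain hp D D' (fun ω => (X ω, a ω))
  have d2 := CH_chain hp D' D (fun ω => (X ω, a ω))
  have d3 := sw (fun ω => (X ω, a ω))
  have e1 : CH p D (fun ω => (D' ω, (X ω, a ω))) ≤ CH p D (fun ω => (D' ω, a ω)) :=
    CH_mono_cond hp fun ω ω' _ _ e => by
      simp only [Prod.mk.injEq] at e ⊢
      exact ⟨e.1, e.2.2⟩
  have e2 := CH_nonneg hp D' (fun ω => (D ω, (X ω, a ω)))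
  linarith

/-- **The entropies of one window.** -/
structure WinE (F : Fam m J) (c : ℕ → Fin m) (r W Wh a l : ℕ) {V Vz Vj Γ 𝒳 𝒳' : Type}
    (z' : LnT F → V) (Gu : V → MvPolynomial (Option (Fin m)) ℝ) (zL : LnT F → Vz)
    (zz : F.Ω → Vz) (y : F.Ω → Γ) (Nl Nj N' : ℝ) (zj : F.Ω → Vj) (XL : LnT F → 𝒳)
    (X : F.Ω → 𝒳') (q : F.Ω → ℝ) (c₁ κz κX κX' ξ al : ℝ) : Prop where
  j0 : 0 ≤ Nj
  jl : Nj ≤ Nl
  nl : N' ≤ Nl
  kz : CH q (fun ω => z' (slam F Wh ω)) zz ≤ κz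
  kX : CH q (fun ω => XL (slam F W ω)) (fun ω => (X ω, (zz ω, y ω))) ≤ κX
  kX' : CH q X (fun ω => (Cc F ((Finset.range r).image c) Wh W a l z' zL XL (slam F W ω), F.T ω)) ≤
    κX'
  pr : CH q (oc F (c r) Wh z' Gu Nl) (fun ω => (oc F (c r) Wh z' Gu Nj ω, (zz ω, y ω))) ≤
    CH q (oc F (c r) Wh z' Gu Nl) (fun ω => (oc F (c r) Wh z' Gu Nj ω, (zj ω, (zz ω, y ω)))) + ξ
  al : ∀ E : F.Ω → Prop, c₁ ≤ Pb q E → al ≤ CH (cond q E True) (oc F (c r) Wh z' Gu N')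
    (fun ω => (oc F (c r) Wh z' Gu Nj ω, (zj ω, (zz ω, y ω))))

/-- **Many windows, one law**: at one window the velocity of the slope path is small. -/
theorem bx_law (r D d : ℕ) {h α ε : ℝ} (hh : 0 < h) (hh1 : h ≤ 1) (hα : 0 < α) (hε : 0 < ε) :
    ∃ δ > 0, ∃ c₁ > 0, ∃ C : ℕ, 1 ≤ C ∧ ∃ C₂ : ℝ, 1 ≤ C₂ ∧ ∃ Q₀ : ℕ, ∀ Q ≥ Q₀,
      ∀ {m J : ℕ} {F : Fam m J} {A : F.Ω → Prop} {c : ℕ → Fin m} {n₀ : ℕ}
      {W j Wh : ℕ → ℕ} {a l n x e hi v : ℕ} {pu pn β₀ β₁ : ℕ → ℕ} {gw gj : ℕ → ℕ → ℕ}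
      {Gw Gj : ℕ → PtT F → ℕ → MvPolynomial (Option (Fin m)) ℝ}
      {Hw Hj : ℕ → LnT F → ℕ → MvPolynomial (Option (Fin m)) ℝ} {V Vz Vj 𝒳 : ℕ → Type}
      {Γ 𝒳' : Type} {z' : ∀ i, LnT F → V i}
      {Gu : ∀ i, V i → MvPolynomial (Option (Fin m)) ℝ} {zL : ∀ i, LnT F → Vz i}
      {zz : ∀ i, F.Ω → Vz i} {y : F.Ω → Γ} {Nl Nj N' : ℕ → ℝ} {zj : ∀ i, F.Ω → Vj i}
      {X : F.Ω → 𝒳'} {XL : ∀ i, LnT F → 𝒳 i} {cA : ℕ → LnT F → Polynomial ℝ}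
      {c₀ : ℕ → LnT F → ℝ} {q : F.Ω → ℝ} {κz κX κX' eT ξ xX κ al : ℝ},
      0 < n₀ →
      (∀ i < n₀, WinG F A c r D d (W i) (j i) (Wh i) a l n x e (gw i) (gj i) (Gw i) (Gj i) (Hw i)
        (Hj i) (z' i) (Gu i) (zL i) (zz i) y (Nl i) (zj i) (XL i) (cA i) (c₀ i)) →
      (∀ i < n₀, WinN C r J (W i) (j i) a l n x e hi v ⌊Nj i * J⌋₊ ⌊N' i * J⌋₊ ⌊Nl i * J⌋₊ (pu i)
        (pn i) (β₀ i) (β₁ i) Q (gw i) (gj i)) →
      IsLaw q → (∀ ω, 0 < q ω → A ω) →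
      J * Real.log 2 - eT ≤ CH q F.T (fun ω => (F.l ω, F.Z ω)) →
      (∀ i < n₀, WinE F c r (W i) (Wh i) a l (z' i) (Gu i) (zL i) (zz i) y (Nl i) (Nj i) (N' i)
        (zj i) (XL i) X q c₁ κz κX κX' ξ al) →
      (∀ i, i + 1 < n₀ → CH q (fun ω => (oc F (c r) (Wh i) (z' i) (Gu i) (Nl i) ω,
          (oc F (c r) (Wh i) (z' i) (Gu i) (Nj i) ω, (zj i ω, (zz i ω, y ω)))))
        (fun ω => (oc F (c r) (Wh (i + 1)) (z' (i + 1)) (Gu (i + 1)) (Nj (i + 1)) ω,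
          (zj (i + 1) ω, (zz (i + 1) ω, y ω)))) ≤ κ) →
      CH q X (fun ω => (oc F (c r) (Wh 0) (z' 0) (Gu 0) (Nj 0) ω, (zj 0 ω, (zz 0 ω, y ω)))) ≤ xX →
      0 ≤ κ → 0 ≤ ξ → 0 ≤ eT →
      (ξ + (xX / n₀ + 2 * κ)) + (κz + κX + κX' + eT) + (2 * m + 6) * Real.log 9 ≤ δ * Q →
      α * Q + ((κz + κX + (xX / n₀ + 2 * κ + 2 * Real.log 5) + Real.log 2) / c₁ +
        (m + 3) * Real.log 9) ≤ al →
      (∀ i < n₀, RowH F c r (W i) (Gw i) (Cc F ((Finset.range r).image c) (Wh i) (W i) a l (z' i)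
        (zL i) (XL i)) q h δ c₁ C n x Q (pn i) (pu i) (gw i r) v) →
      ∃ i < n₀, Pb q (fun ω => ¬ ∀ s : ℝ, 0 ≤ s → s ≤ 1 →
        |(cA i (slam F (W i) ω)).derivative.eval s| ≤
          C₂ * ((2 : ℝ) ^ (ε * Q) * (2 ^ (pu i) / 2 ^ (pn i)) / 2 ^ (β₁ i))) ≤ ε := by
  obtain ⟨δ, hδ, c₁, hc₁, C, hC, C₂, hC₂, Q₀, hwin⟩ := win_law r D d hh hh1 hα hε
  refine ⟨δ, hδ, c₁, hc₁, C, hC, C₂, hC₂, Q₀, ?_⟩
  intro Q hQ m J F A c n₀ W j Wh a l n x e hi v pu pn β₀ β₁ gw gj Gw Gj Hw Hj V Vz Vj 𝒳 Γ 𝒳' z' Gu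
    zL zz y Nl Nj N' zj X XL cA c₀ q κz κX κX' eT ξ xX κ al hn₀ hG hN hq hqA hT hE htel hX hκ hξ
    heT hsum hal hrow
  have h0 := hq.nonneg
  have l5 : 0 ≤ Real.log 5 := Real.log_nonneg (by norm_num)
  have l9 : 0 ≤ Real.log 9 := Real.log_nonneg (by norm_num)
  have l59 : Real.log 5 ≤ Real.log 9 := Real.log_le_log (by norm_num) (by norm_num)
  have hm0 : (0 : ℝ) ≤ m := Nat.cast_nonneg m
  obtain ⟨aa, haa⟩ : ∃ aa : ∀ i : ℕ, F.Ω → ℤ × Vj i × Vz i × Γ, aa = fun i ω =>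
    (oc F (c r) (Wh i) (z' i) (Gu i) (Nj i) ω, (zj i ω, (zz i ω, y ω))) := ⟨_, rfl⟩
  obtain ⟨DD, hDD⟩ : ∃ DD : ℕ → F.Ω → ℤ, DD = fun i =>
    oc F (c r) (Wh i) (z' i) (Gu i) (Nl i) := ⟨_, rfl⟩
  have f0 : ∀ {S₁ S₂ : Type} (A₁ : F.Ω → S₁) (A₂ : F.Ω → S₂),
      CH q A₁ (fun ω => (A₂ ω, A₁ ω)) = 0 ∧ CH q A₂ (fun ω => (A₂ ω, A₁ ω)) = 0 := by
    intro S₁ S₂ A₁ A₂
    exact ⟨CH_eq_zero h0 fun ω ω' _ _ e => (Prod.ext_iff.mp e).2,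
      CH_eq_zero h0 fun ω ω' _ _ e => (Prod.ext_iff.mp e).1⟩
  have f1 : ∀ i < n₀, CH q (aa i) (fun ω => (DD i ω, aa i ω)) ≤ κ := fun i _ => by
    rw [(f0 (aa i) (DD i)).1]
    exact hκ
  have f2 : ∀ i < n₀, CH q (DD i) (fun ω => (DD i ω, aa i ω)) ≤ 0 := fun i _ => by
    rw [(f0 (aa i) (DD i)).2]
  have f3 : ∀ i, i + 1 < n₀ → CH q (fun ω => (DD i ω, aa i ω)) (aa (i + 1)) ≤ κ := by
    intro i hi'
    rw [haa, hDD]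
    exact htel i hi'
  have f4 : CH q X (aa 0) ≤ xX := by
    rw [haa]
    exact hX
  obtain ⟨i, hi', hfree⟩ := free_pick h0 aa (fun i ω => (DD i ω, aa i ω)) DD X hn₀ f1 f2 f3 f4
  rw [haa, hDD] at hfree
  beta_reduce at hfree
  obtain ⟨s, hs⟩ : ∃ s : ℝ, s = xX / n₀ + 2 * κ := ⟨_, rfl⟩
  have hE' := hE i hi'
  rw [add_zero, ← hs] at hfree
  rw [← hs] at hsum hal
  -- the order of the conditions
  have sw : ∀ N : ℝ, CH q (oc F (c r) (Wh i) (z' i) (Gu i) N)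
      (fun ω => (X ω, (oc F (c r) (Wh i) (z' i) (Gu i) (Nj i) ω, (zj i ω, (zz i ω, y ω))))) =
      CH q (oc F (c r) (Wh i) (z' i) (Gu i) N)
      (fun ω => (oc F (c r) (Wh i) (z' i) (Gu i) (Nj i) ω, (zj i ω, (X ω, (zz i ω, y ω))))) := by
    intro N
    refine le_antisymm (CH_mono_cond h0 fun ω ω' _ _ e => ?_) (CH_mono_cond h0 fun ω ω' _ _ e => ?_)
    · simp only [Prod.mk.injEq] at e ⊢
      exact ⟨e.2.1, e.2.2.1, e.1, e.2.2.2⟩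
    · simp only [Prod.mk.injEq] at e ⊢
      exact ⟨e.2.2.1, e.1, e.2.1, e.2.2.2⟩
  have hmi := mi_coarse h0 _ _ (oc F (c r) (Wh i) (z' i) (Gu i) (N' i)) X hfree
    (oc_coarse (z' i) (Gu i) hE'.nl hq _ fun ω ω' _ _ e => (Prod.ext_iff.mp e).1)
  rw [sw (Nl i)] at hfree
  rw [sw (N' i)] at hmi
  have hθ0 : (s + Real.log 5) ≤ s + 2 * Real.log 5 := by linarith
  have hs0 : 0 ≤ s := by
    have h1 := CH_nonneg h0 X (fun ω => (oc F (c r) (Wh 0) (z' 0) (Gu 0) (Nj 0) ω,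
      (zj 0 ω, (zz 0 ω, y ω))))
    have h2 : 0 ≤ xX := h1.trans hX
    rw [hs]
    positivity
  have hkz0 : 0 ≤ κz := (CH_nonneg h0 _ _).trans hE'.kz
  have hkX0 : 0 ≤ κX := (CH_nonneg h0 _ _).trans hE'.kX
  have hkX0' : 0 ≤ κX' := (CH_nonneg h0 _ _).trans hE'.kX'
  refine ⟨i, hi', hwin Q hQ (x₁ := CH q (oc F (c r) (Wh i) (z' i) (Gu i) (Nl i))
      (fun ω => (oc F (c r) (Wh i) (z' i) (Gu i) (Nj i) ω, (zz i ω, y ω))))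
    (x₂ := CH q (oc F (c r) (Wh i) (z' i) (Gu i) (Nl i)) (fun ω =>
      (oc F (c r) (Wh i) (z' i) (Gu i) (Nj i) ω, (zj i ω, (X ω, (zz i ω, y ω))))))
    (θ := s + Real.log 5) (X := X)
    (hG i hi') (hN i hi') hq hqA hE'.j0 hE'.jl hE'.nl hT hE'.kz hE'.kX hE'.kX' le_rfl le_rfl ?_ ?_
    hmi ?_ (hrow i hi')⟩
  · nlinarith
  · have := hE'.pr
    linarith
  · intro E hE₁
    refine le_trans ?_ (hE'.al E hE₁)
    refine le_trans ?_ hal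
    have h3 : (κz + κX + (s + Real.log 5) + Real.log 2) / c₁ ≤
        (κz + κX + (s + 2 * Real.log 5) + Real.log 2) / c₁ :=
      div_le_div_of_nonneg_right (by linarith) hc₁.le
    linarith

end Pool.PRC54
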