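import Pool.Agent.H54.PRC.Bxe

/-!
# The velocity of the slope path, one event

`Wdt`: the data of one window. `bx_ev`: on a large part of the event the slope path of the label has
a small velocity.
-/

set_option autoImplicit false

namespace Pool.PRC54

open Finset Real MvPolynomial
open Pool.Agent.H49.Ent Pool.Agent.H32.Dense Pool.STK Pool.KA Pool.KSAT Pool.K2S Pool.PB Pool.S6C
open Pool.GEN Pool.CHT Pool.CHX Pool.ISO Pool.D2R Pool.PRQ76 Pool.LA91 Pool.PR46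
open Pool.OWN68 (CH_pair CH_pis)
open Pool.AVG5 (fl_mul of_fl CH_near)
open Pool.BFL (Pb)
open Pool.D2G30 Pool.V1E
open Pool.FLF (Fam.sub)
open Pool.CR99 (deg_res eval_res der_res KOk kok_of)
open Pool.MIC (mi_event CH_ev_le isLaw_ev ev_pos)
open Pool.PB.Trl (rt rt_mem t_rt)

variable {m J : ℕ}

/-- **The data of one window**: window `W`, ball `j`, window `Wh` of the label `z', Gu` of `u`,
precisions `gw`, `gj`, charts `Gw`, `Gj`, records `zz`, `zj`, digits of the velocity. -/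
structure Wdt (F : Fam m J) : Type 1 where
  W : ℕ
  j : ℕ
  Wh : ℕ
  gw : ℕ → ℕ
  gj : ℕ → ℕ
  Gw : PtT F → ℕ → MvPolynomial (Option (Fin m)) ℝ
  Gj : PtT F → ℕ → MvPolynomial (Option (Fin m)) ℝ
  Hw : LnT F → ℕ → MvPolynomial (Option (Fin m)) ℝ
  Hj : LnT F → ℕ → MvPolynomial (Option (Fin m)) ℝ
  V : Type
  Vz : Type
  Vj : Type
  z' : LnT F → V
  Gu : V → MvPolynomial (Option (Fin m)) ℝ
  zL : LnT F → Vz
  zz : F.Ω → Vz
  zj : F.Ω → Vj
  Nl : ℝ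
  Nj : ℝ
  N' : ℝ
  Nw : ℝ
  pu : ℕ
  pn : ℕ
  β₀ : ℕ
  β₁ : ℕ

/-- The code of the own velocity of `u`. -/
noncomputable def Wdt.o {F : Fam m J} (X : Wdt F) (c : ℕ → Fin m) (r : ℕ) (N : ℝ) : F.Ω → ℤ :=
  oc F (c r) X.Wh X.z' X.Gu N

/-- The code at the natural digits of the ball, the record of the ball, the record, the base. -/
noncomputable def Wdt.a {F : Fam m J} {Γ : Type} (X : Wdt F) (c : ℕ → Fin m) (r : ℕ) (y : F.Ω → Γ)
    (ω : F.Ω) : ℤ × X.Vj × X.Vz × Γ :=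
  (X.o c r X.Nj ω, (X.zj ω, (X.zz ω, y ω)))

/-- The geometry. -/
def Wdt.G {F : Fam m J} {Γ : Type} (X : Wdt F) (B : F.Ω → Prop) (c : ℕ → Fin m)
    (r D W₀ a l n e x₀ : ℕ) (y : F.Ω → Γ) (Ht : LnT F → MvPolynomial (Option (Fin m)) ℝ) : Prop :=
  GeoI F B c r D W₀ X.W X.j X.Wh a l n e x₀ X.gw X.gj X.Gw X.Gj X.Hw X.Hj X.z' X.Gu X.zL X.zz y X.Nl
    X.zj Ht

/-- **The numbers.** -/
structure Wdt.N {F : Fam m J} (X : Wdt F) (C r D W₀ a l n e x xk x₀ b₁ hi v Q ρ : ℕ) (g₀ : ℕ → ℕ)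
    (θ : ℝ) : Prop where
  n : WinN C r J X.W X.j a l n x e hi v ⌊X.Nj * J⌋₊ ⌊X.N' * J⌋₊ ⌊X.Nl * J⌋₊ X.pu X.pn X.β₀ X.β₁ Q
    X.gw X.gj
  j0 : 0 ≤ X.Nj
  jl : X.Nj ≤ X.Nl
  nl : X.N' ≤ X.Nl
  wl : X.Nw ≤ X.Nl
  supw : e + (Finset.Icc r (r + 1)).sup X.gw ≤ X.gw r + v
  xw : x ≤ X.gw (r + 1)
  xj : x ≤ X.gj (r + 1)
  rho : (D * D : ℝ) * (2 ^ g₀ r / 2 ^ g₀ (r + 1)) ≤
    2 ^ x * (2 ^ X.gj r / 2 ^ X.gj (r + 1)) * (2 ^ ρ * 2 ^ (X.W - W₀))
  kw : (2 : ℝ) ^ (X.Nw * J) * 2 ^ X.W ≤ 2 ^ b₁ * 2 ^ X.gw r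
  kj : (2 : ℝ) ^ (X.N' * J) * 2 ^ X.j ≤ 2 ^ b₁ * 2 ^ X.gj r
  tm : C * (θ + 1) ≤ ((J : ℝ) - X.W) * Real.log 2

/-- **The entropies** for the law `q`. -/
structure Wdt.E {F : Fam m J} {Γ : Type} (X : Wdt F) (c : ℕ → Fin m) (r C n x Q v : ℕ)
    (y : F.Ω → Γ) (q : F.Ω → ℝ) (h δ ξ alw al θ : ℝ) : Prop where
  pr : CH q (X.o c r X.Nl) (fun ω => (X.o c r X.Nj ω, (X.zz ω, y ω))) ≤
    CH q (X.o c r X.Nl) (X.a c r y) + ξ
  aw : alw < CH q (X.o c r X.Nw) (fun ω => (X.zz ω, y ω))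
  aj : al ≤ CH q (X.o c r X.N') (X.a c r y)
  row : ∀ k ≤ Q + 1, ∃ k' ≤ k, ∃ (β : Type) (Zs : F.Ω → β) (P P' PU κ t : ℝ),
    (X.pn : ℝ) ≤ P ∧ P' + k' ≤ X.pn ∧ PU ≤ X.pu ∧ PU ≤ X.gw r + v ∧
    CH q Zs (fun ω => (X.zz ω, y ω)) ≤ κ ∧
    CH q (fun ω => ⌊(2 : ℝ) ^ P * oh F c (r + 1) X.Gw ω⌋)
      (fun ω => (⌊(2 : ℝ) ^ P' * oh F c (r + 1) X.Gw ω⌋,
        (⌊(2 : ℝ) ^ PU * oh F c r X.Gw ω⌋, Zs ω))) ≤ t ∧
    t + κ + m * Real.log 7 + (θ + Real.log 5) + C * (n + x + 1) + ((k : ℝ) - k') * Real.log 2 ≤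
      (1 - h) * k * Real.log 2 + δ * Q

theorem pb_not {Ω : Type} [Fintype Ω] {p : Ω → ℝ} (hp : IsLaw p) (E : Ω → Prop) :
    Pb p E + Pb p (fun ω => ¬ E ω) = 1 := by
  classical
  rw [← hp.sum_one]
  unfold Pb
  rw [← Finset.sum_add_distrib]
  refine Finset.sum_congr rfl fun ω _ => ?_
  by_cases h : E ω <;> simp [h]

/-- The mass of a part of a part. -/
theorem pb_cond {Ω : Type} [Fintype Ω] {p : Ω → ℝ} {A : Ω → Prop}
    (hA : 0 < Pe p A) (E : Ω → Prop) :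
    Pb (cond p A True) E * Pe p A = Pe p (fun ω => A ω ∧ E ω) := by
  rw [← Pool.MIC.law_True]
  have h1 : law (cond p A True) E True = Pe p (fun ω => A ω ∧ E ω) / Pe p A := Pe_cond E
  rw [h1, div_mul_cancel₀ _ hA.ne']

theorem cond_two {Ω : Type} [Fintype Ω] {p : Ω → ℝ} {A : Ω → Prop} (hA : 0 < Pe p A)
    (E : Ω → Prop) : cond (cond p A True) E True = cond p (fun ω => A ω ∧ E ω) True :=
  Piece.cond_inter (p := p) (A := A) (B := E) hA.ne'

theorem WinN.mono {C C' r W j a l n x e hi v nj n' nd pu pn β₀ β₁ Q : ℕ} {gw gj : ℕ → ℕ}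
    (H : WinN C r J W j a l n x e hi v nj n' nd pu pn β₀ β₁ Q gw gj) (h : C' ≤ C) :
    WinN C' r J W j a l n x e hi v nj n' nd pu pn β₀ β₁ Q gw gj := by
  have h1 : C' * (n + 1) ≤ C * (n + 1) := Nat.mul_le_mul_right _ h
  refine ⟨H.Wj, fun i hi' => ?_, fun i hi' => ?_, fun i hi' => ?_, H.sup, H.ha, H.hl, H.hpn, ?_,
    H.puj, ?_, H.bw, H.pv, H.pd, H.pj, H.jd, H.nn, H.b1, H.bQ, H.QJ⟩
  · have := H.hw i hi'
    omega
  · have := H.hj i hi'
    omega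
  · have := H.hj' i hi'
    omega
  · have := H.pnj
    omega
  · have := H.b0
    omega

/-- The rows for the window law, from the rows of the law. -/
theorem row_of {F : Fam m J} {Γ : Type} {X : Wdt F} {A : F.Ω → Prop} {c : ℕ → Fin m}
    {r D W₀ a l n e x₀ C C' x Q v ρ : ℕ} {y : F.Ω → Γ} {g₀ : ℕ → ℕ}
    {Ht : LnT F → MvPolynomial (Option (Fin m)) ℝ} {q : F.Ω → ℝ} {h δ ξ alw al θ c₁ : ℝ}
    (hG : X.G A c r D W₀ a l n e x₀ y Ht) (hq : IsLaw q) (hqA : ∀ ω, 0 < q ω → A ω)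
    (hC : C' ≤ C) (hc₁ : 0 < c₁)
    (hE : ∀ E : F.Ω → Prop, c₁ ≤ Pb q E →
      X.E c r C n x Q v y (cond q E True) h δ ξ alw al θ ∧
        J * Real.log 2 - θ ≤ CH (cond q E True) F.T (fun ω => (F.l ω, F.Z ω))) :
    RowH F c r X.W X.Gw (Cc F ((Finset.range r).image c) X.Wh X.W a l X.z' X.zL
      (xl F c r W₀ X.W D ρ g₀ X.gw Ht X.Hw)) q h δ c₁ C' n x Q X.pn X.pu (X.gw r) v := by
  intro k hk E hcE
  obtain ⟨h1, h2⟩ := hE E hcE
  obtain ⟨k', hk', β, Zs, P, P', PU, κ, t, r1, r2, r3, r4, r5, r6, r7⟩ := h1.row k hk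
  have hP : 0 < Pb q E := lt_of_lt_of_le hc₁ hcE
  have hqE := isLaw_ev hq E hP
  have h0 := hqE.nonneg
  have hqEA : ∀ ω, 0 < cond q E True ω → A ω := fun ω hω => hqA ω (ev_pos hq.nonneg E hω).1
  refine ⟨k', hk', β, Zs, P, P', PU, κ + m * Real.log 7, t, θ, r1, r2, r3, r4, h2, ?_, r6, ?_⟩
  · obtain ⟨Y, hY⟩ : ∃ Y : F.Ω → ℕ × (X.Vz × X.V × (Fin m → ℤ × ℤ) × ((Fin D → ℤ) × ℤ × ℕ) × ℕ),
      Y = fun ω => (F.T ω, Cc F ((Finset.range r).image c) X.Wh X.W a l X.z' X.zL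
        (xl F c r W₀ X.W D ρ g₀ X.gw Ht X.Hw) (slam F X.W ω)) := ⟨_, rfl⟩
    rw [← hY]
    have hYe : ∀ ω ω', Y ω = Y ω' → F.T ω = F.T ω' ∧ X.zL (slam F X.W ω) = X.zL (slam F X.W ω') ∧
        vI ((Finset.range r).image c) X.W a l F (slam F X.W ω) =
          vI ((Finset.range r).image c) X.W a l F (slam F X.W ω') := by
      intro ω ω' e1
      rw [hY] at e1
      unfold Cc at e1
      simp only [Prod.mk.injEq] at e1
      exact ⟨e1.1, e1.2.1, e1.2.2.2.1⟩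
    have c1 := CH_le_add h0 Zs (yI ((Finset.range r).image c) a l F) Y
    have c2 : CH (cond q E True) (yI ((Finset.range r).image c) a l F) Y ≤ m * Real.log 7 :=
      yI_few hqE _ hG.wd.hW hG.wd.ha Y fun ω ω' _ _ e1 => by
        obtain ⟨f1, -, f3⟩ := hYe ω ω' e1
        exact ⟨f1, f3⟩
    have c3 : CH (cond q E True) Zs
        (fun ω => (yI ((Finset.range r).image c) a l F ω, Y ω)) ≤
        CH (cond q E True) Zs (fun ω => (X.zz ω, y ω)) :=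
      CH_mono_cond h0 fun ω ω' hω hω' e1 => by
        obtain ⟨e2, e3⟩ := Prod.ext_iff.mp e1
        obtain ⟨-, f2, -⟩ := hYe ω ω' e3
        refine Prod.ext ?_ (hG.wd.yk ω ω' e2)
        rw [hG.wd.zl ω (hqEA ω hω), hG.wd.zl ω' (hqEA ω' hω')]
        exact f2
    linarith
  · have h3 : (C' : ℝ) * (n + x + 1) ≤ C * (n + x + 1) :=
      mul_le_mul_of_nonneg_right (by exact_mod_cast hC) (by positivity)
    linarith

/-- **The velocity of the slope path**, on a large part of an event. -/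
theorem bx_ev (m r D : ℕ) {h α ε : ℝ} (hh : 0 < h) (hh1 : h ≤ 1) (hα : 0 < α) (hε : 0 < ε)
    (hε2 : ε ≤ 1 / 2) :
    ∃ δ > 0, ∃ c₁ > 0, ∃ C : ℕ, 1 ≤ C ∧ ∃ C₂ : ℝ, 1 ≤ C₂ ∧ ∃ Q₀ : ℕ, ∀ n₀ : ℕ, 0 < n₀ →
      ∃ cs > 0, ∀ Q ≥ Q₀, ∀ {J : ℕ} {F : Fam m J} {B : F.Ω → Prop} {c : ℕ → Fin m}
      {X : ℕ → Wdt F} {Γ : Type} {y : F.Ω → Γ} {a l n e x xk x₀ b₁ hi v ρ : ℕ}
      {Ht : LnT F → MvPolynomial (Option (Fin m)) ℝ} {ξ κ alw al θ S : ℝ},
      (∀ i < n₀, (X i).G B c r D (X 0).W a l n e x₀ y Ht) →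
      (∀ i < n₀, (X i).N C r D (X 0).W a l n e x xk x₀ b₁ hi v Q ρ (X 0).gw θ) →
      Real.exp (C * (θ + 1)) * 2 ^ x₀ + 2 ^ xk + 1 ≤ 2 ^ x → x₀ ≤ x →
      2 * D * D * b₁ + C * (n + 1) ≤ xk → 0 < Pe F.p B → 0 ≤ θ → 0 ≤ ξ → 0 ≤ κ →
      (∀ (A : F.Ω → Prop) (hA : 0 < Pe F.p A), Sub A B → cs * Pe F.p B ≤ Pe F.p A →
        (Fam.sub F A hA).Tm θ) →
      (∀ A : F.Ω → Prop, Sub A B → cs * Pe F.p B ≤ Pe F.p A → ∀ i < n₀,
        (X i).E c r C n x Q v y (cond F.p A True) h δ ξ alw al θ) →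
      (∀ A : F.Ω → Prop, Sub A B → cs * Pe F.p B ≤ Pe F.p A → ∀ i, i + 1 < n₀ →
        CH (cond F.p A True) (fun ω => ((X i).o c r (X i).Nl ω, (X i).a c r y ω))
          ((X (i + 1)).a c r y) ≤ κ) →
      Real.log (2 * D + 1) + (m + 1) * Real.log 9 ≤ alw →
      Real.log (2 * D + 1) + (m + 1) * Real.log 9 < al →
      (ξ + (D * ((C + x + ρ) * Real.log 2) / n₀ + 2 * κ)) +
        ((C * (n + 1) + x + 6) * Real.log 2 + θ) + (2 * m + 6) * Real.log 9 ≤ δ * Q →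
      α * Q + (((C * (n + 1) + x + 6) * Real.log 2 + (D * ((C + x + ρ) * Real.log 2) / n₀ + 2 * κ +
        2 * Real.log 5) + Real.log 2) / c₁ + (m + 3) * Real.log 9) ≤ al →
      (∀ i < n₀, (2 : ℝ) ^ ((X i).W - (X 0).W) * (C₂ * ((2 : ℝ) ^ (ε * Q) *
        (2 ^ (X i).pu / 2 ^ (X i).pn) / 2 ^ (X i).β₁)) ≤ S) →
      ∃ A : F.Ω → Prop, Sub A B ∧ cs * Pe F.p B ≤ Pe F.p A ∧ ∀ ω, A ω →
        |(Polynomial.derivative (pth F c r (X 0).W Ht (slam F (X 0).W ω))).eval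
          (rt F (X 0).W ω)| ≤ S := by
  obtain ⟨Ck, hCk, hk1⟩ := k1_win D r
  obtain ⟨Cr, hCr, hrw⟩ := rem_win m D
  obtain ⟨Cx, hCx, hxx⟩ := xx_le D
  obtain ⟨Cy, hCy, hkx⟩ := kx_le r D
  obtain ⟨δ, hδ, c₁, hc₁, Cl, hCl, C₂, hC₂, Q₀, hlaw⟩ := bx_law r D D hh hh1 hα hε
  obtain ⟨C, hC⟩ : ∃ C : ℕ, C = Ck + ⌈Cr⌉₊ + Cx + Cy + Cl := ⟨_, rfl⟩
  have hCrC : Cr ≤ C := by
    refine (Nat.le_ceil Cr).trans ?_
    rw [hC]
    exact_mod_cast (by omega : ⌈Cr⌉₊ ≤ Ck + ⌈Cr⌉₊ + Cx + Cy + Cl)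
  refine ⟨δ, hδ, c₁, hc₁, C, by omega, C₂, hC₂, Q₀, ?_⟩
  intro n₀ hn₀
  obtain ⟨cs, hcs⟩ : ∃ cs : ℝ, cs = (1 / 2) ^ (3 * n₀ + 1) * min 1 c₁ := ⟨_, rfl⟩
  have hcs0 : 0 < cs := by
    rw [hcs]
    exact mul_pos (by positivity) (lt_min one_pos hc₁)
  refine ⟨cs, hcs0, ?_⟩
  intro Q hQ J F B c X Γ y a l n e x xk x₀ b₁ hi v ρ Ht ξ κ alw al θ S hG hN hx hx₀ hxk hB hθ hξ hκ
    hTm hE htel halw hal2 hsum hal hS
  have hmin1 : min 1 c₁ ≤ 1 := min_le_left _ _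
  have hmin2 : min 1 c₁ ≤ c₁ := min_le_right _ _
  have hmin0 : 0 < min 1 c₁ := lt_min one_pos hc₁
  have hcsk : ∀ k ≤ 3 * n₀ + 1, cs ≤ (1 / 2 : ℝ) ^ k := by
    intro k hk
    rw [hcs]
    have e1 : (1 / 2 : ℝ) ^ (3 * n₀ + 1) ≤ (1 / 2) ^ k :=
      pow_le_pow_of_le_one (by norm_num) (by norm_num) hk
    calc (1 / 2 : ℝ) ^ (3 * n₀ + 1) * min 1 c₁ ≤ (1 / 2) ^ k * 1 :=
          mul_le_mul e1 hmin1 hmin0.le (by positivity)
      _ = _ := mul_one _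
  have hθ1 : 0 ≤ θ + 1 := by linarith
  obtain ⟨Y, hY⟩ : ∃ Y : ℝ, Y = Real.exp (C * (θ + 1)) * 2 ^ x₀ := ⟨_, rfl⟩
  have hY0 : 0 ≤ Y := by rw [hY]; positivity
  rw [← hY] at hx
  have hxkx : xk ≤ x := by
    by_contra hcon
    push Not at hcon
    have h4 : (2 : ℝ) ^ x ≤ 2 ^ xk := pow_le_pow_right₀ (by norm_num) hcon.le
    linarith
  -- the properties
  obtain ⟨P, hP⟩ : ∃ P : ℕ → F.Ω → Prop, P = fun k ω =>
    if k < n₀ then OscP F c r (X k).W n xk (X k).gw (X k).Gw ω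
    else if k < 2 * n₀ then
      OscP F c r (X (k - n₀)).j n xk (X (k - n₀)).gj (X (k - n₀)).Gj ω
    else RemP F c r (X 0).W (X (k - 2 * n₀)).W Y (X (k - 2 * n₀)).gw (X (k - 2 * n₀)).Hw Ht ω :=
    ⟨_, rfl⟩
  obtain ⟨A, hAB, hPA, hPr⟩ := it_ev (p := F.p) B P (κ := 1 / 2) (by norm_num) (3 * n₀)
    fun k hk A hAB hPA => by
    have hA0 : 0 < Pe F.p A := lt_of_lt_of_le (by positivity) hPA
    have hsub : ∀ E : F.Ω → Prop, Sub E A → 1 / 2 * Pe F.p A ≤ Pe F.p E →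
        Sub E B ∧ cs * Pe F.p B ≤ Pe F.p E := by
      intro E hEA hPE
      refine ⟨fun ω hω => hAB ω (hEA ω hω), ?_⟩
      have e1 := hcsk (k + 1) (by omega)
      rw [pow_succ] at e1
      have e2 := mul_le_mul_of_nonneg_right e1 hB.le
      nlinarith
    by_cases h1 : k < n₀
    · have hGk := (hG k h1).res hAB
      have hNk := hN k h1
      obtain ⟨B', b1, b2, b3⟩ := hk1 (c₀ := 1 / 2) (b₁ := b₁) (x := xk) (hi := hi) (N := (X k).Nw)
        (Z := fun ω => ((X k).zz ω, y ω)) hGk.wd hGk.hc (hGk.wj.trans hGk.jJ) hGk.cw hGk.clw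
        hGk.ow (fun ω ω' hω hω' e1 => by
          obtain ⟨e2, e3⟩ := Prod.ext_iff.mp e1
          exact ⟨hGk.zv ω ω' hω hω' e2, e3, hGk.gz ω ω' hω hω' e2⟩) (fun i hi' => by
          have h2 := hNk.n.hw i hi'
          have h3 : Ck * (n + 1) ≤ C * (n + 1) := Nat.mul_le_mul_right _ (by omega)
          omega) (by
          have := hNk.n.ha
          omega) (by
          have := hNk.n.hl
          omega) (by
          have h3 : Ck * (n + 1) ≤ C * (n + 1) := Nat.mul_le_mul_right _ (by omega)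
          omega) hNk.wl hNk.kw (by norm_num) hA0 (fun E hEA hPE => by
          obtain ⟨s1, s2⟩ := hsub E hEA hPE
          exact lt_of_le_of_lt halw (hE E s1 s2 k h1).aw)
      refine ⟨B', b1, by linarith, fun ω hω => ?_⟩
      rw [hP]
      simp only [if_pos h1]
      exact b3 ω hω
    · by_cases h2 : k < 2 * n₀
      · have h1' : k - n₀ < n₀ := by omega
        have hGk := (hG (k - n₀) h1').res hAB
        have hNk := hN (k - n₀) h1'
        obtain ⟨B', b1, b2, b3⟩ := hk1 (c₀ := 1 / 2) (b₁ := b₁) (x := xk) (hi := hi)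
          (N := (X (k - n₀)).N')
          (Z := fun ω => ((X (k - n₀)).zj ω, ((X (k - n₀)).zz ω, y ω))) hGk.wd hGk.hc hGk.jJ
          hGk.cj hGk.clj hGk.oj (fun ω ω' hω hω' e1 => by
            simp only [Prod.mk.injEq] at e1
            exact ⟨hGk.zv ω ω' hω hω' e1.2.1, e1.2.2, hGk.gb ω ω' hω hω' e1.1⟩) (fun i hi' => by
            have h2 := hNk.n.hj i hi'
            have h3 : Ck * (n + 1) ≤ C * (n + 1) := Nat.mul_le_mul_right _ (by omega)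
            omega) (by
            have := hNk.n.ha
            omega) (by
            have := hNk.n.hl
            omega) (by
            have h3 : Ck * (n + 1) ≤ C * (n + 1) := Nat.mul_le_mul_right _ (by omega)
            omega) hNk.nl hNk.kj (by norm_num) hA0 (fun E hEA hPE => by
            obtain ⟨s1, s2⟩ := hsub E hEA hPE
            have hE0 : 0 < Pe F.p E := lt_of_lt_of_le (by positivity) hPE
            refine lt_of_lt_of_le hal2 ((hE E s1 s2 (k - n₀) h1').aj.trans ?_)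
            refine CH_mono_cond (isLaw_cond F.isLaw hE0).nonneg fun ω ω' _ _ e1 => ?_
            unfold Wdt.a at e1
            simp only [Prod.mk.injEq] at e1 ⊢
            exact e1.2)
        refine ⟨B', b1, by linarith, fun ω hω => ?_⟩
        rw [hP]
        simp only [if_neg h1, if_pos h2]
        exact b3 ω hω
      · have h1' : k - 2 * n₀ < n₀ := by omega
        have hGk := (hG (k - 2 * n₀) h1').res hAB
        have hNk := hN (k - 2 * n₀) h1'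
        obtain ⟨B', b1, b2, b3⟩ := hrw (c := c) (r := r) (x₀ := x₀) (g := (X (k - 2 * n₀)).gw)
          (H := (X (k - 2 * n₀)).Hw) (Ht := Ht) hA0 hGk.w0 (hGk.wj.trans hGk.jJ) hGk.dH
          hGk.cw.degH hθ
          (hTm A hA0 hAB (by
            have e1 := hcsk k (by omega)
            exact (mul_le_mul_of_nonneg_right e1 hB.le).trans hPA))
          (le_trans (mul_le_mul_of_nonneg_right hCrC hθ1) hNk.tm) hGk.tw
        refine ⟨B', b1, b2, fun ω hω => ?_⟩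
        rw [hP]
        simp only [if_neg h1, if_neg h2]
        intro τ hτ
        refine (b3 ω hω τ hτ).trans ?_
        rw [← mul_assoc]
        refine mul_le_mul_of_nonneg_right ?_ (by positivity)
        rw [hY]
        exact mul_le_mul_of_nonneg_right (Real.exp_le_exp.2
          (mul_le_mul_of_nonneg_right hCrC hθ1)) (by positivity)
  have hA0 : 0 < Pe F.p A := lt_of_lt_of_le (by positivity) hPA
  have hq := isLaw_cond F.isLaw hA0
  obtain ⟨q, hqd⟩ : ∃ q : F.Ω → ℝ, q = cond F.p A True := ⟨_, rfl⟩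
  rw [← hqd] at hq
  have hqA : ∀ ω, 0 < q ω → A ω := fun ω hω => by
    rw [hqd] at hω
    exact (ev_pos F.isLaw.nonneg A hω).2
  have o1 : ∀ i < n₀, ∀ ω, A ω → OscP F c r (X i).W n xk (X i).gw (X i).Gw ω := by
    intro i hi' ω hω
    have h1 := hPr i (by omega) ω hω
    rw [hP] at h1
    simp only [if_pos hi'] at h1
    exact h1
  have o2 : ∀ i < n₀, ∀ ω, A ω → OscP F c r (X i).j n xk (X i).gj (X i).Gj ω := by
    intro i hi' ω hω
    have h1 := hPr (i + n₀) (by omega) ω hω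
    rw [hP] at h1
    simp only [if_neg (by omega : ¬ i + n₀ < n₀), if_pos (by omega : i + n₀ < 2 * n₀),
      Nat.add_sub_cancel] at h1
    exact h1
  have o3 : ∀ i < n₀, ∀ ω, A ω → RemP F c r (X 0).W (X i).W Y (X i).gw (X i).Hw Ht ω := by
    intro i hi' ω hω
    have h1 := hPr (i + 2 * n₀) (by omega) ω hω
    rw [hP] at h1
    simp only [if_neg (by omega : ¬ i + 2 * n₀ < n₀), if_neg (by omega : ¬ i + 2 * n₀ < 2 * n₀),
      Nat.add_sub_cancel] at h1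
    exact h1
  have hGA : ∀ i < n₀, (X i).G A c r D (X 0).W a l n e x₀ y Ht := fun i hi' =>
    (hG i hi').res hAB
  have hWG : ∀ i < n₀, WinG F A c r D D (X i).W (X i).j (X i).Wh a l n x e (X i).gw (X i).gj
      (X i).Gw (X i).Gj (X i).Hw (X i).Hj (X i).z' (X i).Gu (X i).zL (X i).zz y (X i).Nl (X i).zj
      (xl F c r (X 0).W (X i).W D ρ (X 0).gw (X i).gw Ht (X i).Hw)
      (Pool.CR99.res ((X i).W - (X 0).W) (pth F c r (X 0).W Ht)) (c0f F c r (X i).W (X i).gw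
        (X i).Hw) := fun i hi' =>
    wing_of (hGA i hi') (o1 i hi') (o2 i hi') (o3 i hi') hY0 hx hx₀ (hN i hi').xw (hN i hi').xj
      (hN i hi').rho
  -- events of the law
  have hev : ∀ E : F.Ω → Prop, c₁ ≤ Pb q E → ∃ A' : F.Ω → Prop, cond q E True = cond F.p A' True ∧
      Sub A' B ∧ cs * Pe F.p B ≤ Pe F.p A' ∧ 0 < Pe F.p A' := by
    intro E hcE
    refine ⟨fun ω => A ω ∧ E ω, ?_, fun ω hω => hAB ω hω.1, ?_, ?_⟩
    · rw [hqd]
      exact cond_two hA0 E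
    · have h1 := pb_cond hA0 E
      rw [← hqd] at h1
      rw [← h1]
      have h2 : cs * Pe F.p B ≤ c₁ * Pe F.p A := by
        rw [hcs]
        have e1 : (1 / 2 : ℝ) ^ (3 * n₀ + 1) ≤ (1 / 2) ^ (3 * n₀) :=
          pow_le_pow_of_le_one (by norm_num) (by norm_num) (by omega)
        calc (1 / 2 : ℝ) ^ (3 * n₀ + 1) * min 1 c₁ * Pe F.p B ≤
              (1 / 2) ^ (3 * n₀) * c₁ * Pe F.p B := by
              refine mul_le_mul_of_nonneg_right ?_ hB.le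
              exact mul_le_mul e1 hmin2 hmin0.le (by positivity)
          _ = c₁ * ((1 / 2) ^ (3 * n₀) * Pe F.p B) := by ring
          _ ≤ _ := mul_le_mul_of_nonneg_left hPA hc₁.le
      exact h2.trans (mul_le_mul_of_nonneg_right hcE hA0.le)
    · have h1 := pb_cond hA0 E
      rw [← hqd] at h1
      rw [← h1]
      exact mul_pos (lt_of_lt_of_le hc₁ hcE) hA0
  have hTmC : ∀ (A' : F.Ω → Prop), Sub A' B → cs * Pe F.p B ≤ Pe F.p A' → 0 < Pe F.p A' →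
      J * Real.log 2 - θ ≤ CH (cond F.p A' True) F.T (fun ω => (F.l ω, F.Z ω)) := by
    intro A' s1 s2 s3
    have h1 := hTm A' s3 s1 s2
    unfold Fam.Tm at h1
    refine h1.trans (le_of_eq ?_)
    exact Pool.FLF.sub_CH F.T (fun ω => (F.l ω, F.Z ω))
  have hcsA : cs * Pe F.p B ≤ Pe F.p A := by
    have e1 := hcsk (3 * n₀) (by omega)
    exact (mul_le_mul_of_nonneg_right e1 hB.le).trans hPA
  have hTq : J * Real.log 2 - θ ≤ CH q F.T (fun ω => (F.l ω, F.Z ω)) := by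
    rw [hqd]
    exact hTmC A hAB hcsA hA0
  obtain ⟨kx, hkxd⟩ : ∃ kx : ℝ, kx = (C * (n + 1) + x + 6) * Real.log 2 := ⟨_, rfl⟩
  obtain ⟨xX, hxX⟩ : ∃ xX : ℝ, xX = D * ((C + x + ρ) * Real.log 2) := ⟨_, rfl⟩
  rw [← hkxd, ← hxX] at hsum hal
  have l2 : 0 ≤ Real.log 2 := Real.log_nonneg (by norm_num)
  have hn0 : (0 : ℝ) ≤ n := Nat.cast_nonneg n
  -- the entropies
  have hWE : ∀ i < n₀, WinE F c r (X i).W (X i).Wh a l (X i).z' (X i).Gu (X i).zL (X i).zz y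
      (X i).Nl (X i).Nj (X i).N' (X i).zj
      (xl F c r (X 0).W (X i).W D ρ (X 0).gw (X i).gw Ht (X i).Hw)
      (fun ω => xc F c r (X 0).W D ρ (X 0).gw Ht (slam F (X 0).W ω)) q c₁ 0 kx 0 ξ al := by
    intro i hi'
    have hGi := hGA i hi'
    have hNi := hN i hi'
    have hEi : (X i).E c r C n x Q v y q h δ ξ alw al θ := by
      rw [hqd]
      exact hE A hAB hcsA i hi'
    refine ⟨hNi.j0, hNi.jl, hNi.nl, ?_, ?_, ?_, hEi.pr, fun E hcE => ?_⟩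
    · refine (CH_eq_zero hq.nonneg fun ω ω' hω hω' e1 => ?_).le
      exact hGi.zv ω ω' (hqA ω hω) (hqA ω' hω') e1
    · have h1 := hkx (g₀ := (X 0).gw) (ρ := ρ) (xk := xk) (x := x) (hi := hi) (v := v) (q := q) hGi
        (o1 i hi') hxkx hNi.xw (fun i' hi'' => by
          have h2 := hNi.n.hw i' hi''
          have h3 : Cy * (n + 1) ≤ C * (n + 1) := Nat.mul_le_mul_right _ (by omega)
          omega) (by
          have := hNi.n.ha
          omega) (by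
          have := hNi.n.hl
          omega) hNi.supw hq hqA
      refine h1.trans ?_
      rw [hkxd]
      refine mul_le_mul_of_nonneg_right ?_ l2
      have h2 : (Cy : ℝ) * (n + 1) ≤ C * (n + 1) :=
        mul_le_mul_of_nonneg_right (by exact_mod_cast (by omega : Cy ≤ C)) (by linarith)
      linarith
    · refine (CH_eq_zero hq.nonneg fun ω ω' _ _ e1 => ?_).le
      unfold Cc xl at e1
      simp only [Prod.mk.injEq] at e1
      have e2 := e1.1.2.2.2.1.1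
      rw [co_slam F hGi.w0 (hGi.wj.trans hGi.jJ), co_slam F hGi.w0 (hGi.wj.trans hGi.jJ)] at e2
      exact e2
    · obtain ⟨A', t1, t2, t3, t4⟩ := hev E hcE
      rw [t1]
      exact (hE A' t2 t3 i hi').aj
  obtain ⟨i, hi', hbad⟩ := hlaw Q hQ (n₀ := n₀) (W := fun i => (X i).W) (j := fun i => (X i).j)
    (Wh := fun i => (X i).Wh) (pu := fun i => (X i).pu) (pn := fun i => (X i).pn)
    (β₀ := fun i => (X i).β₀) (β₁ := fun i => (X i).β₁) (gw := fun i => (X i).gw)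
    (gj := fun i => (X i).gj) (Gw := fun i => (X i).Gw) (Gj := fun i => (X i).Gj)
    (Hw := fun i => (X i).Hw) (Hj := fun i => (X i).Hj) (V := fun i => (X i).V)
    (Vz := fun i => (X i).Vz) (Vj := fun i => (X i).Vj) (𝒳 := fun _ => (Fin D → ℤ) × ℤ × ℕ)
    (z' := fun i => (X i).z') (Gu := fun i => (X i).Gu) (zL := fun i => (X i).zL)
    (zz := fun i => (X i).zz) (Nl := fun i => (X i).Nl) (Nj := fun i => (X i).Nj)
    (N' := fun i => (X i).N') (zj := fun i => (X i).zj)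
    (X := fun ω => xc F c r (X 0).W D ρ (X 0).gw Ht (slam F (X 0).W ω))
    (XL := fun i => xl F c r (X 0).W (X i).W D ρ (X 0).gw (X i).gw Ht (X i).Hw)
    (cA := fun i => Pool.CR99.res ((X i).W - (X 0).W) (pth F c r (X 0).W Ht))
    (c₀ := fun i => c0f F c r (X i).W (X i).gw (X i).Hw) (xX := xX) (κ := κ) (ξ := ξ) (eT := θ)
    (κz := 0) (κX := kx) (κX' := 0) (al := al)
    hn₀ hWG (fun i hi' => (hN i hi').n.mono (by omega)) hq hqA hTq hWE (fun i hi' => by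
      rw [hqd]
      exact htel A hAB hcsA i hi') (by
      rw [hxX]
      have h1 := hxx (ρ := ρ) (c := c) (r := r) (x := x) (g₀ := (X 0).gw)
        (c₀ := c0f F c r (X 0).W (X 0).gw (X 0).Hw)
        (hG 0 hn₀).dH (fun ω hω θ' h0 h1 => by
          have h2 := (hWG 0 hn₀).bd ω hω θ' h0 h1
          rwa [Nat.sub_self] at h2) hq hqA
        (fun ω => (oc F (c r) (X 0).Wh (X 0).z' (X 0).Gu (X 0).Nj ω, ((X 0).zj ω,
          ((X 0).zz ω, y ω))))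
      refine h1.trans ?_
      refine mul_le_mul_of_nonneg_left (mul_le_mul_of_nonneg_right ?_ l2) (Nat.cast_nonneg D)
      have : (Cx : ℝ) ≤ C := by exact_mod_cast (by omega : Cx ≤ C)
      linarith) hκ hξ hθ (by linarith) (by
      have e1 : (0 : ℝ) + kx = kx := zero_add kx
      rw [e1]
      exact hal) (fun i hi' => by
      refine row_of (C := C) (ξ := ξ) (alw := alw) (al := al) (θ := θ) (hGA i hi') hq hqA (by omega)
        hc₁ fun E hcE => ?_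
      obtain ⟨A', t1, t2, t3, t4⟩ := hev E hcE
      rw [t1]
      exact ⟨hE A' t2 t3 i hi', hTmC A' t2 t3 t4⟩)
  obtain ⟨good, hgood⟩ : ∃ good : F.Ω → Prop, good = fun ω => ∀ s : ℝ, 0 ≤ s → s ≤ 1 →
      |(Polynomial.derivative (Pool.CR99.res ((X i).W - (X 0).W) (pth F c r (X 0).W Ht)
        (slam F (X i).W ω))).eval s| ≤ C₂ * ((2 : ℝ) ^ (ε * Q) * (2 ^ (X i).pu / 2 ^ (X i).pn) /
          2 ^ (X i).β₁) := ⟨_, rfl⟩
  have hbad' : Pb q (fun ω => ¬ good ω) ≤ ε := by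
    rw [hgood]
    exact hbad
  have hPg := pb_cond hA0 good
  rw [← hqd] at hPg
  have hsum1 := pb_not hq good
  refine ⟨fun ω => A ω ∧ good ω, fun ω hω => hAB ω hω.1, ?_, fun ω hω => ?_⟩
  · rw [← hPg]
    have e1 := hcsk (3 * n₀ + 1) le_rfl
    have e2 : cs * Pe F.p B ≤ 1 / 2 * Pe F.p A := by
      rw [pow_succ] at e1
      have e3 := mul_le_mul_of_nonneg_right e1 hB.le
      nlinarith
    refine e2.trans (mul_le_mul_of_nonneg_right ?_ hA0.le)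
    linarith
  · obtain ⟨hωA, hωg⟩ := hω
    rw [hgood] at hωg
    have h1 := hωg (rt F (X i).W ω) (rt_mem F (X i).W ω).1 (rt_mem F (X i).W ω).2
    have hGi := hGA i hi'
    rw [der_res hGi.w0 (hGi.wj.trans hGi.jJ), abs_mul,
      abs_of_pos (show (0 : ℝ) < 1 / 2 ^ ((X i).W - (X 0).W) by positivity)] at h1
    refine le_trans ?_ (hS i hi')
    have h2 : (0 : ℝ) < 2 ^ ((X i).W - (X 0).W) := by positivity
    rw [one_div_mul_eq_div, div_le_iff₀ h2] at h1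
    linarith

end Pool.PRC54
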