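import Pool.Agent.H54.PRC.Bxg

/-!
# The data of one window with the slope path

`GeoI`: the geometry of one window before the slope. `wing_of`: `WinG`.
-/

set_option autoImplicit false

namespace Pool.PRC54

open Finset Real MvPolynomial
open Pool.Agent.H49.Ent Pool.Agent.H32.Dense Pool.STK Pool.KA Pool.KSAT Pool.K2S Pool.PB Pool.S6C
open Pool.GEN Pool.CHT Pool.CHX Pool.ISO Pool.D2R Pool.PRQ76 Pool.LA91 Pool.PR46
open Pool.OWN68 (CH_pair CH_pis)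
open Pool.AVG5 (fl_mul of_fl CH_near)
open Pool.BFL (Pb)
open Pool.D2G30 Pool.V1E
open Pool.FLF (Fam.sub)
open Pool.CR99 (res deg_res eval_res der_res KOk kok_of)
open Pool.MIC (mi_event CH_ev_le isLaw_ev ev_pos)
open Pool.PB.Trl (rt rt_mem t_rt)

variable {m J : ℕ}

theorem pow_sub_le {u u' : ℝ} (h0 : 0 ≤ u) (h1 : u ≤ 1) (h0' : 0 ≤ u') (h1' : u' ≤ 1) (k : ℕ) :
    |u ^ k - u' ^ k| ≤ k * |u - u'| := by
  induction k with
  | zero => simp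
  | succ k ih =>
    have e : u ^ (k + 1) - u' ^ (k + 1) = u * (u ^ k - u' ^ k) + (u - u') * u' ^ k := by ring
    rw [e]
    refine (abs_add_le _ _).trans ?_
    rw [abs_mul, abs_mul, abs_of_nonneg h0, abs_of_nonneg (pow_nonneg h0' k)]
    have a1 : u * |u ^ k - u' ^ k| ≤ 1 * (k * |u - u'|) :=
      mul_le_mul h1 ih (abs_nonneg _) zero_le_one
    have a2 : |u - u'| * u' ^ k ≤ |u - u'| * 1 :=
      mul_le_mul_of_nonneg_left (pow_le_one₀ h0' h1') (abs_nonneg _)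
    push_cast
    linarith

/-- Two polynomials with near coefficients of positive order. -/
theorem coef_near {D : ℕ} {P P' : Polynomial ℝ} (hP : P.natDegree ≤ D) (hP' : P'.natDegree ≤ D)
    {δ η : ℝ} (hδ : 0 ≤ δ) (hc : ∀ k < D, |P'.coeff (k + 1) - P.coeff (k + 1)| ≤ δ) {u u' : ℝ}
    (h0 : 0 ≤ u) (h1 : u ≤ 1) (h0' : 0 ≤ u') (h1' : u' ≤ 1) (h : |u - u'| ≤ η) :
    |(P'.eval u - P.eval u) - (P'.eval u' - P.eval u')| ≤ D * D * (δ * η) := by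
  have hη : 0 ≤ η := (abs_nonneg _).trans h
  obtain ⟨R, hR⟩ : ∃ R : Polynomial ℝ, R = P' - P := ⟨_, rfl⟩
  have hRd : R.natDegree ≤ D := by
    rw [hR]
    exact (Polynomial.natDegree_sub_le _ _).trans (max_le hP' hP)
  have hRe : ∀ x, P'.eval x - P.eval x = R.eval x := fun x => by rw [hR, Polynomial.eval_sub]
  have hRc : ∀ k < D, |R.coeff (k + 1)| ≤ δ := fun k hk => by
    rw [hR, Polynomial.coeff_sub]
    exact hc k hk
  rw [hRe, hRe, Polynomial.eval_eq_sum_range' (lt_of_le_of_lt hRd (Nat.lt_succ_self D)) u,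
    Polynomial.eval_eq_sum_range' (lt_of_le_of_lt hRd (Nat.lt_succ_self D)) u',
    ← Finset.sum_sub_distrib, Finset.sum_range_succ']
  simp only [pow_zero, mul_one, sub_self, add_zero]
  refine (Finset.abs_sum_le_sum_abs _ _).trans ?_
  have hD0 : (0 : ℝ) ≤ D := Nat.cast_nonneg D
  have key : ∀ k ∈ range D, |R.coeff (k + 1) * u ^ (k + 1) - R.coeff (k + 1) * u' ^ (k + 1)| ≤
      δ * (D * η) := by
    intro k hk
    rw [mem_range] at hk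
    rw [← mul_sub, abs_mul]
    refine mul_le_mul (hRc k hk) ((pow_sub_le h0 h1 h0' h1' (k + 1)).trans ?_) (abs_nonneg _) hδ
    have : ((k + 1 : ℕ) : ℝ) ≤ D := by exact_mod_cast hk
    exact mul_le_mul this h (abs_nonneg _) hD0
  refine (Finset.sum_le_sum key).trans (le_of_eq ?_)
  rw [Finset.sum_const, card_range, nsmul_eq_mul]
  ring

/-- The relative time of the earlier window. -/
theorem tau_mem (n T : ℕ) {θ : ℝ} (h0 : 0 ≤ θ) (h1 : θ ≤ 1) :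
    0 ≤ ((T : ℝ) / 2 ^ n - ((T / 2 ^ n : ℕ) : ℝ)) + 1 / 2 ^ n * θ ∧
      ((T : ℝ) / 2 ^ n - ((T / 2 ^ n : ℕ) : ℝ)) + 1 / 2 ^ n * θ ≤ 1 := by
  have hn : (0 : ℝ) < 2 ^ n := by positivity
  have e1 : T = 2 ^ n * (T / 2 ^ n) + T % 2 ^ n := (Nat.div_add_mod T (2 ^ n)).symm
  have e2 : T % 2 ^ n + 1 ≤ 2 ^ n := Nat.mod_lt _ (by positivity)
  have e1r : (T : ℝ) = 2 ^ n * ((T / 2 ^ n : ℕ) : ℝ) + ((T % 2 ^ n : ℕ) : ℝ) := by
    conv_lhs => rw [e1]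
    push_cast
    ring
  have e2r : ((T % 2 ^ n : ℕ) : ℝ) + 1 ≤ 2 ^ n := by exact_mod_cast e2
  have e3 : (T : ℝ) / 2 ^ n - ((T / 2 ^ n : ℕ) : ℝ) = ((T % 2 ^ n : ℕ) : ℝ) / 2 ^ n := by
    rw [eq_div_iff hn.ne', sub_mul, div_mul_cancel₀ _ hn.ne']
    linarith
  rw [e3]
  have e4 : (0 : ℝ) ≤ ((T % 2 ^ n : ℕ) : ℝ) := Nat.cast_nonneg _
  constructor
  · positivity
  · rw [one_div_mul_eq_div, ← add_div, div_le_one hn]
    linarith

theorem res_eval {F : Fam m J} (n : ℕ) (cP : LnT F → Polynomial ℝ) (s : LnT F) (θ : ℝ) :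
    (res n cP s).eval θ = (cP (co n s)).eval
      (((s.2.2 : ℝ) / 2 ^ n - ((s.2.2 / 2 ^ n : ℕ) : ℝ)) + 1 / 2 ^ n * θ) := by
  unfold res
  rw [Polynomial.eval_comp]
  simp only [Polynomial.eval_add, Polynomial.eval_mul, Polynomial.eval_C, Polynomial.eval_X]

/-! ### The slope -/

/-- The value of the slope path of the chart at the start of the window. -/
noncomputable def vl (F : Fam m J) (c : ℕ → Fin m) (r W : ℕ)
    (H : LnT F → ℕ → MvPolynomial (Option (Fin m)) ℝ) (s : LnT F) : ℝ :=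
  (pth F c r W (fun s => H s (r + 1)) s).eval 0

/-- Its digits. -/
noncomputable def vc (F : Fam m J) (c : ℕ → Fin m) (r W : ℕ) (g : ℕ → ℕ)
    (H : LnT F → ℕ → MvPolynomial (Option (Fin m)) ℝ) (s : LnT F) : ℤ :=
  ⌊(2 : ℝ) ^ g (r + 1) / 2 ^ g r * vl F c r W H s⌋

/-- The slope to its natural digits. -/
noncomputable def c0f (F : Fam m J) (c : ℕ → Fin m) (r W : ℕ) (g : ℕ → ℕ)
    (H : LnT F → ℕ → MvPolynomial (Option (Fin m)) ℝ) (s : LnT F) : ℝ :=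
  (vc F c r W g H s : ℝ) * (2 ^ g r / 2 ^ g (r + 1))

theorem c0f_near (F : Fam m J) (c : ℕ → Fin m) (r W : ℕ) (g : ℕ → ℕ)
    (H : LnT F → ℕ → MvPolynomial (Option (Fin m)) ℝ) (s : LnT F) :
    |vl F c r W H s - c0f F c r W g H s| ≤ 2 ^ g r / 2 ^ g (r + 1) := by
  unfold c0f vc
  obtain ⟨v, hv⟩ : ∃ v, v = vl F c r W H s := ⟨_, rfl⟩
  rw [← hv]
  have hU : (0 : ℝ) < 2 ^ g r / 2 ^ g (r + 1) := by positivity
  have h1 := Int.floor_le ((2 : ℝ) ^ g (r + 1) / 2 ^ g r * v)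
  have h2 := Int.lt_floor_add_one ((2 : ℝ) ^ g (r + 1) / 2 ^ g r * v)
  have e1 : v = (2 : ℝ) ^ g (r + 1) / 2 ^ g r * v * (2 ^ g r / 2 ^ g (r + 1)) := by field_simp
  have e2 : v - (⌊(2 : ℝ) ^ g (r + 1) / 2 ^ g r * v⌋ : ℝ) * (2 ^ g r / 2 ^ g (r + 1)) =
      ((2 : ℝ) ^ g (r + 1) / 2 ^ g r * v - ⌊(2 : ℝ) ^ g (r + 1) / 2 ^ g r * v⌋) *
        (2 ^ g r / 2 ^ g (r + 1)) := by
    conv_lhs => rw [e1]
    have e3 : (2 : ℝ) ^ g (r + 1) / 2 ^ g r * ((2 : ℝ) ^ g (r + 1) / 2 ^ g r * v *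
        (2 ^ g r / 2 ^ g (r + 1))) = 2 ^ g (r + 1) / 2 ^ g r * v := by field_simp
    rw [e3]
    ring
  rw [e2, abs_mul, abs_of_pos hU]
  have h3 : |(2 : ℝ) ^ g (r + 1) / 2 ^ g r * v - ⌊(2 : ℝ) ^ g (r + 1) / 2 ^ g r * v⌋| ≤ 1 := by
    rw [abs_le]
    constructor <;> linarith
  calc _ ≤ 1 * (2 ^ g r / 2 ^ g (r + 1) : ℝ) := mul_le_mul_of_nonneg_right h3 hU.le
    _ = _ := one_mul _

/-- **The free quantity**: the digits of the slope path of the label, without its constant. -/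
noncomputable def xc (F : Fam m J) (c : ℕ → Fin m) (r W₀ D ρ : ℕ) (g : ℕ → ℕ)
    (Ht : LnT F → MvPolynomial (Option (Fin m)) ℝ) (s : LnT F) : Fin D → ℤ :=
  fun k => ⌊(2 : ℝ) ^ ρ * 2 ^ g (r + 1) / 2 ^ g r * (pth F c r W₀ Ht s).coeff (k + 1)⌋

/-- The quantity of the line of the later window. -/
noncomputable def xl (F : Fam m J) (c : ℕ → Fin m) (r W₀ W D ρ : ℕ) (g₀ g : ℕ → ℕ)
    (Ht : LnT F → MvPolynomial (Option (Fin m)) ℝ)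
    (H : LnT F → ℕ → MvPolynomial (Option (Fin m)) ℝ) (s : LnT F) : (Fin D → ℤ) × ℤ × ℕ :=
  (xc F c r W₀ D ρ g₀ Ht (co (W - W₀) s), (vc F c r W g H s, s.2.2))

/-- The slope on the slice. -/
def OscP (F : Fam m J) (c : ℕ → Fin m) (r w n x : ℕ) (g : ℕ → ℕ)
    (G : PtT F → ℕ → MvPolynomial (Option (Fin m)) ℝ) (ω : F.Ω) : Prop :=
  ∀ τ ∈ Set.Icc (0 : ℝ) 1, ∀ τ' ∈ Set.Icc (0 : ℝ) 1, ∀ y : ℝ, |y| ≤ 2 ^ (n + 2) / 2 ^ g r →
    |eval (Function.update (ptw F w ω τ) (some (c r)) (ptw F w ω τ (some (c r)) + y))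
      (pderiv (some (c r)) (G (ptr F J ω) (r + 1))) -
      eval (ptw F w ω τ') (pderiv (some (c r)) (G (ptr F J ω) (r + 1)))| ≤
      2 ^ x * (2 ^ g r / 2 ^ g (r + 1))

/-- The slope path on the window. -/
def RemP (F : Fam m J) (c : ℕ → Fin m) (r W₀ W : ℕ) (Y : ℝ) (g : ℕ → ℕ)
    (H : LnT F → ℕ → MvPolynomial (Option (Fin m)) ℝ)
    (Ht : LnT F → MvPolynomial (Option (Fin m)) ℝ) (ω : F.Ω) : Prop :=
  ∀ τ ∈ Set.Icc (0 : ℝ) 1, |(res (W - W₀) (pth F c r W₀ Ht) (slam F W ω)).eval τ -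
    eval (ptw F W ω τ) (pderiv (some (c r)) (H (slam F W ω) (r + 1)))| ≤
      Y * (2 ^ g r / 2 ^ g (r + 1))

/-- **The data of one window** `W` with the ball `j`, before the slope. -/
structure GeoI (F : Fam m J) (B : F.Ω → Prop) (c : ℕ → Fin m) (r D W₀ W j Wh a l n e x₀ : ℕ)
    (gw gj : ℕ → ℕ) (Gw Gj : PtT F → ℕ → MvPolynomial (Option (Fin m)) ℝ)
    (Hw Hj : LnT F → ℕ → MvPolynomial (Option (Fin m)) ℝ) {V Vz Vj Γ : Type}
    (z' : LnT F → V) (Gu : V → MvPolynomial (Option (Fin m)) ℝ) (zL : LnT F → Vz)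
    (zz : F.Ω → Vz) (y : F.Ω → Γ) (Nl : ℝ) (zj : F.Ω → Vj)
    (Ht : LnT F → MvPolynomial (Option (Fin m)) ℝ) : Prop where
  wd : WinD F B ((Finset.range r).image c) (c r) Wh W a l z' Gu zL zz y Nl
  hc : Set.InjOn c (Set.Iio (r + 2))
  w0 : W₀ ≤ W
  wj : W ≤ j
  jJ : j ≤ J
  cw : ChOK F c (r + 2) (fun _ => D) W W e gw B Gw Hw
  clw : Clsd F (r + 2) W B Gw Hw
  ow : ∀ ω, B ω → ∀ l < r + 2, ∀ τ ∈ Set.Icc (0 : ℝ) 1,
    |(dv W (fun s _ => Hw s l) (c l) (slam F W ω)).eval τ| ≤ 2 ^ n / 2 ^ gw l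
  cj : ChOK F c (r + 2) (fun _ => D) j j e gj B Gj Hj
  clj : Clsd F (r + 2) j B Gj Hj
  oj : ∀ ω, B ω → ∀ l < r + 2, ∀ τ ∈ Set.Icc (0 : ℝ) 1,
    |(dv j (fun s _ => Hj s l) (c l) (slam F j ω)).eval τ| ≤ 2 ^ n / 2 ^ gj l
  gz : ∀ ω ω', B ω → B ω' → zz ω = zz ω' → ∀ i < r + 2, Gw (ptr F J ω) i = Gw (ptr F J ω') i
  zv : ∀ ω ω', B ω → B ω' → zz ω = zz ω' → z' (slam F Wh ω) = z' (slam F Wh ω')
  gb : ∀ ω ω', B ω → B ω' → zj ω = zj ω' → ∀ i < r + 2, Gj (ptr F J ω) i = Gj (ptr F J ω') i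
  dH : ∀ s, (Ht s).totalDegree ≤ D
  tw : ∀ ω, B ω → |eval (bt F ω) (pderiv (some (c r)) (Ht (slam F W₀ ω))) -
    eval (bt F ω) (pderiv (some (c r)) (Hw (slam F W ω) (r + 1)))| ≤
      2 ^ x₀ * (2 ^ gw r / 2 ^ gw (r + 1))
  tj : ∀ ω, B ω → |eval (bt F ω) (pderiv (some (c r)) (Ht (slam F W₀ ω))) -
    eval (bt F ω) (pderiv (some (c r)) (Hj (slam F j ω) (r + 1)))| ≤
      2 ^ x₀ * (2 ^ gj r / 2 ^ gj (r + 1))

section

variable {F : Fam m J} {B A : F.Ω → Prop} {c : ℕ → Fin m} {r D W₀ W j Wh a l n e x₀ : ℕ}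
  {gw gj : ℕ → ℕ} {Gw Gj : PtT F → ℕ → MvPolynomial (Option (Fin m)) ℝ}
  {Hw Hj : LnT F → ℕ → MvPolynomial (Option (Fin m)) ℝ} {V Vz Vj Γ : Type}
  {z' : LnT F → V} {Gu : V → MvPolynomial (Option (Fin m)) ℝ} {zL : LnT F → Vz}
  {zz : F.Ω → Vz} {y : F.Ω → Γ} {Nl : ℝ} {zj : F.Ω → Vj}
  {Ht : LnT F → MvPolynomial (Option (Fin m)) ℝ}

theorem WinD.res {I : Finset (Fin m)} {κ : Fin m}
    (H : WinD F B I κ Wh W a l z' Gu zL zz y Nl) (h : Sub A B) :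
    WinD F A I κ Wh W a l z' Gu zL zz y Nl :=
  ⟨H.hW, H.hWh, H.ha, fun ω hω => H.zl ω (h ω hω), H.yk, H.yn,
    ⟨fun ω ω' hω hω' => H.vel.near ω ω' (h ω hω) (h ω' hω')⟩⟩

theorem GeoI.res (H : GeoI F B c r D W₀ W j Wh a l n e x₀ gw gj Gw Gj Hw Hj z' Gu zL zz y Nl zj Ht)
    (h : Sub A B) :
    GeoI F A c r D W₀ W j Wh a l n e x₀ gw gj Gw Gj Hw Hj z' Gu zL zz y Nl zj Ht where
  wd := H.wd.res h
  hc := H.hc
  w0 := H.w0
  wj := H.wj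
  jJ := H.jJ
  cw := H.cw.sub h
  clw := fun ω hω => H.clw ω (h ω hω)
  ow := fun ω hω => H.ow ω (h ω hω)
  cj := H.cj.sub h
  clj := fun ω hω => H.clj ω (h ω hω)
  oj := fun ω hω => H.oj ω (h ω hω)
  gz := fun ω ω' hω hω' => H.gz ω ω' (h ω hω) (h ω' hω')
  zv := fun ω ω' hω hω' => H.zv ω ω' (h ω hω) (h ω' hω')
  gb := fun ω ω' hω hω' => H.gb ω ω' (h ω hω) (h ω' hω')
  dH := H.dH
  tw := fun ω hω => H.tw ω (h ω hω)
  tj := fun ω hω => H.tj ω (h ω hω)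

theorem OscP.at {w x : ℕ} {g : ℕ → ℕ} {G : PtT F → ℕ → MvPolynomial (Option (Fin m)) ℝ} {ω : F.Ω}
    (h : OscP F c r w n x g G ω) {τ τ' : ℝ} (hτ : τ ∈ Set.Icc (0 : ℝ) 1)
    (hτ' : τ' ∈ Set.Icc (0 : ℝ) 1) :
    |eval (ptw F w ω τ) (pderiv (some (c r)) (G (ptr F J ω) (r + 1))) -
      eval (ptw F w ω τ') (pderiv (some (c r)) (G (ptr F J ω) (r + 1)))| ≤
      2 ^ x * (2 ^ g r / 2 ^ g (r + 1)) := by
  have h1 := h τ hτ τ' hτ' 0 (by rw [abs_zero]; positivity)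
  rwa [add_zero, Function.update_eq_self] at h1

/-- **The charts with the slope**, one window. -/
theorem chs_of {w x : ℕ} {g : ℕ → ℕ} {G : PtT F → ℕ → MvPolynomial (Option (Fin m)) ℝ}
    {H : LnT F → ℕ → MvPolynomial (Option (Fin m)) ℝ} (hc : Set.InjOn c (Set.Iio (r + 2)))
    (hw : w ≤ J) (ch : ChOK F c (r + 2) (fun _ => D) w w e g A G H) (cl : Clsd F (r + 2) w A G H)
    (own : ∀ ω, A ω → ∀ l < r + 2, ∀ τ ∈ Set.Icc (0 : ℝ) 1,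
      |(dv w (fun s _ => H s l) (c l) (slam F w ω)).eval τ| ≤ 2 ^ n / 2 ^ g l) {xk : ℕ}
    (hosc : ∀ ω, A ω → OscP F c r w n xk g G ω) (hx : xk ≤ x) (hg : x ≤ g (r + 1)) :
    ChS F A c r D w n x e g G H where
  hc := hc
  jJ := hw
  ch := ch
  cl := cl
  own := own
  osc := fun ω hω τ hτ y hy => by
    have h1 := hosc ω hω τ hτ (rt F w ω) (rt_mem F w ω) y hy
    rw [ptw_rt F hw] at h1
    unfold sl
    refine h1.trans ?_
    exact mul_le_mul_of_nonneg_right (pow_le_pow_right₀ (by norm_num) hx) (by positivity)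
  xg := hg

/-- **The geometry with the slope path.** -/
theorem wing_of (H : GeoI F A c r D W₀ W j Wh a l n e x₀ gw gj Gw Gj Hw Hj z' Gu zL zz y Nl zj Ht)
    {xk x ρ : ℕ} {g₀ : ℕ → ℕ} {Y : ℝ} (h1 : ∀ ω, A ω → OscP F c r W n xk gw Gw ω)
    (h2 : ∀ ω, A ω → OscP F c r j n xk gj Gj ω)
    (h3 : ∀ ω, A ω → RemP F c r W₀ W Y gw Hw Ht ω) (hY : 0 ≤ Y) (hx : Y + 2 ^ xk + 1 ≤ 2 ^ x)
    (hx₀ : x₀ ≤ x) (hgw : x ≤ gw (r + 1)) (hgj : x ≤ gj (r + 1))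
    (hρ : (D * D : ℝ) * (2 ^ g₀ r / 2 ^ g₀ (r + 1)) ≤
      2 ^ x * (2 ^ gj r / 2 ^ gj (r + 1)) * (2 ^ ρ * 2 ^ (W - W₀))) :
    WinG F A c r D D W j Wh a l n x e gw gj Gw Gj Hw Hj z' Gu zL zz y Nl zj
      (xl F c r W₀ W D ρ g₀ gw Ht Hw) (Pool.CR99.res (W - W₀) (pth F c r W₀ Ht))
      (c0f F c r W gw Hw) := by
  have hWJ : W ≤ J := H.wj.trans H.jJ
  have hU : (0 : ℝ) < 2 ^ gw r / 2 ^ gw (r + 1) := by positivity
  have hUj : (0 : ℝ) < 2 ^ gj r / 2 ^ gj (r + 1) := by positivity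
  have hxk : xk ≤ x := by
    by_contra hcon
    push Not at hcon
    have h4 : (2 : ℝ) ^ x ≤ 2 ^ xk := pow_le_pow_right₀ (by norm_num) hcon.le
    linarith
  have hvl : ∀ ω, A ω → vl F c r W Hw (slam F W ω) =
      eval (ptw F W ω 0) (pderiv (some (c r)) (Gw (ptr F J ω) (r + 1))) := by
    intro ω hω
    unfold vl
    rw [pth_eval, ← H.clw ω hω (r + 1) (by omega)]
  have h0m : (0 : ℝ) ∈ Set.Icc (0 : ℝ) 1 := ⟨le_rfl, zero_le_one⟩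
  refine ⟨H.wd, chs_of H.hc hWJ H.cw H.clw H.ow h1 hxk hgw, chs_of H.hc H.jJ H.cj H.clj H.oj h2
    hxk hgj, fun ω ω' hω hω' e1 => ?_, H.gb, fun ω hω => ?_, deg_res (pth_deg W₀ H.dH),
    fun ω hω => ?_, fun ω hω θ hθ0 hθ1 => ?_, fun ω ω' hω hω' e1 => ?_,
    fun ω ω' hω hω' e1 θ hθ0 hθ1 θ' hθ0' hθ1' => ?_⟩
  · refine H.gz ω ω' hω hω' ?_
    rw [H.wd.zl ω hω, H.wd.zl ω' hω']
    exact e1
  · have a1 := (h1 ω hω).at (rt_mem F W ω) h0m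
    rw [ptw_rt F hWJ] at a1
    have a2 := c0f_near F c r W gw Hw (slam F W ω)
    rw [hvl ω hω] at a2
    unfold sl
    have a3 := abs_sub_le (eval (bt F ω) (pderiv (some (c r)) (Gw (ptr F J ω) (r + 1))))
      (eval (ptw F W ω 0) (pderiv (some (c r)) (Gw (ptr F J ω) (r + 1))))
      (c0f F c r W gw Hw (slam F W ω))
    refine a3.trans ?_
    nlinarith
  · rw [eval_res H.w0 hWJ, pth_eval, ptw_rt F (H.w0.trans hWJ)]
    unfold sl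
    rw [H.clj ω hω (r + 1) (by omega)]
    exact (H.tj ω hω).trans (mul_le_mul_of_nonneg_right (pow_le_pow_right₀ (by norm_num) hx₀)
      hUj.le)
  · have a1 := h3 ω hω θ ⟨hθ0, hθ1⟩
    have a2 := (h1 ω hω).at (⟨hθ0, hθ1⟩ : θ ∈ Set.Icc (0 : ℝ) 1) h0m
    have a3 := c0f_near F c r W gw Hw (slam F W ω)
    rw [hvl ω hω] at a3
    rw [← H.clw ω hω (r + 1) (by omega)] at a1
    have a4 := abs_sub_le ((Pool.CR99.res (W - W₀) (pth F c r W₀ Ht) (slam F W ω)).eval θ)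
      (eval (ptw F W ω θ) (pderiv (some (c r)) (Gw (ptr F J ω) (r + 1))))
      (c0f F c r W gw Hw (slam F W ω))
    have a5 := abs_sub_le (eval (ptw F W ω θ) (pderiv (some (c r)) (Gw (ptr F J ω) (r + 1))))
      (eval (ptw F W ω 0) (pderiv (some (c r)) (Gw (ptr F J ω) (r + 1))))
      (c0f F c r W gw Hw (slam F W ω))
    have a6 := mul_le_mul_of_nonneg_right hx hU.le
    linarith
  · unfold xl at e1
    simp only [Prod.mk.injEq] at e1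
    unfold c0f
    rw [e1.2.1]
  · unfold xl at e1
    simp only [Prod.mk.injEq] at e1
    obtain ⟨f1, -, f3⟩ := e1
    rw [res_eval, res_eval, res_eval, res_eval, ← f3]
    obtain ⟨T, hT⟩ : ∃ T, T = (slam F W ω).2.2 := ⟨_, rfl⟩
    rw [← hT]
    obtain ⟨a1, a2⟩ := tau_mem (W - W₀) T hθ0 hθ1
    obtain ⟨a3, a4⟩ := tau_mem (W - W₀) T hθ0' hθ1'
    have hn : (0 : ℝ) < 2 ^ (W - W₀) := by positivity
    have hη : |((T : ℝ) / 2 ^ (W - W₀) - ((T / 2 ^ (W - W₀) : ℕ) : ℝ)) + 1 / 2 ^ (W - W₀) * θ -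
        (((T : ℝ) / 2 ^ (W - W₀) - ((T / 2 ^ (W - W₀) : ℕ) : ℝ)) + 1 / 2 ^ (W - W₀) * θ')| ≤
        1 / 2 ^ (W - W₀) := by
      have e2 : ((T : ℝ) / 2 ^ (W - W₀) - ((T / 2 ^ (W - W₀) : ℕ) : ℝ)) + 1 / 2 ^ (W - W₀) * θ -
        (((T : ℝ) / 2 ^ (W - W₀) - ((T / 2 ^ (W - W₀) : ℕ) : ℝ)) + 1 / 2 ^ (W - W₀) * θ') =
          1 / 2 ^ (W - W₀) * (θ - θ') := by ring
      rw [e2, abs_mul, abs_of_pos (show (0 : ℝ) < 1 / 2 ^ (W - W₀) by positivity)]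
      have : |θ - θ'| ≤ 1 := by
        rw [abs_le]
        constructor <;> linarith
      calc _ ≤ 1 / 2 ^ (W - W₀) * (1 : ℝ) := mul_le_mul_of_nonneg_left this (by positivity)
        _ = _ := mul_one _
    have key := coef_near (D := D) (δ := 2 ^ g₀ r / 2 ^ g₀ (r + 1) / 2 ^ ρ)
      (pth_deg (c := c) (r := r) W₀ H.dH (co (W - W₀) (slam F W ω)))
      (pth_deg (c := c) (r := r) W₀ H.dH (co (W - W₀) (slam F W ω')))
      (by positivity) (fun k hk => ?_) a1 a2 a3 a4 hη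
    · refine key.trans ?_
      have e3 : (D : ℝ) * D * (2 ^ g₀ r / 2 ^ g₀ (r + 1) / 2 ^ ρ * (1 / 2 ^ (W - W₀))) =
          (D * D : ℝ) * (2 ^ g₀ r / 2 ^ g₀ (r + 1)) / (2 ^ ρ * 2 ^ (W - W₀)) := by
        field_simp
      rw [e3, div_le_iff₀ (by positivity)]
      exact hρ
    · have e4 := congrFun f1 ⟨k, hk⟩
      unfold xc at e4
      simp only at e4
      have hσ : (0 : ℝ) < 2 ^ ρ * 2 ^ g₀ (r + 1) / 2 ^ g₀ r := by positivity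
      have b1 := of_fl hσ e4
      rw [abs_sub_comm]
      refine b1.trans (le_of_eq ?_)
      field_simp

end

end Pool.PRC54
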