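import Pool.Agent.H54.PRC.Lv

/-!
# The direction and the own velocity

`d_few`: the direction, given the own velocity; `b_few`: the own velocity, given the direction.
-/

set_option autoImplicit false

namespace Pool.PRC54

open Finset Real MvPolynomial
open Pool.Agent.H49.Ent Pool.Agent.H32.Dense Pool.STK Pool.KA Pool.KSAT Pool.K2S Pool.PB Pool.GEN
open Pool.RCD Pool.LA91 Pool.OWN68
open Pool.AVG5 (fl_mul of_fl CH_near)

variable {m J : ℕ}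

theorem jet1_X (k : Fin m) (b v : Option (Fin m) → ℝ) :
    jet 1 (X (some k) : MvPolynomial (Option (Fin m)) ℝ) b v = v (some k) := by
  unfold jet
  rw [aeval_X]
  unfold Pool.LA91.lp
  simp

/-- The own velocity and the direction. -/
theorem ojet1 (F : Fam m J) (k : Fin m) (G : MvPolynomial (Option (Fin m)) ℝ) (ω : F.Ω) :
    ojet F k 1 G ω = F.d ω k - jet 1 G (bt F ω) (bd F ω) := by
  unfold ojet
  rw [jet_sub, jet1_X]
  rfl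

/-- The numbers. -/
theorem num_near {C e ρ a l N : ℝ} {J : ℕ} (hC : 1 ≤ C) {s σ : ℝ} (hs : s ≤ 2 / 2 ^ (a * J))
    (hσ : σ ≤ 2 / 2 ^ (l * J))
    (h1 : C * 4 ≤ 2 ^ ((a - e - 2 * ρ - N) * J)) (h2 : C * 4 ≤ 2 ^ ((l - e - ρ - N) * J)) :
    C * 2 ^ (e * J) * (s * 2 ^ (ρ * J) + σ) * 2 ^ (ρ * J) ≤ 1 / 2 ^ (N * J) := by
  have hp : ∀ x : ℝ, (0 : ℝ) < 2 ^ x := fun x => Real.rpow_pos_of_pos (by norm_num) _
  have hNp := hp (N * J)
  rw [le_div_iff₀ hNp]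
  have k1 : C * 2 ^ (e * J) * (s * 2 ^ (ρ * J)) * 2 ^ (ρ * J) * 2 ^ (N * J) ≤ 1 / 2 := by
    have e1 : C * 2 ^ (e * J) * (s * 2 ^ (ρ * J)) * 2 ^ (ρ * J) * 2 ^ (N * J) =
        C * s * (2 ^ (e * J) * 2 ^ (ρ * J) * 2 ^ (ρ * J) * 2 ^ (N * J)) := by ring
    rw [e1, ← Real.rpow_add (by norm_num), ← Real.rpow_add (by norm_num),
      ← Real.rpow_add (by norm_num)]
    have e2 : C * s * 2 ^ (e * J + ρ * J + ρ * J + N * J) ≤
        C * (2 / 2 ^ (a * J)) * 2 ^ (e * J + ρ * J + ρ * J + N * J) :=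
      mul_le_mul_of_nonneg_right (mul_le_mul_of_nonneg_left hs (by linarith)) (hp _).le
    refine e2.trans ?_
    have e3 : (2 : ℝ) ^ (a * J) = 2 ^ ((a - e - 2 * ρ - N) * J) *
        2 ^ (e * J + ρ * J + ρ * J + N * J) := by
      rw [← Real.rpow_add (by norm_num)]
      congr 1
      ring
    rw [e3]
    have hX := hp ((a - e - 2 * ρ - N) * J)
    have hY := hp (e * J + ρ * J + ρ * J + N * J)
    rw [div_mul_eq_div_div, mul_div_assoc', div_mul_cancel₀ _ hY.ne', mul_div_assoc',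
      div_le_iff₀ hX]
    linarith
  have k2 : C * 2 ^ (e * J) * σ * 2 ^ (ρ * J) * 2 ^ (N * J) ≤ 1 / 2 := by
    have e1 : C * 2 ^ (e * J) * σ * 2 ^ (ρ * J) * 2 ^ (N * J) =
        C * σ * (2 ^ (e * J) * 2 ^ (ρ * J) * 2 ^ (N * J)) := by ring
    rw [e1, ← Real.rpow_add (by norm_num), ← Real.rpow_add (by norm_num)]
    have e2 : C * σ * 2 ^ (e * J + ρ * J + N * J) ≤
        C * (2 / 2 ^ (l * J)) * 2 ^ (e * J + ρ * J + N * J) :=
      mul_le_mul_of_nonneg_right (mul_le_mul_of_nonneg_left hσ (by linarith)) (hp _).le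
    refine e2.trans ?_
    have e3 : (2 : ℝ) ^ (l * J) = 2 ^ ((l - e - ρ - N) * J) * 2 ^ (e * J + ρ * J + N * J) := by
      rw [← Real.rpow_add (by norm_num)]
      congr 1
      ring
    rw [e3]
    have hX := hp ((l - e - ρ - N) * J)
    have hY := hp (e * J + ρ * J + N * J)
    rw [div_mul_eq_div_div, mul_div_assoc', div_mul_cancel₀ _ hY.ne', mul_div_assoc',
      div_le_iff₀ hX]
    linarith
  have e4 : C * 2 ^ (e * J) * (s * 2 ^ (ρ * J) + σ) * 2 ^ (ρ * J) * 2 ^ (N * J) =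
      C * 2 ^ (e * J) * (s * 2 ^ (ρ * J)) * 2 ^ (ρ * J) * 2 ^ (N * J) +
      C * 2 ^ (e * J) * σ * 2 ^ (ρ * J) * 2 ^ (N * J) := by ring
  rw [e4]
  linarith

/-- Near own velocities at the same label. -/
structure VelNear (F : Fam m J) (k : Fin m) {V : Type} (z' : LnT F → V)
    (G : V → MvPolynomial (Option (Fin m)) ℝ) (w : ℕ) (A : F.Ω → Prop) {β : Type} (Y : F.Ω → β)
    (N : ℝ) : Prop where
  near : ∀ ω ω', A ω → A ω' → Y ω = Y ω' →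
    |jet 1 (G (z' (slam F w ω))) (bt F ω) (bd F ω) -
      jet 1 (G (z' (slam F w ω'))) (bt F ω') (bd F ω')| ≤ 1 / 2 ^ (N * J)

/-- **The direction, given the own velocity.** -/
theorem d_few {F : Fam m J} {k : Fin m} {V : Type} {z' : LnT F → V}
    {G : V → MvPolynomial (Option (Fin m)) ℝ} {w : ℕ} {A : F.Ω → Prop} {β : Type} {Y : F.Ω → β}
    {N : ℝ} (hN : 0 ≤ N) (h : VelNear F k z' G w A Y N) {q : F.Ω → ℝ} (hq : IsLaw q)
    (hqA : ∀ ω, 0 < q ω → A ω) {γ : Type} (Y' : F.Ω → γ)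
    (hY : ∀ ω ω', 0 < q ω → 0 < q ω' → Y' ω = Y' ω' → Y ω = Y ω' ∧
      ⌊(2 : ℝ) ^ (N * J) * ojet F k 1 (G (z' (slam F w ω))) ω⌋ =
        ⌊(2 : ℝ) ^ (N * J) * ojet F k 1 (G (z' (slam F w ω'))) ω'⌋) :
    CH q (fun ω => F.D ⌊N * J⌋₊ ω k) Y' ≤ Real.log 7 := by
  have e5 : (7 : ℝ) = 2 * ((3 : ℕ) : ℝ) + 1 := by norm_num
  rw [e5]
  refine CH_pair hq _ _ fun ω ω' hω hω' e => ?_
  obtain ⟨e1, e2⟩ := hY ω ω' hω hω' e
  have hp : (0 : ℝ) < 2 ^ (N * J) := Real.rpow_pos_of_pos (by norm_num) _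
  have b1 := of_fl hp e2
  have b2 := h.near ω ω' (hqA ω hω) (hqA ω' hω') e1
  rw [ojet1, ojet1] at b1
  have b3 : |F.d ω k - F.d ω' k| ≤ 2 / 2 ^ (N * J) := by
    have e6 : F.d ω k - F.d ω' k = (F.d ω k - jet 1 (G (z' (slam F w ω))) (bt F ω) (bd F ω) -
        (F.d ω' k - jet 1 (G (z' (slam F w ω'))) (bt F ω') (bd F ω'))) +
        (jet 1 (G (z' (slam F w ω))) (bt F ω) (bd F ω) -
          jet 1 (G (z' (slam F w ω'))) (bt F ω') (bd F ω')) := by ring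
    rw [e6]
    refine (abs_add_le _ _).trans ((add_le_add b1 b2).trans (le_of_eq ?_))
    ring
  have hle : (2 : ℝ) ^ ⌊N * J⌋₊ ≤ 2 ^ (N * J) := by
    rw [← Real.rpow_natCast]
    exact Real.rpow_le_rpow_of_exponent_le (by norm_num)
      (Nat.floor_le (mul_nonneg hN (Nat.cast_nonneg J)))
  have b5 := fl_mul (σ := (2 : ℝ) ^ ⌊N * J⌋₊) (by positivity) b3
  have b6 : (2 : ℝ) ^ ⌊N * J⌋₊ * (2 / 2 ^ (N * J)) + 1 ≤ 3 := by
    have : (2 : ℝ) ^ ⌊N * J⌋₊ * (2 / 2 ^ (N * J)) ≤ 2 := by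
      rw [mul_div_assoc', div_le_iff₀ hp]
      linarith
    linarith
  have b8 : ((|F.D ⌊N * J⌋₊ ω k - F.D ⌊N * J⌋₊ ω' k| : ℤ) : ℝ) ≤ ((3 : ℤ) : ℝ) := by
    push_cast
    exact b5.trans b6
  exact_mod_cast b8

/-- **The own velocity, given the direction.** -/
theorem b_few {F : Fam m J} {k : Fin m} {V : Type} {z' : LnT F → V}
    {G : V → MvPolynomial (Option (Fin m)) ℝ} {w : ℕ} {A : F.Ω → Prop} {β : Type} {Y : F.Ω → β}
    {N : ℝ} (h : VelNear F k z' G w A Y N) {q : F.Ω → ℝ} (hq : IsLaw q)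
    (hqA : ∀ ω, 0 < q ω → A ω) {γ : Type} (Y' : F.Ω → γ)
    (hY : ∀ ω ω', 0 < q ω → 0 < q ω' → Y' ω = Y' ω' → Y ω = Y ω' ∧
      F.D ⌊N * J⌋₊ ω k = F.D ⌊N * J⌋₊ ω' k) :
    CH q (fun ω => ⌊(2 : ℝ) ^ (N * J) * ojet F k 1 (G (z' (slam F w ω))) ω⌋) Y' ≤ Real.log 9 := by
  have e5 : (9 : ℝ) = 2 * ((4 : ℕ) : ℝ) + 1 := by norm_num
  rw [e5]
  refine CH_pair hq _ _ fun ω ω' hω hω' e => ?_
  obtain ⟨e1, e2⟩ := hY ω ω' hω hω' e
  have hp : (0 : ℝ) < 2 ^ (N * J) := Real.rpow_pos_of_pos (by norm_num) _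
  have b1 : |F.d ω k - F.d ω' k| ≤ 1 / 2 ^ ⌊N * J⌋₊ := of_fl (by positivity) e2
  have b2 := h.near ω ω' (hqA ω hω) (hqA ω' hω') e1
  have hle : (2 : ℝ) ^ (N * J) ≤ 2 * 2 ^ ⌊N * J⌋₊ := by
    have e3 : (2 : ℝ) * 2 ^ ⌊N * J⌋₊ = 2 ^ (((⌊N * J⌋₊ + 1 : ℕ)) : ℝ) := by
      rw [Real.rpow_natCast]
      ring
    rw [e3]
    refine Real.rpow_le_rpow_of_exponent_le (by norm_num) ?_
    push_cast
    exact (Nat.lt_floor_add_one _).le
  have b3 : |ojet F k 1 (G (z' (slam F w ω))) ω - ojet F k 1 (G (z' (slam F w ω'))) ω'| ≤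
      3 / 2 ^ (N * J) := by
    rw [ojet1, ojet1]
    have e6 : F.d ω k - jet 1 (G (z' (slam F w ω))) (bt F ω) (bd F ω) -
        (F.d ω' k - jet 1 (G (z' (slam F w ω'))) (bt F ω') (bd F ω')) =
        (F.d ω k - F.d ω' k) - (jet 1 (G (z' (slam F w ω))) (bt F ω) (bd F ω) -
          jet 1 (G (z' (slam F w ω'))) (bt F ω') (bd F ω')) := by ring
    rw [e6]
    refine (abs_sub _ _).trans ?_
    have b4 : (1 : ℝ) / 2 ^ ⌊N * J⌋₊ ≤ 2 / 2 ^ (N * J) := by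
      rw [div_le_div_iff₀ (by positivity) hp]
      linarith
    have e7 : (3 : ℝ) / 2 ^ (N * J) = 2 / 2 ^ (N * J) + 1 / 2 ^ (N * J) := by ring
    rw [e7]
    linarith
  have b5 := fl_mul (σ := (2 : ℝ) ^ (N * J)) hp.le b3
  have b6 : (2 : ℝ) ^ (N * J) * (3 / 2 ^ (N * J)) + 1 = 4 := by
    field_simp
    norm_num
  rw [b6] at b5
  have b8 : ((|⌊(2 : ℝ) ^ (N * J) * ojet F k 1 (G (z' (slam F w ω))) ω⌋ -
      ⌊(2 : ℝ) ^ (N * J) * ojet F k 1 (G (z' (slam F w ω'))) ω'⌋| : ℤ) : ℝ) ≤ ((4 : ℤ) : ℝ) := by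
    push_cast
    exact b5
  exact_mod_cast b8

end Pool.PRC54
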