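import Pool.Agent.H54.PRC.Rcs
import Pool.Agent.H76.PR.DeL

/-!
# The displacements

`uI`, `nI`: the heights of the line at the integer times. `cL`: the slope path in units. `DisE`: the
geometry of the pairs over one record (real numbers). `disL_of`: the structure `DisL` (helper76).
-/

set_option autoImplicit false

namespace Pool.PRC54

open Finset Real MvPolynomial
open Pool.Agent.H49.Ent Pool.Agent.H32.Dense Pool.STK Pool.KA Pool.KSAT Pool.K2S Pool.PB Pool.GEN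
open Pool.RCD Pool.LA91 Pool.OWN68 Pool.PR46 Pool.PRQ76
open Pool.AVG5 (fl_mul of_fl CH_near)
open Pool.PB.Trl (rt rt_mem t_rt)

variable {m J : ℕ}

/-- The height `u` at the integer times. -/
noncomputable def uI (F : Fam m J) (W pu M : ℕ) (κ : Fin m) (s : LnT F) (τ : ℤ) : ℤ :=
  ⌊(2 : ℝ) ^ pu * ln F W κ s (tht M τ)⌋

/-- The height `n` at the integer times, relative to the slope `c₀`. -/
noncomputable def nI (F : Fam m J) (W pn M : ℕ) (κ κn : Fin m) (c₀ : LnT F → ℝ) (s : LnT F)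
    (τ : ℤ) : ℤ :=
  ⌊(2 : ℝ) ^ pn * (ln F W κn s (tht M τ) - c₀ s * ln F W κ s (tht M τ))⌋

/-- The slope path in units. -/
noncomputable def cL (F : Fam m J) (pu pn M : ℕ) (cA : LnT F → Polynomial ℝ) (c₀ : LnT F → ℝ)
    (s : LnT F) : Polynomial ℝ :=
  Polynomial.C ((2 : ℝ) ^ pn / 2 ^ pu) * ((cA s).comp (Polynomial.C ((M : ℝ) / (2 * M + 1)) *
    Polynomial.X + Polynomial.C ((M : ℝ) / (2 * M + 1))) - Polynomial.C (c₀ s))

theorem cL_eval (F : Fam m J) (pu pn M : ℕ) (cA : LnT F → Polynomial ℝ) (c₀ : LnT F → ℝ)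
    (s : LnT F) (x : ℝ) : (cL F pu pn M cA c₀ s).eval x = (2 : ℝ) ^ pn / 2 ^ pu *
      ((cA s).eval ((M : ℝ) / (2 * M + 1) * x + (M : ℝ) / (2 * M + 1)) - c₀ s) := by
  unfold cL
  simp only [Polynomial.eval_mul, Polynomial.eval_C, Polynomial.eval_sub, Polynomial.eval_comp,
    Polynomial.eval_add, Polynomial.eval_X]

theorem cL_deg (F : Fam m J) (pu pn M : ℕ) {cA : LnT F → Polynomial ℝ} (c₀ : LnT F → ℝ)
    (s : LnT F) {d : ℕ} (h : (cA s).natDegree ≤ d) : (cL F pu pn M cA c₀ s).natDegree ≤ d := by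
  unfold cL
  refine (Polynomial.natDegree_C_mul_le _ _).trans ((Polynomial.natDegree_sub_le _ _).trans
    (max_le ?_ ?_))
  · refine Polynomial.natDegree_comp_le.trans ?_
    have h1 : (Polynomial.C ((M : ℝ) / (2 * M + 1)) * Polynomial.X +
        Polynomial.C ((M : ℝ) / (2 * M + 1)) : Polynomial ℝ).natDegree ≤ 1 := by
      refine (Polynomial.natDegree_add_le _ _).trans (max_le ?_ ?_)
      · exact (Polynomial.natDegree_C_mul_le _ _).trans Polynomial.natDegree_X_le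
      · rw [Polynomial.natDegree_C]
        exact Nat.zero_le _
    calc _ ≤ (cA s).natDegree * 1 := Nat.mul_le_mul le_rfl h1
      _ ≤ d := by rw [mul_one]; exact h
  · rw [Polynomial.natDegree_C]
    exact Nat.zero_le _

theorem th_mem {M : ℕ} {x : ℝ} (hx : |x| ≤ 1) :
    0 ≤ (M : ℝ) / (2 * M + 1) * x + (M : ℝ) / (2 * M + 1) ∧
      (M : ℝ) / (2 * M + 1) * x + (M : ℝ) / (2 * M + 1) ≤ 1 := by
  have hM : (0 : ℝ) ≤ M := Nat.cast_nonneg M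
  have h0 : (0 : ℝ) ≤ (M : ℝ) / (2 * M + 1) := by positivity
  have h1 : (M : ℝ) / (2 * M + 1) * 2 ≤ 1 := by
    rw [div_mul_eq_mul_div, div_le_one (by positivity)]
    linarith
  obtain ⟨a, b⟩ := abs_le.mp hx
  constructor
  · nlinarith
  · nlinarith

theorem th_tau {M : ℕ} (hM : 1 ≤ M) (τ : ℤ) :
    (M : ℝ) / (2 * M + 1) * ((τ : ℝ) / M) + (M : ℝ) / (2 * M + 1) = tht M τ := by
  have hM0 : (M : ℝ) ≠ 0 := by
    have : (1 : ℝ) ≤ M := by exact_mod_cast hM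
    linarith
  unfold tht
  field_simp

/-- The velocity of `u` in units. -/
noncomputable def dU (pu W M nd : ℕ) (D : ℤ) : ℝ :=
  (2 : ℝ) ^ pu * M / ((2 * M + 1) * 2 ^ W * 2 ^ nd) * D

/-- **The geometry of the pairs over one record.** -/
structure DisE (F : Fam m J) (A : F.Ω → Prop) (κ κn : Fin m) (W M pu pn nj d K : ℕ) (B₀ : ℝ)
    {Γ : Type} (G : F.Ω → Γ) (cA : LnT F → Polynomial ℝ) (c₀ : LnT F → ℝ) (cs : F.Ω → ℝ) :
    Prop where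
  hW : W ≤ J
  deg : ∀ s, (cA s).natDegree ≤ d
  same : ∀ ω ω', A ω → A ω' → G ω = G ω' → F.T ω = F.T ω' ∧ F.T1 W ω = F.T1 W ω' ∧
    dg F nj κ (slam F W ω) = dg F nj κ (slam F W ω') ∧ c₀ (slam F W ω) = c₀ (slam F W ω')
  pos : ∀ ω ω', A ω → A ω' → G ω = G ω' → |F.x ω' κ - F.x ω κ| ≤ K / 2 ^ pu
  hop : ∀ ω ω', A ω → A ω' → G ω = G ω' → ∀ θ : ℝ, 0 ≤ θ → θ ≤ 1 →
    |(ln F W κn (slam F W ω') θ - ln F W κn (slam F W ω) θ) -
      cs ω * (ln F W κ (slam F W ω') θ - ln F W κ (slam F W ω) θ)| ≤ K / 2 ^ pn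
  near : ∀ ω ω', A ω → A ω' → G ω = G ω' → ∀ θ : ℝ, 0 ≤ θ → θ ≤ 1 →
    2 ^ pn * |(cA (slam F W ω')).eval θ - (cA (slam F W ω)).eval θ| * B₀ ≤ K * 2 ^ pu
  val : ∀ ω, A ω → 2 ^ pn * |(cA (slam F W ω)).eval (rt F W ω) - cs ω| * B₀ ≤ K * 2 ^ pu
  bd : ∀ ω, A ω → ∀ θ : ℝ, 0 ≤ θ → θ ≤ 1 →
    2 ^ pn * |(cA (slam F W ω)).eval θ - c₀ (slam F W ω)| ≤ K * 2 ^ pu

/-- The differences of the digits. -/
theorem fl_diff (σ x y : ℝ) : |((⌊σ * x⌋ : ℤ) : ℝ) - ((⌊σ * y⌋ : ℤ) : ℝ) - σ * (x - y)| ≤ 1 := by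
  have h1 := Int.floor_le (σ * x)
  have h2 := Int.lt_floor_add_one (σ * x)
  have h3 := Int.floor_le (σ * y)
  have h4 := Int.lt_floor_add_one (σ * y)
  rw [abs_le, mul_sub]
  constructor <;> linarith

theorem half_le {M : ℕ} : (M : ℝ) / (2 * M + 1) ≤ 1 / 2 := by
  rw [div_le_div_iff₀ (by positivity) (by norm_num)]
  linarith

/-! ### Real numbers -/

/-- The displacement of `u`. -/
theorem ru {K M σ w n e0 dd DD cu δ δ' T B₀ : ℝ} (hK : 1 ≤ K) (hM : 1 ≤ M) (hσ : 0 < σ)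
    (hw : 0 < w) (hn : 0 < n) (hcu : cu = σ * M / ((2 * M + 1) * w * n)) (hcu1 : cu ≤ 1)
    (h0 : |σ * e0| ≤ K) (hd : |σ / w * dd| ≤ B₀) (hB : B₀ ≤ K * M) (hD : |DD - n * dd| ≤ 1)
    (hδ : |δ| ≤ 1 / (2 * M + 1)) (hδ' : δ' = T / (2 * M + 1)) (hT : |T| ≤ 2 * M) :
    |σ * (e0 + (δ' - δ) / w * dd) - cu * DD * (T / M)| ≤ 4 * K := by
  have hM0 : 0 < M := by linarith
  have hM1 : 0 < 2 * M + 1 := by linarith
  have hcu0 : 0 ≤ cu := by rw [hcu]; positivity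
  have e1 : σ * (e0 + (δ' - δ) / w * dd) - cu * DD * (T / M) =
      σ * e0 - δ * (σ / w * dd) - cu * (DD - n * dd) * (T / M) := by
    rw [hδ', hcu]
    field_simp
    ring
  have hB0 : 0 ≤ B₀ := (abs_nonneg _).trans hd
  have b2 : |δ * (σ / w * dd)| ≤ K := by
    rw [abs_mul]
    calc |δ| * |σ / w * dd| ≤ 1 / (2 * M + 1) * B₀ :=
          mul_le_mul hδ hd (abs_nonneg _) (by positivity)
      _ = B₀ / (2 * M + 1) := by ring
      _ ≤ K := by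
          rw [div_le_iff₀ hM1]
          nlinarith
  have hT2 : |T / M| ≤ 2 := by
    rw [abs_div, abs_of_pos hM0, div_le_iff₀ hM0]
    exact hT
  have b4 : |cu * (DD - n * dd) * (T / M)| ≤ 2 := by
    rw [abs_mul, abs_mul, abs_of_nonneg hcu0]
    calc cu * |DD - n * dd| * |T / M| ≤ 1 * 1 * 2 :=
          mul_le_mul (mul_le_mul hcu1 hD (abs_nonneg _) (by norm_num)) hT2 (abs_nonneg _)
            (by norm_num)
      _ = 2 := by norm_num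
  have b5 := abs_sub (σ * e0 - δ * (σ / w * dd)) (cu * (DD - n * dd) * (T / M))
  have b6 := abs_sub (σ * e0) (δ * (σ / w * dd))
  rw [e1]
  linarith

/-- The displacement of `n`. -/
theorem rnn {K σ ρ En eu cs c₀ β β' U B₀ b₁ b₂ : ℝ} (hK : 0 ≤ K) (hσ : 0 < σ) (hρ : 0 < ρ)
    (hE : |En - cs * eu| ≤ K / ρ) (hβ : β = ρ / σ * (cs - c₀)) (hU : |σ * eu - U| ≤ 4 * K)
    (hU2 : |U| ≤ 2 * B₀) (h1 : |β| ≤ b₁) (h2 : |β - β'| * B₀ ≤ b₂) :
    |ρ * (En - c₀ * eu) - β' * U| ≤ K + b₁ * (4 * K) + 2 * b₂ := by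
  have e1 : ρ * (En - c₀ * eu) - β' * U =
      ρ * (En - cs * eu) + β * (σ * eu - U) + (β - β') * U := by
    rw [hβ]
    field_simp
    ring
  have a1 : |ρ * (En - cs * eu)| ≤ K := by
    rw [abs_mul, abs_of_pos hρ]
    calc ρ * |En - cs * eu| ≤ ρ * (K / ρ) := mul_le_mul_of_nonneg_left hE hρ.le
      _ = K := by field_simp
  have a2 : |β * (σ * eu - U)| ≤ b₁ * (4 * K) := by
    rw [abs_mul]
    exact mul_le_mul h1 hU (abs_nonneg _) ((abs_nonneg _).trans h1)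
  have a3 : |(β - β') * U| ≤ 2 * b₂ := by
    rw [abs_mul]
    calc |β - β'| * |U| ≤ |β - β'| * (2 * B₀) := mul_le_mul_of_nonneg_left hU2 (abs_nonneg _)
      _ = 2 * (|β - β'| * B₀) := by ring
      _ ≤ 2 * b₂ := by linarith
  rw [e1]
  have c1 := abs_add_le (ρ * (En - cs * eu) + β * (σ * eu - U)) ((β - β') * U)
  have c2 := abs_add_le (ρ * (En - cs * eu)) (β * (σ * eu - U))
  linarith

/-- A polynomial of bounded oscillation moves little. -/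
theorem pmove {d : ℕ} {Cm : ℝ} (hCm : 0 ≤ Cm)
    (hmk : ∀ (P : Polynomial ℝ) (b : ℝ), P.natDegree ≤ d →
      (∀ t ∈ Set.Icc (0 : ℝ) 1, |P.eval t| ≤ b) →
      ∀ t ∈ Set.Icc (0 : ℝ) 1, |P.derivative.eval t| ≤ Cm * b)
    {P : Polynomial ℝ} (hP : P.natDegree ≤ d) {c b : ℝ}
    (hb : ∀ t ∈ Set.Icc (0 : ℝ) 1, |P.eval t - c| ≤ b) {x y : ℝ} (hx : x ∈ Set.Icc (0 : ℝ) 1)
    (hy : y ∈ Set.Icc (0 : ℝ) 1) {e : ℝ} (hxy : |x - y| ≤ e) :
    |P.eval x - P.eval y| ≤ Cm * b * e := by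
  obtain ⟨R, hR⟩ : ∃ R : Polynomial ℝ, R = P - Polynomial.C c := ⟨_, rfl⟩
  have hRd : R.natDegree ≤ d := by
    rw [hR]
    refine (Polynomial.natDegree_sub_le _ _).trans (max_le hP ?_)
    rw [Polynomial.natDegree_C]
    exact Nat.zero_le _
  have hRb : ∀ t ∈ Set.Icc (0 : ℝ) 1, |R.eval t| ≤ b := by
    intro t ht
    rw [hR, Polynomial.eval_sub, Polynomial.eval_C]
    exact hb t ht
  have hmk1 := hmk R b hRd hRb
  have h2 := (convex_Icc (0 : ℝ) 1).norm_image_sub_le_of_norm_deriv_le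
    (f := fun t => R.eval t) (C := Cm * b)
    (fun t _ => R.differentiableAt) (by
      intro t ht
      rw [Polynomial.deriv, Real.norm_eq_abs]
      exact hmk1 t ht) (x := y) (y := x) hy hx
  simp only [Real.norm_eq_abs] at h2
  have e2 : R.eval x - R.eval y = P.eval x - P.eval y := by
    rw [hR, Polynomial.eval_sub, Polynomial.eval_sub, Polynomial.eval_C, Polynomial.eval_C]
    ring
  rw [e2] at h2
  have hb0 : 0 ≤ b := (abs_nonneg _).trans (hb x hx)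
  exact h2.trans (mul_le_mul_of_nonneg_left hxy (by positivity))

/-- The slopes: `β` of the pair, `β'` of the path. -/
theorem rbeta {K M σ ρ cs c₀ ct cr β β' B₀ Cm : ℝ} (hM : 1 ≤ M) (hσ : 0 < σ)
    (hρ : 0 < ρ) (hCm : 0 ≤ Cm) (hK : 0 ≤ K) (hB0 : 0 ≤ B₀) (hB : B₀ ≤ K * M)
    (hβ : β = ρ / σ * (cs - c₀)) (hβ' : β' = ρ / σ * (ct - c₀))
    (v1 : ρ * |cr - cs| * B₀ ≤ K * σ)
    (v2 : |cr - ct| ≤ Cm * (K * σ / ρ) * (1 / (2 * M + 1))) :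
    |β - β'| * B₀ ≤ K + Cm * K * K := by
  have hM1 : 0 < 2 * M + 1 := by linarith
  have e1 : β - β' = ρ / σ * ((cs - cr) + (cr - ct)) := by
    rw [hβ, hβ']
    ring
  have w1 : ρ / σ * |cs - cr| * B₀ ≤ K := by
    rw [abs_sub_comm]
    calc ρ / σ * |cr - cs| * B₀ = ρ * |cr - cs| * B₀ / σ := by ring
      _ ≤ K * σ / σ := div_le_div_of_nonneg_right v1 hσ.le
      _ = K := by field_simp
  have w2 : ρ / σ * |cr - ct| * B₀ ≤ Cm * K * K := by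
    calc ρ / σ * |cr - ct| * B₀ ≤ ρ / σ * (Cm * (K * σ / ρ) * (1 / (2 * M + 1))) * B₀ :=
          mul_le_mul_of_nonneg_right (mul_le_mul_of_nonneg_left v2 (by positivity)) hB0
      _ = Cm * K * (B₀ / (2 * M + 1)) := by field_simp
      _ ≤ Cm * K * K := by
          refine mul_le_mul_of_nonneg_left ?_ (by positivity)
          rw [div_le_iff₀ hM1]
          nlinarith
  rw [e1, abs_mul, abs_of_pos (div_pos hρ hσ)]
  calc ρ / σ * |(cs - cr) + (cr - ct)| * B₀ ≤ ρ / σ * (|cs - cr| + |cr - ct|) * B₀ :=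
        mul_le_mul_of_nonneg_right (mul_le_mul_of_nonneg_left (abs_add_le _ _) (by positivity)) hB0
    _ = ρ / σ * |cs - cr| * B₀ + ρ / σ * |cr - ct| * B₀ := by ring
    _ ≤ K + Cm * K * K := add_le_add w1 w2

/-- The velocity. -/
theorem rvel {pu W M nj nd : ℕ} {B₀ dd DD cu : ℝ} (hjd : nj ≤ nd)
    (hpu : pu ≤ W + nd) (hpB : (2 : ℝ) ^ pu ≤ B₀ * 2 ^ (W + nj))
    (hcu : cu = (2 : ℝ) ^ pu * M / ((2 * M + 1) * 2 ^ W * 2 ^ nd))
    (hd1 : |dd| ≤ 1 / 2 ^ nj) (hDd : |DD - 2 ^ nd * dd| ≤ 1) :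
    cu ≤ 1 ∧ |cu * DD| ≤ B₀ ∧ |2 ^ pu / 2 ^ W * dd| ≤ B₀ := by
  have hWd : (0 : ℝ) < 2 ^ W * 2 ^ nd := by positivity
  have hcu0 : 0 ≤ cu := by rw [hcu]; positivity
  have hcu1 : cu * 2 ^ nd ≤ 2 ^ pu / 2 ^ W / 2 := by
    have e : cu * 2 ^ nd = (2 ^ pu / 2 ^ W) * (M / (2 * M + 1)) := by
      rw [hcu]
      field_simp
    rw [e]
    calc (2 : ℝ) ^ pu / 2 ^ W * (M / (2 * M + 1)) ≤ 2 ^ pu / 2 ^ W * (1 / 2) :=
          mul_le_mul_of_nonneg_left half_le (by positivity)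
      _ = _ := by ring
  have hpW : (2 : ℝ) ^ pu / 2 ^ W ≤ 2 ^ nd := by
    rw [div_le_iff₀ (by positivity), ← pow_add]
    exact pow_le_pow_right₀ (by norm_num) (by omega)
  have hcu2 : cu ≤ 1 := by
    have h1 : cu * 2 ^ nd ≤ 1 * 2 ^ nd := by linarith [show (0 : ℝ) < 2 ^ nd by positivity]
    exact le_of_mul_le_mul_right h1 (by positivity)
  have hpj : (2 : ℝ) ^ pu / 2 ^ W * (1 / 2 ^ nj) ≤ B₀ := by
    rw [div_mul_div_comm, mul_one, div_le_iff₀ (by positivity), ← pow_add]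
    exact hpB
  have hDD2 : |DD| ≤ 2 * (2 ^ nd * (1 / 2 ^ nj)) := by
    have h1 : |DD| ≤ 1 + 2 ^ nd * |dd| := by
      have e : DD = (DD - 2 ^ nd * dd) + 2 ^ nd * dd := by ring
      rw [e]
      refine (abs_add_le _ _).trans (add_le_add hDd ?_)
      rw [abs_mul, abs_of_pos (show (0 : ℝ) < 2 ^ nd by positivity)]
    have h2 : (2 : ℝ) ^ nd * |dd| ≤ 2 ^ nd * (1 / 2 ^ nj) :=
      mul_le_mul_of_nonneg_left hd1 (by positivity)
    have h3 : (1 : ℝ) ≤ 2 ^ nd * (1 / 2 ^ nj) := by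
      rw [mul_one_div, le_div_iff₀ (by positivity), one_mul]
      exact pow_le_pow_right₀ (by norm_num) hjd
    linarith
  refine ⟨hcu2, ?_, ?_⟩
  · rw [abs_mul, abs_of_nonneg hcu0]
    calc cu * |DD| ≤ cu * (2 * (2 ^ nd * (1 / 2 ^ nj))) := mul_le_mul_of_nonneg_left hDD2 hcu0
      _ = 2 * (cu * 2 ^ nd) * (1 / 2 ^ nj) := by ring
      _ ≤ 2 * (2 ^ pu / 2 ^ W / 2) * (1 / 2 ^ nj) :=
          mul_le_mul_of_nonneg_right (by linarith) (by positivity)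
      _ = 2 ^ pu / 2 ^ W * (1 / 2 ^ nj) := by ring
      _ ≤ B₀ := hpj
  · rw [abs_mul, abs_of_pos (show (0 : ℝ) < 2 ^ pu / 2 ^ W by positivity)]
    exact (mul_le_mul_of_nonneg_left hd1 (by positivity)).trans hpj

/-! ### The pairs -/

section

variable {F : Fam m J} {A : F.Ω → Prop} {κ κn : Fin m} {W M pu pn nj nd d K : ℕ} {B₀ : ℝ}
  {Γ : Type} {G : F.Ω → Γ} {cA : LnT F → Polynomial ℝ} {c₀ : LnT F → ℝ} {cs : F.Ω → ℝ}

/-- The slope path is bounded. -/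
theorem DisE.cbd (H : DisE F A κ κn W M pu pn nj d K B₀ G cA c₀ cs) {ω : F.Ω} (hω : A ω) {x : ℝ}
    (hx : |x| ≤ 1) : |(cL F pu pn M cA c₀ (slam F W ω)).eval x| ≤ K := by
  have hpp : (0 : ℝ) < 2 ^ pu := by positivity
  have hnp : (0 : ℝ) < 2 ^ pn := by positivity
  obtain ⟨h0, h1⟩ := th_mem (M := M) hx
  have h2 := H.bd ω hω _ h0 h1
  rw [cL_eval, abs_mul, abs_of_pos (div_pos hnp hpp), div_mul_eq_mul_div, div_le_iff₀ hpp]
  exact h2

/-- The displacement of `u` at the integer times. -/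
theorem DisE.dispu (H : DisE F A κ κn W M pu pn nj d K B₀ G cA c₀ cs) (hM : 1 ≤ M) (hK : 1 ≤ K)
    (hjd : nj ≤ nd) (hpu : pu ≤ W + nd) (hBK : B₀ ≤ K * M) (hpB : 2 ^ pu ≤ B₀ * 2 ^ (W + nj))
    {ω ω' : F.Ω} (hA : A ω) (hA' : A ω') (hG : G ω = G ω') {DD : ℝ}
    (hDD : DD = ((dg F nd κ (slam F W ω') : ℤ) : ℝ) - ((dg F nd κ (slam F W ω) : ℤ) : ℝ))
    {cu : ℝ} (hcu : cu = (2 : ℝ) ^ pu * M / ((2 * M + 1) * 2 ^ W * 2 ^ nd)) {τ : ℤ}
    (hτ : |τ| ≤ (M : ℤ)) :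
    |cu * DD| ≤ B₀ ∧
    |2 ^ pu * (ln F W κ (slam F W ω') (tht M τ) - ln F W κ (slam F W ω) (tht M τ)) -
      cu * DD * (((τ : ℝ) - tI F W M ω) / M)| ≤ 4 * K ∧
    |cu * DD * (((τ : ℝ) - tI F W M ω) / M)| ≤ 2 * B₀ := by
  have hMr : (1 : ℝ) ≤ M := by exact_mod_cast hM
  have hKr : (1 : ℝ) ≤ K := by exact_mod_cast hK
  have hM0 : (0 : ℝ) < M := by linarith
  have hpp : (0 : ℝ) < 2 ^ pu := by positivity
  obtain ⟨sT, s1, sn, sc⟩ := H.same ω ω' hA hA' hG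
  have hrt : rt F W ω = rt F W ω' := rt_of_T F W sT
  obtain ⟨dd, hdd⟩ : ∃ dd : ℝ, dd = F.d ω' κ - F.d ω κ := ⟨_, rfl⟩
  have hd1 : |dd| ≤ 1 / 2 ^ nj := by
    rw [hdd]
    exact of_fl (by positivity) sn.symm
  have hDd : |DD - 2 ^ nd * dd| ≤ 1 := by
    rw [hDD, hdd]
    exact fl_diff _ _ _
  obtain ⟨hcu2, hB, hpd⟩ := rvel hjd hpu hpB hcu hd1 hDd
  have hτ2 : |((τ : ℝ) - tI F W M ω)| ≤ 2 * M := by
    have c1 : |(τ : ℝ)| ≤ M := by exact_mod_cast hτ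
    have c2 : |((tI F W M ω : ℤ) : ℝ)| ≤ M := by exact_mod_cast tI_le F W M ω
    have := abs_sub (τ : ℝ) (tI F W M ω)
    linarith
  have hτ3 : |((τ : ℝ) - tI F W M ω) / M| ≤ 2 := by
    rw [abs_div, abs_of_pos hM0, div_le_iff₀ hM0]
    exact hτ2
  refine ⟨hB, ?_, ?_⟩
  · have hpos : |2 ^ pu * (F.x ω' κ - F.x ω κ)| ≤ K := by
      rw [abs_mul, abs_of_pos hpp]
      calc (2 : ℝ) ^ pu * |F.x ω' κ - F.x ω κ| ≤ 2 ^ pu * (K / 2 ^ pu) :=
            mul_le_mul_of_nonneg_left (H.pos ω ω' hA hA' hG) hpp.le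
        _ = K := by field_simp
    have htt := tht_tI F W M ω
    have key := ru (T := (τ : ℝ) - tI F W M ω) hKr hMr hpp (show (0 : ℝ) < 2 ^ W by positivity)
      (show (0 : ℝ) < 2 ^ nd by positivity) hcu hcu2 hpos hpd hBK hDd htt
      (tht_sub M (tI F W M ω) τ) hτ2
    have e1 : F.x ω' κ - F.x ω κ + ((tht M τ - tht M (tI F W M ω)) -
        (rt F W ω - tht M (tI F W M ω))) / 2 ^ W * dd =
        ln F W κ (slam F W ω') (tht M τ) - ln F W κ (slam F W ω) (tht M τ) := by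
      rw [← ln_rt F H.hW κ ω, ← ln_rt F H.hW κ ω', ← hrt,
        ln_add F W κ (slam F W ω') (rt F W ω) (tht M τ),
        ln_add F W κ (slam F W ω) (rt F W ω) (tht M τ), hdd]
      have a1 : (slam F W ω).1.2 κ = F.d ω κ := rfl
      have a2 : (slam F W ω').1.2 κ = F.d ω' κ := rfl
      rw [a1, a2]
      ring
    rw [e1] at key
    exact key
  · rw [abs_mul]
    calc |cu * DD| * |((τ : ℝ) - tI F W M ω) / M| ≤ B₀ * 2 :=
          mul_le_mul hB hτ3 (abs_nonneg _) ((abs_nonneg _).trans hB)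
      _ = 2 * B₀ := by ring

/-- The displacement of `n` at the integer times. -/
theorem DisE.dispn (H : DisE F A κ κn W M pu pn nj d K B₀ G cA c₀ cs) {Cm : ℝ} (hCm : 1 ≤ Cm)
    (hmk : ∀ (P : Polynomial ℝ) (b : ℝ), P.natDegree ≤ d →
      (∀ t ∈ Set.Icc (0 : ℝ) 1, |P.eval t| ≤ b) →
      ∀ t ∈ Set.Icc (0 : ℝ) 1, |P.derivative.eval t| ≤ Cm * b)
    (hM : 1 ≤ M) (hK : 1 ≤ K) (hjd : nj ≤ nd) (hpu : pu ≤ W + nd) (hB1 : 1 ≤ B₀)
    (hBK : B₀ ≤ K * M) (hpB : 2 ^ pu ≤ B₀ * 2 ^ (W + nj)) {ω ω' : F.Ω} (hA : A ω) (hA' : A ω')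
    (hG : G ω = G ω') {DD : ℝ}
    (hDD : DD = ((dg F nd κ (slam F W ω') : ℤ) : ℝ) - ((dg F nd κ (slam F W ω) : ℤ) : ℝ))
    {cu : ℝ} (hcu : cu = (2 : ℝ) ^ pu * M / ((2 * M + 1) * 2 ^ W * 2 ^ nd)) {τ : ℤ}
    (hτ : |τ| ≤ (M : ℤ)) :
    |2 ^ pn * ((ln F W κn (slam F W ω') (tht M τ) - ln F W κn (slam F W ω) (tht M τ)) -
        c₀ (slam F W ω) * (ln F W κ (slam F W ω') (tht M τ) - ln F W κ (slam F W ω) (tht M τ))) -
      (cL F pu pn M cA c₀ (slam F W ω)).eval (((tI F W M ω : ℤ) : ℝ) / M) *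
        (cu * DD * (((τ : ℝ) - tI F W M ω) / M))| ≤
      K + (2 * K + Cm * K * K) * (4 * K) + 2 * (K + Cm * K * K) := by
  have hMr : (1 : ℝ) ≤ M := by exact_mod_cast hM
  have hKr : (1 : ℝ) ≤ K := by exact_mod_cast hK
  have hM0 : (0 : ℝ) < M := by linarith
  have hCm0 : 0 ≤ Cm := by linarith
  have hpp : (0 : ℝ) < 2 ^ pu := by positivity
  have hnp : (0 : ℝ) < 2 ^ pn := by positivity
  obtain ⟨hB, hu, hU⟩ := H.dispu hM hK hjd hpu hBK hpB hA hA' hG hDD hcu hτ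
  obtain ⟨hθ0, hθ1⟩ := tht_mem hτ
  have htM : |((tI F W M ω : ℤ) : ℝ) / M| ≤ 1 := by
    rw [abs_div, abs_of_pos hM0, div_le_one hM0]
    exact_mod_cast tI_le F W M ω
  obtain ⟨β, hβ⟩ : ∃ β, β = (2 : ℝ) ^ pn / 2 ^ pu * (cs ω - c₀ (slam F W ω)) := ⟨_, rfl⟩
  obtain ⟨β', hβ'⟩ : ∃ β', β' = (cL F pu pn M cA c₀ (slam F W ω)).eval
    (((tI F W M ω : ℤ) : ℝ) / M) := ⟨_, rfl⟩
  have hβ'1 : |β'| ≤ K := by
    rw [hβ']
    exact H.cbd hA htM
  have hβ'2 : β' = (2 : ℝ) ^ pn / 2 ^ pu *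
      ((cA (slam F W ω)).eval (tht M (tI F W M ω)) - c₀ (slam F W ω)) := by
    rw [hβ', cL_eval, th_tau hM]
  have v2 : |(cA (slam F W ω)).eval (rt F W ω) -
      (cA (slam F W ω)).eval (tht M (tI F W M ω))| ≤ Cm * (K * 2 ^ pu / 2 ^ pn) *
        (1 / (2 * M + 1)) :=
    pmove hCm0 hmk (H.deg _) (c := c₀ (slam F W ω)) (by
      intro t ht
      rw [le_div_iff₀ hnp, mul_comm]
      exact H.bd ω hA t ht.1 ht.2) (rt_mem F W ω) (tht_mem (tI_le F W M ω)) (tht_tI F W M ω)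
  have hββ := rbeta hMr hpp hnp hCm0 (by linarith : (0 : ℝ) ≤ K) (by linarith) hBK hβ hβ'2
    (H.val ω hA) v2
  have hβ1 : |β| ≤ 2 * K + Cm * K * K := by
    have h1 : |β - β'| ≤ K + Cm * K * K := by
      have : |β - β'| * 1 ≤ |β - β'| * B₀ := mul_le_mul_of_nonneg_left hB1 (abs_nonneg _)
      linarith
    have e1 : β = (β - β') + β' := by ring
    have h2 := abs_add_le (β - β') β'
    rw [← e1] at h2
    linarith
  have key := rnn (by linarith : (0 : ℝ) ≤ K) hpp hnp (H.hop ω ω' hA hA' hG _ hθ0 hθ1) hβ hu hU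
    hβ1 hββ
  rw [← hβ']
  exact key

end

/-- **The displacements.** -/
theorem disL_of (d K : ℕ) (hK : 1 ≤ K) : ∃ K' : ℕ, K ≤ K' ∧ ∀ {m J : ℕ} {F : Fam m J}
    {A : F.Ω → Prop} {κ κn : Fin m} {W M pu pn nj nd : ℕ} {B₀ : ℝ} {Γ 𝒞 : Type} {G : F.Ω → Γ}
    {cA : LnT F → Polynomial ℝ} {c₀ : LnT F → ℝ} {cs : F.Ω → ℝ} {q : F.Ω → ℝ}
    {C : LnT F → 𝒞}, 1 ≤ M → nj ≤ nd → pu ≤ W + nd → 1 ≤ B₀ → B₀ ≤ K * M →
    2 ^ pu ≤ B₀ * 2 ^ (W + nj) →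
    DisE F A κ κn W M pu pn nj d K B₀ G cA c₀ cs → (∀ ω, 0 < q ω → A ω) →
    DisL q M K' B₀ (slam F W) (tI F W M) G C (dg F nd κ) (uI F W pu M κ)
      (nI F W pn M κ κn c₀) (dU pu W M nd) (cL F pu pn M cA c₀) (fun _ _ => 0) ∧
    (∀ ω, 0 < q ω → ∀ x : ℝ, |x| ≤ 1 → |(cL F pu pn M cA c₀ (slam F W ω)).eval x| ≤ K') := by
  obtain ⟨Cm, hCm, hmk⟩ := Pool.Agent.H40.BFL.unit_markov d
  have hK1 : (1 : ℝ) ≤ K := by exact_mod_cast hK
  have hCm0 : (0 : ℝ) ≤ Cm := by linarith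
  obtain ⟨Z, hZ⟩ : ∃ Z : ℝ, Z = K + (2 * K + Cm * K * K) * (4 * K) + 2 * (K + Cm * K * K) :=
    ⟨_, rfl⟩
  have hZ0 : 0 ≤ (2 * K + Cm * K * K) * (4 * (K : ℝ)) + 2 * (K + Cm * K * K) := by positivity
  obtain ⟨K', hK'⟩ : ∃ K' : ℕ, K' = ⌈Z⌉₊ + 5 * K + 2 := ⟨_, rfl⟩
  have hK'r : Z + 5 * K + 2 ≤ K' := by
    rw [hK']
    push_cast
    have := Nat.le_ceil Z
    linarith
  have hZK : (K : ℝ) ≤ Z := by
    rw [hZ]
    linarith
  refine ⟨K', by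
    have : (K : ℝ) ≤ K' := by linarith
    exact_mod_cast this, ?_⟩
  intro m J F A κ κn W M pu pn nj nd B₀ Γ 𝒞 G cA c₀ cs q C hM hjd hpu hB1 hBK hpB H hqA
  have hMr : (1 : ℝ) ≤ M := by exact_mod_cast hM
  have hM0 : (0 : ℝ) < M := by linarith
  have hB0 : 0 < B₀ := by linarith
  have hpp : (0 : ℝ) < 2 ^ pu := by positivity
  have hnp : (0 : ℝ) < 2 ^ pn := by positivity
  refine ⟨⟨?_⟩, fun ω hω x hx => (H.cbd (hqA ω hω) hx).trans (by linarith)⟩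
  intro ω ω' hω hω' hG
  have hA := hqA ω hω
  have hA' := hqA ω' hω'
  obtain ⟨sT, s1, sn, sc⟩ := H.same ω ω' hA hA' hG
  obtain ⟨DD, hDD⟩ : ∃ DD : ℝ, DD = ((dg F nd κ (slam F W ω') : ℤ) : ℝ) -
      ((dg F nd κ (slam F W ω) : ℤ) : ℝ) := ⟨_, rfl⟩
  obtain ⟨cu, hcu⟩ : ∃ cu : ℝ, cu = (2 : ℝ) ^ pu * M / ((2 * M + 1) * 2 ^ W * 2 ^ nd) := ⟨_, rfl⟩
  have hdu : dU pu W M nd (dg F nd κ (slam F W ω')) - dU pu W M nd (dg F nd κ (slam F W ω)) =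
      cu * DD := by
    rw [hcu, hDD]
    unfold dU
    ring
  rw [hdu]
  refine ⟨(H.dispu hM hK hjd hpu hBK hpB hA hA' hG hDD hcu (τ := 0) (by simp)).1, ?_, ?_⟩
  · intro x hx
    obtain ⟨h0, h1⟩ := th_mem (M := M) hx
    rw [cL_eval, cL_eval, ← mul_sub, sc]
    have e : ∀ a b c : ℝ, a - c - (b - c) = a - b := fun a b c => by ring
    rw [e, abs_mul, abs_of_pos (div_pos hnp hpp), le_div_iff₀ hB0]
    have h2 := H.near ω ω' hA hA' hG _ h0 h1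
    calc (2 : ℝ) ^ pn / 2 ^ pu * |(cA (slam F W ω')).eval _ - (cA (slam F W ω)).eval _| * B₀
        = 2 ^ pn * |(cA (slam F W ω')).eval ((M : ℝ) / (2 * M + 1) * x + (M : ℝ) / (2 * M + 1)) -
          (cA (slam F W ω)).eval ((M : ℝ) / (2 * M + 1) * x + (M : ℝ) / (2 * M + 1))| * B₀ /
            2 ^ pu := by ring
      _ ≤ K * 2 ^ pu / 2 ^ pu := div_le_div_of_nonneg_right h2 hpp.le
      _ = K := by field_simp
      _ ≤ K' := by linarith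
  · intro τ hτ
    obtain ⟨hB, hu, hU⟩ := H.dispu hM hK hjd hpu hBK hpB hA hA' hG hDD hcu hτ
    have hn := H.dispn hCm hmk hM hK hjd hpu hB1 hBK hpB hA hA' hG hDD hcu hτ
    rw [← hZ] at hn
    constructor
    · have h1 := fl_diff ((2 : ℝ) ^ pu) (ln F W κ (slam F W ω') (tht M τ))
        (ln F W κ (slam F W ω) (tht M τ))
      have e1 : ((uI F W pu M κ (slam F W ω') τ : ℝ) - uI F W pu M κ (slam F W ω) τ) -
          cu * DD * (((τ : ℝ) - tI F W M ω) / M) =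
          (((⌊(2 : ℝ) ^ pu * ln F W κ (slam F W ω') (tht M τ)⌋ : ℤ) : ℝ) -
            ((⌊(2 : ℝ) ^ pu * ln F W κ (slam F W ω) (tht M τ)⌋ : ℤ) : ℝ) -
            2 ^ pu * (ln F W κ (slam F W ω') (tht M τ) - ln F W κ (slam F W ω) (tht M τ))) +
          (2 ^ pu * (ln F W κ (slam F W ω') (tht M τ) - ln F W κ (slam F W ω) (tht M τ)) -
            cu * DD * (((τ : ℝ) - tI F W M ω) / M)) := by
        unfold uI
        ring
      rw [e1]
      refine (abs_add_le _ _).trans ?_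
      linarith
    · have h1 := fl_diff ((2 : ℝ) ^ pn) (ln F W κn (slam F W ω') (tht M τ) -
        c₀ (slam F W ω') * ln F W κ (slam F W ω') (tht M τ))
        (ln F W κn (slam F W ω) (tht M τ) - c₀ (slam F W ω) * ln F W κ (slam F W ω) (tht M τ))
      have e2 : (ln F W κn (slam F W ω') (tht M τ) -
        c₀ (slam F W ω') * ln F W κ (slam F W ω') (tht M τ)) -
        (ln F W κn (slam F W ω) (tht M τ) - c₀ (slam F W ω) * ln F W κ (slam F W ω) (tht M τ)) =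
        (ln F W κn (slam F W ω') (tht M τ) - ln F W κn (slam F W ω) (tht M τ)) -
        c₀ (slam F W ω) * (ln F W κ (slam F W ω') (tht M τ) -
          ln F W κ (slam F W ω) (tht M τ)) := by
        rw [← sc]
        ring
      rw [e2] at h1
      have e1 : ((nI F W pn M κ κn c₀ (slam F W ω') τ : ℝ) -
          nI F W pn M κ κn c₀ (slam F W ω) τ) -
          ((cL F pu pn M cA c₀ (slam F W ω)).eval (((tI F W M ω : ℤ) : ℝ) / M) - 0) *
            (cu * DD * (((τ : ℝ) - tI F W M ω) / M)) =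
          (((⌊(2 : ℝ) ^ pn * (ln F W κn (slam F W ω') (tht M τ) -
              c₀ (slam F W ω') * ln F W κ (slam F W ω') (tht M τ))⌋ : ℤ) : ℝ) -
            ((⌊(2 : ℝ) ^ pn * (ln F W κn (slam F W ω) (tht M τ) -
              c₀ (slam F W ω) * ln F W κ (slam F W ω) (tht M τ))⌋ : ℤ) : ℝ) -
            2 ^ pn * ((ln F W κn (slam F W ω') (tht M τ) - ln F W κn (slam F W ω) (tht M τ)) -
        c₀ (slam F W ω) * (ln F W κ (slam F W ω') (tht M τ) -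
          ln F W κ (slam F W ω) (tht M τ)))) +
          (2 ^ pn * ((ln F W κn (slam F W ω') (tht M τ) - ln F W κn (slam F W ω) (tht M τ)) -
        c₀ (slam F W ω) * (ln F W κ (slam F W ω') (tht M τ) -
          ln F W κ (slam F W ω) (tht M τ))) -
            (cL F pu pn M cA c₀ (slam F W ω)).eval (((tI F W M ω : ℤ) : ℝ) / M) *
            (cu * DD * (((τ : ℝ) - tI F W M ω) / M))) := by
        unfold nI
        ring
      rw [e1]
      refine (abs_add_le _ _).trans ?_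
      linarith

end Pool.PRC54
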