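import Pool.Agent.H54.PRC.Prp

/-!
# The geometry of the pairs over the record of the ball

`DsH`: the charts of the ball, the slope path, the record. `disE_of`: the structure `DisE`.
-/

set_option autoImplicit false

namespace Pool.PRC54

open Finset Real MvPolynomial
open Pool.Agent.H49.Ent Pool.Agent.H32.Dense Pool.STK Pool.KA Pool.KSAT Pool.K2S Pool.PB Pool.S6C
open Pool.GEN Pool.CHT Pool.CHX Pool.ISO Pool.D2R Pool.PRQ76
open Pool.PB.Trl (rt rt_mem t_rt)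

variable {m J : ℕ}

/-- The slope of the chart of `c (r + 1)` at the sample. -/
noncomputable def sl (F : Fam m J) (c : ℕ → Fin m) (r : ℕ)
    (G : PtT F → ℕ → MvPolynomial (Option (Fin m)) ℝ) (ω : F.Ω) : ℝ :=
  eval (bt F ω) (pderiv (some (c r)) (G (ptr F J ω) (r + 1)))

/-- **The charts of a window, and the slope on the slice.** -/
structure ChS (F : Fam m J) (A : F.Ω → Prop) (c : ℕ → Fin m) (r D j n x e : ℕ) (g : ℕ → ℕ)
    (G : PtT F → ℕ → MvPolynomial (Option (Fin m)) ℝ)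
    (H : LnT F → ℕ → MvPolynomial (Option (Fin m)) ℝ) : Prop where
  hc : Set.InjOn c (Set.Iio (r + 2))
  jJ : j ≤ J
  ch : ChOK F c (r + 2) (fun _ => D) j j e g A G H
  cl : ∀ ω, A ω → ∀ l < r + 2, G (ptr F J ω) l = H (slam F j ω) l
  own : ∀ ω, A ω → ∀ l < r + 2, ∀ τ ∈ Set.Icc (0 : ℝ) 1,
    |(dv j (fun s _ => H s l) (c l) (slam F j ω)).eval τ| ≤ 2 ^ n / 2 ^ g l
  osc : ∀ ω, A ω → ∀ τ ∈ Set.Icc (0 : ℝ) 1, ∀ y : ℝ, |y| ≤ 2 ^ (n + 2) / 2 ^ g r →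
    |eval (Function.update (ptw F j ω τ) (some (c r)) (ptw F j ω τ (some (c r)) + y))
      (pderiv (some (c r)) (G (ptr F J ω) (r + 1))) - sl F c r G ω| ≤
      2 ^ x * (2 ^ g r / 2 ^ g (r + 1))
  xg : x ≤ g (r + 1)

/-- A record with the same time, the same charts and near frames. -/
structure RcS (F : Fam m J) (A : F.Ω → Prop) (c : ℕ → Fin m) (r hi : ℕ) {Γ : Type} (R : F.Ω → Γ)
    (G : PtT F → ℕ → MvPolynomial (Option (Fin m)) ℝ) : Prop where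
  T : ∀ ω ω', A ω → A ω' → R ω = R ω' → F.T ω = F.T ω'
  ch : ∀ ω ω', A ω → A ω' → R ω = R ω' → ∀ l < r + 2, G (ptr F J ω) l = G (ptr F J ω') l
  nr : ∀ ω ω', A ω → A ω' → R ω = R ω' → ∀ l < r,
    |F.x ω' (c l) - F.x ω (c l)| ≤ 1 / 2 ^ (hi + 1) ∧
      |F.d ω' (c l) - F.d ω (c l)| ≤ 1 / 2 ^ (hi + 1)

/-- **The slope path** over the ball. -/
structure SpS (F : Fam m J) (A : F.Ω → Prop) (c : ℕ → Fin m) (r d W nj x su sn : ℕ) (g : ℕ → ℕ)
    {Γ : Type} (R : F.Ω → Γ) (G : PtT F → ℕ → MvPolynomial (Option (Fin m)) ℝ)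
    (cA : LnT F → Polynomial ℝ) (c₀ : LnT F → ℝ) : Prop where
  hW : W ≤ J
  deg : ∀ s, (cA s).natDegree ≤ d
  near : ∀ ω, A ω → |(cA (slam F W ω)).eval (rt F W ω) - sl F c r G ω| ≤
    2 ^ x * (2 ^ g r / 2 ^ g (r + 1))
  bd : ∀ ω, A ω → ∀ θ : ℝ, 0 ≤ θ → θ ≤ 1 →
    |(cA (slam F W ω)).eval θ - c₀ (slam F W ω)| ≤ 2 ^ x * (2 ^ su / 2 ^ sn)
  dg : ∀ ω ω', A ω → A ω' → R ω = R ω' →
    dg F nj (c r) (slam F W ω) = dg F nj (c r) (slam F W ω')
  c0 : ∀ ω ω', A ω → A ω' → R ω = R ω' → c₀ (slam F W ω) = c₀ (slam F W ω')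
  cA : ∀ ω ω', A ω → A ω' → R ω = R ω' → ∀ θ : ℝ, 0 ≤ θ → θ ≤ 1 → ∀ θ' : ℝ, 0 ≤ θ' → θ' ≤ 1 →
    |((cA (slam F W ω')).eval θ - (cA (slam F W ω)).eval θ) -
      ((cA (slam F W ω')).eval θ' - (cA (slam F W ω)).eval θ')| ≤
        2 ^ x * (2 ^ g r / 2 ^ g (r + 1))

/-- `2 ^ a * (2 ^ b / 2 ^ c) * 2 ^ d ≤ 2 ^ e`. -/
theorem pw_le {a b c d e : ℕ} (h : a + b + d ≤ e + c) :
    (2 : ℝ) ^ a * (2 ^ b / 2 ^ c) * 2 ^ d ≤ 2 ^ e := by
  have e1 : (2 : ℝ) ^ a * (2 ^ b / 2 ^ c) * 2 ^ d = 2 ^ (a + b + d) / 2 ^ c := by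
    rw [pow_add, pow_add]
    ring
  rw [e1, div_le_iff₀ (by positivity), ← pow_add]
  exact pow_le_pow_right₀ (by norm_num) h

/-- **The geometry of the pairs.** -/
theorem disE_of (r D : ℕ) : ∃ C : ℕ, 1 ≤ C ∧ ∀ {m J : ℕ} {F : Fam m J} {A : F.Ω → Prop}
    {c : ℕ → Fin m} {d W j pu pn nj β₀ n x e hi v su sn M : ℕ} {g : ℕ → ℕ} {Γ : Type} {R : F.Ω → Γ}
    {G : PtT F → ℕ → MvPolynomial (Option (Fin m)) ℝ}
    {H : LnT F → ℕ → MvPolynomial (Option (Fin m)) ℝ} {cA : LnT F → Polynomial ℝ}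
    {c₀ : LnT F → ℝ},
    ChS F A c r D j n x e g G H → RcS F A c r hi R G → SpS F A c r d W nj x su sn g R G cA c₀ →
    W ≤ j → (∀ i < r + 2, e + g i + C * (n + 1) ≤ hi) →
    (∀ i < r + 1, e + g i + v + C * (n + 1) ≤ hi) → e + (Finset.Icc r (r + 1)).sup g ≤ g r + v →
    pn + (j - W) + (C * (n + 1) + x) ≤ g (r + 1) → pu + 2 ≤ g r →
    pn + g r + β₀ + (C * (n + 1) + x) ≤ pu + g (r + 1) → pn + su + x ≤ pu + sn →
    DisE F A (c r) (c (r + 1)) W M pu pn nj d 1 ((2 : ℝ) ^ β₀) R cA c₀ (sl F c r G) := by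
  obtain ⟨C, hC, hpair⟩ := pair_low r D
  refine ⟨C + 2, by omega, ?_⟩
  intro m J F A c d W j pu pn nj β₀ n x e hi v su sn M g Γ R G H cA c₀ K L P hWj h1 h2 h3 h4 h5 h6 h7
  have hX : C * (n + 1) + 2 ≤ (C + 2) * (n + 1) := by nlinarith
  have hp2 : (2 : ℝ) ^ (C * (n + 1) + x) * 2 ^ 2 ≤ 2 ^ ((C + 2) * (n + 1) + x) := by
    rw [← pow_add]
    exact pow_le_pow_right₀ (by norm_num) (by omega)
  obtain ⟨U, hU⟩ : ∃ U : ℝ, U = 2 ^ g r / 2 ^ g (r + 1) := ⟨_, rfl⟩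
  have hU0 : 0 < U := by rw [hU]; positivity
  -- one pair
  have pr : ∀ ω ω', A ω → A ω' → R ω = R ω' →
      (∀ σ : ℝ, |((F.x ω' (c (r + 1)) + σ * F.d ω' (c (r + 1))) -
        (F.x ω (c (r + 1)) + σ * F.d ω (c (r + 1)))) -
      sl F c r G ω * ((F.x ω' (c r) + σ * F.d ω' (c r)) - (F.x ω (c r) + σ * F.d ω (c r)))| ≤
        2 ^ (C * (n + 1) + x) / 2 ^ g (r + 1) * (1 + 2 ^ j * |σ|)) ∧
      |F.x ω' (c r) - F.x ω (c r)| ≤ 3 / 2 ^ g r ∧
      |sl F c r G ω' - sl F c r G ω| ≤ 2 ^ (C * (n + 1) + x) * U := by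
    intro ω ω' hω hω' hR
    obtain ⟨a1, a2, a3⟩ := hpair K.hc K.jJ K.ch K.cl K.own (fun i hi' => by
      have := h1 i hi'
      omega) K.xg ω ω' hω hω' (L.T ω ω' hω hω' hR) (L.ch ω ω' hω hω' hR) (L.nr ω ω' hω hω' hR)
      (sl F c r G ω) (K.osc ω hω)
    refine ⟨a1, a2, ?_⟩
    have := a3 v (fun i hi' => by
      have := h2 i hi'
      omega) h3
    rw [mul_div_assoc, ← hU] at this
    exact this
  have hx1 : (2 : ℝ) ^ x ≤ 2 ^ (C * (n + 1) + x) := pow_le_pow_right₀ (by norm_num) (by omega)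
  refine ⟨P.hW, P.deg, fun ω ω' hω hω' hR => ⟨L.T ω ω' hω hω' hR, ?_, P.dg ω ω' hω hω' hR,
    P.c0 ω ω' hω hω' hR⟩, ?_, ?_, ?_, ?_, ?_⟩
  · unfold Fam.T1
    rw [L.T ω ω' hω hω' hR]
  · intro ω ω' hω hω' hR
    refine (pr ω ω' hω hω' hR).2.1.trans ?_
    push_cast
    rw [div_le_div_iff₀ (by positivity) (by positivity)]
    have k1 : (2 : ℝ) ^ (pu + 2) ≤ 2 ^ g r := pow_le_pow_right₀ (by norm_num) h5
    rw [pow_add] at k1
    have k2 : (0 : ℝ) < 2 ^ pu := by positivity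
    nlinarith
  · intro ω ω' hω hω' hR θ hθ0 hθ1
    have hT := L.T ω ω' hω hω' hR
    have hrt : rt F W ω = rt F W ω' := rt_of_T F W hT
    have e1 : ∀ k : Fin m, ln F W k (slam F W ω) θ =
        F.x ω k + (θ - rt F W ω) / 2 ^ W * F.d ω k := by
      intro k
      rw [ln_add F W k (slam F W ω) (rt F W ω) θ, ln_rt F P.hW k ω]
      rfl
    have e2 : ∀ k : Fin m, ln F W k (slam F W ω') θ =
        F.x ω' k + (θ - rt F W ω) / 2 ^ W * F.d ω' k := by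
      intro k
      rw [ln_add F W k (slam F W ω') (rt F W ω') θ, ln_rt F P.hW k ω', hrt]
      rfl
    have a1 := (pr ω ω' hω hω' hR).1 ((θ - rt F W ω) / 2 ^ W)
    rw [e1, e1, e2, e2]
    refine a1.trans ?_
    have hσ : |(θ - rt F W ω) / 2 ^ W| ≤ 1 / 2 ^ W := by
      rw [abs_div, abs_of_pos (show (0 : ℝ) < 2 ^ W by positivity)]
      refine div_le_div_of_nonneg_right ?_ (by positivity)
      have := rt_mem F W ω
      rw [abs_le]
      constructor <;> linarith [this.1, this.2]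
    have hj : (2 : ℝ) ^ j = 2 ^ W * 2 ^ (j - W) := by
      rw [← pow_add]
      congr 1
      omega
    have k1 : 1 + 2 ^ j * |(θ - rt F W ω) / 2 ^ W| ≤ 2 * 2 ^ (j - W) := by
      have k2 : (2 : ℝ) ^ j * |(θ - rt F W ω) / 2 ^ W| ≤ 2 ^ (j - W) := by
        calc (2 : ℝ) ^ j * |(θ - rt F W ω) / 2 ^ W| ≤ 2 ^ j * (1 / 2 ^ W) :=
              mul_le_mul_of_nonneg_left hσ (by positivity)
          _ = 2 ^ (j - W) := by
              rw [hj]
              field_simp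
      have k3 : (1 : ℝ) ≤ 2 ^ (j - W) := one_le_pow₀ (by norm_num)
      linarith
    calc (2 : ℝ) ^ (C * (n + 1) + x) / 2 ^ g (r + 1) * (1 + 2 ^ j * |(θ - rt F W ω) / 2 ^ W|)
        ≤ 2 ^ (C * (n + 1) + x) / 2 ^ g (r + 1) * (2 * 2 ^ (j - W)) :=
          mul_le_mul_of_nonneg_left k1 (by positivity)
      _ ≤ ((1 : ℕ) : ℝ) / 2 ^ pn := by
          push_cast
          rw [div_mul_eq_mul_div, div_le_div_iff₀ (by positivity) (by positivity)]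
          calc (2 : ℝ) ^ (C * (n + 1) + x) * (2 * 2 ^ (j - W)) * 2 ^ pn =
              2 ^ (C * (n + 1) + x + 1 + (j - W) + pn) := by
                rw [pow_add 2 _ pn, pow_add 2 _ (j - W), pow_succ 2 (C * (n + 1) + x)]
                ring
            _ ≤ 2 ^ g (r + 1) := pow_le_pow_right₀ (by norm_num) (by omega)
            _ = 1 * 2 ^ g (r + 1) := (one_mul _).symm
  · intro ω ω' hω hω' hR θ hθ0 hθ1
    have hT := L.T ω ω' hω hω' hR
    have hrt : rt F W ω = rt F W ω' := rt_of_T F W hT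
    have a0 := (pr ω ω' hω hω' hR).2.2
    have a1 := P.near ω hω
    have a2 := P.near ω' hω'
    rw [← hrt] at a2
    have a3 := P.cA ω ω' hω hω' hR θ hθ0 hθ1 (rt F W ω) (rt_mem F W ω).1 (rt_mem F W ω).2
    rw [← hU] at a1 a2 a3
    have a4 : |(cA (slam F W ω')).eval θ - (cA (slam F W ω)).eval θ| ≤
        2 ^ (C * (n + 1) + x) * 2 ^ 2 * U := by
      have e1 : (cA (slam F W ω')).eval θ - (cA (slam F W ω)).eval θ =
          (((cA (slam F W ω')).eval θ - (cA (slam F W ω)).eval θ) -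
            ((cA (slam F W ω')).eval (rt F W ω) - (cA (slam F W ω)).eval (rt F W ω))) +
          ((cA (slam F W ω')).eval (rt F W ω) - sl F c r G ω') +
          (sl F c r G ω' - sl F c r G ω) -
          ((cA (slam F W ω)).eval (rt F W ω) - sl F c r G ω) := by ring
      rw [e1]
      have b1 := mul_le_mul_of_nonneg_right hx1 hU0.le
      obtain ⟨X1, hX1⟩ : ∃ X1 : ℝ, X1 = 2 ^ x * U := ⟨_, rfl⟩
      obtain ⟨X2, hX2⟩ : ∃ X2 : ℝ, X2 = 2 ^ (C * (n + 1) + x) * U := ⟨_, rfl⟩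
      have e2 : (2 : ℝ) ^ (C * (n + 1) + x) * 2 ^ 2 * U = 4 * X2 := by
        rw [hX2]
        ring
      rw [e2]
      rw [← hX1] at a1 a2 a3 b1
      rw [← hX2] at a0 b1
      rw [abs_le] at a0 a1 a2 a3 ⊢
      constructor <;> linarith [a0.1, a0.2, a1.1, a1.2, a2.1, a2.2, a3.1, a3.2]
    have a5 : |(cA (slam F W ω')).eval θ - (cA (slam F W ω)).eval θ| ≤
        2 ^ ((C + 2) * (n + 1) + x) * U := a4.trans (mul_le_mul_of_nonneg_right hp2 hU0.le)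
    push_cast
    rw [one_mul]
    calc (2 : ℝ) ^ pn * |(cA (slam F W ω')).eval θ - (cA (slam F W ω)).eval θ| * 2 ^ β₀
        ≤ 2 ^ pn * (2 ^ ((C + 2) * (n + 1) + x) * U) * 2 ^ β₀ :=
          mul_le_mul_of_nonneg_right (mul_le_mul_of_nonneg_left a5 (by positivity)) (by positivity)
      _ = 2 ^ (pn + ((C + 2) * (n + 1) + x)) * (2 ^ g r / 2 ^ g (r + 1)) * 2 ^ β₀ := by
          rw [hU, pow_add 2 pn]
          ring
      _ ≤ 2 ^ pu := pw_le (by omega)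
  · intro ω hω
    have a1 := P.near ω hω
    push_cast
    rw [one_mul]
    calc (2 : ℝ) ^ pn * |(cA (slam F W ω)).eval (rt F W ω) - sl F c r G ω| * 2 ^ β₀
        ≤ 2 ^ pn * (2 ^ x * (2 ^ g r / 2 ^ g (r + 1))) * 2 ^ β₀ :=
          mul_le_mul_of_nonneg_right (mul_le_mul_of_nonneg_left a1 (by positivity)) (by positivity)
      _ = 2 ^ (pn + x) * (2 ^ g r / 2 ^ g (r + 1)) * 2 ^ β₀ := by
          rw [pow_add 2 pn]
          ring
      _ ≤ 2 ^ pu := pw_le (by omega)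
  · intro ω hω θ hθ0 hθ1
    have a1 := P.bd ω hω θ hθ0 hθ1
    push_cast
    rw [one_mul]
    calc (2 : ℝ) ^ pn * |(cA (slam F W ω)).eval θ - c₀ (slam F W ω)|
        ≤ 2 ^ pn * (2 ^ x * (2 ^ su / 2 ^ sn)) := mul_le_mul_of_nonneg_left a1 (by positivity)
      _ = 2 ^ (pn + x) * (2 ^ su / 2 ^ sn) * 2 ^ 0 := by
          rw [pow_add 2 pn]
          ring
      _ ≤ 2 ^ pu := pw_le (by omega)

end Pool.PRC54
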