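import Pool.Agent.H54.PRC.One

/-!
# Change of the charts over an exact base

`few_jetp`: `few_jet` (helper91) for a base which is known to more than `J` digits.
-/

set_option autoImplicit false

namespace Pool.PRC54

open Finset Real MvPolynomial
open Pool.Agent.H49.Ent Pool.Agent.H32.Dense Pool.STK Pool.KA Pool.KSAT Pool.K2S Pool.PB Pool.GEN
open Pool.S6C Pool.RCD Pool.LA91
open Pool.GRD (LbP Pb_mono_pos)
open Pool.UNJ (ceI Tub)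
open Pool.BFL (Pb)

variable {m : ℕ}

/-- **Change of the charts**: at a window `w`, the jets over the labels of the window `w₂ ≤ w` are
few bits given the jets over the labels of the window `w₁ ≤ w`; `p₀` may be larger than `1`. -/
theorem few_jetp {S : PCl m} {C₀ : ℝ} (htm : TmC S C₀) {I : Finset (Fin m)} {k : Fin m} {j : ℕ}
    {w w₁ w₂ p₁ p₂ N₁ N₂ p₀ lam u₀ : ℝ} (hw₁ : w₁ ≤ w) (hw₂ : w₂ ≤ w) (hw : w ≤ 1) (hwu : w ≤ u₀)
    (hu0 : 0 ≤ u₀) (hu1 : u₀ < p₀) (hu2 : u₀ < 1) (hful : ∀ u : ℝ, u₀ < u → u < 1 → Ful S I w u)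
    {α γ : ∀ J : ℕ, Fam m J → Type} {f : ∀ (J : ℕ) (F : Fam m J), F.Ω → α J F}
    {y : ∀ (J : ℕ) (F : Fam m J), F.Ω → γ J F}
    (hf : ∀ (J : ℕ) (F : Fam m J), ∃ φ : α J F → PtT F, ∀ ω, ptr F J ω = φ (f J F ω))
    (hy : Kn I p₀ lam y) (hN : N₂ ≤ N₁)
    (hlt : N₂ + j * u₀ < min p₁ p₂ + min lam (p₀ - u₀)) :
    Few S f (vg w) y (qJet m I k j w₁ p₁ N₁) (qJet m I k j w₂ p₂ N₂) := by
  classical
  intro h hh
  obtain ⟨p, hp⟩ : ∃ p, p = min p₁ p₂ := ⟨_, rfl⟩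
  obtain ⟨L, hL⟩ : ∃ L, L = min lam (p₀ - u₀) := ⟨_, rfl⟩
  rw [← hp, ← hL] at hlt
  have hp1 : p ≤ p₁ := by rw [hp]; exact min_le_left _ _
  have hp2 : p ≤ p₂ := by rw [hp]; exact min_le_right _ _
  have hL1 : L ≤ lam := by rw [hL]; exact min_le_left _ _
  have hL2 : L ≤ p₀ - u₀ := by rw [hL]; exact min_le_right _ _
  obtain ⟨σ, hσ⟩ : ∃ σ, σ = p + L - (N₂ + j * u₀) := ⟨_, rfl⟩
  have hσ0 : 0 < σ := by rw [hσ]; linarith
  have hj0 : (0 : ℝ) ≤ j := Nat.cast_nonneg j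
  obtain ⟨μ, hμ⟩ : ∃ μ : ℝ, μ = (min 1 p₀ - u₀) / 2 := ⟨_, rfl⟩
  have hμ0 : 0 < μ := by
    rw [hμ]
    have : u₀ < min 1 p₀ := lt_min hu2 hu1
    linarith
  have hμ1 : u₀ + 2 * μ ≤ 1 := by
    rw [hμ]
    have := min_le_left 1 p₀
    linarith
  have hμ2 : u₀ + 2 * μ ≤ p₀ := by
    rw [hμ]
    have := min_le_right 1 p₀
    linarith
  obtain ⟨δ, hδ⟩ : ∃ δ : ℝ, δ = min (σ / (8 * ((j : ℝ) + 1))) μ := ⟨_, rfl⟩
  have hδ0 : 0 < δ := by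
    rw [hδ]
    exact lt_min (by positivity) hμ0
  have hδ1 : ((j : ℝ) + 1) * δ ≤ σ / 8 := by
    have e1 : δ ≤ σ / (8 * ((j : ℝ) + 1)) := by rw [hδ]; exact min_le_left _ _
    have e2 : ((j : ℝ) + 1) * (σ / (8 * ((j : ℝ) + 1))) = σ / 8 := by field_simp
    rw [← e2]
    exact mul_le_mul_of_nonneg_left e1 (by linarith)
  have hδ2 : δ ≤ μ := by rw [hδ]; exact min_le_right _ _
  refine ⟨σ / 4, by linarith, fun K => ?_⟩
  obtain ⟨C, hC, hfam⟩ := few_fam m K j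
  have hC0 : 0 < C := by linarith
  have hl2 : 0 < Real.log 2 := Real.log_pos one_lt_two
  obtain ⟨η, hη⟩ : ∃ η : ℝ, η = min 1 (h / (2 * ((K : ℝ) + 1))) := ⟨_, rfl⟩
  have hη0 : 0 < η := by
    rw [hη]
    exact lt_min one_pos (by positivity)
  have hη1 : η ≤ 1 := by rw [hη]; exact min_le_left _ _
  have hηK : η * K ≤ h / 2 := by
    have e1 : η ≤ h / (2 * ((K : ℝ) + 1)) := by rw [hη]; exact min_le_right _ _
    have e2 : (K : ℝ) * (h / (2 * ((K : ℝ) + 1))) ≤ h / 2 := by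
      rw [mul_div_assoc', div_le_iff₀ (by positivity)]
      have : (0 : ℝ) ≤ K := Nat.cast_nonneg K
      nlinarith
    have e3 := mul_le_mul_of_nonneg_left e1 (Nat.cast_nonneg (α := ℝ) K)
    linarith
  obtain ⟨ψ, hψ⟩ : ∃ ψ : ℝ, ψ = η * min (σ / 8) μ * Real.log 2 / (3 * C) := ⟨_, rfl⟩
  have hmn0 : 0 < min (σ / 8) μ := lt_min (by linarith) hμ0
  have hψ0 : 0 < ψ := by
    rw [hψ]
    positivity
  have hψ1 : C * (3 * ψ) / η = min (σ / 8) μ * Real.log 2 := by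
    rw [hψ]
    field_simp
  -- the limits
  obtain ⟨J₃, hJ₃⟩ := exists_nat_ge (Real.log (16 * C) / (σ / 8 * Real.log 2) + 1 / ψ +
    1 / μ + (Real.log 2 + Real.log 7) / (h / 2))
  refine Bas.mono J₃ ((hful (u₀ + δ) (by linarith) (by linarith) ψ hψ0).and
    (Pool.GRW.tmc_bas htm hψ0)) ?_
  rintro J hJ F A ⟨hF, hA, hT⟩ u u' ⟨-, V₁, z₁, z₁', G₁, hl₁, hu₁⟩ ⟨hc, V₂, z₂, z₂', G₂, hl₂, hu₂⟩
  have hJ3 : (J₃ : ℝ) ≤ J := by exact_mod_cast hJ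
  have hJ0 : (0 : ℝ) ≤ J := Nat.cast_nonneg J
  have hl12 : 0 ≤ Real.log (16 * C) := Real.log_nonneg (by linarith)
  have hl7 : 0 < Real.log 7 := Real.log_pos (by norm_num)
  have t1 : 0 ≤ Real.log (16 * C) / (σ / 8 * Real.log 2) := by positivity
  have t2 : 0 < 1 / ψ := by positivity
  have t3 : 0 < 1 / μ := div_pos one_pos hμ0
  have t4 : 0 < (Real.log 2 + Real.log 7) / (h / 2) := by positivity
  have f1 : Real.log (16 * C) ≤ σ / 8 * Real.log 2 * J := by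
    have : Real.log (16 * C) / (σ / 8 * Real.log 2) ≤ J := by linarith
    rw [div_le_iff₀ (by positivity)] at this
    linarith
  have f2 : 1 ≤ ψ * J := by
    have : 1 / ψ ≤ J := by linarith
    rw [div_le_iff₀ hψ0] at this
    linarith
  have f3 : 1 ≤ μ * J := by
    have : 1 / μ ≤ J := by linarith
    rw [div_le_iff₀ hμ0] at this
    linarith
  have f4 : Real.log 2 + Real.log 7 ≤ h / 2 * J := by
    have : (Real.log 2 + Real.log 7) / (h / 2) ≤ J := by linarith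
    rw [div_le_iff₀ (by positivity)] at this
    linarith
  -- the integers
  have hwJ : ⌊w * J⌋₊ ≤ J := floor_le hw J
  have hw1J : ⌊w₁ * J⌋₊ ≤ ⌊w * J⌋₊ := Nat.floor_le_floor (mul_le_mul_of_nonneg_right hw₁ hJ0)
  have hw2J : ⌊w₂ * J⌋₊ ≤ ⌊w * J⌋₊ := Nat.floor_le_floor (mul_le_mul_of_nonneg_right hw₂ hJ0)
  have huf : ((⌊(u₀ + δ) * J⌋₊ : ℕ) : ℝ) ≤ (u₀ + δ) * J := Nat.floor_le (by positivity)
  have hua1 : ⌊(u₀ + δ) * J⌋₊ + 1 ≤ ⌊p₀ * J⌋₊ := by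
    refine Nat.le_floor ?_
    push_cast
    have : (u₀ + δ) * J ≤ (p₀ - μ) * J :=
      mul_le_mul_of_nonneg_right (by linarith) hJ0
    linarith
  have huJ1 : ⌊(u₀ + δ) * J⌋₊ ≤ J := floor_le (by linarith) J
  have hl₁' := hl₁.win hw1J hwJ
  have hl₂' := hl₂.win hw2J hwJ
  obtain ⟨y₁, hy₁⟩ : ∃ y₁ : LnT F → V₁, y₁ = fun s =>
    z₁' (s.1, s.2.1, s.2.2 / 2 ^ (⌊w * J⌋₊ - ⌊w₁ * J⌋₊)) := ⟨_, rfl⟩
  obtain ⟨y₂, hy₂⟩ : ∃ y₂ : LnT F → V₂, y₂ = fun s =>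
    z₂' (s.1, s.2.1, s.2.2 / 2 ^ (⌊w * J⌋₊ - ⌊w₂ * J⌋₊)) := ⟨_, rfl⟩
  rw [← hy₁] at hl₁'
  rw [← hy₂] at hl₂'
  have g1 : ∀ ω, y₁ (slam F ⌊w * J⌋₊ ω) = z₁' (slam F ⌊w₁ * J⌋₊ ω) := fun ω => by
    rw [hy₁]
    show z₁' ((slam F ⌊w * J⌋₊ ω).1, (slam F ⌊w * J⌋₊ ω).2.1,
      (slam F ⌊w * J⌋₊ ω).2.2 / 2 ^ (⌊w * J⌋₊ - ⌊w₁ * J⌋₊)) = _
    rw [← slam_coarse F hw1J hwJ ω]
  have g2 : ∀ ω, y₂ (slam F ⌊w * J⌋₊ ω) = z₂' (slam F ⌊w₂ * J⌋₊ ω) := fun ω => by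
    rw [hy₂]
    show z₂' ((slam F ⌊w * J⌋₊ ω).1, (slam F ⌊w * J⌋₊ ω).2.1,
      (slam F ⌊w * J⌋₊ ω).2.2 / 2 ^ (⌊w * J⌋₊ - ⌊w₂ * J⌋₊)) = _
    rw [← slam_coarse F hw2J hwJ ω]
  refine ⟨V₁ × V₂, fun ω => (y₁ (slam F ⌊w * J⌋₊ ω), y₂ (slam F ⌊w * J⌋₊ ω)), ⟨?_, ?_⟩, ?_⟩
  · obtain ⟨φ, hφ⟩ := hf J F
    refine ⟨fun a => (z₁ (φ a), z₂ (φ a)), fun ω hω => ?_⟩
    show (y₁ (slam F ⌊w * J⌋₊ ω), y₂ (slam F ⌊w * J⌋₊ ω)) = (z₁ (φ (f J F ω)), z₂ (φ (f J F ω)))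
    rw [← hφ ω, hl₁'.cls ω hω, hl₂'.cls ω hω]
  · exact ⟨fun s => (y₁ s, y₂ s), fun ω _ => rfl⟩
  have hexp : C * (ψ * J + ψ * J + 1) / η ≤ min (σ / 8) μ * Real.log 2 * J := by
    rw [← hψ1]
    have e1 : C * (ψ * J + ψ * J + 1) ≤ C * (3 * ψ) * J := by nlinarith
    calc C * (ψ * J + ψ * J + 1) / η ≤ C * (3 * ψ) * J / η := div_le_div_of_nonneg_right e1 hη0.le
      _ = _ := by ring
  have key := hfam J F A I k ⌊w * J⌋₊ ⌊(u₀ + δ) * J⌋₊ ⌊p₀ * J⌋₊ ⌊lam * J⌋₊ ⌊(p₁ - σ / 4) * J⌋₊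
    ⌊(p₂ - σ / 4) * J⌋₊ (2 ^ (N₁ * J)) (2 ^ (N₂ * J)) V₁ V₂ z₁ y₁ G₁ z₂ y₂ G₂ u u' (γ J F) (y J F)
    (ψ * J) (ψ * J) η (K * J) hA (by linarith) hl₁' hl₂'
    (Nat.floor_le_floor (mul_le_mul_of_nonneg_right (by linarith) hJ0)) hua1 huJ1 (by positivity)
    (by positivity) hη0 hη1 (by positivity) ?_ ?_ (Real.rpow_pos_of_pos (by norm_num) _)
    (Real.rpow_le_rpow_of_exponent_le (by norm_num) (mul_le_mul_of_nonneg_right hN hJ0)) ?_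
    (hy J F)
    (fun ω hω => by rw [g1 ω]; exact hu₁ ω hω) (fun ω hω => by rw [g2 ω]; exact hu₂ ω hω) hc
  · refine key.trans ?_
    have : η * (K * J) ≤ h / 2 * J := by
      calc η * (K * J) = η * K * J := by ring
        _ ≤ h / 2 * J := mul_le_mul_of_nonneg_right hηK hJ0
    linarith
  · have h3 := hF (V₁ × V₂) (fun x => (z₁ x, z₂ x)) (fun x => (y₁ x, y₂ x)) (fun ω hω => by
      rw [hl₁'.cls ω hω, hl₂'.cls ω hω])
    exact h3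
  · refine hexp.trans ?_
    rw [Nat.cast_sub huJ1]
    calc min (σ / 8) μ * Real.log 2 * J ≤ μ * Real.log 2 * J :=
          mul_le_mul_of_nonneg_right (mul_le_mul_of_nonneg_right (min_le_right _ _) hl2.le) hJ0
      _ = (μ * J) * Real.log 2 := by ring
      _ ≤ ((J : ℝ) - (⌊(u₀ + δ) * J⌋₊ : ℕ)) * Real.log 2 := by
        refine mul_le_mul_of_nonneg_right ?_ hl2.le
        have h1 : (u₀ + δ) * J ≤ (1 - μ) * J :=
          mul_le_mul_of_nonneg_right (by linarith) hJ0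
        linarith
  · -- the exponents
    have a2 : Real.exp (C * (ψ * J + ψ * J + 1) / η) ≤ 2 ^ (σ / 8 * J) := by
      rw [← exp_p2]
      refine Real.exp_le_exp.2 (hexp.trans ?_)
      have : min (σ / 8) μ * Real.log 2 * J ≤ σ / 8 * Real.log 2 * J :=
        mul_le_mul_of_nonneg_right (mul_le_mul_of_nonneg_right (min_le_left _ _) hl2.le) hJ0
      linarith
    have a3 : 1 / (2 : ℝ) ^ ⌊(p₁ - σ / 4) * J⌋₊ ≤ 2 * 2 ^ (-((p - σ / 4) * J)) := by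
      refine (ip2_le _).trans (mul_le_mul_of_nonneg_left ?_ (by norm_num))
      refine Real.rpow_le_rpow_of_exponent_le (by norm_num) ?_
      have : (p - σ / 4) * J ≤ (p₁ - σ / 4) * J := mul_le_mul_of_nonneg_right (by linarith) hJ0
      linarith
    have a4 : 1 / (2 : ℝ) ^ ⌊(p₂ - σ / 4) * J⌋₊ ≤ 2 * 2 ^ (-((p - σ / 4) * J)) := by
      refine (ip2_le _).trans (mul_le_mul_of_nonneg_left ?_ (by norm_num))
      refine Real.rpow_le_rpow_of_exponent_le (by norm_num) ?_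
      have : (p - σ / 4) * J ≤ (p₂ - σ / 4) * J := mul_le_mul_of_nonneg_right (by linarith) hJ0
      linarith
    have a5 : (2 : ℝ) ^ ⌊(u₀ + δ) * J⌋₊ ≤ 2 ^ ((u₀ + δ) * J) := p2_le (by positivity)
    have a6 : (2 : ℝ) ^ ⌊(u₀ + δ) * J⌋₊ / 2 ^ ⌊p₀ * J⌋₊ ≤ 2 * 2 ^ (-((L - δ) * J)) := by
      rw [div_eq_mul_one_div]
      have e1 := ip2_le (p₀ * J)
      have e2 : (0 : ℝ) < 2 ^ ((u₀ + δ) * J) := Real.rpow_pos_of_pos (by norm_num) _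
      calc (2 : ℝ) ^ ⌊(u₀ + δ) * J⌋₊ * (1 / 2 ^ ⌊p₀ * J⌋₊)
          ≤ 2 ^ ((u₀ + δ) * J) * (2 * 2 ^ (-(p₀ * J))) :=
            mul_le_mul a5 e1 (by positivity) e2.le
        _ = 2 * 2 ^ ((u₀ + δ) * J + -(p₀ * J)) := by
            rw [Real.rpow_add (by norm_num)]
            ring
        _ ≤ 2 * 2 ^ (-((L - δ) * J)) := by
            refine mul_le_mul_of_nonneg_left ?_ (by norm_num)
            refine Real.rpow_le_rpow_of_exponent_le (by norm_num) ?_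
            have : (u₀ + δ) * J ≤ (p₀ - (L - δ)) * J :=
              mul_le_mul_of_nonneg_right (by linarith) hJ0
            linarith
    have a7 : 1 / (2 : ℝ) ^ ⌊lam * J⌋₊ ≤ 2 * 2 ^ (-((L - δ) * J)) := by
      refine (ip2_le _).trans (mul_le_mul_of_nonneg_left ?_ (by norm_num))
      refine Real.rpow_le_rpow_of_exponent_le (by norm_num) ?_
      have : (L - δ) * J ≤ lam * J := mul_le_mul_of_nonneg_right (by linarith) hJ0
      linarith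
    have a8 : ((2 : ℝ) ^ ⌊(u₀ + δ) * J⌋₊) ^ j ≤ 2 ^ (j * ((u₀ + δ) * J)) := by
      refine (pow_le_pow_left₀ (by positivity) a5 j).trans (le_of_eq ?_)
      rw [← Real.rpow_natCast, ← Real.rpow_mul (by norm_num)]
      congr 1
      ring
    have b1 : (0 : ℝ) < 2 ^ (-((p - σ / 4) * J)) := Real.rpow_pos_of_pos (by norm_num) _
    have b2 : (0 : ℝ) < 2 ^ (-((L - δ) * J)) := Real.rpow_pos_of_pos (by norm_num) _
    have b3 : (0 : ℝ) < 2 ^ (σ / 8 * J) := Real.rpow_pos_of_pos (by norm_num) _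
    have b4 : (0 : ℝ) < 2 ^ (N₂ * J) := Real.rpow_pos_of_pos (by norm_num) _
    have b5 : (0 : ℝ) < 2 ^ (j * ((u₀ + δ) * J)) := Real.rpow_pos_of_pos (by norm_num) _
    have c1 : Real.exp (C * (ψ * J + ψ * J + 1) / η) *
        (1 / 2 ^ ⌊(p₁ - σ / 4) * J⌋₊ + 1 / 2 ^ ⌊(p₂ - σ / 4) * J⌋₊) ≤
        2 ^ (σ / 8 * J) * (4 * 2 ^ (-((p - σ / 4) * J))) := by
      refine mul_le_mul a2 (by linarith) (by positivity) b3.le
    have c2 : (2 : ℝ) ^ ⌊(u₀ + δ) * J⌋₊ / 2 ^ ⌊p₀ * J⌋₊ + 1 / 2 ^ ⌊lam * J⌋₊ ≤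
        4 * 2 ^ (-((L - δ) * J)) := by linarith
    calc (2 : ℝ) ^ (N₂ * J) * (C * (Real.exp (C * (ψ * J + ψ * J + 1) / η) *
          (1 / 2 ^ ⌊(p₁ - σ / 4) * J⌋₊ + 1 / 2 ^ ⌊(p₂ - σ / 4) * J⌋₊)) *
          (2 ^ ⌊(u₀ + δ) * J⌋₊ / 2 ^ ⌊p₀ * J⌋₊ + 1 / 2 ^ ⌊lam * J⌋₊) * (2 ^ ⌊(u₀ + δ) * J⌋₊) ^ j)
        ≤ 2 ^ (N₂ * J) * (C * (2 ^ (σ / 8 * J) * (4 * 2 ^ (-((p - σ / 4) * J)))) *
          (4 * 2 ^ (-((L - δ) * J))) * 2 ^ (j * ((u₀ + δ) * J))) := by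
          refine mul_le_mul_of_nonneg_left ?_ b4.le
          refine mul_le_mul ?_ a8 (by positivity) (by positivity)
          refine mul_le_mul ?_ c2 (by positivity) (by positivity)
          exact mul_le_mul_of_nonneg_left c1 hC0.le
      _ = 16 * C * (2 ^ (N₂ * J) * 2 ^ (σ / 8 * J) * 2 ^ (-((p - σ / 4) * J)) *
          2 ^ (-((L - δ) * J)) * 2 ^ (j * ((u₀ + δ) * J))) := by ring
      _ = 16 * C * 2 ^ (N₂ * J + σ / 8 * J + -((p - σ / 4) * J) + -((L - δ) * J) +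
          j * ((u₀ + δ) * J)) := by
          rw [Real.rpow_add (by norm_num), Real.rpow_add (by norm_num),
            Real.rpow_add (by norm_num), Real.rpow_add (by norm_num)]
      _ ≤ 16 * C * 2 ^ (-(σ / 8 * J)) := by
          refine mul_le_mul_of_nonneg_left ?_ (by positivity)
          refine Real.rpow_le_rpow_of_exponent_le (by norm_num) ?_
          have e1 : N₂ * J + σ / 8 * J + -((p - σ / 4) * J) + -((L - δ) * J) +
              j * ((u₀ + δ) * J) = (-σ + σ / 8 + σ / 4 + ((j : ℝ) + 1) * δ) * J := by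
            rw [hσ]
            ring
          rw [e1]
          have : (-σ + σ / 8 + σ / 4 + ((j : ℝ) + 1) * δ) * J ≤ (-(σ / 8)) * J :=
            mul_le_mul_of_nonneg_right (by linarith) hJ0
          linarith
      _ ≤ 1 := by
          have e1 : 16 * C = Real.exp (Real.log (16 * C)) := (Real.exp_log (by positivity)).symm
          rw [← exp_p2, e1, ← Real.exp_add, Real.exp_le_one_iff]
          linarith

end Pool.PRC54
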