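import Pool.Agent.H54.PRC.One
import Pool.Agent.H71.AVG.Cof

/-!
# Lines: time, positions, velocities

`ln`: the position of a coordinate on the line, at the relative time of the window. `tI`: the time,
`2 M + 1` values. `time_full`: it is full given the line. `vI`: the base of the line. `jet_near`: the
jets of a closed label at two samples with the same label, the same time and near bases.
-/

set_option autoImplicit false

namespace Pool.PRC54

open Finset Real MvPolynomial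
open Pool.Agent.H49.Ent Pool.Agent.H32.Dense Pool.STK Pool.KA Pool.KSAT Pool.K2S Pool.PB Pool.GEN
open Pool.RCD Pool.LA91 Pool.OWN68
open Pool.AVG5 (fl_mul of_fl CH_near)
open Pool.PB.Trl (rt rt_mem t_rt)

variable {m J : ℕ}

/-! ### Lines -/

/-- **The position** of the coordinate `κ` at the relative time `θ` of the window `W`. -/
noncomputable def ln (F : Fam m J) (W : ℕ) (κ : Fin m) (s : LnT F) (θ : ℝ) : ℝ :=
  s.1.1 κ + (s.2.2 + θ) / 2 ^ W * s.1.2 κ

theorem ln_rt (F : Fam m J) {W : ℕ} (hW : W ≤ J) (κ : Fin m) (ω : F.Ω) :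
    ln F W κ (slam F W ω) (rt F W ω) = F.x ω κ := by
  unfold ln Fam.x
  rw [t_rt F hW ω]
  rfl

theorem ln_add (F : Fam m J) (W : ℕ) (κ : Fin m) (s : LnT F) (θ θ' : ℝ) :
    ln F W κ s θ' = ln F W κ s θ + (θ' - θ) / 2 ^ W * s.1.2 κ := by
  unfold ln
  ring

/-- **The time**: `2 M + 1` values. -/
noncomputable def tI (F : Fam m J) (W M : ℕ) (ω : F.Ω) : ℤ :=
  ⌊(2 * (M : ℝ) + 1) * rt F W ω⌋ - M

/-- The relative time of the value `τ`. -/
noncomputable def tht (M : ℕ) (τ : ℤ) : ℝ := (τ + M) / (2 * M + 1)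

theorem rt_lt (F : Fam m J) (W : ℕ) (ω : F.Ω) : rt F W ω < 1 := by
  unfold rt
  rw [div_lt_one (by positivity)]
  exact_mod_cast Nat.mod_lt _ (by positivity)

theorem tI_le (F : Fam m J) (W M : ℕ) (ω : F.Ω) : |tI F W M ω| ≤ (M : ℤ) := by
  unfold tI
  have h1 := rt_mem F W ω
  have h2 := rt_lt F W ω
  have hM : (0 : ℝ) < 2 * (M : ℝ) + 1 := by positivity
  have h3 : (0 : ℤ) ≤ ⌊(2 * (M : ℝ) + 1) * rt F W ω⌋ := Int.floor_nonneg.2 (mul_nonneg hM.le h1.1)
  have h4 : ⌊(2 * (M : ℝ) + 1) * rt F W ω⌋ < 2 * M + 1 := by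
    rw [Int.floor_lt]
    push_cast
    nlinarith
  rw [abs_le]
  constructor <;> omega

theorem tht_tI (F : Fam m J) (W M : ℕ) (ω : F.Ω) :
    |rt F W ω - tht M (tI F W M ω)| ≤ 1 / (2 * M + 1) := by
  have hM : (0 : ℝ) < 2 * (M : ℝ) + 1 := by positivity
  unfold tht tI
  push_cast
  have h1 := Int.floor_le ((2 * (M : ℝ) + 1) * rt F W ω)
  have h2 := Int.lt_floor_add_one ((2 * (M : ℝ) + 1) * rt F W ω)
  have e : rt F W ω - (⌊(2 * (M : ℝ) + 1) * rt F W ω⌋ - M + M) / (2 * M + 1) =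
      ((2 * (M : ℝ) + 1) * rt F W ω - ⌊(2 * (M : ℝ) + 1) * rt F W ω⌋) / (2 * M + 1) := by
    field_simp
    ring
  rw [e, abs_div, abs_of_pos hM]
  refine div_le_div_of_nonneg_right ?_ hM.le
  rw [abs_le]
  constructor <;> linarith

theorem tht_mem {M : ℕ} {τ : ℤ} (h : |τ| ≤ (M : ℤ)) : 0 ≤ tht M τ ∧ tht M τ ≤ 1 := by
  have hM : (0 : ℝ) < 2 * (M : ℝ) + 1 := by positivity
  obtain ⟨h1, h2⟩ := abs_le.mp h
  have h1' : (-(M : ℝ)) ≤ τ := by exact_mod_cast h1
  have h2' : (τ : ℝ) ≤ M := by exact_mod_cast h2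
  unfold tht
  constructor
  · exact div_nonneg (by linarith) hM.le
  · rw [div_le_one hM]
    linarith

theorem tht_sub (M : ℕ) (τ τ' : ℤ) : tht M τ' - tht M τ = (τ' - τ) / (2 * M + 1) := by
  unfold tht
  rw [← sub_div]
  congr 1
  ring

/-! ### The time is full -/

/-- The exact time given the window and its digits. -/
theorem T_le_cell {F : Fam m J} {q : F.Ω → ℝ} (hq : IsLaw q) {W M : ℕ} (hW : W ≤ J)
    (hM : 2 * M + 1 ≤ 2 ^ (J - W)) {β : Type} (Y : F.Ω → β)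
    (hY : ∀ ω ω', 0 < q ω → 0 < q ω' → Y ω = Y ω' →
      F.T1 W ω = F.T1 W ω' ∧ tI F W M ω = tI F W M ω') :
    CH q F.T Y ≤ (J - W) * Real.log 2 - Real.log (2 * M + 1) + Real.log 5 := by
  have hM0 : (0 : ℝ) < 2 * (M : ℝ) + 1 := by positivity
  have hN0 : (0 : ℝ) < 2 ^ (J - W) := by positivity
  have hMr : (2 * (M : ℝ) + 1) ≤ 2 ^ (J - W) := by exact_mod_cast hM
  have h1 : CH q F.T Y ≤ CH q (fun ω => ((F.T ω : ℕ) : ℤ)) Y :=
    CH_mono_left hq.nonneg fun ω ω' _ _ e => by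
      have e1 : ((F.T ω : ℕ) : ℤ) = ((F.T ω' : ℕ) : ℤ) := (Prod.ext_iff.mp e).1
      exact_mod_cast e1
  refine h1.trans ((CH_le_int hq.nonneg hq.sum_one _ Y
    (fun _ => 2 ^ (J - W) / (2 * M + 1)) ?_).trans ?_)
  · intro ω ω' hω hω' e
    obtain ⟨e1, e2⟩ := hY ω ω' hω hω' e
    have e3 : ((F.T ω : ℤ) : ℝ) - (F.T ω' : ℤ) = 2 ^ (J - W) * (rt F W ω - rt F W ω') := by
      have a1 := Nat.div_add_mod (F.T ω) (2 ^ (J - W))
      have a2 := Nat.div_add_mod (F.T ω') (2 ^ (J - W))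
      unfold Fam.T1 at e1
      rw [← e1] at a2
      unfold rt
      push_cast
      rw [← sub_div, mul_div_cancel₀ _ (by positivity)]
      have b1 : (F.T ω : ℝ) = 2 ^ (J - W) * ((F.T ω / 2 ^ (J - W) : ℕ) : ℝ) +
          ((F.T ω % 2 ^ (J - W) : ℕ) : ℝ) := by exact_mod_cast a1.symm
      have b2 : (F.T ω' : ℝ) = 2 ^ (J - W) * ((F.T ω / 2 ^ (J - W) : ℕ) : ℝ) +
          ((F.T ω' % 2 ^ (J - W) : ℕ) : ℝ) := by exact_mod_cast a2.symm
      rw [b1, b2]
      ring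
    push_cast
    push_cast at e3
    rw [e3, abs_mul, abs_of_pos hN0, div_eq_mul_one_div]
    refine mul_le_mul_of_nonneg_left ?_ hN0.le
    unfold tI at e2
    have e4 : ⌊(2 * (M : ℝ) + 1) * rt F W ω⌋ = ⌊(2 * (M : ℝ) + 1) * rt F W ω'⌋ := by omega
    exact of_fl hM0 e4
  · rw [Ex_const hq.sum_one]
    have hx : (1 : ℝ) ≤ 2 ^ (J - W) / (2 * M + 1) := by
      rw [le_div_iff₀ hM0, one_mul]
      exact hMr
    have h2 : Real.log (2 * (2 ^ (J - W) / (2 * M + 1)) + 1) ≤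
        Real.log (5 * (2 ^ (J - W) / (2 * M + 1))) :=
      Real.log_le_log (by positivity) (by linarith)
    refine h2.trans (le_of_eq ?_)
    rw [Real.log_mul (by norm_num) (by positivity), Real.log_div (by positivity) (by positivity),
      Real.log_pow]
    have : ((J - W : ℕ) : ℝ) = (J : ℝ) - W := by
      push_cast [hW]
      ring
    rw [this]
    ring

/-- The window and the time. -/
theorem T1_le {F : Fam m J} {q : F.Ω → ℝ} (hq : IsLaw q) {W : ℕ} (hW : W ≤ J) {β : Type}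
    (Y : F.Ω → β) : CH q (F.T1 W) Y ≤ W * Real.log 2 := by
  have h1 := CH_le_card hq.nonneg hq.sum_one (F.T1 W) Y (fun _ => Finset.range (2 ^ W)) (by
    intro ω _
    rw [Finset.mem_range]
    unfold Fam.T1
    rw [Nat.div_lt_iff_lt_mul (by positivity), ← pow_add]
    have : W + (J - W) = J := by omega
    rw [this]
    exact F.tim ω)
  refine h1.trans (le_of_eq ?_)
  rw [Ex_const hq.sum_one, Finset.card_range]
  push_cast
  rw [Real.log_pow]

/-- **The exact time is full given the line of the window.** -/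
theorem T_full {F : Fam m J} {q : F.Ω → ℝ} (hq : IsLaw q) {e : ℝ} {W : ℕ} (hW : W ≤ J)
    (hT : J * Real.log 2 - e ≤ CH q F.T (fun ω => (F.l ω, F.Z ω))) :
    ((J : ℝ) - W) * Real.log 2 - e ≤ CH q F.T (slam F W) := by
  have h1 := CH_le_add hq.nonneg F.T (F.T1 W) (fun ω => (F.l ω, F.Z ω))
  have h2 := T1_le hq hW (fun ω => (F.l ω, F.Z ω))
  have h3 : CH q F.T (fun ω => (F.T1 W ω, (F.l ω, F.Z ω))) ≤ CH q F.T (slam F W) :=
    CH_mono_cond hq.nonneg fun ω ω' _ _ e => by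
      have e' : (F.T1 W ω, (F.l ω, F.Z ω)) = (F.T1 W ω', (F.l ω', F.Z ω')) := e
      simp only [Prod.mk.injEq] at e'
      exact Prod.ext e'.2.1 (Prod.ext e'.2.2 e'.1)
  linarith

/-- **The time is full given the line.** -/
theorem time_full {F : Fam m J} {q : F.Ω → ℝ} (hq : IsLaw q) {e : ℝ} {W M : ℕ} (hW : W ≤ J)
    (hM : 2 * M + 1 ≤ 2 ^ (J - W))
    (hT : J * Real.log 2 - e ≤ CH q F.T (fun ω => (F.l ω, F.Z ω))) :
    Real.log (2 * M + 1) - (e + Real.log 5) ≤ CH q (tI F W M) (slam F W) := by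
  have h1 := T_full hq hW hT
  have h2 := CH_le_add hq.nonneg F.T (tI F W M) (slam F W)
  have h3 := T_le_cell hq hW hM (fun ω => (tI F W M ω, slam F W ω)) (fun ω ω' _ _ e => by
    have e1 := Prod.ext_iff.mp e
    exact ⟨(Prod.ext_iff.mp (Prod.ext_iff.mp e1.2).2).2, e1.1⟩)
  linarith

/-- The exact time, given the window. -/
theorem T_upper {F : Fam m J} {q : F.Ω → ℝ} (hq : IsLaw q) {W : ℕ} (hW : W ≤ J) {β : Type}
    (Y : F.Ω → β) (hY : ∀ ω ω', 0 < q ω → 0 < q ω' → Y ω = Y ω' → F.T1 W ω = F.T1 W ω') :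
    CH q F.T Y ≤ ((J : ℝ) - W) * Real.log 2 + Real.log 5 := by
  have h1 := T_le_cell hq hW (M := 0) (by
    have : 1 ≤ 2 ^ (J - W) := Nat.one_le_two_pow
    omega) Y (fun ω ω' hω hω' e => ⟨hY ω ω' hω hω' e, by
      have a1 := tI_le F W 0 ω
      have a2 := tI_le F W 0 ω'
      rw [abs_le] at a1 a2
      omega⟩)
  have h2 : Real.log (2 * ((0 : ℕ) : ℝ) + 1) = 0 := by simp
  rw [h2] at h1
  linarith

end Pool.PRC54
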