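import Pool.Agent.H54.PRC.Lc
import Pool.Agent.H91.LA.Own

/-!
# The base of the line, and the jets over closed labels

`vI`: the base of the line; `yI`: time, point and direction of the base. `jet_near`: the jets of a
closed label at two samples with the same label, the same time and near bases. `d_few`: the
direction from the own velocity; `b_few`: the own velocity from the direction.
-/

set_option autoImplicit false

namespace Pool.PRC54

open Finset Real MvPolynomial
open Pool.Agent.H49.Ent Pool.Agent.H32.Dense Pool.STK Pool.KA Pool.KSAT Pool.K2S Pool.PB Pool.GEN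
open Pool.RCD Pool.LA91 Pool.OWN68
open Pool.AVG5 (fl_mul of_fl CH_near)
open Pool.PB.Trl (rt rt_mem t_rt)

variable {m J : ℕ}

/-! ### The base -/

/-- Time, point and direction of the base. -/
noncomputable def yI (I : Finset (Fin m)) (a l : ℕ) (F : Fam m J) (ω : F.Ω) :
    ℕ × (Fin m → ℤ) × (Fin m → ℤ) :=
  (F.T ω, (fun i => if i ∈ I then F.X a ω i else 0), (fun i => if i ∈ I then F.D l ω i else 0))

/-- **The base of the line.** -/
noncomputable def vI (I : Finset (Fin m)) (W a l : ℕ) (F : Fam m J) (s : LnT F) : Fin m → ℤ × ℤ :=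
  fun i => if i ∈ I then (⌊(2 : ℝ) ^ a * ln F W i s 0⌋, ⌊(2 : ℝ) ^ l * s.1.2 i⌋) else (0, 0)

theorem x_ln0 (F : Fam m J) {W : ℕ} (hW : W ≤ J) (ω : F.Ω) (i : Fin m) :
    F.x ω i = ln F W i (slam F W ω) 0 + rt F W ω / 2 ^ W * F.d ω i := by
  rw [← ln_rt F hW i ω, ln_add F W i (slam F W ω) 0 (rt F W ω), sub_zero]
  rfl

theorem rt_of_T (F : Fam m J) (W : ℕ) {ω ω' : F.Ω} (h : F.T ω = F.T ω') :
    rt F W ω = rt F W ω' := by
  unfold rt
  rw [h]

/-- The base from time, point and direction. -/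
theorem vI_few {F : Fam m J} {q : F.Ω → ℝ} (hq : IsLaw q) (I : Finset (Fin m)) {W a l : ℕ}
    (hW : W ≤ J) (ha : a ≤ W + l) {β : Type} (Y : F.Ω → β)
    (hY : ∀ ω ω', 0 < q ω → 0 < q ω' → Y ω = Y ω' → yI I a l F ω = yI I a l F ω') :
    CH q (fun ω => vI I W a l F (slam F W ω)) Y ≤ m * Real.log 7 := by
  classical
  have l7 : 0 ≤ Real.log 7 := Real.log_nonneg (by norm_num)
  refine (CH_pis hq.nonneg _ _).trans ?_
  have h1 : ∀ i ∈ (univ : Finset (Fin m)), CH q (fun ω => vI I W a l F (slam F W ω) i) Y ≤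
      Real.log 7 := by
    intro i _
    by_cases hi : i ∈ I
    · have e5 : (7 : ℝ) = 2 * ((3 : ℕ) : ℝ) + 1 := by norm_num
      have h2 : CH q (fun ω => vI I W a l F (slam F W ω) i) Y ≤
          CH q (fun ω => ⌊(2 : ℝ) ^ a * ln F W i (slam F W ω) 0⌋) Y := by
        refine CH_mono_left hq.nonneg fun ω ω' hω hω' e => ?_
        have e1 := hY ω ω' hω hω' (Prod.ext_iff.mp e).2
        unfold yI at e1
        simp only [Prod.mk.injEq] at e1
        have e2 := congrFun e1.2.2 i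
        simp only [if_pos hi] at e2
        unfold vI
        simp only [if_pos hi]
        exact Prod.ext (Prod.ext_iff.mp e).1 e2
      refine h2.trans ?_
      rw [e5]
      refine CH_pair hq _ _ fun ω ω' hω hω' e => ?_
      have e1 := hY ω ω' hω hω' e
      unfold yI at e1
      simp only [Prod.mk.injEq] at e1
      have e2 := congrFun e1.2.2 i
      have e3 := congrFun e1.2.1 i
      simp only [if_pos hi] at e2 e3
      have hrt := rt_of_T F W e1.1
      have hx := x_ln0 F hW ω i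
      have hx' := x_ln0 F hW ω' i
      have b1 : |F.x ω i - F.x ω' i| ≤ 1 / 2 ^ a := of_fl (by positivity) e3
      have b2 : |F.d ω i - F.d ω' i| ≤ 1 / 2 ^ l := of_fl (by positivity) e2
      have b3 : |ln F W i (slam F W ω) 0 - ln F W i (slam F W ω') 0| ≤ 2 / 2 ^ a := by
        have e6 : ln F W i (slam F W ω) 0 - ln F W i (slam F W ω') 0 =
            (F.x ω i - F.x ω' i) - rt F W ω / 2 ^ W * (F.d ω i - F.d ω' i) := by
          rw [hx, hx', hrt]
          ring
        rw [e6]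
        refine (abs_sub _ _).trans ?_
        have hr := rt_mem F W ω
        have b4 : |rt F W ω / 2 ^ W * (F.d ω i - F.d ω' i)| ≤ 1 / 2 ^ a := by
          rw [abs_mul, abs_div, abs_of_nonneg hr.1, abs_of_pos (show (0 : ℝ) < 2 ^ W by positivity)]
          calc rt F W ω / 2 ^ W * |F.d ω i - F.d ω' i| ≤ 1 / 2 ^ W * (1 / 2 ^ l) :=
                mul_le_mul (div_le_div_of_nonneg_right hr.2 (by positivity)) b2 (abs_nonneg _)
                  (by positivity)
            _ = 1 / 2 ^ (W + l) := by rw [pow_add]; field_simp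
            _ ≤ 1 / 2 ^ a := one_div_le_one_div_of_le (by positivity)
                (pow_le_pow_right₀ (by norm_num) ha)
        have e7 : (2 : ℝ) / 2 ^ a = 1 / 2 ^ a + 1 / 2 ^ a := by ring
        rw [e7]
        linarith
      have b5 := fl_mul (σ := (2 : ℝ) ^ a) (by positivity) b3
      have b6 : (2 : ℝ) ^ a * (2 / 2 ^ a) + 1 = 3 := by
        field_simp
        norm_num
      rw [b6] at b5
      have b7 : (|⌊(2 : ℝ) ^ a * ln F W i (slam F W ω) 0⌋ -
          ⌊(2 : ℝ) ^ a * ln F W i (slam F W ω') 0⌋| : ℝ) ≤ 3 := b5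
      have b8 : ((|⌊(2 : ℝ) ^ a * ln F W i (slam F W ω) 0⌋ -
          ⌊(2 : ℝ) ^ a * ln F W i (slam F W ω') 0⌋| : ℤ) : ℝ) ≤ ((3 : ℤ) : ℝ) := by
        push_cast
        exact b7
      exact_mod_cast b8
    · refine (le_of_eq (CH_eq_zero hq.nonneg fun ω ω' _ _ _ => ?_)).trans l7
      unfold vI
      simp only [if_neg hi]
  refine (Finset.sum_le_sum h1).trans (le_of_eq ?_)
  rw [Finset.sum_const, Finset.card_univ, Fintype.card_fin, nsmul_eq_mul]

/-- Near bases, from the base of the line. -/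
theorem vI_near (F : Fam m J) {W a l : ℕ} (hW : W ≤ J) {I : Finset (Fin m)} {ω ω' : F.Ω}
    (hT : F.T ω = F.T ω')
    (h : vI I W a l F (slam F W ω) = vI I W a l F (slam F W ω')) {i : Fin m} (hi : i ∈ I) :
    |F.x ω i - F.x ω' i| ≤ 1 / 2 ^ a + 1 / 2 ^ (W + l) ∧ F.D l ω i = F.D l ω' i ∧
      |F.d ω i - F.d ω' i| ≤ 1 / 2 ^ l ∧ ∀ θ : ℝ, 0 ≤ θ → θ ≤ 1 →
        |ln F W i (slam F W ω) θ - ln F W i (slam F W ω') θ| ≤ 1 / 2 ^ a + 1 / 2 ^ (W + l) := by
  have e := congrFun h i
  unfold vI at e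
  simp only [if_pos hi, Prod.mk.injEq] at e
  obtain ⟨e1, e2⟩ := e
  have b1 : |ln F W i (slam F W ω) 0 - ln F W i (slam F W ω') 0| ≤ 1 / 2 ^ a :=
    of_fl (by positivity) e1
  have b2 : |F.d ω i - F.d ω' i| ≤ 1 / 2 ^ l := of_fl (by positivity) e2
  have key : ∀ θ : ℝ, 0 ≤ θ → θ ≤ 1 →
      |ln F W i (slam F W ω) θ - ln F W i (slam F W ω') θ| ≤ 1 / 2 ^ a + 1 / 2 ^ (W + l) := by
    intro θ h0 h1
    rw [ln_add F W i (slam F W ω) 0 θ, ln_add F W i (slam F W ω') 0 θ]
    have e6 : ln F W i (slam F W ω) 0 + (θ - 0) / 2 ^ W * (slam F W ω).1.2 i -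
        (ln F W i (slam F W ω') 0 + (θ - 0) / 2 ^ W * (slam F W ω').1.2 i) =
        (ln F W i (slam F W ω) 0 - ln F W i (slam F W ω') 0) +
          θ / 2 ^ W * (F.d ω i - F.d ω' i) := by
      have a1 : (slam F W ω).1.2 i = F.d ω i := rfl
      have a2 : (slam F W ω').1.2 i = F.d ω' i := rfl
      rw [a1, a2, sub_zero]
      ring
    rw [e6]
    refine (abs_add_le _ _).trans (add_le_add b1 ?_)
    rw [abs_mul, abs_div, abs_of_nonneg h0, abs_of_pos (show (0 : ℝ) < 2 ^ W by positivity)]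
    calc θ / 2 ^ W * |F.d ω i - F.d ω' i| ≤ 1 / 2 ^ W * (1 / 2 ^ l) :=
          mul_le_mul (div_le_div_of_nonneg_right h1 (by positivity)) b2 (abs_nonneg _)
            (by positivity)
      _ = 1 / 2 ^ (W + l) := by rw [pow_add]; field_simp
  refine ⟨?_, e2, b2, key⟩
  rw [← ln_rt F hW i ω, ← ln_rt F hW i ω', ← rt_of_T F W hT]
  exact key _ (rt_mem F W ω).1 (rt_mem F W ω).2

/-- Time, point and direction of the base, from the base of the line and the time. -/
theorem yI_few {F : Fam m J} {q : F.Ω → ℝ} (hq : IsLaw q) (I : Finset (Fin m)) {W a l : ℕ}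
    (hW : W ≤ J) (ha : a ≤ W + l) {β : Type} (Y : F.Ω → β)
    (hY : ∀ ω ω', 0 < q ω → 0 < q ω' → Y ω = Y ω' → F.T ω = F.T ω' ∧
      vI I W a l F (slam F W ω) = vI I W a l F (slam F W ω')) :
    CH q (yI I a l F) Y ≤ m * Real.log 7 := by
  classical
  have l7 : 0 ≤ Real.log 7 := Real.log_nonneg (by norm_num)
  have h0 : CH q (yI I a l F) Y ≤ CH q (fun ω i => if i ∈ I then F.X a ω i else 0) Y := by
    refine CH_mono_left hq.nonneg fun ω ω' hω hω' e => ?_
    obtain ⟨e1, e2⟩ := hY ω ω' hω hω' (Prod.ext_iff.mp e).2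
    unfold yI
    refine Prod.ext e1 (Prod.ext (Prod.ext_iff.mp e).1 (funext fun i => ?_))
    show (if i ∈ I then F.D l ω i else 0) = (if i ∈ I then F.D l ω' i else 0)
    by_cases hi : i ∈ I
    · rw [if_pos hi, if_pos hi]
      exact (vI_near F hW e1 e2 hi).2.1
    · rw [if_neg hi, if_neg hi]
  refine h0.trans ((CH_pis hq.nonneg _ _).trans ?_)
  have h1 : ∀ i ∈ (univ : Finset (Fin m)), CH q (fun ω => if i ∈ I then F.X a ω i else 0) Y ≤
      Real.log 7 := by
    intro i _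
    by_cases hi : i ∈ I
    · have e5 : (7 : ℝ) = 2 * ((3 : ℕ) : ℝ) + 1 := by norm_num
      rw [e5]
      refine CH_pair hq _ _ fun ω ω' hω hω' e => ?_
      simp only [if_pos hi]
      obtain ⟨e1, e2⟩ := hY ω ω' hω hω' e
      have b3 : |F.x ω i - F.x ω' i| ≤ 2 / 2 ^ a := by
        refine (vI_near F hW e1 e2 hi).1.trans ?_
        have b4 : (1 : ℝ) / 2 ^ (W + l) ≤ 1 / 2 ^ a := one_div_le_one_div_of_le (by positivity)
          (pow_le_pow_right₀ (by norm_num) ha)
        have e7 : (2 : ℝ) / 2 ^ a = 1 / 2 ^ a + 1 / 2 ^ a := by ring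
        rw [e7]
        linarith
      have b5 := fl_mul (σ := (2 : ℝ) ^ a) (by positivity) b3
      have b6 : (2 : ℝ) ^ a * (2 / 2 ^ a) + 1 = 3 := by
        field_simp
        norm_num
      rw [b6] at b5
      have b8 : ((|F.X a ω i - F.X a ω' i| : ℤ) : ℝ) ≤ ((3 : ℤ) : ℝ) := by
        push_cast
        exact b5
      exact_mod_cast b8
    · refine (le_of_eq (CH_eq_zero hq.nonneg fun ω ω' _ _ _ => ?_)).trans l7
      simp only [if_neg hi]
  refine (Finset.sum_le_sum h1).trans (le_of_eq ?_)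
  rw [Finset.sum_const, Finset.card_univ, Fintype.card_fin, nsmul_eq_mul]

/-! ### The jets of a closed label -/

/-- **The jets of a closed label** at two samples with the same label, the same time and near
bases. -/
theorem jet_near (m K j : ℕ) : ∃ C : ℝ, 1 ≤ C ∧ ∀ (J : ℕ) (F : Fam m J) (I : Finset (Fin m))
    (k : Fin m) (e w ρ P : ℕ) (A : F.Ω → Prop) (V : Type) (z : PtT F → V) (z' : LnT F → V)
    (G : V → MvPolynomial (Option (Fin m)) ℝ), LbOK F I k K e J w ρ P A z z' G →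
    ∀ ω ω', A ω → A ω' → G (z' (slam F w ω)) = G (z' (slam F w ω')) → F.T ω = F.T ω' →
    ∀ s σ : ℝ, 0 < s → 0 ≤ σ → s * (4 * 2 ^ ρ) ≤ 1 → σ ≤ 1 →
    (∀ i ∈ I, |F.x ω i - F.x ω' i| ≤ s) → (∀ i ∈ I, |F.d ω i - F.d ω' i| ≤ σ) →
    |jet j (G (z' (slam F w ω))) (bt F ω) (bd F ω) -
      jet j (G (z' (slam F w ω'))) (bt F ω') (bd F ω')| ≤
      C * 2 ^ e * (s * 2 ^ ρ + σ) * (2 ^ ρ) ^ j := by
  classical
  obtain ⟨C, hC, hj⟩ := jet_sub_le m K j
  have h2j : (1 : ℝ) ≤ 4 ^ j := one_le_pow₀ (by norm_num)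
  have hm0 : (0 : ℝ) ≤ m := Nat.cast_nonneg m
  refine ⟨C * (m + 3) * 4 * 4 ^ j, by nlinarith [mul_le_mul hC h2j (by norm_num) (by linarith)], ?_⟩
  intro J F I k e w ρ P A V z z' G h ω ω' hω hω' hG hT s σ hs hσ hsρ hσ1 hx hd
  obtain ⟨g, hg⟩ : ∃ g, g = G (z' (slam F w ω')) := ⟨_, rfl⟩
  have hpos := h.pos ω' hω'
  have hlip := h.lip ω' hω'
  rw [hG]
  rw [← hg] at hpos hlip ⊢
  obtain ⟨r, hr⟩ : ∃ r : ℝ, r = 1 / (4 * 2 ^ ρ) := ⟨_, rfl⟩
  have hr0 : 0 < r := by rw [hr]; positivity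
  have h4r : 4 * r = 1 / 2 ^ ρ := by
    rw [hr]
    field_simp
  have hρ1 : (1 : ℝ) / 2 ^ ρ ≤ 1 := by
    rw [div_le_one (by positivity)]
    exact one_le_pow₀ (by norm_num)
  have he1 : (1 : ℝ) ≤ 2 ^ e := one_le_pow₀ (by norm_num)
  have hsr : s ≤ r := by
    rw [hr, le_div_iff₀ (by positivity)]
    exact hsρ
  -- the modified sample
  obtain ⟨b, hb⟩ : ∃ b : Option (Fin m) → ℝ, b = fun o => match o with
    | none => F.t ω'
    | some i => if i ∈ I then F.x ω i else F.x ω' i := ⟨_, rfl⟩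
  obtain ⟨v, hv⟩ : ∃ v : Option (Fin m) → ℝ, v = fun o => match o with
    | none => 1
    | some i => if i ∈ I then F.d ω i else F.d ω' i := ⟨_, rfl⟩
  have ht : F.t ω = F.t ω' := by
    unfold Fam.t
    rw [hT]
  have hdep : ∀ b b' : Option (Fin m) → ℝ, b none = b' none →
      (∀ i ∈ I, b (some i) = b' (some i)) → eval b g = eval b' g := by
    rw [hg]
    exact h.dep _
  have e1 : jet j g (bt F ω) (bd F ω) = jet j g b v := by
    refine jet_congr hdep j ?_ (fun i hi => ?_) ?_ fun i hi => ?_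
    · rw [hb]
      exact ht
    · rw [hb]
      simp only [if_pos hi]
      rfl
    · rw [hv]
      rfl
    · rw [hv]
      simp only [if_pos hi]
      rfl
  rw [e1]
  -- the constant
  obtain ⟨κ, hκ⟩ : ∃ κ, κ = eval (bt F ω') g := ⟨_, rfl⟩
  have hcon : jet j g b v - jet j g (bt F ω') (bd F ω') =
      jet j (g - MvPolynomial.C κ) b v - jet j (g - MvPolynomial.C κ) (bt F ω') (bd F ω') := by
    rw [jet_sub, jet_sub]
    have e2 : jet j (MvPolynomial.C κ : MvPolynomial (Option (Fin m)) ℝ) b v =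
        jet j (MvPolynomial.C κ) (bt F ω') (bd F ω') := by
      refine jet_congr (I := ∅) (fun b b' _ _ => by rw [eval_C, eval_C]) j ?_
        (fun i hi => absurd hi (Finset.notMem_empty i)) ?_
        fun i hi => absurd hi (Finset.notMem_empty i)
      · rw [hb]
        rfl
      · rw [hv]
        rfl
    rw [e2]
    ring
  rw [hcon]
  have key := hj (g - MvPolynomial.C κ) (bt F ω') b (bt F ω') v (bd F ω') r s σ
    ((m + 3) * 2 ^ e) (by
    refine (MvPolynomial.totalDegree_sub _ _).trans (max_le ?_ ?_)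
    · rw [hg]
      exact h.deg _
    · rw [totalDegree_C]
      exact Nat.zero_le _) hr0 hs hσ (by nlinarith) (by
    intro b₁ hb₁
    rw [h4r] at hb₁
    rw [map_sub, eval_C, hκ]
    have e3 := mvσ g (bt F ω') b₁ (2 ^ e) fun y' hy' i =>
      hlip y' (fun o => (hy' o).trans (hb₁ o)) i
    have e4 : ∑ o, |b₁ o - bt F ω' o| ≤ (m + 1) * 1 := by
      refine (Finset.sum_le_sum fun o _ => (hb₁ o).trans hρ1).trans (le_of_eq ?_)
      rw [Finset.sum_const, Finset.card_univ, Fintype.card_option, Fintype.card_fin, nsmul_eq_mul]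
      push_cast
      ring
    have e5 := e3.trans (mul_le_mul_of_nonneg_left e4 (by positivity))
    nlinarith) (fun o => by
    rw [sub_self, abs_zero]
    exact hr0.le) (bd_le F ω') (fun o => by
    rw [hb]
    cases o with
    | none =>
      have : bt F ω' none = F.t ω' := rfl
      simp only [this, sub_self, abs_zero]
      exact hs.le
    | some i =>
      simp only
      split_ifs with hi
      · exact hx i hi
      · have : bt F ω' (some i) = F.x ω' i := rfl
        rw [this, sub_self, abs_zero]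
        exact hs.le) (fun o => by
    rw [hv]
    cases o with
    | none =>
      have : bd F ω' none = 1 := rfl
      simp only [this, sub_self, abs_zero]
      exact hσ
    | some i =>
      simp only
      split_ifs with hi
      · exact hd i hi
      · have : bd F ω' (some i) = F.d ω' i := rfl
        rw [this, sub_self, abs_zero]
        exact hσ)
  refine key.trans ?_
  have e10 : (s + r * σ) / r = s * (4 * 2 ^ ρ) + σ := by
    rw [hr]
    field_simp
  have e11 : (1 : ℝ) / r ^ j = 4 ^ j * (2 ^ ρ) ^ j := by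
    rw [hr, one_div_pow, one_div_one_div, mul_pow]
  rw [e10, div_eq_mul_one_div, e11]
  have e12 : s * (4 * 2 ^ ρ) + σ ≤ 4 * (s * 2 ^ ρ + σ) := by nlinarith [mul_pos hs (show (0:ℝ) < 2 ^ ρ by positivity)]
  calc C * ((m + 3) * 2 ^ e) * (s * (4 * 2 ^ ρ) + σ) * (4 ^ j * (2 ^ ρ) ^ j)
      ≤ C * ((m + 3) * 2 ^ e) * (4 * (s * 2 ^ ρ + σ)) * (4 ^ j * (2 ^ ρ) ^ j) := by
        refine mul_le_mul_of_nonneg_right (mul_le_mul_of_nonneg_left e12 (by positivity))
          (by positivity)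
    _ = C * (m + 3) * 4 * 4 ^ j * 2 ^ e * (s * 2 ^ ρ + σ) * (2 ^ ρ) ^ j := by ring

end Pool.PRC54
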