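import Pool.Agent.H54.PRC.Nfn

/-!
# The rows of the own height give the rows of the height relative to the slope

`time_ind`: the exact time is independent of the line, given the integer time. `nf_law`: the row of
`N - c₀ u` at the integer time, given `u` at the integer time, the context and the direction, from the
row of the own height at the sample.
-/

set_option autoImplicit false

namespace Pool.PRC54

open Finset Real MvPolynomial
open Pool.Agent.H49.Ent Pool.Agent.H32.Dense Pool.STK Pool.KA Pool.KSAT Pool.K2S Pool.PB Pool.S6C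
open Pool.GEN Pool.CHT Pool.CHX Pool.ISO Pool.D2R Pool.PRQ76
open Pool.OWN68 (CH_pair)
open Pool.AVG5 (fl_mul of_fl CH_near)
open Pool.PB.Trl (rt rt_mem t_rt)

variable {m J : ℕ}

/-- **The exact time is independent of the line**, given the integer time. -/
theorem time_ind {F : Fam m J} {q : F.Ω → ℝ} (hq : IsLaw q) {W M : ℕ} (hW : W ≤ J)
    (hM : 2 * M + 1 ≤ 2 ^ (J - W)) {eT : ℝ}
    (hT : J * Real.log 2 - eT ≤ CH q F.T (fun ω => (F.l ω, F.Z ω))) {S β : Type}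
    (X : F.Ω → S) (Y : F.Ω → β)
    (h1 : ∀ ω ω', 0 < q ω → 0 < q ω' → Y ω = Y ω' →
      F.T1 W ω = F.T1 W ω' ∧ tI F W M ω = tI F W M ω')
    (h2 : ∀ ω ω', 0 < q ω → 0 < q ω' → slam F W ω = slam F W ω' → tI F W M ω = tI F W M ω' →
      X ω = X ω' ∧ Y ω = Y ω') :
    CH q X Y ≤ CH q X (fun ω => (F.T ω, Y ω)) + (eT + Real.log 5) := by
  have h0 := hq.nonneg
  have c1 := CH_chain h0 X F.T Y
  have c2 := CH_chain h0 F.T X Y
  have c3 : CH q (fun ω => (X ω, F.T ω)) Y = CH q (fun ω => (F.T ω, X ω)) Y := by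
    refine CH_congr h0 ?_ ?_ (fun _ _ _ _ e => e) (fun _ _ _ _ e => e)
    · intro ω ω' _ _ e
      have e1 := (Prod.ext_iff.mp e).1
      exact Prod.ext (Prod.ext_iff.mp e1).2 (Prod.ext_iff.mp e1).1
    · intro ω ω' _ _ e
      have e1 := (Prod.ext_iff.mp e).1
      exact Prod.ext (Prod.ext_iff.mp e1).2 (Prod.ext_iff.mp e1).1
  have u1 := T_le_cell hq hW hM Y h1
  -- the lower bound
  have l1 := T_full hq hW hT
  have l2 := CH_le_add h0 F.T (tI F W M) (slam F W)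
  have l3 : CH q (tI F W M) (slam F W) ≤ Real.log (2 * M + 1) := by
    have := CH_pair (D := 2 * M) hq (tI F W M) (slam F W) (fun ω ω' _ _ _ => by
      have a1 := tI_le F W M ω
      have a2 := tI_le F W M ω'
      rw [abs_le] at a1 a2 ⊢
      push_cast
      constructor <;> omega)
    have hc : CH q (tI F W M) (slam F W) ≤ Real.log (2 * M + 1) := by
      have k1 := CH_le_card h0 hq.sum_one (tI F W M) (slam F W)
        (fun _ => (Finset.Icc (-(M : ℤ)) M)) (by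
          intro ω _
          rw [Finset.mem_Icc]
          exact abs_le.1 (tI_le F W M ω))
      refine k1.trans (le_of_eq ?_)
      rw [Ex_const hq.sum_one, Int.card_Icc]
      have e1 : ((M : ℤ) + 1 - -(M : ℤ)).toNat = 2 * M + 1 := by omega
      rw [e1]
      push_cast
      rfl
    exact hc
  have l4 : CH q F.T (fun ω => (tI F W M ω, slam F W ω)) ≤ CH q F.T (fun ω => (X ω, Y ω)) :=
    CH_mono_cond h0 fun ω ω' hω hω' e => by
      obtain ⟨e1, e2⟩ := Prod.ext_iff.mp e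
      obtain ⟨e3, e4⟩ := h2 ω ω' hω hω' e2 e1
      exact Prod.ext e3 e4
  linarith

/-- **The row of the height relative to the slope.** -/
theorem nf_law (r D : ℕ) : ∃ C : ℕ, 1 ≤ C ∧ ∀ {m J : ℕ} {F : Fam m J} {A : F.Ω → Prop}
    {c : ℕ → Fin m} {W M Q pu pn nd n x e hi v : ℕ} {g : ℕ → ℕ}
    {G : PtT F → ℕ → MvPolynomial (Option (Fin m)) ℝ}
    {H : LnT F → ℕ → MvPolynomial (Option (Fin m)) ℝ} {c₀ : LnT F → ℝ} {q : F.Ω → ℝ}
    {𝒞 β : Type} {Cq : LnT F → 𝒞} {Zs : F.Ω → β} {eT κ y P P' PU : ℝ} {k : ℕ},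
    ChS F A c r D W n x e g G H → (∀ i < r + 2, e + g i + v + C * (n + 1) ≤ hi) →
    pn = g (r + 1) + Q → pn + g r ≤ pu + g (r + 1) → pn ≤ g (r + 1) + v → pu ≤ W + nd →
    2 ^ Q ≤ 2 * M + 1 → 2 * M + 1 ≤ 2 ^ (J - W) → IsLaw q → (∀ ω, 0 < q ω → A ω) →
    (∀ ω ω', A ω → A ω' → Cq (slam F W ω) = Cq (slam F W ω') → F.T1 W ω = F.T1 W ω') →
    (∀ ω ω', A ω → A ω' → F.T ω = F.T ω' → Cq (slam F W ω) = Cq (slam F W ω') →
      (∀ l < r + 2, G (ptr F J ω) l = G (ptr F J ω') l) ∧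
      (∀ l < r, |F.x ω' (c l) - F.x ω (c l)| ≤ 1 / 2 ^ (hi + 1) ∧
        |F.d ω' (c l) - F.d ω (c l)| ≤ 1 / 2 ^ (hi + 1)) ∧
      c₀ (slam F W ω) = c₀ (slam F W ω')) →
    (∀ ω, A ω → |sl F c r G ω - c₀ (slam F W ω)| ≤ 2 ^ x * (2 ^ g r / 2 ^ g (r + 1))) →
    J * Real.log 2 - eT ≤ CH q F.T (fun ω => (F.l ω, F.Z ω)) →
    (pn : ℝ) ≤ P → P' + k ≤ pn → PU ≤ pu → PU ≤ g r + v →
    CH q Zs (fun ω => (F.T ω, Cq (slam F W ω))) ≤ κ →
    CH q (fun ω => ⌊(2 : ℝ) ^ P * oh F c (r + 1) G ω⌋)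
      (fun ω => (⌊(2 : ℝ) ^ P' * oh F c (r + 1) G ω⌋,
        (⌊(2 : ℝ) ^ PU * oh F c r G ω⌋, Zs ω))) ≤ y →
    CH q (fun ω => nI F W pn M (c r) (c (r + 1)) c₀ (slam F W ω) (tI F W M ω))
      (fun ω => ((nI F W pn M (c r) (c (r + 1)) c₀ (slam F W ω) (tI F W M ω) / 2 ^ k,
        uI F W pu M (c r) (slam F W ω) (tI F W M ω)),
        (tI F W M ω, (Cq (slam F W ω), dg F nd (c r) (slam F W ω))))) ≤
      y + κ + (eT + Real.log 5) + C * (n + x + 1) := by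
  obtain ⟨C, hC, hnear⟩ := nf_near r D
  refine ⟨2 * C + 20, by omega, ?_⟩
  intro m J F A c W M Q pu pn nd n x e hi v g G H c₀ q 𝒞 β Cq Zs eT κ y P P' PU k K hhi hpn hp1 hp2
    hp3 hQ hM hq hqA hC1 hC2 hs hT hP hP' hPU hPU2 hZs hy
  have h0 := hq.nonneg
  have hhi' : ∀ i < r + 2, e + g i + v + C * (n + 1) ≤ hi := by
    intro i hi'
    have h1 := hhi i hi'
    have h2 : C * (n + 1) ≤ (2 * C + 20) * (n + 1) := Nat.mul_le_mul_right _ (by omega)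
    omega
  obtain ⟨nn, hnn⟩ : ∃ nn : F.Ω → ℤ, nn = fun ω =>
    nI F W pn M (c r) (c (r + 1)) c₀ (slam F W ω) (tI F W M ω) := ⟨_, rfl⟩
  obtain ⟨uu, huu⟩ : ∃ uu : F.Ω → ℤ, uu = fun ω =>
    uI F W pu M (c r) (slam F W ω) (tI F W M ω) := ⟨_, rfl⟩
  obtain ⟨X, hX⟩ : ∃ X : ℕ, X = 2 ^ (C * (n + 1) + x) := ⟨_, rfl⟩
  have hXr : ((X : ℕ) : ℝ) = 2 ^ (C * (n + 1) + x) := by
    rw [hX]
    push_cast
    rfl
  have hX1 : (1 : ℝ) ≤ X := by
    rw [hXr]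
    exact one_le_pow₀ (by norm_num)
  -- the condition
  obtain ⟨Y, hY⟩ : ∃ Y : F.Ω → (ℤ × ℤ) × ℤ × 𝒞 × ℤ, Y = fun ω => ((nn ω / 2 ^ k, uu ω),
    (tI F W M ω, (Cq (slam F W ω), dg F nd (c r) (slam F W ω)))) := ⟨_, rfl⟩
  have hYe : ∀ ω ω', Y ω = Y ω' → nn ω / 2 ^ k = nn ω' / 2 ^ k ∧ uu ω = uu ω' ∧
      tI F W M ω = tI F W M ω' ∧ Cq (slam F W ω) = Cq (slam F W ω') ∧
      dg F nd (c r) (slam F W ω) = dg F nd (c r) (slam F W ω') := by
    intro ω ω' e1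
    rw [hY] at e1
    simp only [Prod.mk.injEq] at e1
    exact ⟨e1.1.1, e1.1.2, e1.2.1, e1.2.2.1, e1.2.2.2⟩
  have goal1 : CH q nn Y ≤ CH q nn (fun ω => (F.T ω, Y ω)) + (eT + Real.log 5) := by
    refine time_ind hq K.jJ hM hT nn Y (fun ω ω' hω hω' e1 => ?_) fun ω ω' hω hω' e1 e2 => ?_
    · obtain ⟨-, -, a3, a4, -⟩ := hYe ω ω' e1
      exact ⟨hC1 ω ω' (hqA ω hω) (hqA ω' hω') a4, a3⟩
    · have b1 : nn ω = nn ω' := by
        rw [hnn]
        simp only [e1, e2]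
      have b2 : uu ω = uu ω' := by
        rw [huu]
        simp only [e1, e2]
      refine ⟨b1, ?_⟩
      rw [hY]
      simp only [b1, b2, e1, e2]
  -- the near lemma
  have key : ∀ ω ω', 0 < q ω → 0 < q ω' → F.T ω = F.T ω' → Y ω = Y ω' →
      |((nn ω' : ℝ) - nn ω) - 2 ^ pn * (oh F c (r + 1) G ω' - oh F c (r + 1) G ω)| ≤ X + 1 ∧
      |oh F c r G ω' - oh F c r G ω| ≤ 2 / 2 ^ pu + 1 / 2 ^ (g r + v) := by
    intro ω ω' hω hω' hTT e1
    obtain ⟨-, a2, a3, a4, a5⟩ := hYe ω ω' e1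
    have hA := hqA ω hω
    have hA' := hqA ω' hω'
    obtain ⟨b1, b2, b3⟩ := hC2 ω ω' hA hA' hTT a4
    obtain ⟨d1, d2⟩ := hnear K hhi' hpn hp1 hp2 hp3 hQ ω ω' hA hA' hTT b1 b2 (hs ω hA) a5 (by
      rw [huu] at a2
      exact a2)
    refine ⟨?_, d2⟩
    have f1 := fl_diff ((2 : ℝ) ^ pn)
      (ln F W (c (r + 1)) (slam F W ω') (tht M (tI F W M ω')) -
        c₀ (slam F W ω) * ln F W (c r) (slam F W ω') (tht M (tI F W M ω')))
      (ln F W (c (r + 1)) (slam F W ω) (tht M (tI F W M ω)) -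
        c₀ (slam F W ω) * ln F W (c r) (slam F W ω) (tht M (tI F W M ω)))
    have e2 : ((nn ω' : ℝ) - nn ω) - 2 ^ pn * (oh F c (r + 1) G ω' - oh F c (r + 1) G ω) =
        (((nn ω' : ℝ) - nn ω) - 2 ^ pn *
          ((ln F W (c (r + 1)) (slam F W ω') (tht M (tI F W M ω')) -
            c₀ (slam F W ω) * ln F W (c r) (slam F W ω') (tht M (tI F W M ω'))) -
          (ln F W (c (r + 1)) (slam F W ω) (tht M (tI F W M ω)) -
            c₀ (slam F W ω) * ln F W (c r) (slam F W ω) (tht M (tI F W M ω))))) +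
        (2 ^ pn * ((ln F W (c (r + 1)) (slam F W ω') (tht M (tI F W M ω')) -
            c₀ (slam F W ω) * ln F W (c r) (slam F W ω') (tht M (tI F W M ω'))) -
          (ln F W (c (r + 1)) (slam F W ω) (tht M (tI F W M ω)) -
            c₀ (slam F W ω) * ln F W (c r) (slam F W ω) (tht M (tI F W M ω)))) -
          2 ^ pn * (oh F c (r + 1) G ω' - oh F c (r + 1) G ω)) := by ring
    rw [e2]
    refine (abs_add_le _ _).trans ?_
    rw [hXr, add_comm (_ : ℝ) 1]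
    refine add_le_add ?_ d1
    have e3 : nn ω' = ⌊(2 : ℝ) ^ pn * (ln F W (c (r + 1)) (slam F W ω') (tht M (tI F W M ω')) -
        c₀ (slam F W ω) * ln F W (c r) (slam F W ω') (tht M (tI F W M ω')))⌋ := by
      rw [hnn, b3]
      rfl
    have e4 : nn ω = ⌊(2 : ℝ) ^ pn * (ln F W (c (r + 1)) (slam F W ω) (tht M (tI F W M ω)) -
        c₀ (slam F W ω) * ln F W (c r) (slam F W ω) (tht M (tI F W M ω)))⌋ := by
      rw [hnn]
      rfl
    rw [e3, e4]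
    exact f1
  -- the fine digits
  obtain ⟨Hf, hHf⟩ : ∃ Hf : F.Ω → ℤ, Hf = fun ω => ⌊(2 : ℝ) ^ P * oh F c (r + 1) G ω⌋ := ⟨_, rfl⟩
  obtain ⟨Hx, hHx⟩ : ∃ Hx : F.Ω → ℤ, Hx = fun ω => ⌊(2 : ℝ) ^ P' * oh F c (r + 1) G ω⌋ := ⟨_, rfl⟩
  obtain ⟨Hu, hHu⟩ : ∃ Hu : F.Ω → ℤ, Hu = fun ω => ⌊(2 : ℝ) ^ PU * oh F c r G ω⌋ := ⟨_, rfl⟩
  obtain ⟨TY, hTY⟩ : ∃ TY : F.Ω → ℕ × ((ℤ × ℤ) × ℤ × 𝒞 × ℤ), TY = fun ω => (F.T ω, Y ω) :=
    ⟨_, rfl⟩
  have hTYe : ∀ ω ω', TY ω = TY ω' → F.T ω = F.T ω' ∧ Y ω = Y ω' := by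
    intro ω ω' e1
    rw [hTY] at e1
    exact Prod.ext_iff.mp e1
  have hpn0 : (0 : ℝ) < 2 ^ pn := by positivity
  have s1 : CH q nn (fun ω => (Hf ω, TY ω)) ≤ Real.log (2 * ((X + 2 : ℕ) : ℝ) + 1) := by
    refine CH_pair hq _ _ fun ω ω' hω hω' e1 => ?_
    obtain ⟨e2, e3⟩ := Prod.ext_iff.mp e1
    obtain ⟨e4, e5⟩ := hTYe ω ω' e3
    have k1 := (key ω ω' hω hω' e4 e5).1
    simp only at e2
    rw [hHf] at e2
    have k2 := of_fl (σ := (2 : ℝ) ^ P) (Real.rpow_pos_of_pos (by norm_num) _) e2.symm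
    have k3 : (2 : ℝ) ^ pn * |oh F c (r + 1) G ω' - oh F c (r + 1) G ω| ≤ 1 := by
      have k4 : (2 : ℝ) ^ pn ≤ (2 : ℝ) ^ P := by
        rw [← Real.rpow_natCast]
        exact Real.rpow_le_rpow_of_exponent_le (by norm_num) hP
      have k5 : (0 : ℝ) < (2 : ℝ) ^ P := Real.rpow_pos_of_pos (by norm_num) _
      calc (2 : ℝ) ^ pn * |oh F c (r + 1) G ω' - oh F c (r + 1) G ω| ≤
            (2 : ℝ) ^ P * (1 / (2 : ℝ) ^ P) := mul_le_mul k4 k2 (abs_nonneg _) k5.le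
        _ = 1 := by field_simp
    have k6 : |((nn ω' : ℝ) - nn ω)| ≤ ((X + 2 : ℕ) : ℝ) := by
      have e6 : ((nn ω' : ℝ) - nn ω) = (((nn ω' : ℝ) - nn ω) -
          2 ^ pn * (oh F c (r + 1) G ω' - oh F c (r + 1) G ω)) +
          2 ^ pn * (oh F c (r + 1) G ω' - oh F c (r + 1) G ω) := by ring
      rw [e6]
      refine (abs_add_le _ _).trans ?_
      rw [abs_mul, abs_of_pos hpn0]
      push_cast
      linarith
    rw [abs_sub_comm]
    have k7 : (((|nn ω' - nn ω| : ℤ)) : ℝ) ≤ (((X + 2 : ℕ) : ℤ) : ℝ) := by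
      push_cast
      push_cast at k6
      exact k6
    exact_mod_cast k7
  have s2 : CH q Hx TY ≤ Real.log (2 * ((X + 4 : ℕ) : ℝ) + 1) := by
    refine CH_pair hq _ _ fun ω ω' hω hω' e1 => ?_
    obtain ⟨e4, e5⟩ := hTYe ω ω' e1
    have k1 := (key ω ω' hω hω' e4 e5).1
    have k2 := (hYe ω ω' e5).1
    have hk0 : (0 : ℤ) < 2 ^ k := by positivity
    have k3 : |nn ω' - nn ω| < 2 ^ k := by
      have a1 := Int.mul_ediv_add_emod (nn ω) (2 ^ k)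
      have a2 := Int.mul_ediv_add_emod (nn ω') (2 ^ k)
      have a3 := Int.emod_nonneg (nn ω) hk0.ne'
      have a4 := Int.emod_lt_of_pos (nn ω) hk0
      have a5 := Int.emod_nonneg (nn ω') hk0.ne'
      have a6 := Int.emod_lt_of_pos (nn ω') hk0
      rw [← k2] at a2
      rw [abs_lt]
      constructor <;> linarith
    have k3' : |(nn ω' : ℝ) - nn ω| ≤ 2 ^ k := by
      have : ((|nn ω' - nn ω| : ℤ) : ℝ) ≤ ((2 ^ k : ℤ) : ℝ) := by exact_mod_cast k3.le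
      push_cast at this
      exact this
    have k4 : |2 ^ pn * (oh F c (r + 1) G ω' - oh F c (r + 1) G ω)| ≤ 2 ^ k + (X + 1) := by
      have e6 : 2 ^ pn * (oh F c (r + 1) G ω' - oh F c (r + 1) G ω) = ((nn ω' : ℝ) - nn ω) -
          (((nn ω' : ℝ) - nn ω) - 2 ^ pn * (oh F c (r + 1) G ω' - oh F c (r + 1) G ω)) := by ring
      rw [e6]
      exact (abs_sub _ _).trans (add_le_add k3' k1)
    have k5 : |oh F c (r + 1) G ω' - oh F c (r + 1) G ω| ≤ (2 ^ k + (X + 1)) / 2 ^ pn := by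
      rw [abs_mul, abs_of_pos hpn0] at k4
      rw [le_div_iff₀ hpn0, mul_comm]
      exact k4
    have hP0 : (0 : ℝ) < (2 : ℝ) ^ P' := Real.rpow_pos_of_pos (by norm_num) _
    have k6 := fl_mul (σ := (2 : ℝ) ^ P') hP0.le k5
    have k7 : (2 : ℝ) ^ P' * ((2 ^ k + (X + 1)) / 2 ^ pn) ≤ X + 2 := by
      have b1 : (2 : ℝ) ^ P' * 2 ^ k ≤ 2 ^ pn := by
        rw [← Real.rpow_natCast, ← Real.rpow_natCast, ← Real.rpow_add (by norm_num)]
        exact Real.rpow_le_rpow_of_exponent_le (by norm_num) hP'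
      have b2 : (2 : ℝ) ^ P' ≤ 2 ^ pn := by
        refine le_trans ?_ b1
        exact le_mul_of_one_le_right hP0.le (one_le_pow₀ (by norm_num))
      rw [← mul_div_assoc, div_le_iff₀ hpn0]
      nlinarith
    have k8 : |((⌊(2 : ℝ) ^ P' * oh F c (r + 1) G ω'⌋ : ℤ) : ℝ) -
        (⌊(2 : ℝ) ^ P' * oh F c (r + 1) G ω⌋ : ℤ)| ≤ ((X + 4 : ℕ) : ℝ) := by
      have := k6.trans (add_le_add_left k7 1)
      push_cast
      linarith
    rw [hHx, abs_sub_comm]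
    have k9 : (((|⌊(2 : ℝ) ^ P' * oh F c (r + 1) G ω'⌋ -
        ⌊(2 : ℝ) ^ P' * oh F c (r + 1) G ω⌋| : ℤ)) : ℝ) ≤ (((X + 4 : ℕ) : ℤ) : ℝ) := by
      push_cast
      push_cast at k8
      exact k8
    exact_mod_cast k9
  have s3 : CH q Hu TY ≤ Real.log (2 * ((4 : ℕ) : ℝ) + 1) := by
    refine CH_pair hq _ _ fun ω ω' hω hω' e1 => ?_
    obtain ⟨e4, e5⟩ := hTYe ω ω' e1
    have k1 := (key ω ω' hω hω' e4 e5).2
    have hP0 : (0 : ℝ) < (2 : ℝ) ^ PU := Real.rpow_pos_of_pos (by norm_num) _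
    have k6 := fl_mul (σ := (2 : ℝ) ^ PU) hP0.le k1
    have k7 : (2 : ℝ) ^ PU * (2 / 2 ^ pu + 1 / 2 ^ (g r + v)) ≤ 3 := by
      have b1 : (2 : ℝ) ^ PU ≤ 2 ^ pu := by
        rw [← Real.rpow_natCast]
        exact Real.rpow_le_rpow_of_exponent_le (by norm_num) hPU
      have b2 : (2 : ℝ) ^ PU ≤ 2 ^ (g r + v) := by
        rw [← Real.rpow_natCast]
        refine Real.rpow_le_rpow_of_exponent_le (by norm_num) ?_
        push_cast
        exact hPU2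
      have c1 : (2 : ℝ) ^ PU * (2 / 2 ^ pu) ≤ 2 := by
        rw [← mul_div_assoc, div_le_iff₀ (by positivity)]
        nlinarith
      have c2 : (2 : ℝ) ^ PU * (1 / 2 ^ (g r + v)) ≤ 1 := by
        rw [mul_one_div, div_le_one (by positivity)]
        exact b2
      rw [mul_add]
      linarith
    have k8 : |((⌊(2 : ℝ) ^ PU * oh F c r G ω'⌋ : ℤ) : ℝ) -
        (⌊(2 : ℝ) ^ PU * oh F c r G ω⌋ : ℤ)| ≤ ((4 : ℕ) : ℝ) := by
      have := k6.trans (add_le_add_left k7 1)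
      push_cast
      linarith
    rw [hHu, abs_sub_comm]
    have k9 : (((|⌊(2 : ℝ) ^ PU * oh F c r G ω'⌋ -
        ⌊(2 : ℝ) ^ PU * oh F c r G ω⌋| : ℤ)) : ℝ) ≤ (((4 : ℕ) : ℤ) : ℝ) := by
      push_cast
      push_cast at k8
      exact k8
    exact_mod_cast k9
  have s4 : CH q Zs TY ≤ κ := by
    refine le_trans (CH_mono_cond h0 fun ω ω' _ _ e1 => ?_) hZs
    obtain ⟨e4, e5⟩ := hTYe ω ω' e1
    exact Prod.ext e4 (hYe ω ω' e5).2.2.2.1
  obtain ⟨Z3, hZ3⟩ : ∃ Z3 : F.Ω → ℤ × ℤ × β, Z3 = fun ω => (Hx ω, (Hu ω, Zs ω)) := ⟨_, rfl⟩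
  have t1 := CH_le_add h0 nn Hf TY
  have t2 := CH_le_add h0 Hf Z3 TY
  have t3 : CH q Hf (fun ω => (Z3 ω, TY ω)) ≤ y := by
    have c0 : CH q Hf (fun ω => (Z3 ω, TY ω)) ≤ CH q Hf Z3 :=
      CH_mono_cond h0 fun ω ω' _ _ e1 => (Prod.ext_iff.mp e1).1
    rw [hZ3, hHx, hHu, hHf] at c0
    rw [hZ3, hHx, hHu, hHf]
    exact c0.trans hy
  have t4 : CH q Z3 TY ≤ CH q Hx TY + (CH q Hu TY + CH q Zs TY) := by
    have c1 := CH_chain h0 Hx (fun ω => (Hu ω, Zs ω)) TY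
    have c2 := CH_chain h0 Hu Zs TY
    have c3 : CH q Hx (fun ω => ((Hu ω, Zs ω), TY ω)) ≤ CH q Hx TY :=
      CH_mono_cond h0 fun ω ω' _ _ e1 => (Prod.ext_iff.mp e1).2
    have c4 : CH q Hu (fun ω => (Zs ω, TY ω)) ≤ CH q Hu TY :=
      CH_mono_cond h0 fun ω ω' _ _ e1 => (Prod.ext_iff.mp e1).2
    rw [hZ3]
    linarith
  -- the logarithms
  have l2 : 0 < Real.log 2 := Real.log_pos one_lt_two
  have l21 : Real.log 2 ≤ 1 := by
    have := Real.log_two_lt_d9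
    linarith
  have lX : ∀ N : ℕ, N ≤ 4 → Real.log (2 * ((X + N : ℕ) : ℝ) + 1) ≤ C * (n + 1) + x + 4 := by
    intro N hN
    have h4 : (2 * ((X + N : ℕ) : ℝ) + 1) ≤ 2 ^ (C * (n + 1) + x + 4) := by
      push_cast
      rw [pow_add, ← hXr]
      have : (N : ℝ) ≤ 4 := by exact_mod_cast hN
      norm_num
      linarith
    refine (Real.log_le_log (by positivity) h4).trans ?_
    rw [Real.log_pow]
    push_cast
    have h5 : (0 : ℝ) ≤ (C : ℝ) * (n + 1) + x + 4 := by positivity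
    nlinarith
  have lX1 := lX 2 (by norm_num)
  have lX2 := lX 4 (by norm_num)
  have l9 : Real.log (2 * ((4 : ℕ) : ℝ) + 1) ≤ 4 := by
    have h4 : (2 * ((4 : ℕ) : ℝ) + 1) ≤ 2 ^ 4 := by norm_num
    refine (Real.log_le_log (by norm_num) h4).trans ?_
    rw [Real.log_pow]
    push_cast
    linarith
  have fin : CH q nn Y ≤ y + κ + (eT + Real.log 5) +
      ((2 * C + 20 : ℕ) : ℝ) * (n + x + 1) := by
    rw [← hTY] at goal1
    push_cast
    have hn0 : (0 : ℝ) ≤ n := Nat.cast_nonneg n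
    have hx0 : (0 : ℝ) ≤ x := Nat.cast_nonneg x
    have hC0 : (0 : ℝ) ≤ C := Nat.cast_nonneg C
    have hCx : 0 ≤ (C : ℝ) * x := mul_nonneg hC0 hx0
    nlinarith
  have e1 : Y = fun ω => ((nI F W pn M (c r) (c (r + 1)) c₀ (slam F W ω) (tI F W M ω) / 2 ^ k,
        uI F W pu M (c r) (slam F W ω) (tI F W M ω)),
        (tI F W M ω, (Cq (slam F W ω), dg F nd (c r) (slam F W ω)))) := by
    rw [hY, hnn, huu]
  rw [← e1, ← hnn]
  exact fin

end Pool.PRC54
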