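import Pool.Agent.H54.PRC.Dse

/-!
# The own height at the sample and the height relative to the slope

`nf_near`: for two samples with the same time, the same charts, near frames and the same digits of `u`
and of its velocity, the height of `c (r + 1)` relative to the slope `c₀`, at the integer time, moves
as the own height at the sample.
-/

set_option autoImplicit false

namespace Pool.PRC54

open Finset Real MvPolynomial
open Pool.Agent.H49.Ent Pool.Agent.H32.Dense Pool.STK Pool.KA Pool.KSAT Pool.K2S Pool.PB Pool.S6C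
open Pool.GEN Pool.CHT Pool.CHX Pool.ISO Pool.D2R Pool.PRQ76
open Pool.AVG5 (fl_mul of_fl CH_near)
open Pool.PB.Trl (rt rt_mem t_rt)

variable {m J : ℕ}

/-- The own height over the charts. -/
noncomputable def oh (F : Fam m J) (c : ℕ → Fin m) (l : ℕ)
    (G : PtT F → ℕ → MvPolynomial (Option (Fin m)) ℝ) (ω : F.Ω) : ℝ :=
  F.x ω (c l) - eval (bt F ω) (G (ptr F J ω) l)

/-- The slope of an affine function of linear growth. -/
theorem aff_slope {a b S w : ℝ} (hw : 0 < w) (h : ∀ σ : ℝ, |a + σ * b| ≤ S * (1 + w * |σ|)) :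
    |b| ≤ 3 * S * w := by
  have h1 := h 0
  have h2 := h (1 / w)
  rw [zero_mul, add_zero, abs_zero, mul_zero, add_zero, mul_one] at h1
  have e1 : w * |1 / w| = 1 := by
    rw [abs_of_pos (by positivity)]
    field_simp
  rw [e1] at h2
  have e2 : 1 / w * b = (a + 1 / w * b) - a := by ring
  have h3 : |1 / w * b| ≤ 3 * S := by
    rw [e2]
    refine (abs_sub _ _).trans ?_
    linarith
  rw [abs_mul, abs_of_pos (show 0 < 1 / w by positivity), one_div_mul_eq_div, div_le_iff₀ hw] at h3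
  exact h3

/-- **Two samples with the same digits.** -/
theorem nf_near (r D : ℕ) : ∃ C : ℕ, 1 ≤ C ∧ ∀ {m J : ℕ} {F : Fam m J} {A : F.Ω → Prop}
    {c : ℕ → Fin m} {W M Q pu pn nd n x e hi v : ℕ} {g : ℕ → ℕ}
    {G : PtT F → ℕ → MvPolynomial (Option (Fin m)) ℝ}
    {H : LnT F → ℕ → MvPolynomial (Option (Fin m)) ℝ} {c₀ : ℝ},
    ChS F A c r D W n x e g G H → (∀ i < r + 2, e + g i + v + C * (n + 1) ≤ hi) →
    pn = g (r + 1) + Q → pn + g r ≤ pu + g (r + 1) → pn ≤ g (r + 1) + v → pu ≤ W + nd →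
    2 ^ Q ≤ 2 * M + 1 → ∀ ω ω', A ω → A ω' → F.T ω = F.T ω' →
    (∀ l < r + 2, G (ptr F J ω) l = G (ptr F J ω') l) →
    (∀ l < r, |F.x ω' (c l) - F.x ω (c l)| ≤ 1 / 2 ^ (hi + 1) ∧
      |F.d ω' (c l) - F.d ω (c l)| ≤ 1 / 2 ^ (hi + 1)) →
    |sl F c r G ω - c₀| ≤ 2 ^ x * (2 ^ g r / 2 ^ g (r + 1)) →
    dg F nd (c r) (slam F W ω) = dg F nd (c r) (slam F W ω') →
    uI F W pu M (c r) (slam F W ω) (tI F W M ω) =
      uI F W pu M (c r) (slam F W ω') (tI F W M ω') →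
    |2 ^ pn * ((ln F W (c (r + 1)) (slam F W ω') (tht M (tI F W M ω')) -
        c₀ * ln F W (c r) (slam F W ω') (tht M (tI F W M ω'))) -
      (ln F W (c (r + 1)) (slam F W ω) (tht M (tI F W M ω)) -
        c₀ * ln F W (c r) (slam F W ω) (tht M (tI F W M ω)))) -
      2 ^ pn * (oh F c (r + 1) G ω' - oh F c (r + 1) G ω)| ≤ 2 ^ (C * (n + 1) + x) ∧
    |oh F c r G ω' - oh F c r G ω| ≤ 2 / 2 ^ pu + 1 / 2 ^ (g r + v) := by
  obtain ⟨C₁, hC₁, hlb⟩ := pair_lb r D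
  obtain ⟨C₂, hC₂, hlow⟩ := pair_low r D
  obtain ⟨C₃, hC₃, hcell⟩ := dil_cell (r + 2) D
  refine ⟨C₁ + C₂ + C₃ + 6, by omega, ?_⟩
  intro m J F A c W M Q pu pn nd n x e hi v g G H c₀ K hhi hpn hp1 hp2 hp3 hQ ω ω' hω hω' hT hG
    hnr hs hdg huI
  have hn1 : 1 ≤ n + 1 := by omega
  have hhi₁ : ∀ i < r + 2, e + g i + v + C₁ * (n + 1) ≤ hi := by
    intro i hi'
    have h1 := hhi i hi'
    have h2 : C₁ * (n + 1) ≤ (C₁ + C₂ + C₃ + 6) * (n + 1) := Nat.mul_le_mul_right _ (by omega)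
    omega
  have hhi₂ : ∀ i < r + 2, e + g i + C₂ * (n + 1) ≤ hi := by
    intro i hi'
    have h1 := hhi i hi'
    have h2 : C₂ * (n + 1) ≤ (C₁ + C₂ + C₃ + 6) * (n + 1) := Nat.mul_le_mul_right _ (by omega)
    omega
  have hhi₃ : ∀ i < r + 2, e + g i + v + C₃ * (n + 1) ≤ hi := by
    intro i hi'
    have h1 := hhi i hi'
    have h2 : C₃ * (n + 1) ≤ (C₁ + C₂ + C₃ + 6) * (n + 1) := Nat.mul_le_mul_right _ (by omega)
    omega
  have htt : F.t ω' = F.t ω := by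
    unfold Fam.t
    rw [hT]
  have hrt : rt F W ω' = rt F W ω := by
    unfold rt
    rw [hT]
  have htI : tI F W M ω' = tI F W M ω := by
    unfold tI
    rw [hrt]
  rw [htI] at huI ⊢
  obtain ⟨θ, hθ⟩ : ∃ θ, θ = tht M (tI F W M ω) := ⟨_, rfl⟩
  have htt2 := tht_tI F W M ω
  have hMr : (0 : ℝ) < 2 * M + 1 := by positivity
  have hQr : (2 : ℝ) ^ Q ≤ 2 * M + 1 := by exact_mod_cast hQ
  have hW0 : (0 : ℝ) < 2 ^ W := by positivity
  -- the point `z` and the own heights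
  have hz : ∀ o, A o → ∀ l < r + 2, |bt F o (some (c l)) - eval (bt F o) (G (ptr F J o) l)| ≤
      2 ^ n / 2 ^ g l := by
    intro o ho l hl
    refine (K.ch.pos o ho l hl).trans (div_le_div_of_nonneg_right ?_ (by positivity))
    exact one_le_pow₀ (by norm_num)
  have hlip : ∀ i < r + 2, ∀ b, NBx c (G (ptr F J ω)) g W (F.t ω) i b → ∀ l < i,
      |eval b (pderiv (some (c l)) (G (ptr F J ω) i))| ≤ 2 ^ (e + nlp g l i) :=
    fun i hi' b hb l hl => K.ch.lip ω hω i hi' b hb l hl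
  have hnear : ∀ l < r, |bt F ω' (some (c l)) - bt F ω (some (c l))| ≤ 1 / 2 ^ hi := fun l hl =>
    (hnr l hl).1.trans (one_div_le_one_div_of_le (by positivity)
      (pow_le_pow_right₀ (by norm_num) (Nat.le_succ hi)))
  have hzt : |bt F ω none - F.t ω| ≤ 1 / 2 ^ W := by
    have : bt F ω none = F.t ω := rfl
    rw [this, sub_self, abs_zero]
    positivity
  have hz' : ∀ l < r + 2, |bt F ω' (some (c l)) - eval (bt F ω') (G (ptr F J ω) l)| ≤
      2 ^ n / 2 ^ g l := by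
    intro l hl
    rw [hG l hl]
    exact hz ω' hω' l hl
  have hnone : bt F ω' none = bt F ω none := htt
  have hosc : ∀ y : ℝ, |y| ≤ 2 ^ (n + 2) / 2 ^ g r →
      |eval (Function.update (bt F ω) (some (c r)) (bt F ω (some (c r)) + y))
        (pderiv (some (c r)) (G (ptr F J ω) (r + 1))) - sl F c r G ω| ≤
        2 ^ x * (2 ^ g r / 2 ^ g (r + 1)) := by
    intro y hy
    have h1 := K.osc ω hω (rt F W ω) (rt_mem F W ω) y hy
    rw [ptw_rt F K.jJ] at h1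
    exact h1
  -- `u` at the sample
  have e1 : ∀ o : F.Ω, rt F W o = rt F W ω → ∀ k : Fin m,
      ln F W k (slam F W o) θ = F.x o k + (θ - rt F W ω) / 2 ^ W * F.d o k := by
    intro o ho k
    rw [ln_add F W k (slam F W o) (rt F W o) θ, ln_rt F K.jJ k o, ho]
    rfl
  have hσ : |(θ - rt F W ω) / 2 ^ W| ≤ 1 / (2 * M + 1) / 2 ^ W := by
    rw [abs_div, abs_of_pos hW0, abs_sub_comm, hθ]
    exact div_le_div_of_nonneg_right htt2 hW0.le
  obtain ⟨σ, hσd⟩ : ∃ σ, σ = (θ - rt F W ω) / 2 ^ W := ⟨_, rfl⟩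
  rw [← hσd] at hσ e1
  obtain ⟨Du, hDu⟩ : ∃ D, D = F.d ω' (c r) - F.d ω (c r) := ⟨_, rfl⟩
  obtain ⟨DN, hDN⟩ : ∃ D, D = F.d ω' (c (r + 1)) - F.d ω (c (r + 1)) := ⟨_, rfl⟩
  obtain ⟨Xu, hXu⟩ : ∃ D, D = F.x ω' (c r) - F.x ω (c r) := ⟨_, rfl⟩
  obtain ⟨XN, hXN⟩ : ∃ D, D = F.x ω' (c (r + 1)) - F.x ω (c (r + 1)) := ⟨_, rfl⟩
  have hDu1 : |Du| ≤ 1 / 2 ^ nd := by
    rw [hDu]
    exact of_fl (by positivity) hdg.symm
  have hu1 : |Xu + σ * Du| ≤ 1 / 2 ^ pu := by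
    unfold uI at huI
    rw [← hθ] at huI
    have h1 := of_fl (σ := (2 : ℝ) ^ pu) (by positivity) huI.symm
    rw [e1 ω' hrt, e1 ω rfl] at h1
    refine le_trans (le_of_eq ?_) h1
    rw [hXu, hDu]
    congr 1
    ring
  have hM1 : (1 : ℝ) / (2 * M + 1) ≤ 1 := by
    rw [div_le_one hMr]
    have : (0 : ℝ) ≤ M := Nat.cast_nonneg M
    linarith
  have hσ1 : |σ| ≤ 1 / 2 ^ W := hσ.trans (div_le_div_of_nonneg_right hM1 hW0.le)
  have hud : |σ * Du| ≤ 1 / 2 ^ pu := by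
    rw [abs_mul]
    calc |σ| * |Du| ≤ 1 / 2 ^ W * (1 / 2 ^ nd) :=
          mul_le_mul hσ1 hDu1 (abs_nonneg _) (by positivity)
      _ = 1 / 2 ^ (W + nd) := by rw [pow_add]; field_simp
      _ ≤ 1 / 2 ^ pu := one_div_le_one_div_of_le (by positivity)
          (pow_le_pow_right₀ (by norm_num) hp3)
  have hXu1 : |Xu| ≤ 2 / 2 ^ pu := by
    have e2 : Xu = (Xu + σ * Du) - σ * Du := by ring
    rw [e2]
    refine (abs_sub _ _).trans ?_
    have e3 : (2 : ℝ) / 2 ^ pu = 1 / 2 ^ pu + 1 / 2 ^ pu := by ring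
    rw [e3]
    exact add_le_add hu1 hud
  -- the chart at the two samples
  have hA := hlb (P := G (ptr F J ω)) (g := g) (a := W) (e := e) (n := n) (hi := hi) (v := v)
    (t := F.t ω) (z := bt F ω) (z' := bt F ω') K.hc (K.ch.degG _) (K.ch.depG _) hzt (hz ω hω) hz'
    hlip hhi₁ hosc hnone hnear
  have e3 : bt F ω' (some (c r)) - bt F ω (some (c r)) = Xu := by rw [hXu]; rfl
  rw [e3] at hA
  -- the velocity
  have hB := (hlow K.hc K.jJ K.ch K.cl K.own hhi₂ K.xg ω ω' hω hω' hT hG hnr (sl F c r G ω)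
    (K.osc ω hω)).1
  obtain ⟨S, hS⟩ : ∃ S : ℝ, S = 2 ^ (C₂ * (n + 1) + x) / 2 ^ g (r + 1) := ⟨_, rfl⟩
  have hv := aff_slope (a := XN - sl F c r G ω * Xu) (b := DN - sl F c r G ω * Du) (S := S)
    (w := 2 ^ W) hW0 (fun s => by
      have h1 := hB s
      rw [← hS] at h1
      refine le_trans (le_of_eq ?_) h1
      rw [hXN, hXu, hDN, hDu]
      congr 1
      ring)
  -- the units
  obtain ⟨U, hU⟩ : ∃ U : ℝ, U = 1 / 2 ^ pn := ⟨_, rfl⟩
  have hU0 : 0 < U := by rw [hU]; positivity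
  have hnat : (2 : ℝ) ^ g r / 2 ^ g (r + 1) * (1 / 2 ^ pu) ≤ U := by
    rw [hU, div_mul_div_comm, mul_one, ← pow_add, div_le_div_iff₀ (by positivity) (by positivity),
      one_mul, ← pow_add]
    exact pow_le_pow_right₀ (by norm_num) (by omega)
  have hnat2 : (1 : ℝ) / 2 ^ (g (r + 1) + v) ≤ U := by
    rw [hU]
    exact one_div_le_one_div_of_le (by positivity) (pow_le_pow_right₀ (by norm_num) hp2)
  have hSM : S * (1 / (2 * M + 1)) ≤ 2 ^ (C₂ * (n + 1) + x) * U := by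
    rw [hS, hU, hpn]
    have h1 : (1 : ℝ) / (2 * M + 1) ≤ 1 / 2 ^ Q := one_div_le_one_div_of_le (by positivity) hQr
    calc (2 : ℝ) ^ (C₂ * (n + 1) + x) / 2 ^ g (r + 1) * (1 / (2 * M + 1)) ≤
          2 ^ (C₂ * (n + 1) + x) / 2 ^ g (r + 1) * (1 / 2 ^ Q) :=
          mul_le_mul_of_nonneg_left h1 (by positivity)
      _ = 2 ^ (C₂ * (n + 1) + x) * (1 / 2 ^ (g (r + 1) + Q)) := by
          rw [pow_add 2 (g (r + 1))]
          field_simp
  constructor
  · have e4 : 2 ^ pn * ((ln F W (c (r + 1)) (slam F W ω') θ - c₀ * ln F W (c r) (slam F W ω') θ) -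
        (ln F W (c (r + 1)) (slam F W ω) θ - c₀ * ln F W (c r) (slam F W ω) θ)) -
        2 ^ pn * (oh F c (r + 1) G ω' - oh F c (r + 1) G ω) =
        2 ^ pn * (((eval (bt F ω') (G (ptr F J ω) (r + 1)) - eval (bt F ω) (G (ptr F J ω) (r + 1)) -
          sl F c r G ω * Xu) + (sl F c r G ω - c₀) * (Xu + σ * Du)) +
          σ * (DN - sl F c r G ω * Du)) := by
      rw [e1 ω' hrt, e1 ω' hrt, e1 ω rfl, e1 ω rfl, hXu, hDN, hDu]
      unfold oh
      rw [← hG (r + 1) (by omega)]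
      ring
    rw [← hθ, e4, abs_mul, abs_of_pos (show (0 : ℝ) < 2 ^ pn by positivity)]
    have k1 : |(sl F c r G ω - c₀) * (Xu + σ * Du)| ≤ 2 ^ x * U := by
      rw [abs_mul]
      calc |sl F c r G ω - c₀| * |Xu + σ * Du| ≤
            2 ^ x * (2 ^ g r / 2 ^ g (r + 1)) * (1 / 2 ^ pu) :=
            mul_le_mul hs hu1 (abs_nonneg _) (by positivity)
        _ = 2 ^ x * (2 ^ g r / 2 ^ g (r + 1) * (1 / 2 ^ pu)) := by ring
        _ ≤ 2 ^ x * U := mul_le_mul_of_nonneg_left hnat (by positivity)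
    have k2 : 2 ^ x * (2 ^ g r / 2 ^ g (r + 1)) * |Xu| ≤ 2 ^ x * (2 * U) := by
      calc 2 ^ x * (2 ^ g r / 2 ^ g (r + 1)) * |Xu| ≤
            2 ^ x * (2 ^ g r / 2 ^ g (r + 1)) * (2 / 2 ^ pu) :=
            mul_le_mul_of_nonneg_left hXu1 (by positivity)
        _ = 2 ^ x * (2 * (2 ^ g r / 2 ^ g (r + 1) * (1 / 2 ^ pu))) := by ring
        _ ≤ 2 ^ x * (2 * U) := mul_le_mul_of_nonneg_left (by linarith) (by positivity)
    have k3 : |σ * (DN - sl F c r G ω * Du)| ≤ 3 * (2 ^ (C₂ * (n + 1) + x) * U) := by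
      rw [abs_mul]
      have hS0 : 0 ≤ S := by rw [hS]; positivity
      calc |σ| * |DN - sl F c r G ω * Du| ≤ 1 / (2 * M + 1) / 2 ^ W * (3 * S * 2 ^ W) :=
            mul_le_mul hσ hv (abs_nonneg _) (by positivity)
        _ = 3 * (S * (1 / (2 * M + 1))) := by field_simp
        _ ≤ 3 * (2 ^ (C₂ * (n + 1) + x) * U) := by linarith
    have k4 := abs_add_le ((eval (bt F ω') (G (ptr F J ω) (r + 1)) -
      eval (bt F ω) (G (ptr F J ω) (r + 1)) - sl F c r G ω * Xu) +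
      (sl F c r G ω - c₀) * (Xu + σ * Du)) (σ * (DN - sl F c r G ω * Du))
    have k5 := abs_add_le (eval (bt F ω') (G (ptr F J ω) (r + 1)) -
      eval (bt F ω) (G (ptr F J ω) (r + 1)) - sl F c r G ω * Xu)
      ((sl F c r G ω - c₀) * (Xu + σ * Du))
    have k6 : (1 : ℝ) ≤ 2 ^ x := one_le_pow₀ (by norm_num)
    have k7 : U ≤ 2 ^ x * U := le_mul_of_one_le_left hU0.le k6
    have k8 : (2 : ℝ) ^ x * U ≤ 2 ^ (C₂ * (n + 1) + x) * U :=
      mul_le_mul_of_nonneg_right (pow_le_pow_right₀ (by norm_num) (by omega)) hU0.le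
    have k9 : |((eval (bt F ω') (G (ptr F J ω) (r + 1)) -
      eval (bt F ω) (G (ptr F J ω) (r + 1)) - sl F c r G ω * Xu) +
      (sl F c r G ω - c₀) * (Xu + σ * Du)) + σ * (DN - sl F c r G ω * Du)| ≤
        8 * (2 ^ (C₂ * (n + 1) + x) * U) := by linarith
    have k10 : (2 : ℝ) ^ pn * (8 * (2 ^ (C₂ * (n + 1) + x) * U)) = 2 ^ (C₂ * (n + 1) + x + 3) := by
      rw [hU, pow_add 2 (C₂ * (n + 1) + x) 3]
      field_simp
      norm_num
    refine (mul_le_mul_of_nonneg_left k9 (by positivity)).trans ?_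
    rw [k10]
    exact pow_le_pow_right₀ (by norm_num) (by nlinarith)
  · have h1 := (hcell (P := G (ptr F J ω)) (g := g) (a := W) (e := e) (n := n) (hi := hi) (v := v)
      (t := F.t ω) (x := bt F ω) K.hc (K.ch.degG _) (K.ch.depG _) hzt (hz ω hω) hlip hhi₃ r
      (by omega) (bt F ω') hnone hnear).2 (by omega)
    have h2 : (1 : ℝ) / 4 / 2 ^ (g r + v) ≤ 1 / 2 ^ (g r + v) :=
      div_le_div_of_nonneg_right (by norm_num) (by positivity)
    have e5 : oh F c r G ω' - oh F c r G ω = Xu - (eval (bt F ω') (G (ptr F J ω) r) -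
        eval (bt F ω) (G (ptr F J ω) r)) := by
      unfold oh
      rw [hXu, ← hG r (by omega)]
      ring
    rw [e5]
    exact (abs_sub _ _).trans (add_le_add hXu1 (h1.trans h2))

end Pool.PRC54
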