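import Pool.Agent.H54.PRC.Ipr
import Pool.Agent.H96.AVG.Vla

/-!
# The velocity of one place, and of two places over the same base

`ipr_one`: the record of the ball does not see the own velocity of the place `r₀` behind its natural
digits, relative to any quantity `Q₀`. `ipr_two`: the same for the two own velocities of two places
over the same base.
-/

set_option autoImplicit false

namespace Pool.PRC54

open Finset Real Set MeasureTheory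
open Pool.Agent.H49.Ent Pool.Agent.H32.Dense Pool.STK Pool.KA Pool.KSAT Pool.K2S Pool.PB Pool.S6C
  Pool.GEN Pool.RCD Pool.LA91 Pool.OWN83 Pool.AVG96

variable {m : ℕ} {U₀ : Type} {α γ' : ∀ J : ℕ, Fam m J → Type}
  {f : ∀ (J : ℕ) (F : Fam m J), F.Ω → α J F} {y : ∀ (J : ℕ) (F : Fam m J), F.Ω → γ' J F}
  {S : PCl m} {c c' : ℕ → Fin m} {r₀ r r' : ℕ} {s A B Λ Λ' : ℝ} {wh : ℚ → ℝ}
  {sc sc' : ℚ → ℕ → ℝ}

/-- **One velocity.** -/
theorem ipr_one (h : NCh S f y c r₀ r s A B Λ wh sc) (hr : r₀ ≤ r) (hT : OneOk sc r₀ Λ A B)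
    (hAB : A < B) {Q₀ : Qt m U₀} (hQ : Exs S Q₀)
    (hQt : ∀ v : ℚ, A < v → (v : ℝ) < B → Few S f (vg ((v : ℝ) + s)) y Q₀ Q₀)
    {θ₀ : ℚ → ℝ} {θ : ℚ → ℚ → ℝ}
    (hθ : TRelS S f y s (fun _ => Q₀) (fam m c r₀ 1 wh sc) A B (B - A) θ₀ θ) :
    ∀ᵐ g : ℝ, g ∈ Ioo A B → IprI S f y s Q₀ (fam m c r₀ 1 wh sc) θ g :=
  ipr_ae h.ne h.pos h.B1.le (by linarith) h.rn (rel_one h hr hT hQ hQt le_rfl) hθ

/-- **Two velocities over the same base.** -/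
theorem ipr_two (h : NCh S f y c r₀ r s A B Λ wh sc) (hr : r₀ ≤ r) (hT : OneOk sc r₀ Λ A B)
    (h' : NCh S f y c' r₀ r' s A B Λ' wh sc') (hr' : r₀ ≤ r') (hT' : OneOk sc' r₀ Λ' A B)
    (hAB : A < B) {Q₀ : Qt m U₀} (hQ : Exs S Q₀)
    (hQt : ∀ v : ℚ, A < v → (v : ℝ) < B → Few S f (vg ((v : ℝ) + s)) y Q₀ Q₀)
    {θ₀ : ℚ → ℝ} {θ : ℚ → ℚ → ℝ}
    (hθ : TRelS S f y s (fun _ => Q₀) (fun w o => (fam m c r₀ 1 wh sc w o).prod
      (fam m c' r₀ 1 wh sc' w o)) A B (B - A) θ₀ θ) :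
    ∀ᵐ g : ℝ, g ∈ Ioo A B → IprI S f y s Q₀ (fun w o => (fam m c r₀ 1 wh sc w o).prod
      (fam m c' r₀ 1 wh sc' w o)) θ g :=
  ipr_ae h.ne h.pos h.B1.le (by linarith) h.rn
    ((rel_one h hr hT hQ hQt le_rfl).prod h.pos (rel_one h' hr' hT' hQ hQt le_rfl)) hθ

/-- **One subclass with all numbers**, for a countable list of relative families. -/
theorem num_sub {ι U : Type} [Countable ι] (hne : S.Ne)
    (hpos : ∀ (τ : ℝ) (J : ℕ) (F : Fam m J) (A : F.Ω → Prop), S.St τ J F A → 0 < Pe F.p A)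
    (Q₀ : ι → Qt m U₀) (Q : ι → ℚ → ℚ → Qt m U) (A B lam : ι → ℝ)
    (h : ∀ i, TwoRelS S f y s (fun _ => Q₀ i) (Q i) (A i) (B i) (lam i))
    (hlam : ∀ i, 0 < lam i) :
    ∃ S' : PCl m, S'.Ne ∧
      (∀ (τ : ℝ) (J : ℕ) (F : Fam m J) (A : F.Ω → Prop), S'.St τ J F A → S.St τ J F A) ∧
      ∀ i, ∃ (θ₀ : ℚ → ℝ) (θ : ℚ → ℚ → ℝ),
        TRelS S' f y s (fun _ => Q₀ i) (Q i) (A i) (B i) (lam i) θ₀ θ :=
  rel_clsS (ι := ι) hne hpos (fun _ => U₀) (fun _ => U) (fun _ => α) (fun _ => γ')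
    (fun _ => f) (fun _ => y) (fun _ => s) (fun i _ => Q₀ i) Q A B lam h hlam

end Pool.PRC54
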