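import Pool.Agent.H54.PRC.Dis
import Pool.Agent.H99.D2.Kon

/-!
# Pairs over the same charts: the slope with its own error

`pair_lb`: the chart of `c (r + 1)` at two points over the same charts, with any precision. `pair_low`:
`pair_own` (helper76) with a separate error `x` of the slope.
-/

set_option autoImplicit false

namespace Pool.PRC54

open Finset Real MvPolynomial
open Pool.Agent.H49.Ent Pool.Agent.H32.Dense Pool.STK Pool.KA Pool.KSAT Pool.K2S Pool.PB Pool.S6C
open Pool.GEN Pool.CHT Pool.CHX Pool.ISO Pool.D2R Pool.PRQ76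
open Pool.PB.Trl (rt rt_mem t_rt)

variable {m J : ℕ}

/-- **The chart of `c (r + 1)` at two points** with the same time and the same charts. -/
theorem pair_lb (r D : ℕ) : ∃ C : ℕ, 1 ≤ C ∧ ∀ {m : ℕ} {c : ℕ → Fin m}
    {P : ℕ → MvPolynomial (Option (Fin m)) ℝ} {g : ℕ → ℕ} {a e n hi v : ℕ} {t c₀ x : ℝ}
    {z z' : Option (Fin m) → ℝ}, Set.InjOn c (Set.Iio (r + 2)) →
    (∀ l, (P l).totalDegree ≤ D) → (∀ l, DepC c l (P l)) → |z none - t| ≤ 1 / 2 ^ a →
    (∀ l < r + 2, |z (some (c l)) - eval z (P l)| ≤ 2 ^ n / 2 ^ g l) →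
    (∀ l < r + 2, |z' (some (c l)) - eval z' (P l)| ≤ 2 ^ n / 2 ^ g l) →
    (∀ i < r + 2, ∀ b, NBx c P g a t i b → ∀ l < i,
      |eval b (pderiv (some (c l)) (P i))| ≤ 2 ^ (e + nlp g l i)) →
    (∀ i < r + 2, e + g i + v + C * (n + 1) ≤ hi) →
    (∀ y : ℝ, |y| ≤ 2 ^ (n + 2) / 2 ^ g r →
      |eval (Function.update z (some (c r)) (z (some (c r)) + y))
        (pderiv (some (c r)) (P (r + 1))) - c₀| ≤ x) →
    z' none = z none → (∀ l < r, |z' (some (c l)) - z (some (c l))| ≤ 1 / 2 ^ hi) →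
    |eval z' (P (r + 1)) - eval z (P (r + 1)) - c₀ * (z' (some (c r)) - z (some (c r)))| ≤
      x * |z' (some (c r)) - z (some (c r))| + 1 / 2 ^ (g (r + 1) + v) := by
  obtain ⟨C₁, hC₁, hcell⟩ := dil_cell (r + 2) D
  refine ⟨C₁, hC₁, ?_⟩
  intro m c P g a e n hi v t c₀ x z z' hc hdeg hdep hzt hz hz' hlip hhi hosc hn hnear
  have hne : c r ≠ c (r + 1) := fun h => by
    have := hc (Set.mem_Iio.2 (show r < r + 2 by omega))
      (Set.mem_Iio.2 (show r + 1 < r + 2 by omega)) h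
    omega
  have hne' : ∀ l < r, c l ≠ c r := fun l hl h => by
    have := hc (Set.mem_Iio.2 (show l < r + 2 by omega))
      (Set.mem_Iio.2 (show r < r + 2 by omega)) h
    omega
  have hn1 : (1 : ℝ) ≤ 2 ^ n := one_le_pow₀ (by norm_num)
  -- the charts of `c r` at the two points
  have hPr := (hcell (P := P) (g := g) (a := a) (e := e) (n := n) (hi := hi) (t := t) (x := z)
    hc hdeg hdep hzt hz hlip hhi r (by omega) z' hn hnear).2 (by omega)
  have hn4 : (1 : ℝ) / 4 / 2 ^ (g r + v) ≤ 2 ^ n / 2 ^ g r := by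
    rw [div_div, div_le_div_iff₀ (by positivity) (by positivity)]
    have h1 : (2 : ℝ) ^ g r ≤ 2 ^ (g r + v) := pow_le_pow_right₀ (by norm_num) (by omega)
    have : (0 : ℝ) < 2 ^ (g r + v) := by positivity
    nlinarith
  have hu : |z' (some (c r)) - z (some (c r))| ≤ 2 ^ (n + 2) / 2 ^ g r := by
    have h1 := hz r (by omega)
    have h2 := hz' r (by omega)
    have e1 : (2 : ℝ) ^ (n + 2) / 2 ^ g r = 4 * (2 ^ n / 2 ^ g r) := by rw [pow_add]; ring
    have h9 : (0 : ℝ) ≤ 2 ^ n / 2 ^ g r := by positivity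
    rw [e1]
    rw [abs_le] at h1 h2 hPr ⊢
    constructor <;> linarith [h1.1, h1.2, h2.1, h2.2, hPr.1, hPr.2]
  -- the mixed point
  obtain ⟨y, hy⟩ : ∃ y : Option (Fin m) → ℝ, y = fun o => if o = some (c r) then z' o else z o :=
    ⟨_, rfl⟩
  have hyn : y none = z none := by
    rw [hy]
    exact if_neg (by simp)
  have hyr : y (some (c r)) = z' (some (c r)) := by
    rw [hy]
    exact if_pos rfl
  have hyl : ∀ o, o ≠ some (c r) → y o = z o := by
    intro o ho
    rw [hy]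
    exact if_neg ho
  have hylc : ∀ l < r, y (some (c l)) = z (some (c l)) := fun l hl =>
    hyl _ fun h => hne' l hl (Option.some_injective _ h)
  -- from `z'` to `y`
  have hA := (hcell (P := P) (g := g) (a := a) (e := e) (n := n) (hi := hi) (t := t) (x := z')
    hc hdeg hdep (by rw [hn]; exact hzt) hz' hlip hhi (r + 1) (by omega) y (by rw [hyn, hn])
    (fun l hl => by
      rcases Nat.lt_or_ge l r with h | h
      · rw [hylc l h, abs_sub_comm]
        exact hnear l h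
      · have : l = r := by omega
        subst this
        rw [hyr, sub_self, abs_zero]
        positivity)).2 (by omega)
  -- from `y` to `z`
  obtain ⟨θ, hθ, hmv⟩ := mv_one (P (r + 1)) (c r) y z hyl
  have hbe : (fun o => z o + θ * (y o - z o)) = Function.update z (some (c r))
      (z (some (c r)) + θ * (z' (some (c r)) - z (some (c r)))) := by
    funext o
    by_cases ho : o = some (c r)
    · subst ho
      rw [Function.update_self, hyr]
    · rw [Function.update_of_ne ho, hyl o ho]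
      ring
  have hB := hosc (θ * (z' (some (c r)) - z (some (c r)))) (by
    rw [abs_mul, abs_of_nonneg hθ.1]
    exact (mul_le_of_le_one_left (abs_nonneg _) hθ.2).trans hu)
  rw [← hbe] at hB
  have hmv' : |eval y (P (r + 1)) - eval z (P (r + 1)) - c₀ * (z' (some (c r)) - z (some (c r)))| ≤
      x * |z' (some (c r)) - z (some (c r))| := by
    rw [hmv, hyr, ← sub_mul, abs_mul]
    exact mul_le_mul_of_nonneg_right hB (abs_nonneg _)
  have h4 : (1 : ℝ) / 4 / 2 ^ (g (r + 1) + v) ≤ 1 / 2 ^ (g (r + 1) + v) :=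
    div_le_div_of_nonneg_right (by norm_num) (by positivity)
  have e7 : eval z' (P (r + 1)) - eval z (P (r + 1)) -
      c₀ * (z' (some (c r)) - z (some (c r))) =
      -(eval y (P (r + 1)) - eval z' (P (r + 1))) +
      (eval y (P (r + 1)) - eval z (P (r + 1)) - c₀ * (z' (some (c r)) - z (some (c r)))) := by
    ring
  rw [e7]
  refine (abs_add_le _ _).trans ?_
  rw [abs_neg]
  linarith

/-- **Two samples with the same time and the same charts**: `pair_own` with the error `x` of the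
slope. -/
theorem pair_low (r D : ℕ) : ∃ C : ℕ, 1 ≤ C ∧ ∀ {m J : ℕ} {F : Fam m J} {c : ℕ → Fin m}
    {w n x e hi : ℕ} {g : ℕ → ℕ} {B : F.Ω → Prop}
    {G : PtT F → ℕ → MvPolynomial (Option (Fin m)) ℝ}
    {H : LnT F → ℕ → MvPolynomial (Option (Fin m)) ℝ}, Set.InjOn c (Set.Iio (r + 2)) → w ≤ J →
    ChOK F c (r + 2) (fun _ => D) w w e g B G H →
    (∀ ω, B ω → ∀ l < r + 2, G (ptr F J ω) l = H (slam F w ω) l) →
    (∀ ω, B ω → ∀ l < r + 2, ∀ τ ∈ Set.Icc (0 : ℝ) 1,
      |(dv w (fun s _ => H s l) (c l) (slam F w ω)).eval τ| ≤ 2 ^ n / 2 ^ g l) →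
    (∀ i < r + 2, e + g i + C * (n + 1) ≤ hi) → x ≤ g (r + 1) → ∀ ω ω', B ω → B ω' →
    F.T ω = F.T ω' →
    (∀ l < r + 2, G (ptr F J ω) l = G (ptr F J ω') l) →
    (∀ l < r, |F.x ω' (c l) - F.x ω (c l)| ≤ 1 / 2 ^ (hi + 1) ∧
      |F.d ω' (c l) - F.d ω (c l)| ≤ 1 / 2 ^ (hi + 1)) →
    ∀ c₀ : ℝ, (∀ τ ∈ Set.Icc (0 : ℝ) 1, ∀ y : ℝ, |y| ≤ 2 ^ (n + 2) / 2 ^ g r →
      |eval (Function.update (ptw F w ω τ) (some (c r)) (ptw F w ω τ (some (c r)) + y))
        (pderiv (some (c r)) (G (ptr F J ω) (r + 1))) - c₀| ≤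
        2 ^ x * (2 ^ g r / 2 ^ g (r + 1))) →
    (∀ σ : ℝ, |((F.x ω' (c (r + 1)) + σ * F.d ω' (c (r + 1))) -
        (F.x ω (c (r + 1)) + σ * F.d ω (c (r + 1)))) -
      c₀ * ((F.x ω' (c r) + σ * F.d ω' (c r)) - (F.x ω (c r) + σ * F.d ω (c r)))| ≤
        2 ^ (C * (n + 1) + x) / 2 ^ g (r + 1) * (1 + 2 ^ w * |σ|)) ∧
    |F.x ω' (c r) - F.x ω (c r)| ≤ 3 / 2 ^ g r ∧
    ∀ v : ℕ, (∀ i < r + 1, e + g i + v + C * (n + 1) ≤ hi) →
      e + (Finset.Icc r (r + 1)).sup g ≤ g r + v →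
      |eval (bt F ω') (pderiv (some (c r)) (G (ptr F J ω') (r + 1))) - c₀| ≤
        2 ^ (C * (n + 1) + x) * 2 ^ g r / 2 ^ g (r + 1) := by
  obtain ⟨C, hC, hpair⟩ := pair_own r D
  refine ⟨C, hC, ?_⟩
  intro m J F c w n x e hi g B G H hc hw hch hcl hown hhi hx ω ω' hω hω' hT hG hnear c₀ hosc
  obtain ⟨g', hg'⟩ : ∃ g' : ℕ → ℕ, g' = fun i => if i = r + 1 then g i - x else g i := ⟨_, rfl⟩
  have hgr : g' r = g r := by
    rw [hg']
    exact if_neg (by omega)
  have hgl : ∀ l, l < r + 1 → g' l = g l := by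
    intro l hl
    rw [hg']
    exact if_neg (by omega)
  have hg1 : g' (r + 1) + x = g (r + 1) := by
    have h0 : g' (r + 1) = g (r + 1) - x := by
      rw [hg']
      exact if_pos rfl
    omega
  have hle : ∀ l, g' l ≤ g l := by
    intro l
    rw [hg']
    by_cases h : l = r + 1
    · simp only [if_pos h]
      omega
    · simp only [if_neg h]
      exact le_rfl
  have hch' : ChOK F c (r + 2) (fun _ => D) w w e g' B G H :=
    hch.last (fun i hi => hgl i (by omega)) (fun i _ => hle i)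
  have e1 : ∀ k : ℕ, (2 : ℝ) ^ k / 2 ^ g' (r + 1) = 2 ^ (k + x) / 2 ^ g (r + 1) := by
    intro k
    rw [← hg1, pow_add, pow_add]
    field_simp
  have hown' : ∀ ω, B ω → ∀ l < r + 2, ∀ τ ∈ Set.Icc (0 : ℝ) 1,
      |(dv w (fun s _ => H s l) (c l) (slam F w ω)).eval τ| ≤ 2 ^ n / 2 ^ g' l := by
    intro ω hω l hl τ hτ
    exact (hown ω hω l hl τ hτ).trans (div_le_div_of_nonneg_left (by positivity) (by positivity)
      (pow_le_pow_right₀ (by norm_num) (hle l)))
  have h := hpair hc hw hch' hcl hown' (fun i hi' => by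
    have := hhi i hi'
    have := hle i
    omega) ω ω' hω hω' hT hG hnear c₀ (by
      intro τ hτ y hy
      rw [hgr] at hy
      refine (hosc τ hτ y hy).trans ?_
      have k1 : (2 : ℝ) ^ x * (2 ^ g r / 2 ^ g (r + 1)) = 1 * (2 ^ g r / 2 ^ g' (r + 1)) := by
        rw [← hg1, pow_add]
        field_simp
      rw [k1, hgr, mul_div_assoc]
      exact mul_le_mul_of_nonneg_right (one_le_pow₀ (by norm_num)) (by positivity))
  obtain ⟨h1, h2, h3, h4, h5, h6⟩ := h
  rw [hgr] at h4 h6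
  refine ⟨fun σ => ?_, h4, fun v hv hev => ?_⟩
  · rw [← e1]
    exact h1 σ
  · have h7 := h6 v (fun i hi' => by
      have := hv i hi'
      rw [hgl i hi']
      exact this) (by
      have h8 : nlp g' r (r + 1) + g' (r + 1) ≤ (Finset.Icc r (r + 1)).sup g := by
        unfold nlp
        have h9 : (Finset.Icc r (r + 1)).sup g' ≤ (Finset.Icc r (r + 1)).sup g :=
          Finset.sup_mono_fun fun i _ => hle i
        have h10 : g' (r + 1) ≤ (Finset.Icc r (r + 1)).sup g' :=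
          Finset.le_sup (f := g') (Finset.mem_Icc.2 ⟨by omega, le_rfl⟩)
        omega
      omega)
    have e2 : (2 : ℝ) ^ (C * (n + 1)) * 2 ^ g r / 2 ^ g' (r + 1) =
        2 ^ (C * (n + 1) + x) * 2 ^ g r / 2 ^ g (r + 1) := by
      have := e1 (C * (n + 1))
      rw [mul_comm, mul_div_assoc, this]
      ring
    rw [← e2]
    exact h7

end Pool.PRC54
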