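import Pool.Agent.H54.PRC.Db
import Pool.Agent.H54.PRC.Adp
import Pool.Agent.H46.PR.Few
import Pool.Agent.H96.AVG.Dbg

/-!
# The records of two hops, on an event of the class

`Cc`: the context of the line; `Dd`: its direction; `Gg`: the record. `rcs_of`: the structure `Recs`
(helper46) from the two inequalities for the codes of the own velocity.
-/

set_option autoImplicit false

namespace Pool.PRC54

open Finset Real MvPolynomial
open Pool.Agent.H49.Ent Pool.Agent.H32.Dense Pool.STK Pool.KA Pool.KSAT Pool.K2S Pool.PB Pool.GEN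
open Pool.RCD Pool.LA91 Pool.OWN68 Pool.PR46
open Pool.AVG5 (fl_mul of_fl CH_near)
open Pool.AVG96 (crs slam_crs)

variable {m J : ℕ}

/-- The direction, to `n` digits. -/
noncomputable def dg (F : Fam m J) (n : ℕ) (κ : Fin m) (s : LnT F) : ℤ := ⌊(2 : ℝ) ^ n * s.1.2 κ⌋

theorem dg_slam (F : Fam m J) (n W : ℕ) (κ : Fin m) (ω : F.Ω) :
    dg F n κ (slam F W ω) = F.D n ω κ := rfl

theorem dg_mono (F : Fam m J) {a b : ℕ} (h : a ≤ b) (κ : Fin m) {s s' : LnT F}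
    (e : dg F b κ s = dg F b κ s') : dg F a κ s = dg F a κ s' := by
  have key : ∀ x : ℝ, ⌊(2 : ℝ) ^ a * x⌋ = ⌊(2 : ℝ) ^ b * x⌋ / 2 ^ (b - a) := by
    intro x
    have h1 : (2 : ℝ) ^ a * x = (2 ^ b * x) / ((2 ^ (b - a) : ℕ) : ℝ) := by
      have : (2 : ℝ) ^ b = 2 ^ a * 2 ^ (b - a) := by
        rw [← pow_add]; congr 1; omega
      rw [this]
      push_cast
      field_simp
    rw [h1, Int.floor_div_natCast]
    push_cast
    rfl
  unfold dg at e ⊢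
  rw [key, key, e]

/-- **The context** of the line: the record, the label, the base, the free quantity, the window. -/
noncomputable def Cc (F : Fam m J) (I : Finset (Fin m)) (Wh W a l : ℕ) {V Vz 𝒳 : Type}
    (z' : LnT F → V) (zL : LnT F → Vz) (XL : LnT F → 𝒳) (s : LnT F) :
    Vz × V × (Fin m → ℤ × ℤ) × 𝒳 × ℕ :=
  (zL s, (z' (crs F Wh W s), (vI I W a l F s, (XL s, s.2.2))))

/-- **The record.** -/
noncomputable def Gg (F : Fam m J) (I : Finset (Fin m)) (κ : Fin m) (Wh W a l nj : ℕ)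
    {V Vz Vj 𝒳 : Type} (z' : LnT F → V) (zL : LnT F → Vz) (zj : F.Ω → Vj) (XL : LnT F → 𝒳)
    (ω : F.Ω) : (Vz × V × (Fin m → ℤ × ℤ) × 𝒳 × ℕ) × ℤ × Vj × ℕ :=
  (Cc F I Wh W a l z' zL XL (slam F W ω), (dg F nj κ (slam F W ω), (zj ω, F.T ω)))

/-- **The data of one window**: line window `W`, label window `Wh`, base to `a` (position) and `l`
(direction) digits, label `z', G`, record `zL` (a function `zz` of the point), record `zj` of the
ball, free quantity `X`, `XL`. -/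
structure WinD (F : Fam m J) (A : F.Ω → Prop) (I : Finset (Fin m)) (κ : Fin m) (Wh W a l : ℕ)
    {V Vz Γ : Type} (z' : LnT F → V) (G : V → MvPolynomial (Option (Fin m)) ℝ)
    (zL : LnT F → Vz) (zz : F.Ω → Vz) (y : F.Ω → Γ) (Nl : ℝ) : Prop where
  hW : W ≤ J
  hWh : Wh ≤ W
  ha : a ≤ W + l
  zl : ∀ ω, A ω → zz ω = zL (slam F W ω)
  yk : ∀ ω ω', yI I a l F ω = yI I a l F ω' → y ω = y ω'
  yn : ∀ ω ω', y ω = y ω' → yI I a l F ω = yI I a l F ω'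
  vel : VelNear F κ z' G Wh A (fun ω => (F.T ω, (z' (slam F Wh ω), vI I W a l F (slam F W ω)))) Nl

theorem VelNear.mono {F : Fam m J} {k : Fin m} {V : Type} {z' : LnT F → V}
    {G : V → MvPolynomial (Option (Fin m)) ℝ} {w : ℕ} {A : F.Ω → Prop} {β : Type} {Y : F.Ω → β}
    {N N' : ℝ} (h : VelNear F k z' G w A Y N) (hN : N' ≤ N) : VelNear F k z' G w A Y N' where
  near := fun ω ω' a b e => (h.near ω ω' a b e).trans
    (one_div_le_one_div_of_le (Real.rpow_pos_of_pos (by norm_num) _)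
      (Real.rpow_le_rpow_of_exponent_le (by norm_num)
        (mul_le_mul_of_nonneg_right hN (Nat.cast_nonneg J))))

/-- The code of the own velocity. -/
noncomputable def oc (F : Fam m J) (κ : Fin m) (Wh : ℕ) {V : Type} (z' : LnT F → V)
    (G : V → MvPolynomial (Option (Fin m)) ℝ) (N : ℝ) (ω : F.Ω) : ℤ :=
  ⌊(2 : ℝ) ^ (N * J) * ojet F κ 1 (G (z' (slam F Wh ω))) ω⌋

section

variable {F : Fam m J} {A : F.Ω → Prop} {I : Finset (Fin m)} {κ : Fin m} {Wh W a l : ℕ}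
  {V Vz Vj Γ 𝒳 𝒳' : Type} {z' : LnT F → V} {G : V → MvPolynomial (Option (Fin m)) ℝ}
  {zL : LnT F → Vz} {zz : F.Ω → Vz} {y : F.Ω → Γ} {Nl Nj : ℝ} {zj : F.Ω → Vj}
  {X : F.Ω → 𝒳} {XL : LnT F → 𝒳'}

/-- The context and the time determine the label and the base. -/
theorem WinD.ct (H : WinD F A I κ Wh W a l z' G zL zz y Nl) {ω ω' : F.Ω}
    (e1 : Cc F I Wh W a l z' zL XL (slam F W ω) = Cc F I Wh W a l z' zL XL (slam F W ω'))
    (e2 : F.T ω = F.T ω') :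
    (F.T ω, (z' (slam F Wh ω), vI I W a l F (slam F W ω))) =
      (F.T ω', (z' (slam F Wh ω'), vI I W a l F (slam F W ω'))) := by
  unfold Cc at e1
  rw [← slam_crs H.hWh H.hW ω, ← slam_crs H.hWh H.hW ω'] at e1
  simp only [Prod.mk.injEq] at e1 ⊢
  exact ⟨e2, e1.2.1, e1.2.2.1⟩

/-- The own velocity, given its digits, the context and the time. -/
theorem WinD.ofew (H : WinD F A I κ Wh W a l z' G zL zz y Nl) {q : F.Ω → ℝ} (hq : IsLaw q)
    (hqA : ∀ ω, 0 < q ω → A ω) {N : ℝ} (hN : N ≤ Nl) {β : Type} (Y : F.Ω → β)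
    (hY : ∀ ω ω', 0 < q ω → 0 < q ω' → Y ω = Y ω' →
      Cc F I Wh W a l z' zL XL (slam F W ω) = Cc F I Wh W a l z' zL XL (slam F W ω') ∧
      F.T ω = F.T ω' ∧ dg F ⌊N * J⌋₊ κ (slam F W ω) = dg F ⌊N * J⌋₊ κ (slam F W ω')) :
    CH q (oc F κ Wh z' G N) Y ≤ Real.log 9 :=
  b_few (H.vel.mono hN) hq hqA Y fun ω ω' h h' e => by
    obtain ⟨e1, e2, e3⟩ := hY ω ω' h h' e
    exact ⟨H.ct e1 e2, e3⟩

/-- The digits of the direction, given the code, the label, the base and the time. -/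
theorem WinD.dfew (H : WinD F A I κ Wh W a l z' G zL zz y Nl) {q : F.Ω → ℝ} (hq : IsLaw q)
    (hqA : ∀ ω, 0 < q ω → A ω) {N : ℝ} (hN0 : 0 ≤ N) (hN : N ≤ Nl) {β : Type} (Y : F.Ω → β)
    (hY : ∀ ω ω', 0 < q ω → 0 < q ω' → Y ω = Y ω' → F.T ω = F.T ω' ∧
      z' (slam F Wh ω) = z' (slam F Wh ω') ∧
      vI I W a l F (slam F W ω) = vI I W a l F (slam F W ω') ∧
      oc F κ Wh z' G N ω = oc F κ Wh z' G N ω') :
    CH q (fun ω => dg F ⌊N * J⌋₊ κ (slam F W ω)) Y ≤ Real.log 7 :=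
  d_few hN0 (H.vel.mono hN) hq hqA Y fun ω ω' h h' e => by
    obtain ⟨e1, e2, e3, e4⟩ := hY ω ω' h h' e
    exact ⟨by simp only [Prod.mk.injEq]; exact ⟨e1, e2, e3⟩, e4⟩

/-- The record, given the code and the records. -/
theorem WinD.gfew (H : WinD F A I κ Wh W a l z' G zL zz y Nl) {q : F.Ω → ℝ} (hq : IsLaw q)
    (hqA : ∀ ω, 0 < q ω → A ω) (hj0 : 0 ≤ Nj) (hj : Nj ≤ Nl) {κz κX : ℝ}
    (kz : CH q (fun ω => z' (slam F Wh ω)) zz ≤ κz)
    (kX : CH q (fun ω => XL (slam F W ω)) (fun ω => (X ω, (zz ω, y ω))) ≤ κX) :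
    CH q (Gg F I κ Wh W a l ⌊Nj * J⌋₊ z' zL zj XL)
      (fun ω => (oc F κ Wh z' G Nj ω, (zj ω, (X ω, (zz ω, y ω))))) ≤
        κz + κX + m * Real.log 7 + Real.log 7 := by
  have h0 := hq.nonneg
  obtain ⟨R, hR⟩ : ∃ R : F.Ω → ℤ × Vj × 𝒳 × Vz × Γ, R = fun ω =>
    (oc F κ Wh z' G Nj ω, (zj ω, (X ω, (zz ω, y ω)))) := ⟨_, rfl⟩
  have hRe : ∀ ω ω', R ω = R ω' → oc F κ Wh z' G Nj ω = oc F κ Wh z' G Nj ω' ∧ zj ω = zj ω' ∧
      X ω = X ω' ∧ zz ω = zz ω' ∧ y ω = y ω' := by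
    intro ω ω' e
    rw [hR] at e
    simp only [Prod.mk.injEq] at e
    exact ⟨e.1, e.2.1, e.2.2.1, e.2.2.2.1, e.2.2.2.2⟩
  rw [← hR]
  -- the parts
  obtain ⟨P1, hP1⟩ : ∃ P1 : F.Ω → V, P1 = fun ω => z' (slam F Wh ω) := ⟨_, rfl⟩
  obtain ⟨P2, hP2⟩ : ∃ P2 : F.Ω → Fin m → ℤ × ℤ, P2 = fun ω => vI I W a l F (slam F W ω) :=
    ⟨_, rfl⟩
  obtain ⟨P3, hP3⟩ : ∃ P3 : F.Ω → 𝒳', P3 = fun ω => XL (slam F W ω) := ⟨_, rfl⟩
  obtain ⟨P4, hP4⟩ : ∃ P4 : F.Ω → ℤ, P4 = fun ω => dg F ⌊Nj * J⌋₊ κ (slam F W ω) := ⟨_, rfl⟩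
  have s1 : CH q (Gg F I κ Wh W a l ⌊Nj * J⌋₊ z' zL zj XL) R ≤
      CH q (fun ω => (P4 ω, (P3 ω, (P2 ω, P1 ω)))) R := by
    refine CH_mono_left h0 fun ω ω' hω hω' e => ?_
    have e1 := Prod.ext_iff.mp e
    have e2 := e1.1
    simp only [Prod.mk.injEq] at e2
    obtain ⟨f1, f2, f3, f4, f5⟩ := hRe ω ω' e1.2
    have hT : F.T ω = F.T ω' := (Prod.ext_iff.mp (H.yn ω ω' f5)).1
    rw [hP4, hP3, hP2, hP1] at e2
    unfold Gg Cc
    rw [← slam_crs H.hWh H.hW ω, ← slam_crs H.hWh H.hW ω', ← H.zl ω (hqA ω hω),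
      ← H.zl ω' (hqA ω' hω')]
    simp only [Prod.mk.injEq]
    refine ⟨⟨f4, e2.2.2.2, e2.2.2.1, e2.2.1, ?_⟩, e2.1, f2, hT⟩
    show F.T1 W ω = F.T1 W ω'
    unfold Fam.T1
    rw [hT]
  have c1 := CH_chain h0 P4 (fun ω => (P3 ω, (P2 ω, P1 ω))) R
  have c2 := CH_chain h0 P3 (fun ω => (P2 ω, P1 ω)) R
  have c3 := CH_chain h0 P2 P1 R
  have d1 : CH q P1 R ≤ κz := by
    rw [hP1]
    refine le_trans (CH_mono_cond h0 fun ω ω' _ _ e => (hRe ω ω' e).2.2.2.1) kz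
  have d2 : CH q P2 (fun ω => (P1 ω, R ω)) ≤ m * Real.log 7 := by
    rw [hP2]
    exact vI_few hq I H.hW H.ha _ fun ω ω' _ _ e => H.yn ω ω' (hRe ω ω' (Prod.ext_iff.mp e).2).2.2.2.2
  have d3 : CH q P3 (fun ω => ((P2 ω, P1 ω), R ω)) ≤ κX := by
    rw [hP3]
    refine le_trans (CH_mono_cond h0 fun ω ω' _ _ e => ?_) kX
    obtain ⟨f1, f2, f3, f4, f5⟩ := hRe ω ω' (Prod.ext_iff.mp e).2
    exact Prod.ext f3 (Prod.ext f4 f5)
  have d4 : CH q P4 (fun ω => ((P3 ω, (P2 ω, P1 ω)), R ω)) ≤ Real.log 7 := by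
    rw [hP4]
    refine H.dfew hq hqA hj0 hj _ fun ω ω' _ _ e => ?_
    have e1 := Prod.ext_iff.mp e
    have e2 := e1.1
    rw [hP3, hP2, hP1] at e2
    simp only [Prod.mk.injEq] at e2
    obtain ⟨f1, f2, f3, f4, f5⟩ := hRe ω ω' e1.2
    exact ⟨(Prod.ext_iff.mp (H.yn ω ω' f5)).1, e2.2.2, e2.2.1, f1⟩
  linarith

/-- **The records of two hops.** -/
theorem rcs_of (H : WinD F A I κ Wh W a l z' G zL zz y Nl) {q : F.Ω → ℝ} (hq : IsLaw q)
    (hqA : ∀ ω, 0 < q ω → A ω) (hj0 : 0 ≤ Nj) (hj : Nj ≤ Nl) {κz κX κX' eT x₁ x₂ e : ℝ} {M : ℕ}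
    (hM : 2 * M + 1 ≤ 2 ^ (J - W))
    (hT : J * Real.log 2 - eT ≤ CH q F.T (fun ω => (F.l ω, F.Z ω)))
    (kz : CH q (fun ω => z' (slam F Wh ω)) zz ≤ κz)
    (kX : CH q (fun ω => XL (slam F W ω)) (fun ω => (X ω, (zz ω, y ω))) ≤ κX)
    (kX' : CH q X (fun ω => (Cc F I Wh W a l z' zL XL (slam F W ω), F.T ω)) ≤ κX')
    (h1 : CH q (oc F κ Wh z' G Nl) (fun ω => (oc F κ Wh z' G Nj ω, (zz ω, y ω))) ≤ x₁)
    (h2 : x₂ ≤ CH q (oc F κ Wh z' G Nl)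
      (fun ω => (oc F κ Wh z' G Nj ω, (zj ω, (X ω, (zz ω, y ω))))))
    (he0 : eT + Real.log 5 ≤ e)
    (he : (x₁ - x₂) + (κz + κX + κX' + eT) + (2 * m + 6) * Real.log 9 ≤ e) :
    Recs q M e (slam F W) (tI F W M) (Gg F I κ Wh W a l ⌊Nj * J⌋₊ z' zL zj XL)
      (Gg F I κ Wh W a l ⌊Nj * J⌋₊ z' zL zj XL) (Cc F I Wh W a l z' zL XL)
      (dg F ⌊Nl * J⌋₊ κ) (dg F ⌊Nj * J⌋₊ κ) (dg F ⌊Nj * J⌋₊ κ) := by
  have h0 := hq.nonneg
  have hl0 : 0 ≤ Nl := hj0.trans hj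
  have l9 : 0 ≤ Real.log 9 := Real.log_nonneg (by norm_num)
  have l79 : Real.log 7 ≤ Real.log 9 := Real.log_le_log (by norm_num) (by norm_num)
  have l59 : Real.log 5 ≤ Real.log 9 := Real.log_le_log (by norm_num) (by norm_num)
  have hm0 : (0 : ℝ) ≤ m := Nat.cast_nonneg m
  have key : CH q (fun ω => dg F ⌊Nl * J⌋₊ κ (slam F W ω))
      (fun ω => (dg F ⌊Nj * J⌋₊ κ (slam F W ω), Cc F I Wh W a l z' zL XL (slam F W ω))) - e ≤
      CH q (fun ω => dg F ⌊Nl * J⌋₊ κ (slam F W ω))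
        (Gg F I κ Wh W a l ⌊Nj * J⌋₊ z' zL zj XL) := by
    obtain ⟨D, hD⟩ : ∃ D : F.Ω → ℤ, D = fun ω => dg F ⌊Nl * J⌋₊ κ (slam F W ω) := ⟨_, rfl⟩
    obtain ⟨N, hN⟩ : ∃ N : F.Ω → ℤ, N = fun ω => dg F ⌊Nj * J⌋₊ κ (slam F W ω) := ⟨_, rfl⟩
    obtain ⟨C, hC⟩ : ∃ C : F.Ω → Vz × V × (Fin m → ℤ × ℤ) × 𝒳' × ℕ, C = fun ω =>
      Cc F I Wh W a l z' zL XL (slam F W ω) := ⟨_, rfl⟩
    have hk5 := ch_drop h0 (slam F W) D N C F.T (fun ω ω' _ _ e => by rw [hD]; simp only [e])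
      (fun ω ω' _ _ e => by rw [hN]; simp only [e]) (fun ω ω' _ _ e => by rw [hC]; simp only [e])
      (T_upper hq H.hW C (fun ω ω' _ _ e => by
        rw [hC] at e
        unfold Cc at e
        simp only [Prod.mk.injEq] at e
        exact e.2.2.2.2)) (T_full hq H.hW hT)
    have k1 : CH q D (fun ω => (oc F κ Wh z' G Nl ω, (N ω, (C ω, F.T ω)))) ≤ Real.log 7 := by
      rw [hD]
      refine H.dfew hq hqA hl0 le_rfl _ fun ω ω' _ _ e => ?_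
      simp only [Prod.mk.injEq] at e
      obtain ⟨f1, f2, f3, f4⟩ := e
      rw [hC] at f3
      have f5 := H.ct f3 f4
      simp only [Prod.mk.injEq] at f5
      exact ⟨f5.1, f5.2.1, f5.2.2, f1⟩
    have k3 : CH q (oc F κ Wh z' G Nl) (fun ω => (D ω,
        Gg F I κ Wh W a l ⌊Nj * J⌋₊ z' zL zj XL ω)) ≤ Real.log 9 := by
      refine H.ofew (XL := XL) hq hqA le_rfl _ fun ω ω' _ _ e => ?_
      obtain ⟨f1, f2⟩ := Prod.ext_iff.mp e
      simp only at f1 f2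
      rw [hD] at f1
      unfold Gg at f2
      simp only [Prod.mk.injEq] at f2
      exact ⟨f2.1, f2.2.2.2, f1⟩
    have k4 := H.gfew (zj := zj) hq hqA hj0 hj kz kX
    have k2 : CH q (fun ω => (oc F κ Wh z' G Nj ω, (X ω, (zz ω, y ω))))
        (fun ω => (N ω, (C ω, F.T ω))) ≤ Real.log 9 + κX' + m * Real.log 7 := by
      have c1 := CH_chain h0 (oc F κ Wh z' G Nj) (fun ω => (X ω, (zz ω, y ω)))
        (fun ω => (N ω, (C ω, F.T ω)))
      have c2 := CH_chain h0 X (fun ω => (zz ω, y ω)) (fun ω => (N ω, (C ω, F.T ω)))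
      have c3 := CH_chain h0 zz y (fun ω => (N ω, (C ω, F.T ω)))
      have d1 : CH q (oc F κ Wh z' G Nj) (fun ω => ((X ω, (zz ω, y ω)),
          (N ω, (C ω, F.T ω)))) ≤ Real.log 9 := by
        refine H.ofew (XL := XL) hq hqA hj _ fun ω ω' _ _ e => ?_
        simp only [Prod.mk.injEq] at e
        rw [hC, hN] at e
        exact ⟨e.2.2.1, e.2.2.2, e.2.1⟩
      have d2 : CH q X (fun ω => ((zz ω, y ω), (N ω, (C ω, F.T ω)))) ≤ κX' := by
        refine le_trans (CH_mono_cond h0 fun ω ω' _ _ e => ?_) kX'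
        simp only [Prod.mk.injEq] at e ⊢
        rw [hC] at e
        exact ⟨e.2.2.1, e.2.2.2⟩
      have d3 : CH q zz (fun ω => (y ω, (N ω, (C ω, F.T ω)))) ≤ 0 := by
        refine le_of_eq (CH_eq_zero h0 fun ω ω' hω hω' e => ?_)
        simp only [Prod.mk.injEq] at e
        rw [H.zl ω (hqA ω hω), H.zl ω' (hqA ω' hω')]
        have f3 := e.2.2.1
        rw [hC] at f3
        unfold Cc at f3
        simp only [Prod.mk.injEq] at f3
        exact f3.1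
      have d4 : CH q y (fun ω => (N ω, (C ω, F.T ω))) ≤ m * Real.log 7 := by
        have : CH q y (fun ω => (N ω, (C ω, F.T ω))) ≤
            CH q (yI I a l F) (fun ω => (N ω, (C ω, F.T ω))) :=
          CH_mono_left h0 fun ω ω' _ _ e => H.yk ω ω' (Prod.ext_iff.mp e).1
        refine this.trans (yI_few hq I H.hW H.ha _ fun ω ω' _ _ e => ?_)
        simp only [Prod.mk.injEq] at e
        have f3 := e.2.1
        rw [hC] at f3
        unfold Cc at f3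
        simp only [Prod.mk.injEq] at f3
        exact ⟨e.2.2, f3.2.2.1⟩
      linarith
    have h1' : CH q (oc F κ Wh z' G Nl) (fun ω => (oc F κ Wh z' G Nj ω,
        (X ω, (zz ω, y ω)))) ≤ x₁ := by
      refine le_trans (CH_mono_cond h0 fun ω ω' _ _ e => ?_) h1
      simp only [Prod.mk.injEq] at e ⊢
      exact ⟨e.1, e.2.2.1, e.2.2.2⟩
    have fin := ipr_law h0 D N C F.T (oc F κ Wh z' G Nl) (oc F κ Wh z' G Nj) zj
      (fun ω => (X ω, (zz ω, y ω))) (Gg F I κ Wh W a l ⌊Nj * J⌋₊ z' zL zj XL) h1' h2 k1 k2 k3 k4 hk5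
    have e1 : (fun ω => (dg F ⌊Nj * J⌋₊ κ (slam F W ω), Cc F I Wh W a l z' zL XL (slam F W ω))) =
        fun ω => (N ω, C ω) := by rw [hN, hC]
    have e2 : (fun ω => dg F ⌊Nl * J⌋₊ κ (slam F W ω)) = D := by rw [hD]
    rw [e1, e2]
    nlinarith [mul_le_mul_of_nonneg_left l79 hm0]
  refine ⟨fun ω _ => tI_le F W M ω, fun ω ω' _ _ e => ?_, fun ω ω' _ _ e => ?_,
    fun ω ω' _ _ e => ?_, ?_, key, key⟩
  · unfold Gg at e
    simp only [Prod.mk.injEq] at e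
    exact ⟨e.1, e.2.1⟩
  · unfold Gg at e
    simp only [Prod.mk.injEq] at e
    exact ⟨e.1, e.2.1⟩
  · exact dg_mono F (Nat.floor_le_floor (mul_le_mul_of_nonneg_right hj (Nat.cast_nonneg J))) κ e
  · have := time_full hq H.hW hM hT
    linarith

end

end Pool.PRC54
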