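import Pool.Agent.H54.PRC.Jp
import Pool.Agent.H54.PRC.Lv

/-!
# One place over a full base

`UrI`: the data of one place over a base which is full behind one level (no chain). `rel_ur`: the own
velocities of the place are a relative family over any quantity, if the context knows the base to
`p₀ J` digits (positions) and to `lam J` digits (directions).
-/

set_option autoImplicit false

namespace Pool.PRC54

open Finset Real MvPolynomial
open Pool.Agent.H49.Ent Pool.Agent.H32.Dense Pool.STK Pool.KA Pool.KSAT Pool.K2S Pool.PB Pool.GEN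
open Pool.S6C Pool.RCD Pool.LA91
open Pool.OWN83 Pool.AVG96

variable {m : ℕ}

/-- **The own velocity of the place** `k` over the labels of the index `w`, to the natural digits of
the index `o`. -/
noncomputable def famU (m : ℕ) (I : Finset (Fin m)) (k : Fin m) (wh sc : ℚ → ℝ) (w o : ℚ) :
    Qt m ℤ := qJet m I k 1 (wh w) (sc w) (sc o - wh o)

variable {α γ : ∀ J : ℕ, Fam m J → Type}

/-- **The data of one place** `k` over a base `I` which is full behind `u w` digits. -/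
structure UrI (S : PCl m) (f : ∀ (J : ℕ) (F : Fam m J), F.Ω → α J F)
    (y : ∀ (J : ℕ) (F : Fam m J), F.Ω → γ J F) (I : Finset (Fin m)) (k : Fin m)
    (s A B p₀ lam : ℝ) (wh sc u : ℚ → ℝ) : Prop where
  ne : S.Ne
  pos : ∀ (τ : ℝ) (J : ℕ) (F : Fam m J) (A : F.Ω → Prop), S.St τ J F A → 0 < Pe F.p A
  tm : ∃ C₀, TmC S C₀
  rn : ∀ w : ℚ, A < w → (w : ℝ) < B → ∃ η, RNum S f (vg ((w : ℝ) + s)) η
  ful : ∀ w : ℚ, A < w → (w : ℝ) < B → ∀ x : ℝ, u w < x → x < 1 → Ful S I (wh w) x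
  att : ∀ w : ℚ, A < w → (w : ℝ) < B → ∃ rk : ℝ, 0 ≤ rk ∧ Att S I k (wh w) (sc w) rk
  pt : ∀ (J : ℕ) (F : Fam m J), ∃ φ : α J F → PtT F, ∀ ω, ptr F J ω = φ (f J F ω)
  kn : Kn I p₀ lam y
  wm : ∀ v o : ℚ, A < v → v ≤ o → (o : ℝ) < B → wh v ≤ wh o
  wl : ∀ v : ℚ, A < v → (v : ℝ) < B → 0 ≤ wh v ∧ wh v ≤ v + s
  ul : ∀ v : ℚ, A < v → (v : ℝ) < B → wh v ≤ u v ∧ u v < 1 ∧ u v < p₀
  mono : ∀ v o : ℚ, A < v → v ≤ o → (o : ℝ) < B → sc v - wh v ≤ sc o - wh o
  B1 : B + s ≤ 1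
  num : ∃ σ₀ : ℝ, 0 < σ₀ ∧ ∀ w v o : ℚ, A < w → w ≤ v → v ≤ o → (o : ℝ) < B →
    sc o - wh o + u v + σ₀ ≤ sc w + min lam (p₀ - u v)

section

variable {U₀ : Type} {f : ∀ (J : ℕ) (F : Fam m J), F.Ω → α J F}
  {y : ∀ (J : ℕ) (F : Fam m J), F.Ω → γ J F} {S : PCl m} {I : Finset (Fin m)} {k : Fin m}
  {s A B p₀ lam : ℝ} {wh sc u : ℚ → ℝ}

theorem UrI.sub (h : UrI S f y I k s A B p₀ lam wh sc u) {S' : PCl m} (hne : S'.Ne)
    (hs : ∀ (τ : ℝ) (J : ℕ) (F : Fam m J) (A : F.Ω → Prop), S'.St τ J F A → S.St τ J F A) :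
    UrI S' f y I k s A B p₀ lam wh sc u where
  ne := hne
  pos := fun τ J F A hA => h.pos τ J F A (hs τ J F A hA)
  tm := by
    obtain ⟨C₀, hC⟩ := h.tm
    exact ⟨C₀, fun τ J F A hτ hA => hC τ J F A hτ (hs τ J F A hA)⟩
  rn := fun w a b => by
    obtain ⟨η, hη⟩ := h.rn w a b
    exact ⟨η, hη.sub hs⟩
  ful := fun w a b x c d => (h.ful w a b x c d).sub hs
  att := fun w a b => by
    obtain ⟨rk, h1, h2⟩ := h.att w a b
    exact ⟨rk, h1, h2.sub hs⟩
  pt := h.pt
  kn := h.kn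
  wm := h.wm
  wl := h.wl
  ul := h.ul
  mono := h.mono
  B1 := h.B1
  num := h.num

theorem UrI.mono' (h : UrI S f y I k s A B p₀ lam wh sc u) {v o : ℚ} (hv : A < v) (hvo : v ≤ o)
    (ho : (o : ℝ) < B) : sc v ≤ sc o := by
  have h2 := h.mono v o hv hvo ho
  have h3 := h.wm v o hv hvo ho
  linarith

/-- From the record at the window of the charts to the record of the index. -/
theorem UrI.up {U U' : Type} (h : UrI S f y I k s A B p₀ lam wh sc u) {v o : ℚ} (hv : A < v)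
    (hvo : v ≤ o) (ho : (o : ℝ) < B) {Q : Qt m U} {Q' : Qt m U'}
    (hf : Few S f (vg (wh v)) y Q Q') : Few S f (vg ((o : ℝ) + s)) y Q Q' := by
  have h1 := (h.wl v hv (lt_of_le_of_lt (by exact_mod_cast hvo) ho)).2
  have h2 : (v : ℝ) ≤ o := by exact_mod_cast hvo
  have h3 := h.B1
  exact Few.up h.pos (fun J F => ⟨fun x => x, fun _ => rfl⟩)
    (fun J F => vg_mono (by linarith) (by linarith) J F)
    (fun J F => ⟨fun x => x, fun _ => rfl⟩) hf

/-- **Change of the labels** at the window of the charts of `v`. -/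
theorem UrI.jet (h : UrI S f y I k s A B p₀ lam wh sc u) {w w' v : ℚ} (hw : A < w)
    (hw' : A < w') (hvB : (v : ℝ) < B) (hwv : w ≤ v) (hwv' : w' ≤ v) {N₁ N₂ : ℝ}
    (hN : N₂ ≤ N₁) (h3 : N₂ + u v < min (sc w) (sc w') + min lam (p₀ - u v)) :
    Few S f (vg (wh v)) y (qJet m I k 1 (wh w) (sc w) N₁) (qJet m I k 1 (wh w') (sc w') N₂) := by
  obtain ⟨C₀, htm⟩ := h.tm
  have hv : A < v := hw.trans_le (by exact_mod_cast hwv)
  obtain ⟨u1, u2, u3⟩ := h.ul v hv hvB
  obtain ⟨v1, v2⟩ := h.wl v hv hvB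
  have hB1 := h.B1
  exact few_jetp htm (h.wm w v hw hwv hvB) (h.wm w' v hw' hwv' hvB) (by linarith) u1
    (by linarith) u3 u2 (h.ful v hv hvB) h.pt h.kn hN (by push_cast; linarith)

/-- **The own velocities of the place** are a relative family over any quantity. -/
theorem rel_ur (h : UrI S f y I k s A B p₀ lam wh sc u) {Q₀ : Qt m U₀} (hQ : Exs S Q₀)
    (hQt : ∀ v : ℚ, A < v → (v : ℝ) < B → Few S f (vg ((v : ℝ) + s)) y Q₀ Q₀) :
    TwoRelS S f y s (fun _ => Q₀) (famU m I k wh sc) A B (B - A) := by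
  obtain ⟨σ₀, hσ, hT⟩ := h.num
  refine
    { exs₀ := fun w b d => hQ
      exs := fun w o b d e g => by
        obtain ⟨rk, r1, r2⟩ := h.att w b (lt_of_le_of_lt (by exact_mod_cast d) e)
        exact exs_jet r1 r2
      tr := fun w v b d e g => hQt v (lt_of_lt_of_le b (by exact_mod_cast d)) e
      row := fun w v o b d e g g' => ?_
      chg := fun w v o b d e g g' => ?_
      own := fun w v b d e g => ?_ }
  · have d' : (w : ℝ) ≤ v := by exact_mod_cast d
    have e' : (v : ℝ) ≤ o := by exact_mod_cast e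
    refine h.up b le_rfl (by linarith) (few_lmap h.pos Prod.snd
      (fun K e J F A u hu => hu.2) (h.jet b b (by linarith) le_rfl le_rfl ?_ ?_))
    · exact h.mono v o (by linarith) e g
    · rw [min_self]
      have e1 := hT w w v b le_rfl d (by linarith)
      linarith
  · have d' : (w : ℝ) ≤ v := by exact_mod_cast d
    have e' : (v : ℝ) ≤ o := by exact_mod_cast e
    refine h.up (by linarith) le_rfl (by linarith) (few_lmap h.pos Prod.snd
      (fun K e J F A u hu => hu.2) (h.jet b (by linarith) (by linarith) d le_rfl le_rfl ?_))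
    rw [min_eq_left (h.mono' b d (by linarith))]
    have e1 := hT w v o b d e g
    linarith
  · have d' : (w : ℝ) ≤ v := by exact_mod_cast d
    have b' : A < v := by linarith
    obtain ⟨C₀, htm⟩ := h.tm
    obtain ⟨w1, w2⟩ := h.wl v b' e
    obtain ⟨u1, u2, u3⟩ := h.ul v b' e
    have k1 : Few S f (vg (wh v)) y Q₀ (famU m I k wh sc v v) :=
      Few0.few h.pos (few0_jet htm w1 (by linarith) (by push_cast; linarith) _ _ _)
    obtain ⟨rk, r1, r2⟩ := h.att v b' e
    refine h.up b' le_rfl e (few_cut h.pos (exs_jet r1 r2) k1 ?_)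
    refine few_lmap h.pos Prod.snd (fun K e J F A u hu => hu.2)
      (h.jet b' b e le_rfl d le_rfl ?_)
    rw [min_eq_right (h.mono' b d e)]
    have e1 := hT w v v b d le_rfl e
    linarith

end

end Pool.PRC54
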