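import Pool.Agent.H54.PRC.Urb
import Pool.Agent.H60.ALT.Lin
import Pool.Agent.H91.FR.QpG
import Pool.Agent.H3.V0F.Attu

/-!
# The data of one place over the base at the good windows

`gs_ful`: the first coordinates are full behind their largest level. `uri_of`: the data `UrI` on a
small interval about almost every window.
-/

set_option autoImplicit false

namespace Pool.PRC54

open Finset Real MvPolynomial
open Pool.Agent.H49.Ent Pool.Agent.H32.Dense Pool.STK Pool.KA Pool.KSAT Pool.K2S Pool.PB Pool.GEN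
open Pool.S6C Pool.RCD Pool.LA91 Pool.PKG Pool.CHT Pool.GRW Pool.OWN68
open Pool.OWN83 Pool.AVG96
open Pool.TOP (TopS)

section

variable {n : ℕ} {hn : 2 ≤ n} {S : PCl n} {P : ℝ → ℝ → ℝ} {rr : ℝ → ℝ}
  {P' : ℕ → List (Fin n) × Fin n → ℝ → ℝ → ℝ} {Λ : Finset (Fin n) → Fin n → ℝ → ℝ → ℝ}

/-- **The first coordinates are full** behind their largest level. -/
theorem gs_ful (H : Pk hn S P rr P' Λ) (hTop : TopS n) (hF : FZX (n - 1)) {o : Od n} {w : ℝ}
    (hw : w ∈ Gs P rr P' Λ o) {i : ℕ} (h1 : 1 ≤ i) (hi : i ≤ n - 1) :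
    (∀ x : ℝ, LvL hn P P' o (i - 1) w w ≤ x → Ful S ((range i).image (cc hn o.1.1)) w x) ∧
      w ≤ LvL hn P P' o (i - 1) w w ∧ LvL hn P P' o (i - 1) w w < 1 := by
  obtain ⟨u₁, rd, -, hch⟩ := gs_chn H hTop hF hw (i := n - 1) le_rfl
  obtain ⟨α, Q, c, F⟩ := H.fac hTop hF hw
  have hw0 := F.g0
  have hw1 := F.g1
  have hex := Pool.OWN72.gs_exa H hF hw
  have h2 := gs_lvl H hTop hF hw (l := i - 1) (by omega)
  have e1 : LvL hn P P' o (i - 1) w w = vs Λ (Pool.OWN72.epo hn o) w i := by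
    rw [h2]
    congr 1
    omega
  refine ⟨fun x hx => ?_, ?_, (hch.s0 (i - 1) (Nat.zero_le _) (by omega)).2⟩
  · rw [e1] at hx
    exact Pool.JMP45.ful_of H.tmc H.lam (Pool.OWN72.cc_epo (hn := hn) o) hw.1.1 hex hi hx
  · rw [e1]
    exact le_vs H.lam _ hw1.le _

/-- The levels of the diagonals grow at least with slope one between good windows. -/
theorem gs_slp {PB : ℕ → List (Fin n) × Fin n → ℝ → ℝ → ℝ} (H : PkT hn S P rr P' Λ PB)
    (hTop : TopS n) (hF : FZX (n - 1)) {o : Od n} {w v : ℝ}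
    (hw : w ∈ Gs P rr P' Λ o) (hv : v ∈ Gs P rr P' Λ o) (hwv : w ≤ v) {i : ℕ} (hi : i < n - 1) :
    LvL hn P P' o i w w - w ≤ LvL hn P P' o i v v - v := by
  obtain ⟨u₁, rd, -, hch⟩ := gs_chn H.toPk hTop hF hv (i := n - 1) le_rfl
  obtain ⟨α, Q, c, F⟩ := H.toPk.fac hTop hF hw
  obtain ⟨α', Q', c', F'⟩ := H.toPk.fac hTop hF hv
  have hw0 := F.g0
  have hw1 := F.g1
  have hv1 := F'.g1
  have hl := H.lawL o i
  have h1 := hl.slope w w (v - w) hw0.le le_rfl (by linarith) (by linarith)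
  have e : w + (v - w) = v := by ring
  rw [e] at h1
  have h2 := hl.mono_w v w v hw0.le hwv le_rfl hv1.le
  have h3 : LvL hn P P' o i v v < 1 := (hch.s0 i (Nat.zero_le _) hi).2
  rcases min_choice 1 (LvL hn P P' o i w w + (v - w)) with h4 | h4
  · rw [h4] at h1
    linarith
  · rw [h4] at h1
    linarith

end

end Pool.PRC54
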