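import Pool.Agent.H54.PRC.Ura
import Pool.Agent.H54.PRC.Urc

/-!
# The rate of the own velocity as a property of the windows

`UrQ`: the property of a window, for the joints of the class theorems; `aePG_ur`: it holds at almost
every window, in a subclass.
-/

set_option autoImplicit false

namespace Pool.PRC54

open Finset Real MvPolynomial
open Pool.Agent.H49.Ent Pool.Agent.H32.Dense Pool.STK Pool.KA Pool.KSAT Pool.K2S Pool.PB Pool.GEN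
open Pool.S6C Pool.RCD Pool.LA91 Pool.PKG Pool.CHT Pool.GRW
open Pool.OWN83 Pool.AVG96
open Pool.TOP (TopS)

/-- The parameters: the place of the target; the digits of the positions and of the directions of the
base; the error. -/
abbrev UrI' : Type := ℕ × (ℚ × ℚ) × ℚ

/-- The windows of the labels. -/
noncomputable def whG (G : Set ℝ) (q : ℚ) : ℝ := fl G 0 q

/-- The precisions of the labels. -/
noncomputable def scG (G : Set ℝ) (L : ℝ → ℝ → ℝ) (q : ℚ) : ℝ := L (fl G 0 q) (fl G 0 q)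

/-- **The rate of the own velocity** of the place `p.1` over the places before it, at a window `x`. -/
structure UrQ {n : ℕ} (p : UrI') (k₀ : ℕ) (S : PCl n)
    (P : List (Fin n) × Fin n → ℝ → ℝ → ℝ) (θ : ℝ) (c : ℕ → Fin n) (Pt : ℝ → ℝ → ℝ)
    (r : ℝ → ℝ) (L T : ℕ → ℝ → ℝ → ℝ) (κ : ℕ → Kg) (G : Set ℝ) (x : ℝ) : Prop where
  /-- The numbers of the records exist. -/
  rn : ∃ η : ℚ → ℝ, ∀ w : ℚ, RNum S (fun J F => ptr F J) (vg (w : ℝ)) (η w)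
  /-- The chains at the windows of `G`. -/
  ch : ∀ d < n, ChG S c d (fun l w => L l w w) G
  gap : GapAt G x
  rate : 1 ≤ p.1 → p.1 + 1 < n → 2 * L (p.1 - 1) x x - x < p.2.1.1 →
    L (p.1 - 1) x x - x < p.2.1.2 → 0 < p.2.2 → ∃ φ : ℝ, 0 ≤ φ ∧ ∀ k ≥ k₀,
      UrAt S ((range p.1).image c) (c p.1) p.2.1.1 p.2.1.2 (whG G) (scG G (L p.1)) φ p.2.2 x
        ((1 / 2) ^ k)

/-- The property passes to subclasses. -/
theorem UrQ.sub {n : ℕ} {p : UrI'} {k₀ : ℕ} {S S' : PCl n}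
    {P : List (Fin n) × Fin n → ℝ → ℝ → ℝ} {θ : ℝ} {c : ℕ → Fin n} {Pt : ℝ → ℝ → ℝ}
    {r : ℝ → ℝ} {L T : ℕ → ℝ → ℝ → ℝ} {κ : ℕ → Kg} {G : Set ℝ} {x : ℝ}
    (hs : ∀ (τ : ℝ) (J : ℕ) (F : Fam n J) (A : F.Ω → Prop), S'.St τ J F A → S.St τ J F A)
    (h : UrQ p k₀ S P θ c Pt r L T κ G x) : UrQ p k₀ S' P θ c Pt r L T κ G x where
  rn := by
    obtain ⟨η, hη⟩ := h.rn
    exact ⟨η, fun w => (hη w).sub hs⟩
  ch := fun d hd => (h.ch d hd).sub hs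
  gap := h.gap
  rate := fun e1 e2 e3 e4 e5 => by
    obtain ⟨φ, h1, h2⟩ := h.rate e1 e2 e3 e4 e5
    exact ⟨φ, h1, fun k hk => (h2 k hk).sub hs⟩

theorem her_ur (n : ℕ) : HerQ (UrQ : PropG n UrI') :=
  fun _ _ _ _ _ _ _ _ _ _ _ _ _ _ hs h => h.sub hs

/-- **The rate of the own velocity** at almost every window, in a subclass. -/
theorem aePG_ur (n : ℕ) : AePG n (UrQ : PropG n UrI') := by
  intro hn S P r P' Λ PB PQ H hTop hF o G hG hGs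
  obtain ⟨al, g₀, s, d', e', K₁, N₁, hal, hg₀, hC⟩ := H.cl
  have htm : TmC S 6 := Pool.GEN.N83.clx_tmc hC
  have hM : Bas S (fun J F A => (cnt F.p (ptr F J) A : ℝ) ≤ Real.exp ((4 * n + 1) * J)) :=
    Bas.mono 0 hC.cnt fun J _ F A h => h J le_rfl
  have hW : ∀ d < n, ChG S (cc hn o.1.1) d (fun l w => LvL hn P P' o l w w) G :=
    fun d hd => gs_chG H.toPk hTop hF hGs (by omega)
  obtain ⟨S₁, a1, a2, η, hη⟩ := rnum_ptr hC.ne hC.pos hM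
  have hpos₁ : ∀ (τ : ℝ) (J : ℕ) (F : Fam n J) (A : F.Ω → Prop), S₁.St τ J F A → 0 < Pe F.p A :=
    fun τ J F A h => hC.pos τ J F A (a2 τ J F A h)
  have htm₁ : TmC S₁ 6 := fun τ J F A hτ h => htm τ J F A hτ (a2 τ J F A h)
  obtain ⟨S₂, b1, b2, b3⟩ := ur_cls (ι := ℕ × ℚ × ℚ) a1 hpos₁
    (fun i => (range i.1).image (cc hn o.1.1)) (fun i => cc hn o.1.1 i.1)
    (fun i => i.2.1) (fun i => i.2.2) (fun _ => whG G)
    (fun i => scG G (LvL hn P P' o i.1))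
    (fun i => scG G (LvL hn P P' o (i.1 - 1)))
  refine ⟨S₂, b1, fun τ J F A h => a2 τ J F A (b2 τ J F A h), ?_⟩
  filter_upwards [b3, H.toPkT.dia_all H.pble hTop hF, gap_ae hG] with g h1 hdia hgap hg κ hκ p
  have ho := hGs hg
  obtain ⟨α, Q, c', F⟩ := H.toPk.fac hTop hF ho
  have hrn : ∃ η : ℚ → ℝ, ∀ w : ℚ, RNum S₂ (fun J F => ptr F J) (vg (w : ℝ)) (η w) :=
    ⟨η, fun w => (hη w).sub b2⟩
  have hch : ∀ d < n, ChG S₂ (cc hn o.1.1) d (fun l w => LvL hn P P' o l w w) G :=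
    fun d hd => ((hW d hd).sub a2).sub b2
  have key : 1 ≤ p.1 → p.1 + 1 < n → 2 * LvL hn P P' o (p.1 - 1) g g - g < p.2.1.1 →
      LvL hn P P' o (p.1 - 1) g g - g < p.2.1.2 → 0 < p.2.2 → ∃ k₀ : ℕ, ∃ φ : ℝ, 0 ≤ φ ∧
      ∀ k ≥ k₀, UrAt S₂ ((range p.1).image (cc hn o.1.1)) (cc hn o.1.1 p.1) p.2.1.1 p.2.1.2
        (whG G) (scG G (LvL hn P P' o p.1)) φ p.2.2 g ((1 / 2) ^ k) := by
    intro e1 e2 e3 e4 e5
    have hU : UrG S₁ ((range p.1).image (cc hn o.1.1)) (cc hn o.1.1 p.1) G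
        (fun w => LvL hn P P' o p.1 w w) (fun w => LvL hn P P' o (p.1 - 1) w w) := by
      refine UrG.sub a2 ⟨fun w hw => (hGs hw).1.1.1.le, fun w hw x hx => ?_, fun w hw => ?_,
        fun w hw => ?_, fun v hv w hw hvw => ?_⟩
      · exact (gs_ful H.toPk hTop hF (hGs hw) e1 (by omega)).1 x hx
      · obtain ⟨u₁, rd, k1, k2⟩ := gs_chn H.toPk hTop hF (hGs hw) (i := p.1 + 1) (by omega)
        exact ⟨rd p.1, k1 _ (Nat.lt_succ_self _), k2.att p.1 (Nat.zero_le _) (Nat.lt_succ_self _)⟩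
      · exact (gs_ful H.toPk hTop hF (hGs hw) e1 (by omega)).2
      · exact gs_slp H.toPkT hTop hF (hGs hv) (hGs hw) hvw (by omega)
    obtain ⟨A, B, hA, hB, hU⟩ := uri_near a1 hpos₁ htm₁ hη hU hG F.g1 (hgap hg)
      (hdia o ho p.1 (by omega)).1.continuousAt
      (hdia o ho (p.1 - 1) (by omega)).1.continuousAt e3 e4
    obtain ⟨φ, hφ, h2⟩ := h1 (p.1, p.2.1) A B hA hB hU
    obtain ⟨r₀, hr₀, h3⟩ := h2 p.2.2 (by exact_mod_cast e5)
    obtain ⟨k₀, hk₀⟩ := exists_pow_lt_of_lt_one hr₀ (show (1 / 2 : ℝ) < 1 by norm_num)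
    refine ⟨k₀, φ, hφ, fun k hk => h3 _ (by positivity) ?_⟩
    exact lt_of_le_of_lt (pow_le_pow_of_le_one (by norm_num) (by norm_num) hk) hk₀
  by_cases hall : 1 ≤ p.1 ∧ p.1 + 1 < n ∧ 2 * LvL hn P P' o (p.1 - 1) g g - g < p.2.1.1 ∧
      LvL hn P P' o (p.1 - 1) g g - g < p.2.1.2 ∧ 0 < p.2.2
  · obtain ⟨k₀, φ, hφ, h2⟩ := key hall.1 hall.2.1 hall.2.2.1 hall.2.2.2.1 hall.2.2.2.2
    exact ⟨k₀, hrn, hch, hgap hg, fun _ _ _ _ _ => ⟨φ, hφ, h2⟩⟩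
  · exact ⟨0, hrn, hch, hgap hg, fun e1 e2 e3 e4 e5 => absurd ⟨e1, e2, e3, e4, e5⟩ hall⟩

end Pool.PRC54
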