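import Pool.Agent.H54.PRC.Nfl
import Pool.Agent.H54.PRC.Alv

/-!
# One window, one law

`WinG`: the geometry of one window `W` with the ball `j`. `RowH`: the row of the own height. `win_law`:
the slope path of the line has a small velocity off a small mass.
-/

set_option autoImplicit false

namespace Pool.PRC54

open Finset Real MvPolynomial
open Pool.Agent.H49.Ent Pool.Agent.H32.Dense Pool.STK Pool.KA Pool.KSAT Pool.K2S Pool.PB Pool.S6C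
open Pool.GEN Pool.CHT Pool.CHX Pool.ISO Pool.D2R Pool.PRQ76 Pool.LA91 Pool.PR46
open Pool.OWN68 (CH_pair)
open Pool.AVG5 (fl_mul of_fl CH_near)
open Pool.BFL (Pb)
open Pool.MIC (mi_event CH_ev_le isLaw_ev ev_pos)
open Pool.PB.Trl (rt rt_mem t_rt)

variable {m J : ℕ}

/-! ### Small lemmas -/

/-- The row at `k` from the row at `k' ≤ k`. -/
theorem nf_down {Ω β : Type} [Fintype Ω] {p : Ω → ℝ} (hp : IsLaw p) (nn uu : Ω → ℤ) (R : Ω → β)
    {k k' : ℕ} (hk : k' ≤ k) :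
    CH p nn (fun ω => ((nn ω / 2 ^ k, uu ω), R ω)) ≤
      CH p nn (fun ω => ((nn ω / 2 ^ k', uu ω), R ω)) + ((k : ℝ) - k') * Real.log 2 := by
  have h0 := hp.nonneg
  have c1 := CH_le_add h0 nn (fun ω => nn ω / 2 ^ k') (fun ω => ((nn ω / 2 ^ k, uu ω), R ω))
  have c2 : CH p nn (fun ω => (nn ω / 2 ^ k', ((nn ω / 2 ^ k, uu ω), R ω))) ≤
      CH p nn (fun ω => ((nn ω / 2 ^ k', uu ω), R ω)) :=
    CH_mono_cond h0 fun ω ω' _ _ e => by
      simp only [Prod.mk.injEq] at e ⊢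
      exact ⟨⟨e.1, e.2.1.2⟩, e.2.2⟩
  have c3 : CH p (fun ω => nn ω / 2 ^ k') (fun ω => ((nn ω / 2 ^ k, uu ω), R ω)) ≤
      ((k : ℝ) - k') * Real.log 2 := by
    have h1 := CH_le_card h0 hp.sum_one (fun ω => nn ω / 2 ^ k')
      (fun ω => ((nn ω / 2 ^ k, uu ω), R ω))
      (fun y => Finset.Ico (y.1.1 * 2 ^ (k - k')) (y.1.1 * 2 ^ (k - k') + 2 ^ (k - k'))) (by
        intro ω _
        rw [Finset.mem_Ico]
        have e1 : nn ω / 2 ^ k = nn ω / 2 ^ k' / 2 ^ (k - k') := by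
          have e0 : (2 : ℤ) ^ k = 2 ^ k' * 2 ^ (k - k') := by
            rw [← pow_add]
            congr 1
            omega
          rw [e0, ← Int.ediv_ediv_of_nonneg (by positivity)]
        rw [e1]
        have hB : (0 : ℤ) < 2 ^ (k - k') := by positivity
        have a1 := Int.mul_ediv_add_emod (nn ω / 2 ^ k') (2 ^ (k - k'))
        have a3 := Int.emod_nonneg (nn ω / 2 ^ k') hB.ne'
        have a4 := Int.emod_lt_of_pos (nn ω / 2 ^ k') hB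
        constructor
        · linarith
        · linarith)
    refine h1.trans (le_of_eq ?_)
    have e2 : ∀ y : (ℤ × ℤ) × β, (Finset.Ico (y.1.1 * 2 ^ (k - k'))
        (y.1.1 * 2 ^ (k - k') + 2 ^ (k - k'))).card = 2 ^ (k - k') := by
      intro y
      rw [Int.card_Ico]
      have : y.1.1 * 2 ^ (k - k') + 2 ^ (k - k') - y.1.1 * 2 ^ (k - k') =
          ((2 ^ (k - k') : ℕ) : ℤ) := by
        push_cast
        ring
      rw [this, Int.toNat_natCast]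
    have e3 : ∀ ω, Real.log (((fun y : (ℤ × ℤ) × β => Finset.Ico (y.1.1 * 2 ^ (k - k'))
        (y.1.1 * 2 ^ (k - k') + 2 ^ (k - k'))) ((nn ω / 2 ^ k, uu ω), R ω)).card : ℝ) =
        ((k : ℝ) - k') * Real.log 2 := by
      intro ω
      have e4 := e2 ((nn ω / 2 ^ k, uu ω), R ω)
      simp only at e4
      simp only []
      rw [e4]
      push_cast
      rw [Real.log_pow, Nat.cast_sub hk]
    trans Ex p (fun _ => ((k : ℝ) - k') * Real.log 2)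
    · congr 1
      funext ω
      exact e3 ω
    · rw [Ex_const hp.sum_one]
  linarith

/-- The digits of the direction from the digits of the velocity of `u`. -/
theorem dg_of_du {F : Fam m J} {κ : Fin m} {W M pu n' nd β₁ : ℕ} (hM : 1 ≤ M) (hn : n' ≤ nd)
    (hβ : β₁ + W + n' ≤ pu) {q : F.Ω → ℝ} (hq : IsLaw q) {β : Type} (Z : F.Ω → β) :
    CH q (fun ω => dg F n' κ (slam F W ω)) Z ≤
      CH q (fun ω => ⌊dU pu W M nd (dg F nd κ (slam F W ω)) / 2 ^ β₁⌋) Z + Real.log 9 := by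
  have h0 := hq.nonneg
  have c1 := CH_le_add h0 (fun ω => dg F n' κ (slam F W ω))
    (fun ω => ⌊dU pu W M nd (dg F nd κ (slam F W ω)) / 2 ^ β₁⌋) Z
  have c2 : CH q (fun ω => dg F n' κ (slam F W ω))
      (fun ω => (⌊dU pu W M nd (dg F nd κ (slam F W ω)) / 2 ^ β₁⌋, Z ω)) ≤
      Real.log (2 * ((4 : ℕ) : ℝ) + 1) := by
    refine CH_pair hq _ _ fun ω ω' _ _ e => ?_
    have e1 := (Prod.ext_iff.mp e).1
    simp only at e1
    have hMr : (1 : ℝ) ≤ M := by exact_mod_cast hM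
    obtain ⟨D, hD⟩ : ∃ D : ℤ, D = dg F nd κ (slam F W ω) := ⟨_, rfl⟩
    obtain ⟨D', hD'⟩ : ∃ D : ℤ, D = dg F nd κ (slam F W ω') := ⟨_, rfl⟩
    rw [← hD, ← hD'] at e1
    have e2 : ∀ x : ℤ, dU pu W M nd x / 2 ^ β₁ =
        (2 ^ pu * M / ((2 * M + 1) * 2 ^ W * 2 ^ nd) / 2 ^ β₁) * x := by
      intro x
      unfold dU
      ring
    rw [e2, e2] at e1
    have hσ : (0 : ℝ) < 2 ^ pu * M / ((2 * M + 1) * 2 ^ W * 2 ^ nd) / 2 ^ β₁ := by positivity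
    have h1 := of_fl hσ e1
    have h2 : 1 / ((2 : ℝ) ^ pu * M / ((2 * M + 1) * 2 ^ W * 2 ^ nd) / 2 ^ β₁) ≤
        3 * 2 ^ (nd - n') := by
      rw [div_le_iff₀ hσ]
      have e3 : (3 : ℝ) * 2 ^ (nd - n') * (2 ^ pu * M / ((2 * M + 1) * 2 ^ W * 2 ^ nd) / 2 ^ β₁) =
          3 * M / (2 * M + 1) * (2 ^ (nd - n') * 2 ^ pu / (2 ^ W * 2 ^ nd * 2 ^ β₁)) := by
        field_simp
      rw [e3]
      have h3 : (1 : ℝ) ≤ 3 * M / (2 * M + 1) := by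
        rw [le_div_iff₀ (by positivity)]
        linarith
      have h4 : (1 : ℝ) ≤ 2 ^ (nd - n') * 2 ^ pu / (2 ^ W * 2 ^ nd * 2 ^ β₁) := by
        rw [le_div_iff₀ (by positivity), one_mul, ← pow_add, ← pow_add, ← pow_add]
        exact pow_le_pow_right₀ (by norm_num) (by omega)
      calc (1 : ℝ) = 1 * 1 := by norm_num
        _ ≤ _ := mul_le_mul h3 h4 (by norm_num) (by positivity)
    have h5 : |(D : ℝ) - D'| ≤ 3 * 2 ^ (nd - n') := h1.trans h2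
    have h6 := fl_mul (σ := 1 / (2 : ℝ) ^ (nd - n')) (by positivity) h5
    have e4 : ∀ x : ℤ, (1 : ℝ) / 2 ^ (nd - n') * x = (x : ℝ) / 2 ^ (nd - n') := by
      intro x
      ring
    rw [e4, e4, hD, hD', dg_div F hn, dg_div F hn] at h6
    have h7 : (1 : ℝ) / 2 ^ (nd - n') * (3 * 2 ^ (nd - n')) + 1 = 4 := by
      field_simp
      norm_num
    rw [h7] at h6
    have h8 : ((|dg F n' κ (slam F W ω) - dg F n' κ (slam F W ω')| : ℤ) : ℝ) ≤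
        (((4 : ℕ) : ℤ) : ℝ) := by
      push_cast
      exact h6
    exact_mod_cast h8
  have e5 : (2 * ((4 : ℕ) : ℝ) + 1) = 9 := by norm_num
  rw [e5] at c2
  linarith

/-- The derivative of a polynomial which is nearly constant on `[0, 2/3]`. -/
theorem der_of_osc (d : ℕ) : ∃ C : ℝ, 1 ≤ C ∧ ∀ (P : Polynomial ℝ) (b S : ℝ), P.natDegree ≤ d →
    0 ≤ S → (∀ x : ℝ, 0 ≤ x → x ≤ 2 / 3 → |P.eval x - b| ≤ S) → ∀ θ : ℝ, 0 ≤ θ → θ ≤ 1 →
    |P.derivative.eval θ| ≤ C * S := by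
  obtain ⟨C₁, hC₁, huc⟩ := Pool.Agent.H40.FR.unit_coef d
  refine ⟨2 * ((d + 1) * ((d + 1) * C₁ * 2 ^ d)), ?_, ?_⟩
  · have h1 : (1 : ℝ) ≤ d + 1 := by
      have : (0 : ℝ) ≤ d := Nat.cast_nonneg d
      linarith
    have h2 : (1 : ℝ) ≤ 2 ^ d := one_le_pow₀ (by norm_num)
    have h3 : (1 : ℝ) ≤ (d + 1) * ((d + 1) * C₁ * 2 ^ d) :=
      one_le_mul_of_one_le_of_one_le h1 (one_le_mul_of_one_le_of_one_le
        (one_le_mul_of_one_le_of_one_le h1 hC₁) h2)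
    linarith
  · intro P b S hP hS hb θ hθ0 hθ1
    obtain ⟨R, hR⟩ : ∃ R : Polynomial ℝ, R = (P - Polynomial.C b).comp
      (Polynomial.C (2 / 3) * Polynomial.X) := ⟨_, rfl⟩
    have hRd : R.natDegree ≤ d := by
      rw [hR]
      refine Polynomial.natDegree_comp_le.trans ?_
      have h1 : (Polynomial.C (2 / 3 : ℝ) * Polynomial.X).natDegree ≤ 1 :=
        (Polynomial.natDegree_C_mul_le _ _).trans Polynomial.natDegree_X_le
      have h2 : (P - Polynomial.C b).natDegree ≤ d := by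
        refine (Polynomial.natDegree_sub_le _ _).trans (max_le hP ?_)
        rw [Polynomial.natDegree_C]
        exact Nat.zero_le _
      calc _ ≤ (P - Polynomial.C b).natDegree * 1 := Nat.mul_le_mul le_rfl h1
        _ ≤ d := by rw [mul_one]; exact h2
    have hRe : ∀ x, R.eval x = P.eval (2 / 3 * x) - b := by
      intro x
      rw [hR]
      simp only [Polynomial.eval_comp, Polynomial.eval_sub, Polynomial.eval_C,
        Polynomial.eval_mul, Polynomial.eval_X]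
    have hc := huc R S hRd (fun t ht => by
      rw [hRe]
      exact hb _ (by linarith [ht.1]) (by linarith [ht.2]))
    have hder : R.derivative.eval (3 / 2 * θ) = 2 / 3 * P.derivative.eval θ := by
      rw [hR, Polynomial.derivative_comp, Polynomial.eval_mul, Polynomial.eval_comp]
      simp only [Polynomial.derivative_sub, Polynomial.derivative_C, sub_zero,
        Polynomial.derivative_C_mul, Polynomial.derivative_X, mul_one, Polynomial.eval_C,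
        Polynomial.eval_mul, Polynomial.eval_X]
      have : (2 : ℝ) / 3 * (3 / 2 * θ) = θ := by ring
      rw [this]
    have h1 : |R.derivative.eval (3 / 2 * θ)| ≤ (d + 1) * ((d + 1) * C₁ * 2 ^ d) * S := by
      rw [Polynomial.eval_eq_sum_range' (n := d + 1)
        (lt_of_le_of_lt (Polynomial.natDegree_derivative_le R) (by omega))]
      refine (Finset.abs_sum_le_sum_abs _ _).trans ?_
      have h : ∀ i ∈ range (d + 1), |R.derivative.coeff i * (3 / 2 * θ) ^ i| ≤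
          (d + 1) * C₁ * 2 ^ d * S := by
        intro i hi
        rw [mem_range] at hi
        rw [Polynomial.coeff_derivative, abs_mul, abs_mul, abs_pow]
        have h1 : |3 / 2 * θ| ^ i ≤ 2 ^ d := by
          have : |3 / 2 * θ| ≤ 2 := by
            rw [abs_of_nonneg (by positivity)]
            linarith
          calc |3 / 2 * θ| ^ i ≤ 2 ^ i := pow_le_pow_left₀ (abs_nonneg _) this i
            _ ≤ 2 ^ d := pow_le_pow_right₀ (by norm_num) (by omega)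
        have h2 : |(i : ℝ) + 1| ≤ d + 1 := by
          rw [abs_of_nonneg (by positivity)]
          have : (i : ℝ) ≤ d := by exact_mod_cast Nat.lt_succ_iff.mp hi
          linarith
        have h3 := hc (i + 1)
        have h4 : 0 ≤ C₁ * S := by
          have : 0 ≤ C₁ := by linarith
          positivity
        calc |R.coeff (i + 1)| * |(i : ℝ) + 1| * |3 / 2 * θ| ^ i ≤
              C₁ * S * (d + 1) * 2 ^ d := by
              gcongr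
          _ = (d + 1) * C₁ * 2 ^ d * S := by ring
      refine (Finset.sum_le_sum h).trans (le_of_eq ?_)
      rw [Finset.sum_const, card_range, nsmul_eq_mul]
      push_cast
      ring
    rw [hder, abs_mul, abs_of_pos (by norm_num : (0 : ℝ) < 2 / 3)] at h1
    have h2 : 0 ≤ (d + 1) * ((d + 1) * C₁ * 2 ^ d) * S := by
      have : 0 ≤ C₁ := by linarith
      positivity
    linarith


/-! ### One window -/

theorem pb_mono {Ω : Type} [Fintype Ω] {p : Ω → ℝ} (hp : ∀ ω, 0 ≤ p ω) {A B : Ω → Prop}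
    (h : ∀ ω, A ω → B ω) : Pb p A ≤ Pb p B := by
  classical
  unfold Pb
  refine Finset.sum_le_sum fun ω _ => ?_
  by_cases hA : A ω
  · rw [if_pos hA, if_pos (h ω hA)]
  · rw [if_neg hA]
    split_ifs
    · exact hp ω
    · exact le_rfl

/-- **The numbers of one window.** -/
structure WinN (C r J W j a l n x e hi v nj n' nd pu pn β₀ β₁ Q : ℕ) (gw gj : ℕ → ℕ) : Prop where
  Wj : W ≤ j
  hw : ∀ i < r + 2, e + gw i + v + C * (n + 1) ≤ hi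
  hj : ∀ i < r + 2, e + gj i + C * (n + 1) ≤ hi
  hj' : ∀ i < r + 1, e + gj i + v + C * (n + 1) ≤ hi
  sup : e + (Finset.Icc r (r + 1)).sup gj ≤ gj r + v
  ha : hi + 2 ≤ a
  hl : hi + 2 ≤ l
  hpn : pn = gw (r + 1) + Q
  pnj : pn + (j - W) + (C * (n + 1) + x) ≤ gj (r + 1)
  puj : pu + 2 ≤ gj r
  b0 : pn + gj r + β₀ + (C * (n + 1) + x) ≤ pu + gj (r + 1)
  bw : pn + gw r + x ≤ pu + gw (r + 1)
  pv : pn ≤ gw (r + 1) + v
  pd : pu ≤ W + nd
  pj : pu ≤ β₀ + (W + nj)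
  jd : nj ≤ nd
  nn : n' ≤ nd
  b1 : β₁ + W + n' ≤ pu
  bQ : β₀ ≤ Q
  QJ : Q + 2 ≤ J - W

/-- **The geometry of one window.** -/
structure WinG (F : Fam m J) (A : F.Ω → Prop) (c : ℕ → Fin m) (r D d W j Wh a l n x e : ℕ)
    (gw gj : ℕ → ℕ) (Gw Gj : PtT F → ℕ → MvPolynomial (Option (Fin m)) ℝ)
    (Hw Hj : LnT F → ℕ → MvPolynomial (Option (Fin m)) ℝ) {V Vz Vj Γ 𝒳 : Type}
    (z' : LnT F → V) (Gu : V → MvPolynomial (Option (Fin m)) ℝ) (zL : LnT F → Vz)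
    (zz : F.Ω → Vz) (y : F.Ω → Γ) (Nl : ℝ) (zj : F.Ω → Vj) (XL : LnT F → 𝒳)
    (cA : LnT F → Polynomial ℝ) (c₀ : LnT F → ℝ) : Prop where
  wd : WinD F A ((Finset.range r).image c) (c r) Wh W a l z' Gu zL zz y Nl
  w : ChS F A c r D W n x e gw Gw Hw
  b : ChS F A c r D j n x e gj Gj Hj
  gz : ∀ ω ω', A ω → A ω' → zL (slam F W ω) = zL (slam F W ω') → ∀ i < r + 2,
    Gw (ptr F J ω) i = Gw (ptr F J ω') i
  gb : ∀ ω ω', A ω → A ω' → zj ω = zj ω' → ∀ i < r + 2, Gj (ptr F J ω) i = Gj (ptr F J ω') i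
  sw : ∀ ω, A ω → |sl F c r Gw ω - c₀ (slam F W ω)| ≤ 2 ^ x * (2 ^ gw r / 2 ^ gw (r + 1))
  deg : ∀ s, (cA s).natDegree ≤ d
  near : ∀ ω, A ω → |(cA (slam F W ω)).eval (rt F W ω) - sl F c r Gj ω| ≤
    2 ^ x * (2 ^ gj r / 2 ^ gj (r + 1))
  bd : ∀ ω, A ω → ∀ θ : ℝ, 0 ≤ θ → θ ≤ 1 →
    |(cA (slam F W ω)).eval θ - c₀ (slam F W ω)| ≤ 2 ^ x * (2 ^ gw r / 2 ^ gw (r + 1))
  c0 : ∀ ω ω', A ω → A ω' → XL (slam F W ω) = XL (slam F W ω') →
    c₀ (slam F W ω) = c₀ (slam F W ω')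
  cA : ∀ ω ω', A ω → A ω' → XL (slam F W ω) = XL (slam F W ω') →
    ∀ θ : ℝ, 0 ≤ θ → θ ≤ 1 → ∀ θ' : ℝ, 0 ≤ θ' → θ' ≤ 1 →
    |((cA (slam F W ω')).eval θ - (cA (slam F W ω)).eval θ) -
      ((cA (slam F W ω')).eval θ' - (cA (slam F W ω)).eval θ')| ≤
        2 ^ x * (2 ^ gj r / 2 ^ gj (r + 1))

/-- **The row of the own height** on all events, at all radii. -/
def RowH (F : Fam m J) (c : ℕ → Fin m) (r W : ℕ)
    (Gw : PtT F → ℕ → MvPolynomial (Option (Fin m)) ℝ) {𝒞 : Type} (Cq : LnT F → 𝒞)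
    (q : F.Ω → ℝ) (h δ c₁ : ℝ) (C n x Q pn pu gr v : ℕ) : Prop :=
  ∀ k ≤ Q + 1, ∀ E : F.Ω → Prop, c₁ ≤ Pb q E → ∃ k' ≤ k, ∃ (β : Type) (Zs : F.Ω → β)
    (P P' PU κ y eT : ℝ), (pn : ℝ) ≤ P ∧ P' + k' ≤ pn ∧ PU ≤ pu ∧ PU ≤ gr + v ∧
    J * Real.log 2 - eT ≤ CH (cond q E True) F.T (fun ω => (F.l ω, F.Z ω)) ∧
    CH (cond q E True) Zs (fun ω => (F.T ω, Cq (slam F W ω))) ≤ κ ∧
    CH (cond q E True) (fun ω => ⌊(2 : ℝ) ^ P * oh F c (r + 1) Gw ω⌋)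
      (fun ω => (⌊(2 : ℝ) ^ P' * oh F c (r + 1) Gw ω⌋,
        (⌊(2 : ℝ) ^ PU * oh F c r Gw ω⌋, Zs ω))) ≤ y ∧
    y + κ + (eT + Real.log 5) + C * (n + x + 1) + ((k : ℝ) - k') * Real.log 2 ≤
      (1 - h) * k * Real.log 2 + δ * Q

theorem nr_of {F : Fam m J} {W a l hi : ℕ} (hW : W ≤ J) (ha : hi + 2 ≤ a) (hl : hi + 2 ≤ l)
    {I : Finset (Fin m)} {ω ω' : F.Ω} (hT : F.T ω = F.T ω')
    (h : vI I W a l F (slam F W ω) = vI I W a l F (slam F W ω')) {i : Fin m} (hi' : i ∈ I) :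
    |F.x ω' i - F.x ω i| ≤ 1 / 2 ^ (hi + 1) ∧ |F.d ω' i - F.d ω i| ≤ 1 / 2 ^ (hi + 1) := by
  obtain ⟨b1, -, b2, -⟩ := vI_near F hW hT h hi'
  have h1 : (1 : ℝ) / 2 ^ a ≤ 1 / 2 ^ (hi + 2) :=
    one_div_le_one_div_of_le (by positivity) (pow_le_pow_right₀ (by norm_num) ha)
  have h2 : (1 : ℝ) / 2 ^ (W + l) ≤ 1 / 2 ^ (hi + 2) :=
    one_div_le_one_div_of_le (by positivity) (pow_le_pow_right₀ (by norm_num) (by omega))
  have h3 : (1 : ℝ) / 2 ^ l ≤ 1 / 2 ^ (hi + 1) :=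
    one_div_le_one_div_of_le (by positivity) (pow_le_pow_right₀ (by norm_num) (by omega))
  have h4 : (1 : ℝ) / 2 ^ (hi + 2) + 1 / 2 ^ (hi + 2) = 1 / 2 ^ (hi + 1) := by
    rw [pow_succ (2 : ℝ) (hi + 1)]
    field_simp
    norm_num
  constructor
  · rw [abs_sub_comm]
    linarith
  · rw [abs_sub_comm]
    exact b2.trans h3

/-- **One window, one law**: the velocity of the slope path is small. -/
theorem win_law (r D d : ℕ) {h α ε : ℝ} (hh : 0 < h) (hh1 : h ≤ 1) (hα : 0 < α) (hε : 0 < ε) :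
    ∃ δ > 0, ∃ c₁ > 0, ∃ C : ℕ, 1 ≤ C ∧ ∃ C₂ : ℝ, 1 ≤ C₂ ∧ ∃ Q₀ : ℕ, ∀ Q ≥ Q₀,
      ∀ {m J : ℕ} {F : Fam m J} {A : F.Ω → Prop} {c : ℕ → Fin m}
      {W j Wh a l n x e hi v pu pn β₀ β₁ : ℕ} {gw gj : ℕ → ℕ}
      {Gw Gj : PtT F → ℕ → MvPolynomial (Option (Fin m)) ℝ}
      {Hw Hj : LnT F → ℕ → MvPolynomial (Option (Fin m)) ℝ} {V Vz Vj Γ 𝒳 𝒳' : Type}
      {z' : LnT F → V} {Gu : V → MvPolynomial (Option (Fin m)) ℝ} {zL : LnT F → Vz}
      {zz : F.Ω → Vz} {y : F.Ω → Γ} {Nl Nj N' : ℝ} {zj : F.Ω → Vj} {X : F.Ω → 𝒳'}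
      {XL : LnT F → 𝒳} {cA : LnT F → Polynomial ℝ} {c₀ : LnT F → ℝ} {q : F.Ω → ℝ}
      {κz κX κX' eT x₁ x₂ θ : ℝ},
      WinG F A c r D d W j Wh a l n x e gw gj Gw Gj Hw Hj z' Gu zL zz y Nl zj XL cA c₀ →
      WinN C r J W j a l n x e hi v ⌊Nj * J⌋₊ ⌊N' * J⌋₊ ⌊Nl * J⌋₊ pu pn β₀ β₁ Q gw gj →
      IsLaw q → (∀ ω, 0 < q ω → A ω) → 0 ≤ Nj → Nj ≤ Nl → N' ≤ Nl →
      J * Real.log 2 - eT ≤ CH q F.T (fun ω => (F.l ω, F.Z ω)) →
      CH q (fun ω => z' (slam F Wh ω)) zz ≤ κz →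
      CH q (fun ω => XL (slam F W ω)) (fun ω => (X ω, (zz ω, y ω))) ≤ κX →
      CH q X (fun ω => (Cc F ((Finset.range r).image c) Wh W a l z' zL XL (slam F W ω), F.T ω)) ≤
        κX' →
      CH q (oc F (c r) Wh z' Gu Nl) (fun ω => (oc F (c r) Wh z' Gu Nj ω, (zz ω, y ω))) ≤ x₁ →
      x₂ ≤ CH q (oc F (c r) Wh z' Gu Nl)
        (fun ω => (oc F (c r) Wh z' Gu Nj ω, (zj ω, (X ω, (zz ω, y ω))))) →
      eT + Real.log 5 ≤ δ * Q →
      (x₁ - x₂) + (κz + κX + κX' + eT) + (2 * m + 6) * Real.log 9 ≤ δ * Q →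
      CH q (oc F (c r) Wh z' Gu N') (fun ω => (oc F (c r) Wh z' Gu Nj ω, (zj ω, (zz ω, y ω)))) ≤
        CH q (oc F (c r) Wh z' Gu N')
          (fun ω => (oc F (c r) Wh z' Gu Nj ω, (zj ω, (X ω, (zz ω, y ω))))) + θ →
      (∀ E : F.Ω → Prop, c₁ ≤ Pb q E →
        α * Q + ((κz + κX + θ + Real.log 2) / c₁ + (m + 3) * Real.log 9) ≤
          CH (cond q E True) (oc F (c r) Wh z' Gu N')
            (fun ω => (oc F (c r) Wh z' Gu Nj ω, (zj ω, (zz ω, y ω))))) →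
      RowH F c r W Gw (Cc F ((Finset.range r).image c) Wh W a l z' zL XL) q h δ c₁ C n x Q pn pu
        (gw r) v →
      Pb q (fun ω => ¬ ∀ s : ℝ, 0 ≤ s → s ≤ 1 → |(cA (slam F W ω)).derivative.eval s| ≤
        C₂ * ((2 : ℝ) ^ (ε * Q) * (2 ^ pu / 2 ^ pn) / 2 ^ β₁)) ≤ ε := by
  obtain ⟨Cd, hCd, hdis⟩ := disE_of r D
  obtain ⟨Cn, hCn, hnf⟩ := nf_law r D
  obtain ⟨K', hK', hdL⟩ := disL_of d 1 le_rfl
  obtain ⟨δ, hδ, c₁, hc₁, Q₀, hs⟩ := slope_constL d K' hK' hh hh1 hα hε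
  obtain ⟨C₂, hC₂, hder⟩ := der_of_osc d
  refine ⟨δ, hδ, c₁, hc₁, Cd + Cn, by omega, C₂ * 2, by linarith, Q₀, ?_⟩
  intro Q hQ m J F A c W j Wh a l n x e hi v pu pn β₀ β₁ gw gj Gw Gj Hw Hj V Vz Vj Γ 𝒳 𝒳' z' Gu zL
    zz y Nl Nj N' zj X XL cA c₀ q κz κX κX' eT x₁ x₂ θ hG hN hq hqA hj0 hjl hN' hT hkz hkX hkX' h1
    h2 he1 he2 hθ hal hrow
  have hW : W ≤ J := hG.w.jJ
  have hl0 : 0 ≤ Nl := hj0.trans hjl
  have hJ0 : (0 : ℝ) ≤ J := Nat.cast_nonneg J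
  have l9 : 0 ≤ Real.log 9 := Real.log_nonneg (by norm_num)
  have hIc : ∀ i < r, c i ∈ (Finset.range r).image c := fun i hi' =>
    Finset.mem_image_of_mem c (Finset.mem_range.2 hi')
  obtain ⟨nj, hnj⟩ : ∃ k : ℕ, k = ⌊Nj * J⌋₊ := ⟨_, rfl⟩
  obtain ⟨nd, hnd⟩ : ∃ k : ℕ, k = ⌊Nl * J⌋₊ := ⟨_, rfl⟩
  obtain ⟨n', hn'⟩ : ∃ k : ℕ, k = ⌊N' * J⌋₊ := ⟨_, rfl⟩
  rw [← hnj, ← hnd, ← hn'] at hN
  obtain ⟨M, hM⟩ : ∃ M : ℕ, M = 2 ^ Q := ⟨_, rfl⟩
  have hM1 : 1 ≤ M := by rw [hM]; exact Nat.one_le_two_pow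
  have hMr : (1 : ℝ) ≤ M := by exact_mod_cast hM1
  have hMJ : 2 * M + 1 ≤ 2 ^ (J - W) := by
    have h3 : 2 ^ (Q + 2) ≤ 2 ^ (J - W) := Nat.pow_le_pow_right (by norm_num) hN.QJ
    rw [pow_add] at h3
    omega
  -- the record
  obtain ⟨CC, hCC⟩ : ∃ CC : LnT F → Vz × V × (Fin m → ℤ × ℤ) × 𝒳 × ℕ,
    CC = Cc F ((Finset.range r).image c) Wh W a l z' zL XL := ⟨_, rfl⟩
  obtain ⟨GG, hGG⟩ : ∃ GG : F.Ω → (Vz × V × (Fin m → ℤ × ℤ) × 𝒳 × ℕ) × ℤ × Vj × ℕ,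
    GG = Gg F ((Finset.range r).image c) (c r) Wh W a l nj z' zL zj XL := ⟨_, rfl⟩
  have hCe : ∀ ω ω', CC (slam F W ω) = CC (slam F W ω') →
      zL (slam F W ω) = zL (slam F W ω') ∧ XL (slam F W ω) = XL (slam F W ω') ∧
      vI ((Finset.range r).image c) W a l F (slam F W ω) =
        vI ((Finset.range r).image c) W a l F (slam F W ω') ∧ F.T1 W ω = F.T1 W ω' := by
    intro ω ω' e1
    rw [hCC] at e1
    unfold Cc at e1
    simp only [Prod.mk.injEq] at e1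
    exact ⟨e1.1, e1.2.2.2.1, e1.2.2.1, e1.2.2.2.2⟩
  have hGe : ∀ ω ω', GG ω = GG ω' → CC (slam F W ω) = CC (slam F W ω') ∧
      dg F nj (c r) (slam F W ω) = dg F nj (c r) (slam F W ω') ∧ zj ω = zj ω' ∧
      F.T ω = F.T ω' := by
    intro ω ω' e1
    rw [hGG] at e1
    unfold Gg at e1
    simp only [Prod.mk.injEq] at e1
    rw [hCC]
    exact ⟨e1.1, e1.2.1, e1.2.2.1, e1.2.2.2⟩
  have rc : RcS F A c r hi GG Gj :=
    ⟨fun ω ω' _ _ e1 => (hGe ω ω' e1).2.2.2,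
      fun ω ω' hω hω' e1 => hG.gb ω ω' hω hω' (hGe ω ω' e1).2.2.1,
      fun ω ω' _ _ e1 i hi' => by
        obtain ⟨f1, -, -, f4⟩ := hGe ω ω' e1
        exact nr_of hW hN.ha hN.hl f4 (hCe ω ω' f1).2.2.1 (hIc i hi')⟩
  have sp : SpS F A c r d W nj x (gw r) (gw (r + 1)) gj GG Gj cA c₀ :=
    ⟨hW, hG.deg, hG.near, hG.bd, fun ω ω' _ _ e1 => (hGe ω ω' e1).2.1,
      fun ω ω' hω hω' e1 => hG.c0 ω ω' hω hω' (hCe ω ω' (hGe ω ω' e1).1).2.1,
      fun ω ω' hω hω' e1 => hG.cA ω ω' hω hω' (hCe ω ω' (hGe ω ω' e1).1).2.1⟩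
  have hCl : Cd * (n + 1) ≤ (Cd + Cn) * (n + 1) := Nat.mul_le_mul_right _ (by omega)
  have hCl2 : Cn * (n + 1) ≤ (Cd + Cn) * (n + 1) := Nat.mul_le_mul_right _ (by omega)
  have dE : DisE F A (c r) (c (r + 1)) W M pu pn nj d 1 ((2 : ℝ) ^ β₀) GG cA c₀ (sl F c r Gj) := by
    refine hdis (v := v) (e := e) (hi := hi) hG.b rc sp hN.Wj (fun i hi' => ?_) (fun i hi' => ?_)
      hN.sup ?_ hN.puj ?_ hN.bw
    · have := hN.hj i hi'
      omega
    · have := hN.hj' i hi'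
      omega
    · have := hN.pnj
      omega
    · have := hN.b0
      omega
  have hK1 : (1 : ℝ) ≤ K' := by exact_mod_cast hK'
  obtain ⟨dL, dL2⟩ := hdL (C := CC) hM1 hN.jd hN.pd (one_le_pow₀ (by norm_num)) (by
      rw [hM]
      push_cast
      rw [one_mul]
      exact pow_le_pow_right₀ (by norm_num) hN.bQ) (by
      rw [← pow_add]
      exact pow_le_pow_right₀ (by norm_num) hN.pj) dE hqA
  have rr := rcs_of (XL := XL) (zj := zj) (X := X) hG.wd hq hqA hj0 hjl hMJ hT hkz hkX hkX' h1 h2 he1 he2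
  rw [← hnj, ← hnd, ← hGG, ← hCC] at rr
  have al : ∀ E : F.Ω → Prop, c₁ ≤ Pb q E →
      α * Q ≤ CH (cond q E True) (fun ω => ⌊dU pu W M nd (dg F nd (c r) (slam F W ω)) / 2 ^ β₁⌋)
        GG := by
    intro E hE
    have a1 := alive_of (XL := XL) (zj := zj) (X := X) hG.wd hq hqA hj0 hjl hN' hc₁ hkz hkX hθ hE (hal E hE)
    rw [← hnj, ← hn', ← hGG] at a1
    have hP : 0 < Pb q E := lt_of_lt_of_le hc₁ hE
    have a2 := dg_of_du (κ := c r) hM1 hN.nn hN.b1 (isLaw_ev hq E hP) GG (F := F)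
    linarith
  have S : SloL q d M K' Q δ c₁ h α ((2 : ℝ) ^ β₀) ((2 : ℝ) ^ β₁) ((2 : ℝ) ^ β₁) (slam F W)
      (tI F W M) GG GG CC (dg F nd (c r)) (dg F nj (c r)) (dg F nj (c r)) (uI F W pu M (c r))
      (nI F W pn M (c r) (c (r + 1)) c₀) (dU pu W M nd) (cL F pu pn M cA c₀) (fun _ _ => 0) := by
    refine ⟨rr, fun s => cL_deg F pu pn M c₀ s (hG.deg s), dL2, fun ω _ τ _ => ?_, by positivity,
      ?_, dL, dL, al, al, ?_⟩
    · rw [abs_zero]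
      linarith
    · rw [hM]
      push_cast
      have h3 : (2 : ℝ) ^ β₀ ≤ 2 ^ Q := pow_le_pow_right₀ (by norm_num) hN.bQ
      have h4 : (0 : ℝ) < 2 ^ Q := by positivity
      nlinarith
    · intro k hk E hE
      obtain ⟨k', hk', β, Zs, P, P', PU, κ, y', eT', r1, r2, r3, r4, r5, r6, r7, r8⟩ :=
        hrow k hk E hE
      have hP : 0 < Pb q E := lt_of_lt_of_le hc₁ hE
      have hqE := isLaw_ev hq E hP
      have hqEA : ∀ ω, 0 < cond q E True ω → A ω := fun ω hω => hqA ω (ev_pos hq.nonneg E hω).1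
      rw [← hCC] at r6
      have b1 := hnf (M := M) (pu := pu) (nd := nd) (k := k') (hi := hi) (v := v) hG.w (fun i hi' => by
          have := hN.hw i hi'
          omega) hN.hpn (by
          have := hN.bw
          omega) hN.pv hN.pd (by rw [hM]; omega) hMJ hqE hqEA
        (fun ω ω' _ _ e1 => (hCe ω ω' e1).2.2.2) (fun ω ω' hω hω' e1 e2 => by
          obtain ⟨f1, f2, f3, -⟩ := hCe ω ω' e2
          exact ⟨hG.gz ω ω' hω hω' f1, fun i hi' => nr_of hW hN.ha hN.hl e1 f3 (hIc i hi'),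
            hG.c0 ω ω' hω hω' f2⟩) hG.sw r5 r1 r2 r3 r4 r6 r7
      have b2 := nf_down hqE (fun ω => nI F W pn M (c r) (c (r + 1)) c₀ (slam F W ω) (tI F W M ω))
        (fun ω => uI F W pu M (c r) (slam F W ω) (tI F W M ω))
        (fun ω => (tI F W M ω, (CC (slam F W ω), dg F nd (c r) (slam F W ω)))) hk'
      have b3 : (Cn : ℝ) * (n + x + 1) ≤ ((Cd + Cn : ℕ) : ℝ) * (n + x + 1) := by
        push_cast
        have c1 : (0 : ℝ) ≤ Cd := Nat.cast_nonneg _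
        have c2 : (0 : ℝ) ≤ (n : ℝ) + x + 1 := by positivity
        nlinarith
      refine b2.trans ?_
      linarith
  have key := hs Q hQ M hM1 hM.le ((2 : ℝ) ^ β₀) ((2 : ℝ) ^ β₁) ((2 : ℝ) ^ β₁)
    (one_le_pow₀ (by norm_num)) (one_le_pow₀ (by norm_num)) hq S
  refine (pb_mono hq.nonneg fun ω hω => ?_).trans key
  by_contra hcon
  apply hω
  push Not at hcon
  rw [min_self] at hcon
  obtain ⟨θ₀, hθ₀⟩ : ∃ t : ℝ, t = (tI F W M ω : ℝ) / M := ⟨_, rfl⟩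
  obtain ⟨S₀, hS₀⟩ : ∃ S₀ : ℝ, S₀ = (2 : ℝ) ^ (ε * Q) * (2 ^ pu / 2 ^ pn) / 2 ^ β₁ := ⟨_, rfl⟩
  have hS0 : 0 ≤ S₀ := by rw [hS₀]; positivity
  intro s hs0 hs1
  have hfin := hder (cA (slam F W ω)) ((cA (slam F W ω)).eval
    ((M : ℝ) / (2 * M + 1) * θ₀ + (M : ℝ) / (2 * M + 1))) S₀ (hG.deg _) hS0 (by
    intro t ht0 ht1
    obtain ⟨ξ, hξ⟩ : ∃ ξ : ℝ, ξ = (2 * M + 1) / M * t - 1 := ⟨_, rfl⟩
    have hM0 : (0 : ℝ) < M := by linarith
    have e1 : (M : ℝ) / (2 * M + 1) * ξ + (M : ℝ) / (2 * M + 1) = t := by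
      rw [hξ]
      field_simp
      ring
    have hx : |ξ| ≤ 1 := by
      rw [hξ, abs_le]
      have h3 : 0 ≤ (2 * (M : ℝ) + 1) / M * t := by positivity
      have h4 : (2 * (M : ℝ) + 1) / M ≤ 3 := by
        rw [div_le_iff₀ hM0]
        linarith
      have h5 : (2 * (M : ℝ) + 1) / M * t ≤ 3 * (2 / 3) :=
        mul_le_mul h4 ht1 ht0 (by norm_num)
      constructor <;> linarith
    have h6 := hcon ξ hx
    rw [cL_eval, cL_eval, e1, ← hθ₀, ← mul_sub] at h6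
    have e2 : (cA (slam F W ω)).eval t - c₀ (slam F W ω) -
        ((cA (slam F W ω)).eval ((M : ℝ) / (2 * M + 1) * θ₀ + (M : ℝ) / (2 * M + 1)) -
          c₀ (slam F W ω)) = (cA (slam F W ω)).eval t -
        (cA (slam F W ω)).eval ((M : ℝ) / (2 * M + 1) * θ₀ + (M : ℝ) / (2 * M + 1)) := by ring
    rw [e2, abs_mul, abs_of_pos (by positivity : (0 : ℝ) < 2 ^ pn / 2 ^ pu)] at h6
    rw [hS₀]
    have hb : (0 : ℝ) < 2 ^ β₁ := by positivity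
    have hn : (0 : ℝ) < 2 ^ pn := by positivity
    have hu : (0 : ℝ) < 2 ^ pu := by positivity
    rw [le_div_iff₀ hb, mul_div_assoc', le_div_iff₀ hn]
    have h7 : 2 ^ β₁ * (2 ^ pn / 2 ^ pu * |(cA (slam F W ω)).eval t -
        (cA (slam F W ω)).eval ((M : ℝ) / (2 * M + 1) * θ₀ + (M : ℝ) / (2 * M + 1))|) * 2 ^ pu ≤
        (2 : ℝ) ^ (ε * Q) * 2 ^ pu := mul_le_mul_of_nonneg_right h6.le hu.le
    have e3 : 2 ^ β₁ * (2 ^ pn / 2 ^ pu * |(cA (slam F W ω)).eval t -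
        (cA (slam F W ω)).eval ((M : ℝ) / (2 * M + 1) * θ₀ + (M : ℝ) / (2 * M + 1))|) * 2 ^ pu =
        |(cA (slam F W ω)).eval t - (cA (slam F W ω)).eval
          ((M : ℝ) / (2 * M + 1) * θ₀ + (M : ℝ) / (2 * M + 1))| * 2 ^ β₁ * 2 ^ pn := by
      field_simp
    linarith) s hs0 hs1
  rw [← hS₀]
  have h8 : 0 ≤ C₂ * S₀ := by
    have : 0 ≤ C₂ := by linarith
    positivity
  linarith

end Pool.PRC54
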